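import Pool.Agent.H48.PG.HydB
import Pool.Agent.H48.PW.FinG

/-!
# Module CrdB: the estimates for the coordinate directions from `UniB`

As `planar_rapid_gen`, `planar_hydro_gen` (H48/PW/FinG.lean) and `est_coordW` (H48/PW/EstW.lean): if there is a solution with the initial value `F₀` and `T > 0`, its decay constants at `t = 0` give `B` (`hf.decay`), `m` is the total mass (if it is `0`: `mass_const`, `zero_of_mass`); `hydro_of_U`; `lower_unif` (H85/LB/Top.lean).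
-/

set_option autoImplicit false

open MeasureTheory Set Filter Topology Pool.Agent.H25.Kin Pool.Agent.H82.BK Pool.Agent.H82.CM
open Pool.Agent.H48.PL Pool.Agent.H48.PI Pool.Agent.H93.CM Pool.Agent.H25.PN
open Pool.Agent.H15.AV (Slice)

namespace Pool.Agent.H48.PG

variable {d : ℕ}

/-- the constants of the initial value -/
private lemma crd_data (F : Vec d → Vec d → ℝ) : ∃ M : ℝ, 0 ≤ M ∧ GB M F := by
  refine ⟨max 0 (max (∫ q, F q.2 q.1 ∂(nu d)) (max (∫ q, F q.2 q.1 * nsq q.1 ∂(nu d))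
    (∫ q, F q.2 q.1 * Real.log (F q.2 q.1) ∂(nu d)))), le_max_left _ _, ?_, ?_, ?_⟩
  · exact (le_max_left _ _).trans (le_max_right _ _)
  · exact ((le_max_left _ _).trans (le_max_right _ _)).trans (le_max_right _ _)
  · exact ((le_max_right _ _).trans (le_max_right _ _)).trans (le_max_right _ _)

/-- rapid decay with constants depending on the initial value only -/
private lemma crd_rapid {s γ : ℝ} (hd : 2 ≤ d) (hs : 0 < s) (hs1 : s < 1) (h0 : 0 ≤ γ + 2 * s)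
    (h2 : γ + 2 * s ≤ 2) {b : ℝ → ℝ} (hb : IsKernel d s b) (e : Fin d)
    (hU : UniB d γ b (Planar e)) (F₀ : Vec d → Vec d → ℝ) :
    ∃ U : ℕ → ℝ, ∀ (T : ℝ) (f : ℝ → Vec d → Vec d → ℝ), IsBoltzmannSol γ b T f → Planar e T f → f 0 = F₀ →
      ∀ N : ℕ, ∀ t ∈ Ico 0 T, ∀ x v, (1 + ‖v‖) ^ N * f t x v ≤ U N := by
  by_cases hex : ∃ (T : ℝ) (f : ℝ → Vec d → Vec d → ℝ), 0 < T ∧ IsBoltzmannSol γ b T f ∧ Planar e T f ∧ f 0 = F₀
  swap
  · refine ⟨fun _ => 0, fun T f hf hpl h0 N t ht x v => ?_⟩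
    exact absurd ⟨T, f, ht.1.trans_lt ht.2, hf, hpl, h0⟩ hex
  obtain ⟨T₁, f₁, hT₁, hf₁, -, h₁⟩ := hex
  obtain ⟨C, Ca, cb, HL⟩ := exists_hypL hd hs hs1 h0 h2 hb
  have hz₁ : (0 : ℝ) ∈ Ico 0 T₁ := ⟨le_rfl, hT₁⟩
  have hF0 : ∀ x v, 0 ≤ F₀ x v := fun x v => by rw [← h₁]; exact hf₁.nonneg 0 hz₁ x v
  have hm0 : 0 ≤ ∫ q, F₀ q.2 q.1 ∂(nu d) := integral_nonneg fun q => hF0 _ _
  have hsl : Slice F₀ := by
    rw [← h₁]
    exact Pool.Agent.H15.AV.sol_slice hf₁ hz₁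
  rcases hm0.eq_or_lt with hm | hm
  · refine ⟨fun _ => 0, fun T f hf hpl h0 N t ht x v => ?_⟩
    have h3 := Pool.Agent.H15.AV.mass_const (Q := boltzQ γ b) hf (boltz_HasInvariants HL.H hf) ht
    rw [h0, ← hm] at h3
    rw [zero_of_mass (Q := fun t x => boltzQ γ b (f t x)) hf ht h3 x v, mul_zero]
  have hB := fun N => hf₁.decay 0 hT₁ N
  choose B hB using hB
  obtain ⟨U, hU⟩ := hU B _ hm
  refine ⟨U, fun T f hf hpl h0 N t ht x v => ?_⟩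
  refine hU T f hf hpl (fun N x v => ?_) ?_ t ht N x v
  · rw [h0, ← h₁]
    exact hB N 0 ⟨le_rfl, le_rfl⟩ x v
  · rw [h0, mass_iter hsl]

theorem est_coordB {s γ : ℝ} (hd : 2 ≤ d) (hs : 0 < s) (h1 : 1 ≤ γ) (h3 : γ + 2 * s < 2) {b : ℝ → ℝ}
    (hb : IsKernel d s b) (e : Fin d) (hU : UniB d γ b (Planar e)) : EstB d γ b (Planar e) := by
  have hs1 : s < 1 := by linarith
  have hg0 : 0 ≤ γ + 2 * s := by linarith
  refine ⟨fun F₀ => ?_, hU⟩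
  obtain ⟨U, hUf⟩ := crd_rapid hd hs hs1 hg0 h3.le hb e hU F₀
  obtain ⟨M₀, hM₀⟩ := hydro_of_U d U
  refine ⟨⟨U, M₀, fun T f hf hpl h0 t ht x => ?_⟩, fun hF => ?_⟩
  · exact ⟨fun N v => hUf T f hf hpl h0 N t ht x v, hM₀ T _ f hf (hUf T f hf hpl h0) t ht x⟩
  · by_cases hex : ∃ (T : ℝ) (f : ℝ → Vec d → Vec d → ℝ), 0 < T ∧ IsBoltzmannSol γ b T f ∧ Planar e T f ∧ f 0 = F₀
    swap
    · refine ⟨1, one_pos, 0, fun T f hf hpl h0 t ht x => ?_⟩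
      exact absurd ⟨T, f, ht.1.trans_lt ht.2, hf, hpl, h0⟩ hex
    obtain ⟨T₁, f₁, hT₁, hf₁, -, h₁⟩ := hex
    obtain ⟨M, hM0, hM⟩ := crd_data F₀
    have hsl : Slice F₀ := by
      rw [← h₁]
      exact Pool.Agent.H15.AV.sol_slice hf₁ ⟨le_rfl, hT₁⟩
    obtain ⟨m₀, hm₀, hlow⟩ := Pool.Agent.H85.LB.lower_unif hd ⟨hs, hs1⟩ hg0 h3 hb e U hsl hF hM
    refine ⟨m₀, hm₀, M₀, fun T f hf hpl h0 t ht x => ?_⟩
    have hUf' := hUf T f hf hpl h0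
    obtain ⟨g1, g2, g3⟩ := hM₀ T _ f hf hUf' t ht x
    exact ⟨hlow T f hf hpl h0 hUf' t ht x, g1, g2, g3⟩

end Pool.Agent.H48.PG
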