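import Pool.Agent.H48.PG.DefB
import Pool.Agent.H25.PN.Main

/-!
# Module DirB: from the coordinate directions to all directions

As `est_prim`, `est_all` of `H25/PN/Main.lean`. The last part: `UniB` for `PlaneSym k`: `B' N = (d+1)^N B N` are decay
constants of `pull e lam k A (f 0)` (`norm_rot h`: `1 + ‖v‖ ≤ (d+1)(1 + ‖A v‖)`), `cube_mass`; back: `(d+1)^N U N`.
-/

set_option autoImplicit false

open MeasureTheory Set Filter Topology Pool.Agent.H25.Kin Pool.Agent.H82.BK Pool.Agent.H82.CM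
open Pool.Agent.H48.PL Pool.Agent.H48.PI Pool.Agent.H93.CM Pool.Agent.H25.PN
open Pool.Agent.H15.AV (Slice sol_slice)

namespace Pool.Agent.H48.PG

variable {d : ℕ}

private theorem dirb_prim {e : Fin d} {lam : ℝ} {k : Vec d} {A : Vec d →ₗ[ℝ] Vec d} (hd : 2 ≤ d) {s γ : ℝ} (hs : 0 < s)
    (hs1 : s < 1) (h0 : 0 ≤ γ + 2 * s) (h2 : γ + 2 * s ≤ 2)
    (hIn : ∀ b : ℝ → ℝ, IsKernel d s b → ∀ e : Fin d, EstB d γ b (Planar e)) {b : ℝ → ℝ} (hb : IsKernel d s b)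
    (hk : Prim k) (h : Rot e lam k A) : EstB d γ b (PlaneSym k) := by
  obtain ⟨E1, E2⟩ := hIn (fun z => lam⁻¹ * b z) (kernel_scale hb (inv_pos.2 h.pos)) e
  have sol : ∀ {T : ℝ} {f : ℝ → Vec d → Vec d → ℝ}, IsBoltzmannSol γ b T f → PlaneSym k T f →
      IsBoltzmannSol γ (fun z => lam⁻¹ * b z) (lam * T) (pullT e lam k A f) := fun hf hP =>
    sol_pull hd hs hs1 h0 h2 hb h hk hf hP
  have key : ∀ {r C : ℝ} {N : ℕ} {v : Vec d}, 0 ≤ r → (1 + ‖A v‖) ^ N * r ≤ C →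
      (1 + ‖v‖) ^ N * r ≤ (d + 1 : ℝ) ^ N * C := by
    intro r C N v h8 h7
    have h9 : (1 + ‖v‖) ^ N ≤ ((d + 1 : ℝ) * (1 + ‖A v‖)) ^ N :=
      pow_le_pow_left₀ (w_pos v).le (norm_rot h v) N
    calc (1 + ‖v‖) ^ N * r ≤ ((d + 1 : ℝ) * (1 + ‖A v‖)) ^ N * r := mul_le_mul_of_nonneg_right h9 h8
      _ = (d + 1 : ℝ) ^ N * ((1 + ‖A v‖) ^ N * r) := by rw [mul_pow]; ring
      _ ≤ (d + 1 : ℝ) ^ N * C := mul_le_mul_of_nonneg_left h7 (by positivity)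
  refine ⟨fun F₀ => ⟨?_, fun hF => ?_⟩, fun B m hm => ?_⟩
  · obtain ⟨U, M₀, hU⟩ := (E1 (pull e lam k A F₀)).1
    refine ⟨fun N => (d + 1 : ℝ) ^ N * U N, M₀, fun T f hf hP hf0 t ht x => ?_⟩
    obtain ⟨h3, h4, h5, h6⟩ := hU _ _ (sol hf hP) (solA_planar f _) (by rw [pullT_zero, hf0]) _ (mem_lam h ht)
      (Pi.single e (dot k x))
    obtain ⟨b1, b2, b3⟩ := back_int h hP ht x
    refine ⟨fun N v => ?_, b1 ▸ h4, b2 ▸ h5, b3 ▸ h6⟩
    have h7 := h3 N (A v)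
    rw [← back_eq h hP ht x v] at h7
    exact key (hf.nonneg t ht x v) h7
  · have hG : ∀ x, 0 < ∫ v, pull e lam k A F₀ x v := fun x => by
      unfold pull
      rw [int_rot h (fun v => F₀ ((x e / lam ^ 2) • k) v)]
      exact hF _
    obtain ⟨m₀, hm₀, M₀, hM⟩ := (E1 (pull e lam k A F₀)).2 hG
    refine ⟨m₀, hm₀, M₀, fun T f hf hP hf0 t ht x => ?_⟩
    obtain ⟨h3, h4, h5, h6⟩ := hM _ _ (sol hf hP) (solA_planar f _) (by rw [pullT_zero, hf0]) _ (mem_lam h ht)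
      (Pi.single e (dot k x))
    obtain ⟨b1, b2, b3⟩ := back_int h hP ht x
    exact ⟨b1 ▸ h3, b1 ▸ h4, b2 ▸ h5, b3 ▸ h6⟩
  · obtain ⟨U, hU⟩ := E2 (fun N => (d + 1 : ℝ) ^ N * B N) m hm
    refine ⟨fun N => (d + 1 : ℝ) ^ N * U N, fun T f hf hP hB g0 t ht N x v => ?_⟩
    have hT : (0 : ℝ) ∈ Ico 0 T := ⟨le_rfl, ht.1.trans_lt ht.2⟩
    have hsl := sol_slice hf hT
    have hsy : ∀ x y v, dot k x = dot k y → f 0 x v = f 0 y v := hP 0 hT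
    have h7 := hU _ _ (sol hf hP) (solA_planar f _)
      (fun M y w => by
        rw [pullT_zero]
        exact key (hf.nonneg 0 hT ((y e / lam ^ 2) • k) (A w)) (hB M _ _))
      (by rw [pullT_zero, cube_mass h hk hsl hsy]; exact g0) _ (mem_lam h ht) N
      (Pi.single e (dot k x)) (A v)
    rw [← back_eq h hP ht x v] at h7
    exact key (hf.nonneg t ht x v) h7

theorem est_allB (hd : 2 ≤ d) {s γ : ℝ} (hs : 0 < s) (hs1 : s < 1) (h0 : 0 ≤ γ + 2 * s) (h2 : γ + 2 * s ≤ 2)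
    (hIn : ∀ b : ℝ → ℝ, IsKernel d s b → ∀ e : Fin d, EstB d γ b (Planar e)) {b : ℝ → ℝ} (hb : IsKernel d s b)
    {ν : Vec d} (hν : ν ≠ 0) : EstB d γ b (PlaneSym ν) := by
  rcases dir_cases hν with hD | ⟨c, k, hc, hck, hk0, hk⟩
  · exact (hIn b hb ⟨0, by omega⟩).mono fun T f hf hP => dense_planar hν hD hf hP _
  · obtain ⟨lam, A, h⟩ := exists_rot (⟨0, by omega⟩ : Fin d) hk0
    refine (dirb_prim hd hs hs1 h0 h2 hIn hb hk h).mono fun T f hf hP t ht x y v hxy => hP t ht x y v ?_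
    rw [hck, smul_dot, smul_dot, hxy]

end Pool.Agent.H48.PG
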