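import Pool.Agent.H48.PG.RegB
import Pool.Agent.H48.PG.CrdB
import Pool.Agent.H48.PG.DirB
import Pool.Agent.H48.PR.Fin

/-!
# Final theorem: all plane symmetric solutions and data, `1 ≤ γ`, `γ + 2s < 2`, `d ≥ 2`
-/

set_option autoImplicit false

open MeasureTheory Set Filter Topology Pool.Agent.H25.Kin Pool.Agent.H82.BK Pool.Agent.H82.CM
open Pool.Agent.H48.PL Pool.Agent.H48.PI Pool.Agent.H93.CM Pool.Agent.H25.PN
open Pool.Agent.H15.AV (Slice)

namespace Pool.Agent.H48.PG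

variable {d : ℕ}

/-- **all plane symmetric solutions, all `γ ≥ 1`, `γ + 2s < 2`** -/
theorem est_ge {s γ : ℝ} (hd : 2 ≤ d) (hs : 0 < s) (h1 : 1 ≤ γ) (h2 : γ + 2 * s < 2) {b : ℝ → ℝ}
    (hb : IsKernel d s b) {ν : Vec d} (hν : ν ≠ 0) : EstB d γ b (PlaneSym ν) := by
  rcases le_or_gt γ (1 + 2 * s) with h | h
  · exact est_allB hd hs (by linarith) (by linarith) h2.le
      (fun b hb e => est_coordB hd hs h1 h2 hb e (reg_B hd hs h1 h h2 hb e)) hb hν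
  · have E := Pool.Agent.H48.PV.est_full hd hs (by linarith) h2 (Or.inr h) hb hν
    exact ⟨E.1, uniB_of_est (by linarith) E⟩

theorem sym_geB {s γ : ℝ} (hd : 2 ≤ d) (hs : 0 < s) (h1 : 1 ≤ γ) (h2 : γ + 2 * s < 2) {b : ℝ → ℝ}
    (hb : IsKernel d s b) {ν : Vec d} {T : ℝ} {f : ℝ → Vec d → Vec d → ℝ} (hf : IsBoltzmannSol γ b T f)
    (h : PlaneSym ν T f ∨ Pool.Agent.H48.PR.PlaneData s ν (f 0)) : PlaneSym ν T f := by
  rcases h with h | h
  · exact h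
  · obtain ⟨C, Ca, cb, HL⟩ := exists_hypL hd hs (by linarith) (by linarith : 0 ≤ γ + 2 * s) h2.le hb
    exact Pool.Agent.H48.PR.sym_of_hol HL (by linarith) (by linarith) hf h

/-- **all plane symmetric solutions and data** -/
theorem est_holB {s γ : ℝ} (hd : 2 ≤ d) (hs : 0 < s) (h1 : 1 ≤ γ) (h2 : γ + 2 * s < 2) {b : ℝ → ℝ}
    (hb : IsKernel d s b) {ν : Vec d} (hν : ν ≠ 0) :
    EstB d γ b fun T f => PlaneSym ν T f ∨ Pool.Agent.H48.PR.PlaneData s ν (f 0) :=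
  (est_ge hd hs h1 h2 hb hν).mono fun _ _ hf h => sym_geB hd hs h1 h2 hb hf h

end Pool.Agent.H48.PG
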