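import Pool.Agent.H48.PS.Stb
import Pool.Agent.H48.PG.FinB

/-!
# Module FinT: plane symmetric solutions are stable under perturbations without symmetry, `γ ≥ 1`

`g` plane symmetric on `[0,T₁)`, `T₀ < T₁`, no vacuum at `t = 0`, `HolData α (g 0)`. `hol_data`, `thmL` (exponent `α' < α`), `lbh_near` (exponent `α'' < α'`, `2s < α''`) give `LBH α'' 1 Cg` on `(0,t₁]`; on `[t₁,T₀]`: gradient bounds (`reg_shift`, `lbh_of` of H71/PD/Itp), as in `uniq_self` (H48/PR/UniF; ask its author for the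
lemma, it may be public): `LBH α'' 1 Cg (g t x)` for `t ∈ (0,T₀]`. Mass: `est_hol` (H48/PR/Fin), `Est` first part, second clause: `HydroBounds m₀ ..` for `g` on `[0,T₁)`: `m = m₀`. `stb`. HydroBounds of `f` from `U` and `m/2`: `HydroBounds m₀ M₀ E₀ H₀` (H93/CM): mass `≤ C U(d+1)`, energy `≤ C U(d+3)`,
entropy: `f log f ≤ f log (max 1 (U 0)) ≤ ...`; in H48/PI or H48/PV there is a lemma that derives HydroBounds from decay constants and a lower mass bound (used in the proofs of `est_full`; search HydroBounds).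
-/

set_option autoImplicit false

open MeasureTheory Set Filter Topology Pool.Agent.H25.Kin Pool.Agent.H48.PL Pool.Agent.H48.PD Pool.Agent.H25.PN
open Pool.Agent.H82.BK Pool.Agent.H82.CM Pool.Agent.H48.PR Pool.Agent.H48.PS Pool.Agent.H71.PD Pool.Agent.H93.CM

namespace Pool.Agent.H48.PG

variable {d : ℕ}

/-- Hoelder bounds with all weights on `(0,T₂]` from those near `t = 0` -/
private lemma lbh_all {γ s C Ca : ℝ} {b : ℝ → ℝ} (_H : Hyp d γ s b C Ca) {α' α : ℝ} (hα0 : 0 < α')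
    (hα2 : α' < α) (hα3 : α' ≤ 1) {p : ℕ} {T : ℝ} {f : ℝ → Vec d → Vec d → ℝ}
    (hf : IsBoltzmannSol γ b T f) {t₁ L : ℝ} (ht₁ : 0 < t₁)
    (hreg : ∀ t ∈ Icc 0 t₁, ∀ x v η : Vec d, len η ≤ 1 →
      |f t x (v + η) - f t x v| ≤ L * len η ^ α * Wp p v) {T₂ : ℝ} (ht₁T : t₁ ≤ T₂) (hT₂T : T₂ < T) :
    ∃ Cl : ℕ → ℝ, ∀ t ∈ Ioc 0 T₂, ∀ x, LBH α' 1 Cl (f t x) := by
  have hf' : IsClassicalSol T (fun t x => boltzQ γ b (f t x)) f := hf
  choose C1 hC1 using hf'.decay T₂ hT₂T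
  have fb1 : ∀ τ ∈ Ioc 0 T₂, ∀ x, FB C1 (f τ x) := fun τ hτ x =>
    ⟨IsClassicalSol.nice hf' ⟨hτ.1, hτ.2.trans_lt hT₂T⟩ x,
      fun v => hf'.nonneg τ ⟨hτ.1.le, hτ.2.trans_lt hT₂T⟩ x v,
      fun N v => hC1 N τ ⟨hτ.1.le, hτ.2⟩ x v⟩
  obtain ⟨Cn, hCn, hnear⟩ := lbh_near (d := d) C1 p hα0 hα2 L
  have hreg2 := reg_shift hf' ht₁ (ht₁T.trans_lt hT₂T)
  choose C3 hC3 using hreg2 (T₂ - t₁) (by linarith)
  set Cm : ℕ → ℝ := fun N => max (C1 N) (C3 N) with hCm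
  set Cl : ℕ → ℝ := fun N => max (Cn N) (2 * 3 ^ N * Cm N) with hCl
  refine ⟨Cl, ?_⟩
  intro τ hτ x
  rcases le_or_gt τ t₁ with h | h
  · have h3 := hnear (f τ x) (fb1 τ hτ x) (hreg τ ⟨hτ.1.le, h⟩ x)
    intro N u v huv
    refine (h3 N u v huv).trans ?_
    exact mul_le_mul_of_nonneg_right (mul_le_mul_of_nonneg_left (le_max_left _ _) zero_le_one)
      (Real.rpow_nonneg (len_nonneg _) _)
  · have fbm : FB Cm (f τ x) := FB_mono (fb1 τ hτ x) fun N => le_max_left _ _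
    have e1 : t₁ + (τ - t₁) = τ := by ring
    have h3 := lbh_of (κ := 0) (t := 1) (α := α') fbm one_pos (fun N v => by
      have h4 := hC3 N (τ - t₁) ⟨by linarith, by linarith [hτ.2]⟩ x v
      simp only [e1] at h4
      rw [Real.rpow_zero, one_mul]
      exact h4.trans (le_max_right _ _)) hα0.le hα3
    rw [Real.one_rpow] at h3
    intro N u v huv
    refine (h3 N u v huv).trans ?_
    exact mul_le_mul_of_nonneg_right (mul_le_mul_of_nonneg_left (le_max_right _ _) zero_le_one)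
      (Real.rpow_nonneg (len_nonneg _) _)

theorem stab_planeB {s γ : ℝ} (hd : 2 ≤ d) (hs : 0 < s) (h1 : 1 ≤ γ) (h2 : γ + 2 * s < 2) {b : ℝ → ℝ} (hb : IsKernel d s b) {ν : Vec d} (hν : ν ≠ 0)
    {T₀ T₁ : ℝ} (hT₁ : T₀ < T₁) {g : ℝ → Vec d → Vec d → ℝ} (hg : IsBoltzmannSol γ b T₁ g)
    (hd0 : PlaneData s ν (g 0)) (B : ℕ → ℝ) :
    ∃ ε > 0, ∃ m₀ > 0, ∃ M₀ : ℝ, ∀ T ≤ T₀, ∀ f : ℝ → Vec d → Vec d → ℝ, IsBoltzmannSol γ b T f →
      (∀ N x v, (1 + ‖v‖) ^ N * f 0 x v ≤ B N) → (∀ x v, |f 0 x v - g 0 x v| ≤ ε) →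
      ∀ t ∈ Ico 0 T, ∀ x, HydroBounds m₀ M₀ M₀ M₀ (f t x) := by
  rcases lt_or_ge T₀ 0 with hT₀ | hT₀
  · exact ⟨1, one_pos, 1, one_pos, 0, fun T hT f _ _ _ t ht => absurd (ht.1.trans_lt ht.2) (by linarith)⟩
  have hT : 0 < T₁ := hT₀.trans_lt hT₁
  obtain ⟨C, Ca, cb, HL⟩ := exists_hypL hd hs (by linarith) (by linarith : 0 ≤ γ + 2 * s) h2.le hb
  obtain ⟨m, hm, M₁, hM₁⟩ := ((est_holB hd hs h1 h2 hb hν).1 (g 0)).2 hd0.2.1
  have hmass : ∀ t ∈ Icc 0 T₀, ∀ x, m ≤ ∫ v, g t x v := fun t ht x =>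
    (hM₁ T₁ g hg (Or.inr hd0) rfl t ⟨ht.1, ht.2.trans_lt hT₁⟩ x).1
  obtain ⟨hsym, hpos, α, hα, hα1, hh⟩ := hd0
  have hs1 : 2 * s < 1 := by linarith
  have hα' : 2 * s < (2 * s + α) / 2 := by linarith
  have hα'' : (2 * s + α) / 2 < α := by linarith
  obtain ⟨C₀, hC₀⟩ := hol_data (fun x v => hg.nonneg 0 ⟨le_rfl, hT⟩ x v)
    (fun N => by
      obtain ⟨B, hB⟩ := hg.decay 0 hT N
      exact ⟨B, fun x v => hB 0 ⟨le_rfl, le_rfl⟩ x v⟩) (by linarith) hα'' hh (d + 10)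
  obtain ⟨t₁, ht₁, ht₁T, L, hL⟩ := thmL HL (by linarith) hs1 hα' (by linarith) (le_refl (d + 10)) hg hT hpos hC₀
  obtain ⟨Cg, hCg⟩ := lbh_all HL.H (α' := (2 * s + (2 * s + α) / 2) / 2) (by linarith) (by linarith)
    (by linarith) hg ht₁ hL (le_max_right T₀ t₁) (max_lt hT₁ ht₁T)
  obtain ⟨ε, hε, U, hU⟩ := stb HL hb (by linarith) hs1 (α := (2 * s + (2 * s + α) / 2) / 2) (by linarith)
    (by linarith) hT₁ hg (Cg := Cg) (fun t ht x => hCg t ⟨ht.1, ht.2.trans (le_max_left _ _)⟩ x) hm hmass B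
  obtain ⟨M₀, hM₀⟩ := Pool.Agent.H48.PI.hydro_of_U d U
  refine ⟨ε, hε, m / 2, half_pos hm, M₀, fun T hT f hf hfB hfg t ht x => ?_⟩
  have key := hU T hT f hf hfB hfg
  obtain ⟨g1, g2, g3⟩ := hM₀ T _ f hf (fun N t ht x v => (key t ht x).1 N v) t ht x
  exact ⟨(key t ht x).2, g1, g2, g3⟩

end Pool.Agent.H48.PG
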