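import Pool.Agent.H48.PW.FinG
import Pool.Agent.H25.PN.Fin

/-!
# The uniform bound in terms of the decay constants of the initial value: definitions
-/

set_option autoImplicit false

open MeasureTheory Set Filter Topology Pool.Agent.H25.Kin Pool.Agent.H82.BK Pool.Agent.H82.CM
open Pool.Agent.H48.PL Pool.Agent.H48.PI Pool.Agent.H93.CM Pool.Agent.H25.PN
open Pool.Agent.H15.AV (Slice)

namespace Pool.Agent.H48.PG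

variable {d : ℕ}

/-- the uniform bound in terms of the decay constants of the initial value -/
def UniB (d : ℕ) (γ : ℝ) (b : ℝ → ℝ) (P : ℝ → (ℝ → Vec d → Vec d → ℝ) → Prop) : Prop :=
  ∀ (B : ℕ → ℝ) (m : ℝ), 0 < m → ∃ U : ℕ → ℝ,
    ∀ (T : ℝ) (f : ℝ → Vec d → Vec d → ℝ), IsBoltzmannSol γ b T f → P T f →
      (∀ (N : ℕ) (x v : Vec d), (1 + ‖v‖) ^ N * f 0 x v ≤ B N) →
      m ≤ ∫ x in Icc (0 : Vec d) 1, ∫ v, f 0 x v →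
      ∀ t ∈ Ico 0 T, ∀ (N : ℕ) (x v : Vec d), (1 + ‖v‖) ^ N * f t x v ≤ U N

/-- the uniform estimates for the solutions with the symmetry `P` -/
def EstB (d : ℕ) (γ : ℝ) (b : ℝ → ℝ) (P : ℝ → (ℝ → Vec d → Vec d → ℝ) → Prop) : Prop :=
  (∀ F₀ : Vec d → Vec d → ℝ,
      (∃ (U : ℕ → ℝ) (M₀ : ℝ), ∀ (T : ℝ) (f : ℝ → Vec d → Vec d → ℝ), IsBoltzmannSol γ b T f →
        P T f → f 0 = F₀ → ∀ t ∈ Ico 0 T, ∀ x,
          (∀ (N : ℕ) (v : Vec d), (1 + ‖v‖) ^ N * f t x v ≤ U N) ∧ (∫ v, f t x v ≤ M₀) ∧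
          (∫ v, f t x v * nsq v ≤ M₀) ∧ ∫ v, f t x v * Real.log (f t x v) ≤ M₀) ∧
      ((∀ x, 0 < ∫ v, F₀ x v) → ∃ m₀ > 0, ∃ M₀ : ℝ, ∀ (T : ℝ) (f : ℝ → Vec d → Vec d → ℝ),
        IsBoltzmannSol γ b T f → P T f → f 0 = F₀ →
          ∀ t ∈ Ico 0 T, ∀ x, HydroBounds m₀ M₀ M₀ M₀ (f t x))) ∧
    UniB d γ b P

theorem EstB.mono {γ : ℝ} {b : ℝ → ℝ} {P P' : ℝ → (ℝ → Vec d → Vec d → ℝ) → Prop} (h : EstB d γ b P)
    (hP : ∀ T f, IsBoltzmannSol γ b T f → P' T f → P T f) : EstB d γ b P' := by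
  refine ⟨fun F₀ => ⟨?_, fun hF => ?_⟩, fun B m hm => ?_⟩
  · obtain ⟨U, M₀, hU⟩ := (h.1 F₀).1
    exact ⟨U, M₀, fun T f hf hp => hU T f hf (hP T f hf hp)⟩
  · obtain ⟨m₀, hm₀, M₀, hU⟩ := (h.1 F₀).2 hF
    exact ⟨m₀, hm₀, M₀, fun T f hf hp => hU T f hf (hP T f hf hp)⟩
  · obtain ⟨U, hU⟩ := h.2 B m hm
    exact ⟨U, fun T f hf hp => hU T f hf (hP T f hf hp)⟩

end Pool.Agent.H48.PG
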