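import Pool.Agent.H48.PG.EGDef
import Pool.Agent.H48.PV.LocU
import Pool.Agent.H48.PW.AvGW

/-!
# Module LocG: the local term and the small moment, `0 ≤ a`

* `loc_G`: for `0 < a` this is `loc_U` (H48/PV/LocU.lean). For `a = 0`: `lam₀ = κ/(4 R₂ M + 1)`, `gb R₂ C₂ ≤ gb R C₀` (private lemmas `chi_mono`, `bet_mono_C` there), `len^1 = len`.
* `gb_small`: `gw_small` (H48/PW/AvGW.lean) with `a' = (1+a)/2` (`0 < a' < 1`, `jb^(1+a) ≤ jb^(1+a')`, `jb ≥ 1`), `gw q F = gb R C₀ F` for `q = ⟨a',a',0,0,0,0,R,C₀⟩ : Pm` (see PV/CoreU.lean). Integrability: `ag_int` there (private, copy).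
-/

set_option autoImplicit false

open MeasureTheory Set Filter Topology Pool.Agent.H25.Kin Pool.Agent.H82.BK Pool.Agent.H82.CM
open Pool.Agent.H48.PL Pool.Agent.H48.PI Pool.Agent.H48.PW Pool.Agent.H48.PV Pool.Agent.H15.G1
open Pool.Agent.H85.UP
open Pool.Agent.H15.AV (UNice gau)

namespace Pool.Agent.H48.PG

variable {d : ℕ} {a : ℝ}

private lemma chi_mono {R R' : ℝ} (hR : 0 < R) (h : R ≤ R') (w : Vec d) : chi R w ≤ chi R' w := by
  unfold chi
  have h1 : jb w / R' ≤ jb w / R := div_le_div_of_nonneg_left (jb_pos w).le hR h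
  exact max_le_max le_rfl (min_le_min le_rfl (by linarith))

private lemma bet_mono_C {C C' : ℝ} (hC : 0 < C) (h : C ≤ C') {r : ℝ} (hr : 0 ≤ r) :
    bet C r ≤ bet C' r := by
  have hC' : 0 < C' := hC.trans_le h
  unfold bet
  rw [div_le_div_iff₀ (by positivity) (by positivity)]
  nlinarith [mul_le_mul_of_nonneg_right h (mul_nonneg hr hr)]

private lemma len_pow_int {g : Vec d → ℝ} (hg : Nice g) (v : Vec d) {b : ℝ} (hb : 0 ≤ b)
    (hb2 : b ≤ 2) : Integrable fun w : Vec d => g w * len (v - w) ^ b := by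
  have hc : Continuous fun w : Vec d => len (v - w) :=
    continuous_len.comp (continuous_const.sub continuous_id)
  have hm : Measurable fun w : Vec d => len (v - w) ^ b := hc.measurable.pow_const _
  have h1 : PG fun w : Vec d => 1 + nsq (v - w) := by
    obtain ⟨N, C, hC0, hC⟩ := (PG.nsq (d := d)).pos
    refine (PG.const (1 : ℝ)).add ⟨N, C * (1 + ‖v‖) ^ N, fun w => ?_⟩
    refine (hC (v - w)).trans ?_
    rw [mul_assoc, ← mul_pow]
    exact mul_le_mul_of_nonneg_left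
      (pow_le_pow_left₀ (by positivity) (w_sub_le v w) _) hC0
  have h2 : RD fun w : Vec d => g w * (1 + nsq (v - w)) := hg.rd.mul_PG h1
  have h3 : Integrable fun w : Vec d => g w * (1 + nsq (v - w)) :=
    h2.integrable (hg.cont.mul (continuous_const.add
      (continuous_sq.comp (continuous_const.sub continuous_id)))).aestronglyMeasurable
  refine h3.mono (hg.cont.measurable.mul hm).aestronglyMeasurable (Eventually.of_forall fun w => ?_)
  have h0 : 0 ≤ nsq (v - w) := sq_nonneg' _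
  rw [norm_mul, norm_mul, Real.norm_eq_abs (len (v - w) ^ b), Real.norm_eq_abs (1 + nsq (v - w)),
    abs_of_nonneg (Real.rpow_nonneg (len_nonneg _) _), abs_of_nonneg (by linarith)]
  refine mul_le_mul_of_nonneg_left ?_ (norm_nonneg _)
  rcases le_total (len (v - w)) 1 with h | h
  · exact (Real.rpow_le_one (len_nonneg _) h hb).trans (by linarith)
  · calc len (v - w) ^ b ≤ len (v - w) ^ (2 : ℝ) := Real.rpow_le_rpow_of_exponent_le h hb2
      _ = nsq (v - w) := by rw [Real.rpow_two, len_sq]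
      _ ≤ 1 + nsq (v - w) := by linarith

private lemma ag_wt {F : Vec d → Vec d → ℝ} (hd : RX F) (k : ℕ) :
    ∃ C, 0 ≤ C ∧ ∀ x v, (1 + ‖v‖) ^ k * |F x v| ≤ C * wt d v := by
  obtain ⟨C, hC⟩ := hd (k + (d + 1))
  refine ⟨C, le_trans (mul_nonneg (by positivity) (abs_nonneg _)) (hC 0 0), fun x v => ?_⟩
  have h := hC x v
  have h4 : 0 < (1 + ‖v‖) ^ (d + 1) := by positivity
  unfold wt
  rw [← div_eq_mul_inv, le_div_iff₀ h4]
  calc (1 + ‖v‖) ^ k * |F x v| * (1 + ‖v‖) ^ (d + 1) = (1 + ‖v‖) ^ (k + (d + 1)) * |F x v| := by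
        rw [pow_add]; ring
    _ ≤ C := h

private lemma ag_int {e : Fin d} {F G : Vec d → Vec d → ℝ} (h : FS e F G) (r : ℝ) :
    Integrable (fun q : Vec d × Vec d => F q.2 q.1 * jb q.1 ^ r) (nu d) := by
  obtain ⟨N, hN⟩ := exists_nat_ge r
  obtain ⟨C, hC0, hC⟩ := ag_wt h.decF N
  have hb : ∀ x v, |F x v * jb v ^ r| ≤ (((d : ℝ) + 1) ^ N * C) * wt d v := by
    intro x v
    have j0 := jb_pos v
    have e1 : jb v ^ r ≤ (((d : ℝ) + 1) * (1 + ‖v‖)) ^ N := by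
      calc jb v ^ r ≤ jb v ^ (N : ℝ) := Real.rpow_le_rpow_of_exponent_le (one_le_jb v) hN
        _ = jb v ^ N := Real.rpow_natCast _ _
        _ ≤ _ := pow_le_pow_left₀ j0.le (jb_le_w v) N
    rw [abs_mul, abs_of_nonneg (Real.rpow_nonneg j0.le r)]
    calc |F x v| * jb v ^ r ≤ |F x v| * (((d : ℝ) + 1) * (1 + ‖v‖)) ^ N :=
          mul_le_mul_of_nonneg_left e1 (abs_nonneg _)
      _ = ((d : ℝ) + 1) ^ N * ((1 + ‖v‖) ^ N * |F x v|) := by rw [mul_pow]; ring
      _ ≤ ((d : ℝ) + 1) ^ N * (C * wt d v) := mul_le_mul_of_nonneg_left (hC x v) (by positivity)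
      _ = _ := by ring
  have cj : Continuous fun v : Vec d => jb v ^ r :=
    jb_cont.rpow_const fun v => Or.inl (jb_pos v).ne'
  have hc : Continuous fun q : Vec d × Vec d => F q.2 q.1 * jb q.1 ^ r :=
    (h.contF.comp (continuous_snd.prodMk continuous_fst)).mul (cj.comp continuous_fst)
  exact integrable_nu hc.aestronglyMeasurable fun q => hb q.2 q.1

theorem loc_G (ha : 0 ≤ a) (ha1 : a ≤ 1) {κ c M R₂ C₂ : ℝ} (hκ : 0 < κ) (hc : 0 < c) (hM : 0 ≤ M)
    (hR₂ : 1 ≤ R₂) (hC₂ : 0 < C₂) :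
    ∃ lam₀ : ℝ, 0 < lam₀ ∧ ∀ lam : ℝ, 0 ≤ lam → lam ≤ lam₀ → ∀ R C₀ : ℝ, R₂ ≤ R → C₂ ≤ C₀ →
      ∀ g : Vec d → ℝ, Nice g → (∀ u, 0 ≤ g u) → ∀ v : Vec d,
      lam * (4 * R₂ * M * ∫ w, len (v - w) * (chi R₂ w * bet C₂ (g w))) ≤
        κ * (∫ w, len (v - w) ^ (1 + a) * (chi R w * bet C₀ (g w))) + lam * c / 8 := by
  rcases ha.lt_or_eq with h0 | h0
  · exact loc_U h0 ha1 hκ hc hM hR₂ hC₂
  subst h0
  have hRM : 0 ≤ 4 * R₂ * M := by positivity
  refine ⟨κ / (4 * R₂ * M + 1), by positivity, ?_⟩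
  intro lam hlam0 hlam R C₀ hR hC g hg hg0 v
  have hC₀ : 0 < C₀ := hC₂.trans_le hC
  have hR₂0 : 0 < R₂ := by linarith
  set g' : Vec d → ℝ := fun w => chi R₂ w * bet C₂ (g w) with hg'
  set g₁ : Vec d → ℝ := fun w => chi R w * bet C₀ (g w) with hg₁
  have hg'0 : ∀ w, 0 ≤ g' w := fun w => mul_nonneg (chi_nonneg _ _) (bet_nonneg hC₂ (hg0 w))
  have hg₁0 : ∀ w, 0 ≤ g₁ w := fun w => mul_nonneg (chi_nonneg _ _) (bet_nonneg hC₀ (hg0 w))
  have hg'₁ : ∀ w, g' w ≤ g₁ w := fun w =>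
    mul_le_mul (chi_mono hR₂0 hR w) (bet_mono_C hC₂ hC (hg0 w)) (bet_nonneg hC₂ (hg0 w))
      (chi_nonneg _ _)
  have hg₁g : ∀ w, g₁ w ≤ g w := fun w => by
    calc g₁ w ≤ 1 * g w := mul_le_mul (chi_le_one _ _) (bet_le hC₀ (hg0 w))
          (bet_nonneg hC₀ (hg0 w)) zero_le_one
      _ = g w := one_mul _
  have hlc : Continuous fun w : Vec d => len (v - w) :=
    continuous_len.comp (continuous_const.sub continuous_id)
  have hmb : ∀ C : ℝ, Measurable fun w => bet C (g w) := fun C => by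
    unfold bet
    exact (measurable_const.mul hg.cont.measurable).div (measurable_const.add hg.cont.measurable)
  have hmg' : Measurable g' := (chi_cont R₂).measurable.mul (hmb C₂)
  have hmg₁ : Measurable g₁ := (chi_cont R).measurable.mul (hmb C₀)
  have key : ∀ h : Vec d → ℝ, Measurable h → (∀ w, 0 ≤ h w) → (∀ w, h w ≤ g w) →
      Integrable fun w : Vec d => len (v - w) * h w := by
    intro h hm h0 hle
    refine (len_pow_int hg v (b := 1) (by norm_num) (by norm_num)).mono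
      (hlc.measurable.mul hm).aestronglyMeasurable
      (Eventually.of_forall fun w => ?_)
    have hl0 : 0 ≤ len (v - w) := len_nonneg _
    rw [Real.rpow_one, Real.norm_eq_abs, Real.norm_eq_abs, abs_of_nonneg (mul_nonneg hl0 (h0 w)),
      abs_of_nonneg (mul_nonneg (hg0 w) hl0), mul_comm]
    exact mul_le_mul_of_nonneg_right (hle w) hl0
  have hint' := key g' hmg' hg'0 fun w => (hg'₁ w).trans (hg₁g w)
  have hint1 := key g₁ hmg₁ hg₁0 hg₁g
  have e1 : (∫ w, len (v - w) ^ (1 + (0 : ℝ)) * (chi R w * bet C₀ (g w))) =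
      ∫ w, len (v - w) * g₁ w := by
    refine integral_congr_ae (Eventually.of_forall fun w => ?_)
    show len (v - w) ^ (1 + (0 : ℝ)) * g₁ w = len (v - w) * g₁ w
    rw [add_zero, Real.rpow_one]
  rw [e1]
  have hI : ∫ w, len (v - w) * g' w ≤ ∫ w, len (v - w) * g₁ w :=
    integral_mono hint' hint1 fun w => mul_le_mul_of_nonneg_left (hg'₁ w) (len_nonneg _)
  have hI0 : 0 ≤ ∫ w, len (v - w) * g' w :=
    integral_nonneg fun w => mul_nonneg (len_nonneg _) (hg'0 w)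
  have hlam' : lam * (4 * R₂ * M) ≤ κ := by
    have h1 : lam * (4 * R₂ * M + 1) ≤ κ := by
      rwa [le_div_iff₀ (by linarith)] at hlam
    nlinarith
  have h3 : 0 ≤ lam * c / 8 := by positivity
  calc lam * (4 * R₂ * M * ∫ w, len (v - w) * g' w)
      = lam * (4 * R₂ * M) * ∫ w, len (v - w) * g' w := by ring
    _ ≤ κ * ∫ w, len (v - w) * g' w := mul_le_mul_of_nonneg_right hlam' hI0
    _ ≤ κ * ∫ w, len (v - w) * g₁ w := mul_le_mul_of_nonneg_left hI hκ.le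
    _ ≤ _ := by linarith

theorem gb_small (M : ℝ) (ha : 0 ≤ a) (ha1 : a < 1) {ε₂ : ℝ} (hε : 0 < ε₂) :
    ∃ R₀ : ℝ, 1 ≤ R₀ ∧ ∀ R ≥ R₀, ∃ C₁ : ℝ, 1 ≤ C₁ ∧ ∀ C₀ ≥ C₁,
      ∀ (e : Fin d) (F G : Vec d → Vec d → ℝ), FS e F G → GB M F →
        ∫ p, (F p.2 p.1 - gb R C₀ F p.2 p.1) * jb p.1 ^ (1 + a) ∂(nu d) ≤ ε₂ := by
  obtain ⟨R₀, hR₀, hR⟩ := gw_small (d := d) M (a := (1 + a) / 2) (by linarith) (by linarith) hε
  refine ⟨R₀, hR₀, fun R hRR => ?_⟩
  obtain ⟨C₁, hC₁, hC⟩ := hR R hRR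
  refine ⟨C₁, hC₁, fun C₀ hCC e F G hF hG => ?_⟩
  have hCp : 0 < C₀ := by linarith
  have h1 := hC C₀ hCC (⟨(1 + a) / 2, (1 + a) / 2, 0, 0, 0, 0, R, C₀⟩ : Pm) rfl rfl rfl e F G hF hG
  refine le_trans ?_ h1
  have hge : ∀ p : Vec d × Vec d, 0 ≤ F p.2 p.1 - gb R C₀ F p.2 p.1 := fun p => by
    unfold gb
    have b0 := bet_nonneg hCp (hF.nonneg p.2 p.1)
    have b1 := bet_le hCp (hF.nonneg p.2 p.1)
    have c0 := chi_nonneg R p.1
    have c1 := chi_le_one R p.1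
    nlinarith
  have hgm : ∀ p : Vec d × Vec d, F p.2 p.1 - gb R C₀ F p.2 p.1 ≤ F p.2 p.1 := fun p => by
    unfold gb
    have b0 := bet_nonneg hCp (hF.nonneg p.2 p.1)
    have c0 := chi_nonneg R p.1
    nlinarith [mul_nonneg c0 b0]
  have hcF : Continuous fun q : Vec d × Vec d => F q.2 q.1 :=
    hF.contF.comp (continuous_snd.prodMk continuous_fst)
  have hcb : Continuous fun q : Vec d × Vec d => gb R C₀ F q.2 q.1 := by
    unfold gb bet
    refine ((chi_cont R).comp continuous_fst).mul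
      ((continuous_const.mul hcF).div (continuous_const.add hcF) fun q => ?_)
    have := hF.nonneg q.2 q.1
    linarith
  have hcj : Continuous fun q : Vec d × Vec d => jb q.1 ^ (1 + (1 + a) / 2) :=
    (jb_cont.rpow_const fun v => Or.inl (jb_pos v).ne').comp continuous_fst
  refine integral_mono_of_nonneg (Eventually.of_forall fun p =>
    mul_nonneg (hge p) (Real.rpow_nonneg (jb_pos _).le _)) ?_ (Eventually.of_forall fun p => ?_)
  · refine (ag_int hF (1 + (1 + a) / 2)).mono ((hcF.sub hcb).mul hcj).aestronglyMeasurable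
      (Eventually.of_forall fun p => ?_)
    have hj : 0 ≤ jb p.1 ^ (1 + (1 + a) / 2) := Real.rpow_nonneg (jb_pos _).le _
    show ‖(F p.2 p.1 - gb R C₀ F p.2 p.1) * jb p.1 ^ (1 + (1 + a) / 2)‖ ≤ _
    rw [Real.norm_eq_abs, Real.norm_eq_abs, abs_of_nonneg (mul_nonneg (hge p) hj),
      abs_of_nonneg (mul_nonneg (hF.nonneg _ _) hj)]
    exact mul_le_mul_of_nonneg_right (hgm p) hj
  · show (F p.2 p.1 - gb R C₀ F p.2 p.1) * jb p.1 ^ (1 + a) ≤
      (F p.2 p.1 - gb R C₀ F p.2 p.1) * jb p.1 ^ (1 + (1 + a) / 2)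
    exact mul_le_mul_of_nonneg_left
      (Real.rpow_le_rpow_of_exponent_le (one_le_jb _) (by linarith)) (hge p)

end Pool.Agent.H48.PG
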