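import Pool.Agent.H48.PG.EGDef
import Pool.Agent.H48.PV.DerC
import Pool.Agent.H48.PI.ESli

/-!
# Module AbsG: bound of the weight function and of the average

As `EU_abs`, `avU_le` in H48/PV/AbsU.lean (copy its private lemmas), without the even part.
* `EA = K ∫z kl 1 z (∫ w, PhR v w (F - gb)(x - z e, w))`, `|kl| ≤ 1/2`, `PhR_abs: |PhR| ≤ 2 jb w^a ≤ 2 jb w^(1+a)`: `|EA| ≤ K ε₂`; `ED_abs`.
* `avG_le`: `V_PhR`.
-/

set_option autoImplicit false

open MeasureTheory Set Filter Topology Pool.Agent.H25.Kin Pool.Agent.H82.BK Pool.Agent.H82.CM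
open Pool.Agent.H48.PL Pool.Agent.H48.PI Pool.Agent.H48.PW Pool.Agent.H48.PV Pool.Agent.H15.G1
open Pool.Agent.H85.UP
open Pool.Agent.H15.AV (UNice gau)

namespace Pool.Agent.H48.PG

variable {d : ℕ} {P : Pg} {r : ℝ} {e : Fin d} {F G : Vec d → Vec d → ℝ} {ε₂ M : ℝ}

/-- continuous planar periodic functions with rapid decay in the velocity -/
private structure AgA (e : Fin d) (A : Vec d → Vec d → ℝ) : Prop where
  cont : Continuous fun p : Vec d × Vec d => A p.1 p.2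
  dec : RX A
  per : ∀ x v i, A (x + Pi.single i 1) v = A x v
  pl : ∀ x y v, x e = y e → A x v = A y v

private lemma ag_bd {A : Vec d → Vec d → ℝ} (hA : AgA e A) {Φ : Vec d → Vec d → ℝ} (hΦ : PGW Φ)
    (v : Vec d) : ∃ C, ∀ x w, |Φ v w * A x w| ≤ C * wt d w := by
  obtain ⟨N, K, hK0, hK⟩ := hΦ.le
  obtain ⟨C, hC⟩ := hA.dec (N + (d + 1))
  refine ⟨K * (1 + ‖v‖) ^ N * C, fun x w => ?_⟩
  have hw : 0 < 1 + ‖w‖ := w_pos w
  have hv : 0 < 1 + ‖v‖ := w_pos v
  have h2 := hC x w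
  rw [abs_mul]
  unfold wt
  rw [← div_eq_mul_inv, le_div_iff₀ (by positivity)]
  calc |Φ v w| * |A x w| * (1 + ‖w‖) ^ (d + 1)
      ≤ (K * ((1 + ‖v‖) ^ N * (1 + ‖w‖) ^ N)) * |A x w| * (1 + ‖w‖) ^ (d + 1) := by
        have := hK v w
        gcongr
    _ = K * (1 + ‖v‖) ^ N * ((1 + ‖w‖) ^ (N + (d + 1)) * |A x w|) := by rw [pow_add]; ring
    _ ≤ K * (1 + ‖v‖) ^ N * C := by gcongr

private lemma ag_wc {A : Vec d → Vec d → ℝ} (hA : AgA e A) {Φ : Vec d → Vec d → ℝ} (hΦ : PGW Φ)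
    (x v : Vec d) : Continuous fun w => Φ v w * A x w :=
  (hΦ.cont.comp (by fun_prop : Continuous fun w : Vec d => (v, w))).mul
    (hA.cont.comp (by fun_prop : Continuous fun w : Vec d => (x, w)))

private lemma ag_int {A : Vec d → Vec d → ℝ} (hA : AgA e A) {Φ : Vec d → Vec d → ℝ} (hΦ : PGW Φ)
    (x v : Vec d) : Integrable fun w => Φ v w * A x w := by
  obtain ⟨C, hC⟩ := ag_bd hA hΦ v
  exact (integrable_wt.const_mul C).mono' (ag_wc hA hΦ x v).aestronglyMeasurable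
    (Eventually.of_forall fun w => hC x w)

private lemma ag_nu {A : Vec d → Vec d → ℝ} (hA : AgA e A) {Φ : Vec d → Vec d → ℝ} (hΦ : PGW Φ)
    (v : Vec d) : Integrable (fun p : Vec d × Vec d => Φ v p.1 * A p.2 p.1) (nu d) := by
  obtain ⟨C, hC⟩ := ag_bd hA hΦ v
  have hc : Continuous fun p : Vec d × Vec d => Φ v p.1 * A p.2 p.1 :=
    (hΦ.cont.comp (by fun_prop : Continuous fun p : Vec d × Vec d => (v, p.1))).mul
      (hA.cont.comp (by fun_prop : Continuous fun p : Vec d × Vec d => (p.2, p.1)))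
  exact integrable_nu hc.aestronglyMeasurable fun p => hC p.2 p.1

private lemma ag_pl {A : Vec d → Vec d → ℝ} (hA : AgA e A) {Φ : Vec d → Vec d → ℝ} (hΦ : PGW Φ)
    (v : Vec d) : PlF e fun x => ∫ w, Φ v w * A x w := by
  obtain ⟨C, hC⟩ := ag_bd hA hΦ v
  refine ⟨?_, ?_, ?_⟩
  · refine continuous_of_dominated (bound := fun w => C * wt d w) ?_ ?_
      (integrable_wt.const_mul _) ?_
    · intro x
      exact (ag_wc hA hΦ x v).aestronglyMeasurable
    · intro x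
      exact Eventually.of_forall fun w => hC x w
    · refine Eventually.of_forall fun w => ?_
      exact continuous_const.mul
        (hA.cont.comp (by fun_prop : Continuous fun x : Vec d => (x, w)))
  · intro x i
    congr 1
    funext w
    rw [hA.per]
  · intro x y hxy
    congr 1
    funext w
    rw [hA.pl x y w hxy]

private lemma ag_single (e : Fin d) (x : Vec d) : Continuous fun z : ℝ => x - (Pi.single e z : Vec d) :=
  continuous_const.sub (continuous_single (A := fun _ : Fin d => ℝ) e)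

private lemma ag_kl {B : Vec d → ℝ} (hB : PlF e B) (x : Vec d) :
    Integrable (fun z : ℝ => kl 1 z * B (x - Pi.single e z))
      (volume.restrict (Ioo (-(1 / 2)) (1 / 2))) := by
  obtain ⟨C, hC⟩ := pl_bdd hB
  have hfin : IsFiniteMeasure ((volume : Measure ℝ).restrict (Ioo (-(1 / 2)) (1 / 2))) :=
    ⟨by rw [Measure.restrict_apply_univ]; exact measure_Ioo_lt_top⟩
  refine Integrable.of_bound ((kl_meas 1).aestronglyMeasurable.mul
    (hB.cont.comp (ag_single e x)).aestronglyMeasurable) (1 / 2 * C) ?_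
  filter_upwards [ae_restrict_mem measurableSet_Ioo] with z hz
  rw [norm_mul, Real.norm_eq_abs, Real.norm_eq_abs]
  exact mul_le_mul (kl_abs one_pos hz) (hC _) (abs_nonneg _) (by norm_num)

private lemma ag_lint {B : Vec d → ℝ} (hB : PlF e B) (x : Vec d) :
    Integrable (fun z : ℝ => B (x - Pi.single e z)) (volume.restrict (Ioo (-(1 / 2)) (1 / 2))) := by
  obtain ⟨C, hC⟩ := pl_bdd hB
  have hfin : IsFiniteMeasure ((volume : Measure ℝ).restrict (Ioo (-(1 / 2)) (1 / 2))) :=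
    ⟨by rw [Measure.restrict_apply_univ]; exact measure_Ioo_lt_top⟩
  exact Integrable.of_bound (hB.cont.comp (ag_single e x)).aestronglyMeasurable C
    (Eventually.of_forall fun z => hC _)

private lemma ag_jbr {r : ℝ} : PGW fun (_ : Vec d) (w : Vec d) => jb w ^ r := by
  obtain ⟨N, hN⟩ := exists_nat_ge r
  have hjc : Continuous fun v : Vec d => jb v ^ r :=
    jb_cont.rpow_const fun v => Or.inl (jb_pos v).ne'
  refine ⟨hjc.comp continuous_snd, N, ((d : ℝ) + 1) ^ N, by positivity, fun v w => ?_⟩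
  have hv : (1 : ℝ) ≤ (1 + ‖v‖) ^ N := one_le_pow₀ (by linarith [norm_nonneg v])
  rw [abs_of_nonneg (Real.rpow_nonneg (jb_pos w).le r)]
  calc jb w ^ r ≤ jb w ^ (N : ℝ) := Real.rpow_le_rpow_of_exponent_le (one_le_jb w) hN
    _ = jb w ^ N := Real.rpow_natCast _ _
    _ ≤ (((d : ℝ) + 1) * (1 + ‖w‖)) ^ N := pow_le_pow_left₀ (jb_pos w).le (jb_le_w w) N
    _ = ((d : ℝ) + 1) ^ N * (1 * (1 + ‖w‖) ^ N) := by rw [mul_pow]; ring
    _ ≤ ((d : ℝ) + 1) ^ N * ((1 + ‖v‖) ^ N * (1 + ‖w‖) ^ N) := by gcongr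

/-! ### the unbounded part -/

private lemma ag_gb_nonneg (hP : P.Ok) (h : FS e F G) (x w : Vec d) : 0 ≤ gb P.R P.C₀ F x w :=
  mul_nonneg (chi_nonneg _ _) (bet_nonneg (hP.hC₂.trans_le hP.hC) (h.nonneg x w))

private lemma ag_gb_le (hP : P.Ok) (h : FS e F G) (x w : Vec d) : gb P.R P.C₀ F x w ≤ F x w := by
  have h1 := bet_le (hP.hC₂.trans_le hP.hC) (h.nonneg x w)
  have h2 := bet_nonneg (hP.hC₂.trans_le hP.hC) (h.nonneg x w)
  unfold gb
  exact (mul_le_of_le_one_left h2 (chi_le_one P.R w)).trans h1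

private lemma ag_F (h : FS e F G) : AgA e F := ⟨h.contF, h.decF, h.perF, h.plF⟩

private lemma ag_bet (hP : P.Ok) (h : FS e F G) : AgA e fun x w => bet P.C₀ (F x w) := by
  have hC : 0 < P.C₀ := hP.hC₂.trans_le hP.hC
  refine ⟨?_, ?_, ?_, ?_⟩
  · rw [continuous_iff_continuousAt]
    intro p
    have h1 : ContinuousAt (bet P.C₀) (F p.1 p.2) := (bet_deriv hC (h.nonneg p.1 p.2)).continuousAt
    exact ContinuousAt.comp (g := bet P.C₀) (f := fun p : Vec d × Vec d => F p.1 p.2) h1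
      h.contF.continuousAt
  · intro N
    obtain ⟨C, hC'⟩ := h.decF N
    refine ⟨C, fun x w => le_trans ?_ (hC' x w)⟩
    have hw : 0 < 1 + ‖w‖ := w_pos w
    refine mul_le_mul_of_nonneg_left ?_ (by positivity)
    rw [abs_of_nonneg (bet_nonneg hC (h.nonneg x w)), abs_of_nonneg (h.nonneg x w)]
    exact bet_le hC (h.nonneg x w)
  · intro x w i
    simp only [h.perF]
  · intro x y w hxy
    simp only [h.plF x y w hxy]

private lemma ag_gb (hP : P.Ok) (h : FS e F G) : AgA e (gb P.R P.C₀ F) := by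
  have hB := ag_bet hP h
  refine ⟨((chi_cont P.R).comp continuous_snd).mul hB.cont, ?_, ?_, ?_⟩
  · intro N
    obtain ⟨C, hC⟩ := hB.dec N
    refine ⟨C, fun x w => le_trans ?_ (hC x w)⟩
    have hw : 0 < 1 + ‖w‖ := w_pos w
    refine mul_le_mul_of_nonneg_left ?_ (by positivity)
    unfold gb
    rw [abs_mul, abs_of_nonneg (chi_nonneg _ _)]
    exact mul_le_of_le_one_left (abs_nonneg _) (chi_le_one _ _)
  · intro x w i
    unfold gb
    rw [h.perF]
  · intro x y w hxy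
    unfold gb
    rw [h.plF x y w hxy]

private lemma ag_H (hP : P.Ok) (h : FS e F G) : AgA e fun x w => F x w - gb P.R P.C₀ F x w := by
  have aF := ag_F h
  have a1 := ag_gb hP h
  refine ⟨aF.cont.sub a1.cont, ?_, ?_, ?_⟩
  · intro N
    obtain ⟨C, hC⟩ := aF.dec N
    obtain ⟨C', hC'⟩ := a1.dec N
    refine ⟨C + C', fun x w => ?_⟩
    have hw : 0 < 1 + ‖w‖ := w_pos w
    calc (1 + ‖w‖) ^ N * |F x w - gb P.R P.C₀ F x w|
        ≤ (1 + ‖w‖) ^ N * (|F x w| + |gb P.R P.C₀ F x w|) :=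
          mul_le_mul_of_nonneg_left (abs_sub _ _) (by positivity)
      _ = (1 + ‖w‖) ^ N * |F x w| + (1 + ‖w‖) ^ N * |gb P.R P.C₀ F x w| := by ring
      _ ≤ C + C' := add_le_add (hC x w) (hC' x w)
  · intro x w i
    simp only [aF.per, a1.per]
  · intro x y w hxy
    simp only [aF.pl x y w hxy, a1.pl x y w hxy]

/-- the mass with weight `jb ^ (1 + a)` -/
private lemma ag_mass (h2 : ∫ p, (F p.2 p.1 - gb P.R P.C₀ F p.2 p.1) * jb p.1 ^ (1 + P.a) ∂(nu d) ≤ ε₂) :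
    ∫ p, jb p.1 ^ (1 + P.a) * (F p.2 p.1 - gb P.R P.C₀ F p.2 p.1) ∂(nu d) ≤ ε₂ := by
  refine le_trans (le_of_eq ?_) h2
  congr 1
  funext p
  ring

/-- the basic estimate -/
private lemma ag_key (hP : P.Ok) (h : FS e F G)
    (h2 : ∫ p, (F p.2 p.1 - gb P.R P.C₀ F p.2 p.1) * jb p.1 ^ (1 + P.a) ∂(nu d) ≤ ε₂)
    {Φ : Vec d → Vec d → ℝ} (hΦ : PGW Φ) {c : ℝ} (v : Vec d) (hc : 0 ≤ c)
    (b1 : ∀ w, |Φ v w| ≤ c * jb w ^ (1 + P.a)) (x : Vec d) :
    |pot e 1 Φ (fun x w => F x w - gb P.R P.C₀ F x w) x v| ≤ 1 / 2 * (c * ε₂) := by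
  have hH := ag_H hP h
  have hm := ag_mass h2
  have hpos : ∀ x w, 0 ≤ F x w - gb P.R P.C₀ F x w := fun x w => sub_nonneg.2 (ag_gb_le hP h x w)
  set H : Vec d → Vec d → ℝ := fun x w => F x w - gb P.R P.C₀ F x w with hHdef
  have hjr := ag_jbr (d := d) (r := 1 + P.a)
  have ij := ag_nu hH hjr 0
  have hJ : PlF e fun x => ∫ w, jb w ^ (1 + P.a) * H x w := ag_pl hH hjr 0
  have eJ : ∫ p, jb p.1 ^ (1 + P.a) * H p.2 p.1 ∂(nu d) =
      ∫ y, (∫ w, jb w ^ (1 + P.a) * H y w) ∂(muD d) := Pool.Agent.H15.AV.nu_integral ij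
  have hJ0 : ∀ y, 0 ≤ ∫ w, jb w ^ (1 + P.a) * H y w := fun y =>
    integral_nonneg fun w => mul_nonneg (Real.rpow_nonneg (jb_pos w).le _) (hpos y w)
  have hloc : loc e 1 (fun y => ∫ w, jb w ^ (1 + P.a) * H y w) x ≤ ε₂ :=
    (loc_le hJ hJ0 one_pos le_rfl x).trans (by rw [← eJ]; exact hm)
  unfold pot
  have hw : ∀ y, |∫ w, Φ v w * H y w| ≤ c * ∫ w, jb w ^ (1 + P.a) * H y w := by
    intro y
    refine abs_integral_le_integral_abs.trans ?_
    rw [← integral_const_mul]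
    refine integral_mono (ag_int hH hΦ y v).abs ((ag_int hH hjr y 0).const_mul c) fun w => ?_
    show |Φ v w * H y w| ≤ c * (jb w ^ (1 + P.a) * H y w)
    rw [abs_mul, abs_of_nonneg (hpos y w), ← mul_assoc]
    exact mul_le_mul_of_nonneg_right (b1 w) (hpos y w)
  have h1 : ‖∫ z in Ioo (-((1 : ℝ) / 2)) (1 / 2), kl 1 z * ∫ w, Φ v w * H (x - Pi.single e z) w‖ ≤
      ∫ z in Ioo (-((1 : ℝ) / 2)) (1 / 2),
        c / 2 * ∫ w, jb w ^ (1 + P.a) * H (x - Pi.single e z) w := by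
    refine norm_integral_le_of_norm_le ((ag_lint hJ x).const_mul _) ?_
    refine (ae_restrict_iff' measurableSet_Ioo).2 (Eventually.of_forall fun z hz => ?_)
    rw [norm_mul, Real.norm_eq_abs, Real.norm_eq_abs]
    calc |kl 1 z| * |∫ w, Φ v w * H (x - Pi.single e z) w|
        ≤ 1 / 2 * (c * ∫ w, jb w ^ (1 + P.a) * H (x - Pi.single e z) w) :=
          mul_le_mul (kl_abs one_pos hz) (hw _) (abs_nonneg _) (by norm_num)
      _ = c / 2 * ∫ w, jb w ^ (1 + P.a) * H (x - Pi.single e z) w := by ring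
  rw [integral_const_mul, Real.norm_eq_abs] at h1
  refine h1.trans ?_
  have h3 := mul_le_mul_of_nonneg_left hloc (show 0 ≤ c / 2 by positivity)
  unfold loc at h3
  refine h3.trans (le_of_eq ?_)
  ring

/-- the main part as the potential of the unbounded part -/
private lemma ag_EA (hP : P.Ok) (hr : 0 < r) (h : FS e F G) (x v : Vec d) :
    EA P r e F x v = P.K * pot e 1 (PhR e P.a r) (fun x w => F x w - gb P.R P.C₀ F x w) x v := by
  have hPO := PhR_PGW hP.ha hP.ha1 hr e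
  have aF := ag_F h
  have aB := ag_bet hP h
  have eP : pot e 1 (PhR e P.a r) (fun x w => F x w - gb P.R P.C₀ F x w) x v =
      pot e 1 (PhR e P.a r) F x v -
        pot e 1 (cutW P.R (PhR e P.a r)) (fun y w => bet P.C₀ (F y w)) x v := by
    unfold pot
    rw [← integral_sub (ag_kl (ag_pl aF hPO v) x) (ag_kl (ag_pl aB (cutW_PGW hPO P.R) v) x)]
    congr 1
    funext z
    rw [← mul_sub, ← integral_sub (ag_int aF hPO _ v) (ag_int aB (cutW_PGW hPO P.R) _ v)]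
    congr 2
    funext w
    unfold cutW gb
    ring
  rw [eP]
  unfold EA
  ring

theorem EG_abs (hP : P.Ok) (hr : 0 < r) (h : FS e F G)
    (h2 : ∫ p, (F p.2 p.1 - gb P.R P.C₀ F p.2 p.1) * jb p.1 ^ (1 + P.a) ∂(nu d) ≤ ε₂)
    (hM : ∫ p, F p.2 p.1 ∂(nu d) ≤ M) (x v : Vec d) :
    |EG P r e F x v| ≤ P.K * ε₂ + P.lam * (2 * P.R₂ * M ^ 2) := by
  have hPO := PhR_PGW hP.ha hP.ha1 hr e
  have k := ag_key hP h h2 hPO (c := 2) v (by norm_num)
    (fun w => (PhR_abs hP.ha hP.ha1 hr e v w).trans (mul_le_mul_of_nonneg_left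
      (Real.rpow_le_rpow_of_exponent_le (one_le_jb w) (by linarith)) (by norm_num))) x
  have kD := ED_abs hP.hR₂ hP.hC₂ h hM x v
  unfold EG
  rw [ag_EA hP hr h]
  refine (abs_add_le _ _).trans (add_le_add ?_ ?_)
  · rw [abs_mul, abs_of_nonneg hP.hK]
    refine (mul_le_mul_of_nonneg_left k hP.hK).trans (le_of_eq ?_)
    ring
  · rw [abs_mul, abs_of_nonneg hP.hlam]
    exact mul_le_mul_of_nonneg_left kD hP.hlam

theorem avG_le (hP : P.Ok) (hr : 0 < r) (h : FS e F G)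
    (h2 : ∫ p, (F p.2 p.1 - gb P.R P.C₀ F p.2 p.1) * jb p.1 ^ (1 + P.a) ∂(nu d) ≤ ε₂) (v : Vec d) :
    0 ≤ avG P r e F v ∧ avG P r e F v ≤ 4 * ε₂ := by
  have hPO := PhR_PGW hP.ha hP.ha1 hr e
  have hV := V_PhR hP.ha hP.ha1 hr e v
  have hH := ag_H hP h
  have hm := ag_mass h2
  have hpos : ∀ x w, 0 ≤ F x w - gb P.R P.C₀ F x w := fun x w => sub_nonneg.2 (ag_gb_le hP h x w)
  have i1 := ag_nu hH (ag_jbr (d := d) (r := 1 + P.a)) 0
  have i0 := ag_nu hH (hPO.vmul e) v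
  refine ⟨integral_nonneg fun p => mul_nonneg (hV p.1).1 (hpos p.2 p.1), ?_⟩
  unfold avG
  calc ∫ p, (v e - p.1 e) * PhR e P.a r v p.1 * (F p.2 p.1 - gb P.R P.C₀ F p.2 p.1) ∂(nu d)
      ≤ ∫ p, 4 * (jb p.1 ^ (1 + P.a) * (F p.2 p.1 - gb P.R P.C₀ F p.2 p.1)) ∂(nu d) := by
        refine integral_mono i0 (i1.const_mul _) fun p => ?_
        show (v e - p.1 e) * PhR e P.a r v p.1 * (F p.2 p.1 - gb P.R P.C₀ F p.2 p.1) ≤
          4 * (jb p.1 ^ (1 + P.a) * (F p.2 p.1 - gb P.R P.C₀ F p.2 p.1))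
        refine (mul_le_mul_of_nonneg_right (hV p.1).2 (hpos p.2 p.1)).trans (le_of_eq ?_)
        ring
    _ = 4 * ∫ p, jb p.1 ^ (1 + P.a) * (F p.2 p.1 - gb P.R P.C₀ F p.2 p.1) ∂(nu d) :=
        integral_const_mul _ _
    _ ≤ 4 * ε₂ := mul_le_mul_of_nonneg_left hm (by norm_num)

end Pool.Agent.H48.PG
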