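import Pool.Agent.H48.PG.OscG

/-!
# Module HolG: the weight is Hoelder continuous of order `m > 2s` with a small constant

`EG_osc`: `|E u - E v| ≤ K K' ∫ w, nG x w (min 1 (|u-v|/|v-w|) + min 1 (|u-v|/jb v))`; with `q = |u-v|/jb v`, `mm m v u = min(1,q)^m` (private lemma `cu_mm` in PV/CoreU.lean): `min 1 q ≤ min(1,q)^m`, `min 1 (|u-v|/|v-w|) ≤ min(1,q)^m (1 + (jb v/|v-w|)^m)` (`q ≥ 1`: `≤ 1`; `q < 1`: `min(1,y) ≤ y^m = q^m (jb v/|v-w|)^m`).
So `|E u - E v| ≤ K K' mm m v u (2 ∫ nG + ∫ nG x w (jb v/|v-w|)^m dw)`. Three parts of the last integral (`ρ₀ ≤ 1/2`):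
* `|v-w| ≥ jb v/2`: `≤ 2^m ∫ nG ≤ 2 ε`.
* `ρ₀ ≤ |v-w| < jb v/2`: `jb v ≤ 2 jb w` (`jb v ≤ jb w + |v-w|`), `≤ (2 jb w/ρ₀)^m nG ≤ 2 ρ₀^(-m) jb w nG` (`0 < m < 1`, `jb w ≥ 1`): `≤ 2 ρ₀^(-m) ε` (`nG_int`).
* `|v-w| < ρ₀`: `jb v ≤ 2 jb w`; `nG jb v^m ≤ 2 (nG jb w^(-a)) jb w^(a+m) ≤ 2 (nG jb w^(-a)) (1+nsq w)^(p₂/2)` (`a + m ≤ 1 ≤ p₂`), Cauchy-Schwarz with `nG_sq`: `≤ 2 Λ^(1/2) (∫_(|v-w|<ρ₀) |v-w|^(-2m))^(1/2)`, finite and `→ 0` as `ρ₀ → 0` since `2m < 2 ≤ d` (polar coordinates / layer cake; in the library: integrals of `len^(-q)` over small balls, `q < d`).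
First `ρ₀`, then `ε₀`.
-/

set_option autoImplicit false

open MeasureTheory Set Filter Topology Pool.Agent.H25.Kin Pool.Agent.H82.BK Pool.Agent.H82.CM
open Pool.Agent.H48.PL Pool.Agent.H48.PI Pool.Agent.H48.PW Pool.Agent.H48.PV Pool.Agent.H15.G1
open Pool.Agent.H85.UP
open Pool.Agent.H15.AV (UNice gau)

namespace Pool.Agent.H48.PG

variable {d : ℕ}

private lemma hg_mm (a : ℝ) (v u : Vec d) : mm a v u = min 1 (len (u - v) / jb v) ^ a := by
  have hj := jb_pos v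
  have hn : 0 ≤ nsq (u - v) := by
    unfold nsq
    exact Finset.sum_nonneg fun i _ => sq_nonneg _
  have hl : 0 ≤ len (u - v) := Real.sqrt_nonneg _
  have h1 : nsq (u - v) / (1 + nsq v) = (len (u - v) / jb v) ^ 2 := by
    rw [div_pow, jb_sq]
    unfold len
    rw [Real.sq_sqrt hn]
  have hr : 0 ≤ len (u - v) / jb v := by positivity
  have h2 : min 1 ((len (u - v) / jb v) ^ 2) = (min 1 (len (u - v) / jb v)) ^ 2 := by
    rcases le_total (len (u - v) / jb v) 1 with h | h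
    · rw [min_eq_right h, min_eq_right (by nlinarith)]
    · rw [min_eq_left h, min_eq_left (by nlinarith)]
      norm_num
  have h3 : 0 ≤ min 1 (len (u - v) / jb v) := le_min zero_le_one hr
  unfold mm
  rw [h1, h2, ← Real.rpow_natCast, ← Real.rpow_mul h3]
  congr 1
  push_cast
  ring

/-- the singular part near the diagonal -/
private noncomputable def hgJ (m ρ : ℝ) (z : Vec d) : ℝ :=
  if len z < ρ then len z ^ (-(2 * m)) else 0

private lemma hgJ_nonneg (m ρ : ℝ) (z : Vec d) : 0 ≤ hgJ m ρ z := by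
  unfold hgJ
  split_ifs
  · exact Real.rpow_nonneg (len_nonneg z) _
  · exact le_rfl

private lemma hgJ_meas (m ρ : ℝ) : Measurable fun z : Vec d => hgJ m ρ z := by
  unfold hgJ
  exact Measurable.ite (measurableSet_lt continuous_len.measurable measurable_const)
    (continuous_len.measurable.pow_const _) measurable_const

private lemma hgJ_le {m ρ : ℝ} (hm : 0 < m) (hρ : ρ ≤ 1) (z : Vec d) :
    ‖hgJ m ρ z‖ ≤ 2 ^ (d + 3) * (‖z‖ ^ (-(2 * m)) * ((1 + ‖z‖) ^ (d + 3))⁻¹) := by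
  have hz : 0 ≤ ‖z‖ ^ (-(2 * m)) := Real.rpow_nonneg (norm_nonneg z) _
  have hw : 0 < 1 + ‖z‖ := by positivity
  rw [Real.norm_eq_abs, abs_of_nonneg (hgJ_nonneg m ρ z)]
  unfold hgJ
  split_ifs with h
  · have h1 : len z ^ (-(2 * m)) ≤ ‖z‖ ^ (-(2 * m)) := by
      by_cases hz0 : z = 0
      · rw [hz0, len_zero, norm_zero]
      · exact Real.rpow_le_rpow_of_nonpos (norm_pos_iff.2 hz0) (norm_le_len z) (by linarith)
    have h2 : ‖z‖ ≤ 1 := (norm_le_len z).trans (h.le.trans hρ)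
    have h3 : (1 + ‖z‖) ^ (d + 3) ≤ 2 ^ (d + 3) := pow_le_pow_left₀ hw.le (by linarith) _
    have h4 : (1 : ℝ) ≤ 2 ^ (d + 3) * ((1 + ‖z‖) ^ (d + 3))⁻¹ := by
      rw [← div_eq_mul_inv, le_div_iff₀ (by positivity), one_mul]
      exact h3
    calc len z ^ (-(2 * m)) ≤ ‖z‖ ^ (-(2 * m)) * 1 := by rw [mul_one]; exact h1
      _ ≤ ‖z‖ ^ (-(2 * m)) * (2 ^ (d + 3) * ((1 + ‖z‖) ^ (d + 3))⁻¹) :=
        mul_le_mul_of_nonneg_left h4 hz
      _ = 2 ^ (d + 3) * (‖z‖ ^ (-(2 * m)) * ((1 + ‖z‖) ^ (d + 3))⁻¹) := by ring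
  · positivity

private lemma hgJ_dom (hd : 2 ≤ d) {m : ℝ} (hm : 0 < m) (hm1 : m < 1) :
    Integrable fun z : Vec d => 2 ^ (d + 3) * (‖z‖ ^ (-(2 * m)) * ((1 + ‖z‖) ^ (d + 3))⁻¹) :=
  (int_norm_rpow hd (a := -(2 * m)) (by linarith) (by linarith)).const_mul _

private lemma hgJ_int (hd : 2 ≤ d) {m ρ : ℝ} (hm : 0 < m) (hm1 : m < 1) (hρ : ρ ≤ 1) :
    Integrable fun z : Vec d => hgJ m ρ z :=
  (hgJ_dom hd hm hm1).mono' (hgJ_meas m ρ).aestronglyMeasurable
    (Eventually.of_forall fun z => hgJ_le hm hρ z)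

private lemma hgJ_lim (hd : 2 ≤ d) {m : ℝ} (hm : 0 < m) (hm1 : m < 1) {η : ℝ} (hη : 0 < η) :
    ∃ ρ : ℝ, 0 < ρ ∧ ρ ≤ 1 / 2 ∧ ∫ z : Vec d, hgJ m ρ z ≤ η := by
  have hρ : ∀ n : ℕ, (1 : ℝ) / ((n : ℝ) + 2) ≤ 1 / 2 := fun n => by
    apply one_div_le_one_div_of_le (by norm_num)
    have : (0 : ℝ) ≤ n := Nat.cast_nonneg n
    linarith
  have h := tendsto_integral_of_dominated_convergence
    (F := fun (n : ℕ) (z : Vec d) => hgJ m (1 / ((n : ℝ) + 2)) z) (f := fun _ : Vec d => (0 : ℝ))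
    (μ := volume)
    (fun z : Vec d => 2 ^ (d + 3) * (‖z‖ ^ (-(2 * m)) * ((1 + ‖z‖) ^ (d + 3))⁻¹))
    (fun n => (hgJ_meas m _).aestronglyMeasurable) (hgJ_dom hd hm hm1)
    (fun n => Eventually.of_forall fun z => hgJ_le hm ((hρ n).trans (by norm_num)) z)
    (Eventually.of_forall fun z => by
      rcases (len_nonneg z).eq_or_lt with h0 | h0
      · have e : ∀ n : ℕ, hgJ m (1 / ((n : ℝ) + 2)) z = 0 := fun n => by
          unfold hgJ
          rw [← h0, Real.zero_rpow (by linarith), ite_self]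
        simp_rw [e]
        exact tendsto_const_nhds
      · have h1 : Tendsto (fun n : ℕ => (1 : ℝ) / ((n : ℝ) + 2)) atTop (𝓝 0) := by
          have h2 : Tendsto (fun n : ℕ => (n : ℝ) + 2) atTop atTop :=
            tendsto_atTop_add_const_right _ _ tendsto_natCast_atTop_atTop
          refine h2.inv_tendsto_atTop.congr fun n => ?_
          rw [Pi.inv_apply, one_div]
        refine tendsto_const_nhds.congr' ?_
        filter_upwards [h1.eventually (gt_mem_nhds h0)] with n hn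
        unfold hgJ
        rw [if_neg (not_lt.2 hn.le)])
  rw [integral_zero] at h
  obtain ⟨n, hn⟩ := (h.eventually (gt_mem_nhds hη)).exists
  exact ⟨1 / ((n : ℝ) + 2), by positivity, hρ n, hn.le⟩

/-- the elementary inequality for the cusps -/
private lemma hg_cusp {m : ℝ} (hm : 0 < m) (hm1 : m < 1) {l L J : ℝ} (hl : 0 ≤ l) (hL : 0 ≤ L)
    (hJ : 0 < J) :
    min 1 (l / L) + min 1 (l / J) ≤ min 1 (l / J) ^ m * (2 + (J / L) ^ m) := by
  have hq : 0 ≤ l / J := by positivity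
  have hpw : ∀ t : ℝ, 0 ≤ t → t ≤ 1 → t ≤ t ^ m := fun t h0 h1 => by
    rcases h0.eq_or_lt with h | h
    · rw [← h]
      exact Real.rpow_nonneg le_rfl _
    · calc t = t ^ (1 : ℝ) := (Real.rpow_one t).symm
        _ ≤ t ^ m := Real.rpow_le_rpow_of_exponent_ge h h1 hm1.le
  have ht0 : 0 ≤ min 1 (l / J) := le_min zero_le_one hq
  have htm : 0 ≤ min 1 (l / J) ^ m := Real.rpow_nonneg ht0 _
  have h2 : min 1 (l / J) ≤ min 1 (l / J) ^ m := hpw _ ht0 (min_le_left _ _)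
  have hJL : 0 ≤ (J / L) ^ m := Real.rpow_nonneg (by positivity) _
  have h1 : min 1 (l / L) ≤ min 1 (l / J) ^ m * (1 + (J / L) ^ m) := by
    rcases hL.eq_or_lt with h | h
    · rw [← h, div_zero, min_eq_right zero_le_one]
      have h5 : 0 ≤ (J / (0 : ℝ)) ^ m := Real.rpow_nonneg (by simp) _
      positivity
    · rcases le_total 1 (l / J) with hc | hc
      · rw [min_eq_left hc, Real.one_rpow, one_mul]
        exact (min_le_left _ _).trans (by linarith)
      · rw [min_eq_right hc]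
        have hy : 0 ≤ l / L := by positivity
        have h3 : min 1 (l / L) ≤ (l / L) ^ m := by
          rcases le_total 1 (l / L) with h4 | h4
          · rw [min_eq_left h4]
            exact Real.one_le_rpow h4 hm.le
          · rw [min_eq_right h4]
            exact hpw _ hy h4
        have h4 : (l / L) ^ m = (l / J) ^ m * (J / L) ^ m := by
          rw [← Real.mul_rpow hq (by positivity)]
          congr 1
          field_simp
        rw [h4] at h3
        have h5 : 0 ≤ (l / J) ^ m := Real.rpow_nonneg hq _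
        nlinarith
  nlinarith

/-- the elementary inequality for the singular part -/
private lemma hg_sing {a m : ℝ} (ha : 0 ≤ a) (hm : 0 < m) (ham : a + m < 1) {p : ℕ} (hp : 1 ≤ p)
    {A j J L ρ θ X : ℝ} (hA : 0 ≤ A) (hj : 1 ≤ j) (hJ : 1 ≤ J) (hL : 0 ≤ L) (hjJ : |J - j| ≤ L)
    (hρ : 0 < ρ) (hρ1 : ρ ≤ 1 / 2) (hθ : 0 < θ)
    (hX : X = if L < ρ then L ^ (-(2 * m)) else 0) :
    A * (J / L) ^ m ≤ 2 * ρ ^ (-m) * (A * j) + θ * ((A * j ^ (-a)) ^ 2 * (j ^ 2) ^ p) + θ⁻¹ * X := by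
  have hj0 : 0 < j := by linarith
  have hJ0 : 0 < J := by linarith
  have hX0 : 0 ≤ X := by
    rw [hX]
    split_ifs
    · exact Real.rpow_nonneg hL _
    · exact le_rfl
  have hm1 : m < 1 := by linarith
  have h2m : (2 : ℝ) ^ m ≤ 2 := by
    calc (2 : ℝ) ^ m ≤ 2 ^ (1 : ℝ) := Real.rpow_le_rpow_of_exponent_le (by norm_num) hm1.le
      _ = 2 := Real.rpow_one 2
  have hjm : j ^ m ≤ j := by
    calc j ^ m ≤ j ^ (1 : ℝ) := Real.rpow_le_rpow_of_exponent_le hj hm1.le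
      _ = j := Real.rpow_one j
  have hρm : 1 ≤ ρ ^ (-m) := by
    rw [Real.rpow_neg hρ.le]
    exact (one_le_inv₀ (Real.rpow_pos_of_pos hρ m)).2 (Real.rpow_le_one hρ.le (by linarith) hm.le)
  have hJj := (abs_le.1 hjJ).2
  have ht1 : 0 ≤ 2 * ρ ^ (-m) * (A * j) := by positivity
  have ht2 : 0 ≤ θ * ((A * j ^ (-a)) ^ 2 * (j ^ 2) ^ p) := by positivity
  have ht3 : 0 ≤ θ⁻¹ * X := by positivity
  rcases le_or_gt ρ L with hc | hc
  · have hL0 : 0 < L := lt_of_lt_of_le hρ hc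
    have h1 : (J / L) ^ m ≤ 2 * ρ ^ (-m) * j := by
      rcases le_or_gt (J / 2) L with h | h
      · have h3 : J / L ≤ 2 := by
          rw [div_le_iff₀ hL0]
          linarith
        have h4 : (J / L) ^ m ≤ 2 ^ m := Real.rpow_le_rpow (by positivity) h3 hm.le
        have h5 : 1 * 1 ≤ ρ ^ (-m) * j := mul_le_mul hρm hj zero_le_one (by positivity)
        linarith
      · have h3 : J / L ≤ 2 * j * ρ⁻¹ := by
          rw [← div_eq_mul_inv]
          exact div_le_div₀ (by positivity) (by linarith) hρ hc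
        have h4 : (J / L) ^ m ≤ (2 * j * ρ⁻¹) ^ m := Real.rpow_le_rpow (by positivity) h3 hm.le
        rw [Real.mul_rpow (by positivity) (by positivity), Real.mul_rpow (by norm_num) hj0.le,
          Real.inv_rpow hρ.le, ← Real.rpow_neg hρ.le] at h4
        have h5 : 2 ^ m * j ^ m ≤ 2 * j :=
          mul_le_mul h2m hjm (Real.rpow_nonneg hj0.le _) (by norm_num)
        have h6 : 2 ^ m * j ^ m * ρ ^ (-m) ≤ 2 * j * ρ ^ (-m) :=
          mul_le_mul_of_nonneg_right h5 (by positivity)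
        linarith
    have h2 : A * (J / L) ^ m ≤ A * (2 * ρ ^ (-m) * j) := mul_le_mul_of_nonneg_left h1 hA
    have h3 : A * (2 * ρ ^ (-m) * j) = 2 * ρ ^ (-m) * (A * j) := by ring
    linarith
  · rcases hL.eq_or_lt with h0 | h0
    · have h1 : A * (J / L) ^ m = 0 := by
        rw [← h0, div_zero, Real.zero_rpow hm.ne', mul_zero]
      linarith
    · have hXe : X = (L ^ (-m)) ^ 2 := by
        rw [hX, if_pos hc, ← Real.rpow_natCast, ← Real.rpow_mul h0.le]
        congr 1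
        push_cast
        ring
      have h3 : J / L ≤ 2 * j * L⁻¹ := by
        rw [← div_eq_mul_inv]
        exact div_le_div_of_nonneg_right (by linarith) h0.le
      have h4 : (J / L) ^ m ≤ (2 * j * L⁻¹) ^ m := Real.rpow_le_rpow (by positivity) h3 hm.le
      rw [Real.mul_rpow (by positivity) (by positivity), Real.mul_rpow (by norm_num) hj0.le,
        Real.inv_rpow h0.le, ← Real.rpow_neg h0.le] at h4
      have hLm : 0 ≤ L ^ (-m) := Real.rpow_nonneg h0.le _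
      have h5 : 2 ^ m * j ^ m * L ^ (-m) ≤ 2 * j ^ m * L ^ (-m) :=
        mul_le_mul_of_nonneg_right (mul_le_mul_of_nonneg_right h2m (Real.rpow_nonneg hj0.le _)) hLm
      have h6 : A * j ^ m ≤ A * j ^ (-a) * j := by
        have h7 : j ^ m ≤ j ^ (-a) * j := by
          calc j ^ m ≤ j ^ (-a + 1) := Real.rpow_le_rpow_of_exponent_le hj (by linarith)
            _ = j ^ (-a) * j := by rw [Real.rpow_add hj0, Real.rpow_one]
        calc A * j ^ m ≤ A * (j ^ (-a) * j) := mul_le_mul_of_nonneg_left h7 hA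
          _ = A * j ^ (-a) * j := by ring
      set Y := A * j ^ (-a) with hY
      have hY0 : 0 ≤ Y := by positivity
      set Z := L ^ (-m) with hZ
      have h8 : A * (J / L) ^ m ≤ 2 * (Y * j) * Z := by
        calc A * (J / L) ^ m ≤ A * (2 * j ^ m * Z) := mul_le_mul_of_nonneg_left (h4.trans h5) hA
          _ = 2 * (A * j ^ m) * Z := by ring
          _ ≤ 2 * (Y * j) * Z := by gcongr
      have h9 : 2 * (Y * j) * Z ≤ θ * (Y * j) ^ 2 + θ⁻¹ * Z ^ 2 := by
        have h10 : 0 ≤ θ⁻¹ * (θ * (Y * j) - Z) ^ 2 := by positivity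
        have h11 : θ⁻¹ * (θ * (Y * j) - Z) ^ 2 =
            θ * (Y * j) ^ 2 + θ⁻¹ * Z ^ 2 - 2 * (Y * j) * Z := by
          field_simp
          ring
        linarith
      have h12 : (Y * j) ^ 2 ≤ Y ^ 2 * (j ^ 2) ^ p := by
        rw [mul_pow]
        have h13 : (j ^ 2) ^ 1 ≤ (j ^ 2) ^ p := pow_le_pow_right₀ (by nlinarith) hp
        rw [pow_one] at h13
        exact mul_le_mul_of_nonneg_left h13 (by positivity)
      have h14 : θ * (Y * j) ^ 2 ≤ θ * (Y ^ 2 * (j ^ 2) ^ p) := mul_le_mul_of_nonneg_left h12 hθ.le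
      rw [hXe]
      linarith

theorem hol_G (hd : 2 ≤ d) {a m : ℝ} (ha : 0 ≤ a) (hm : 0 < m) (ham : a + m < 1) {p₂ : ℕ} (hp : 1 ≤ p₂)
    {Λ K δ : ℝ} (hΛ : 0 ≤ Λ) (hK : 0 ≤ K) (hδ : 0 < δ) :
    ∃ ε₀ : ℝ, 0 < ε₀ ∧ ∀ P : Pg, P.Ok → P.a = a → P.K = K → ∀ r : ℝ, 0 < r → r ≤ 1 →
      ∀ (e : Fin d) (F G : Vec d → Vec d → ℝ), FS e F G →
      ∫ p, (F p.2 p.1 - gb P.R P.C₀ F p.2 p.1) * jb p.1 ^ (1 + P.a) ∂(nu d) ≤ ε₀ →
      ∫ q, F q.2 q.1 ^ 2 * (1 + nsq q.1) ^ p₂ ∂(nu d) ≤ Λ → ∀ x u v : Vec d,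
        |EG P r e F x u - EG P r e F x v| ≤ δ * mm m v u := by
  have hm1 : m < 1 := by linarith
  obtain ⟨K', hK', hosc⟩ := EG_osc (d := d) ha (by linarith : a < 1)
  have hKK : 0 ≤ K * K' := mul_nonneg hK hK'
  obtain ⟨η, hη⟩ : ∃ η : ℝ, η = δ / (3 * (K * K' + 1)) := ⟨_, rfl⟩
  have hη0 : 0 < η := by rw [hη]; positivity
  have hηδ : K * K' * (3 * η) ≤ δ := by
    have h1 : (K * K' + 1) * (3 * η) = δ := by
      rw [hη]
      field_simp
    nlinarith
  obtain ⟨θ, hθd⟩ : ∃ θ : ℝ, θ = η / (Λ + 1) := ⟨_, rfl⟩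
  have hθ : 0 < θ := by rw [hθd]; positivity
  have hθΛ : θ * Λ ≤ η := by
    have h1 : θ * (Λ + 1) = η := by
      rw [hθd]
      field_simp
    nlinarith
  obtain ⟨ρ, hρ, hρ1, hJ⟩ := hgJ_lim hd hm hm1 (mul_pos hη0 hθ)
  have hρm : 0 < ρ ^ (-m) := Real.rpow_pos_of_pos hρ _
  refine ⟨η / (2 + 2 * ρ ^ (-m)), by positivity, ?_⟩
  intro P hP hPa hPK r hr hr1 e F G h h1 h2 x u v
  obtain ⟨hc, hrd, hn0⟩ := nG_cont hP h x
  obtain ⟨i1, b1⟩ := nG_int hP h h1 x
  obtain ⟨i2, b2⟩ := nG_sq hP h h2 x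
  have i3 : Integrable fun w : Vec d => hgJ m ρ (v - w) :=
    (hgJ_int hd hm hm1 (hρ1.trans (by norm_num))).comp_sub_left v
  have b3 : ∫ w : Vec d, hgJ m ρ (v - w) ≤ η * θ := by
    rw [integral_sub_left_eq_self (fun z : Vec d => hgJ m ρ z)]
    exact hJ
  refine (hosc P hP hPa r hr hr1 e F G h x v u).trans ?_
  have hmm : 0 ≤ mm m v u := by
    rw [hg_mm]
    exact Real.rpow_nonneg (le_min zero_le_one (div_nonneg (len_nonneg _) (jb_pos v).le)) _
  obtain ⟨H, hH⟩ : ∃ H : Vec d → ℝ, H = fun w => (2 + 2 * ρ ^ (-m)) * (nG P e F x w * jb w) +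
      θ * ((nG P e F x w * jb w ^ (-P.a)) ^ 2 * (1 + nsq w) ^ p₂) + θ⁻¹ * hgJ m ρ (v - w) :=
    ⟨_, rfl⟩
  have iH : Integrable H := by
    rw [hH]
    exact ((i1.const_mul _).add (i2.const_mul θ)).add (i3.const_mul θ⁻¹)
  have bH : ∫ w, H w ≤ 3 * η := by
    have j1 : Integrable fun w => (2 + 2 * ρ ^ (-m)) * (nG P e F x w * jb w) := i1.const_mul _
    have j2 : Integrable fun w => θ * ((nG P e F x w * jb w ^ (-P.a)) ^ 2 * (1 + nsq w) ^ p₂) :=
      i2.const_mul θ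
    have j3 : Integrable fun w => θ⁻¹ * hgJ m ρ (v - w) := i3.const_mul θ⁻¹
    have j12 : Integrable fun w => (2 + 2 * ρ ^ (-m)) * (nG P e F x w * jb w) +
      θ * ((nG P e F x w * jb w ^ (-P.a)) ^ 2 * (1 + nsq w) ^ p₂) := j1.add j2
    have e0 : ∫ w, H w = (2 + 2 * ρ ^ (-m)) * (∫ w, nG P e F x w * jb w) +
        θ * (∫ w, (nG P e F x w * jb w ^ (-P.a)) ^ 2 * (1 + nsq w) ^ p₂) +
        θ⁻¹ * ∫ w : Vec d, hgJ m ρ (v - w) := by
      rw [hH]
      calc _ = (∫ w, ((2 + 2 * ρ ^ (-m)) * (nG P e F x w * jb w) +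
              θ * ((nG P e F x w * jb w ^ (-P.a)) ^ 2 * (1 + nsq w) ^ p₂))) +
            ∫ w, θ⁻¹ * hgJ m ρ (v - w) := integral_add j12 j3
        _ = _ := by
          rw [integral_add j1 j2, integral_const_mul, integral_const_mul, integral_const_mul]
    rw [e0]
    have e1 : (2 + 2 * ρ ^ (-m)) * ∫ w, nG P e F x w * jb w ≤ η := by
      have := mul_le_mul_of_nonneg_left b1 (by positivity : 0 ≤ 2 + 2 * ρ ^ (-m))
      rw [mul_div_cancel₀ _ (by positivity : 2 + 2 * ρ ^ (-m) ≠ 0)] at this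
      exact this
    have e2 := (mul_le_mul_of_nonneg_left b2 hθ.le).trans hθΛ
    have e3 : θ⁻¹ * ∫ w : Vec d, hgJ m ρ (v - w) ≤ η := by
      have := mul_le_mul_of_nonneg_left b3 (inv_nonneg.2 hθ.le)
      rw [mul_comm η θ, inv_mul_cancel_left₀ hθ.ne'] at this
      exact this
    linarith
  have hpt : ∀ w, (P.K * K' * nG P e F x w) *
      (min 1 (len (u - v) / len (v - w)) + min 1 (len (u - v) / jb v)) ≤
      K * K' * mm m v u * H w := by
    intro w
    have hA := hn0 w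
    have c1 := hg_cusp hm hm1 (len_nonneg (u - v)) (len_nonneg (v - w)) (jb_pos v)
    rw [← hg_mm] at c1
    have c2 := hg_sing ha hm ham hp hA (one_le_jb w) (one_le_jb v) (len_nonneg (v - w))
      (jb_lip v w) hρ hρ1 hθ (X := hgJ m ρ (v - w)) rfl
    rw [jb_sq] at c2
    have c3 : nG P e F x w * (2 + (jb v / len (v - w)) ^ m) ≤ H w := by
      rw [hH]
      simp only
      rw [hPa]
      have c4 : nG P e F x w ≤ nG P e F x w * jb w := le_mul_of_one_le_right hA (one_le_jb w)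
      nlinarith
    calc (P.K * K' * nG P e F x w) *
        (min 1 (len (u - v) / len (v - w)) + min 1 (len (u - v) / jb v))
        ≤ (P.K * K' * nG P e F x w) * (mm m v u * (2 + (jb v / len (v - w)) ^ m)) := by
          rw [hPK]
          exact mul_le_mul_of_nonneg_left c1 (mul_nonneg hKK hA)
      _ = K * K' * mm m v u * (nG P e F x w * (2 + (jb v / len (v - w)) ^ m)) := by
          rw [hPK]
          ring
      _ ≤ K * K' * mm m v u * H w :=
          mul_le_mul_of_nonneg_left c3 (mul_nonneg hKK hmm)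
  have hint := integral_mono_of_nonneg (μ := (volume : Measure (Vec d)))
    (f := fun w => (P.K * K' * nG P e F x w) *
      (min 1 (len (u - v) / len (v - w)) + min 1 (len (u - v) / jb v)))
    (g := fun w => K * K' * mm m v u * H w)
    (Eventually.of_forall fun w => by
      refine mul_nonneg (mul_nonneg (mul_nonneg hP.hK hK') (hn0 w)) (add_nonneg ?_ ?_)
      · exact le_min zero_le_one (div_nonneg (len_nonneg _) (len_nonneg _))
      · exact le_min zero_le_one (div_nonneg (len_nonneg _) (jb_pos v).le))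
    (iH.const_mul _) (Eventually.of_forall hpt)
  refine hint.trans ?_
  rw [integral_const_mul]
  calc K * K' * mm m v u * ∫ w, H w ≤ K * K' * mm m v u * (3 * η) :=
        mul_le_mul_of_nonneg_left bH (mul_nonneg hKK hmm)
    _ = K * K' * (3 * η) * mm m v u := by ring
    _ ≤ δ * mm m v u := mul_le_mul_of_nonneg_right hηδ hmm

end Pool.Agent.H48.PG
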