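import Pool.Agent.H48.PG.AbsG
import Pool.Agent.H48.PG.HolG
import Pool.Agent.H48.PG.LocG
import Pool.Agent.H48.PV.VarL
import Pool.Agent.H48.PI.WinT
import Pool.Agent.H48.PV.CoreU

/-!
# Module CoreG: choice of the parameters, the touching point

As `core_U` (H48/PV/CoreU.lean, copy). `K₀, κ, δ₁` from `op_g` (`β = m`), `K = K₀`; `R₂, C₂, cV` from `var_low M hm`; `lam₀` from `loc_G`; `lam` with `lam 2R₂M² ≤ 1/8`; `ε₀` from `hol_G` (`δ = δ₁/4`, `Λ`, `K`, `p₂`); `ε₂ = min ε₀ ..` with `K 4 ε₂ ≤ lam cV/8`, `K ε₂ ≤ 1/8`; `R, C₀` from `gb_small`; `N₁` from `op_g` (`C₀`, `2R`);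
`c = min (lam cV/2) (1/8)`, `K₁ = K₀ vol{len ≤ 1}`. Touching point: `touch_E`, `TouchS δ₁ m p g v` (private `cu_touch`). `V_PhS_PhR` as in `l2_slice` (L2Sl.lean).
-/

set_option autoImplicit false

open MeasureTheory Set Filter Topology Pool.Agent.H25.Kin Pool.Agent.H82.BK Pool.Agent.H82.CM
open Pool.Agent.H48.PL Pool.Agent.H48.PI Pool.Agent.H48.PW Pool.Agent.H48.PV Pool.Agent.H15.G1
open Pool.Agent.H85.UP
open Pool.Agent.H15.AV (UNice gau)

namespace Pool.Agent.H48.PG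

variable {d : ℕ} {s a m C Ca cb : ℝ} {b : ℝ → ℝ}

private lemma cg_mm (a : ℝ) (v u : Vec d) : mm a v u = min 1 (len (u - v) / jb v) ^ a := by
  have hj := jb_pos v
  have hn : 0 ≤ nsq (u - v) := by
    unfold nsq
    exact Finset.sum_nonneg fun i _ => sq_nonneg _
  have hl : 0 ≤ len (u - v) := Real.sqrt_nonneg _
  have h1 : nsq (u - v) / (1 + nsq v) = (len (u - v) / jb v) ^ 2 := by
    rw [div_pow, jb_sq]
    unfold len
    rw [Real.sq_sqrt hn]
  have hr : 0 ≤ len (u - v) / jb v := by positivity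
  have h2 : min 1 ((len (u - v) / jb v) ^ 2) = (min 1 (len (u - v) / jb v)) ^ 2 := by
    rcases le_total (len (u - v) / jb v) 1 with h | h
    · rw [min_eq_right h, min_eq_right (by nlinarith)]
    · rw [min_eq_left h, min_eq_left (by nlinarith)]
      norm_num
  have h3 : 0 ≤ min 1 (len (u - v) / jb v) := le_min zero_le_one hr
  unfold mm
  rw [h1, h2, ← Real.rpow_natCast, ← Real.rpow_mul h3]
  congr 1
  push_cast
  ring

private lemma cg_mm01 (hm : 0 < m) (v u : Vec d) : 0 ≤ mm m v u ∧ mm m v u ≤ 1 := by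
  rw [cg_mm]
  have hr : 0 ≤ min 1 (len (u - v) / jb v) :=
    le_min zero_le_one (div_nonneg (Real.sqrt_nonneg _) (jb_pos v).le)
  exact ⟨Real.rpow_nonneg hr _, Real.rpow_le_one hr (min_le_left _ _) hm.le⟩

private lemma cg_mm_meas (m : ℝ) (v : Vec d) : Measurable fun u : Vec d => mm m v u := by
  have e1 : (fun u : Vec d => mm m v u) = fun u : Vec d => min 1 (len (u - v) / jb v) ^ m := by
    funext u
    exact cg_mm m v u
  rw [e1]
  have h1 : Measurable fun u : Vec d => len (u - v) / jb v :=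
    (continuous_len.comp (continuous_id.sub continuous_const)).measurable.div_const _
  exact (measurable_const.min h1).pow_const _

private lemma cg_touch {δ : ℝ} (hδ : 0 < δ) (hm : 0 < m) {p : ℕ} {g : Vec d → ℝ} {v : Vec d}
    (h : Touch δ m p g v) : TouchS δ m p g v := by
  refine ⟨fun u => δ * mm m v u, (cg_mm_meas m v).const_mul δ, fun u => h u, fun u => ?_,
    fun w _ k _ => ?_⟩
  · have h1 := cg_mm01 hm v u
    rw [abs_of_nonneg (mul_nonneg hδ.le h1.1)]
    nlinarith [h1.2]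
  · have e1 : ∀ σ : Vec d, k (co w σ) * (δ * mm m v (v + hh σ w)) =
        δ * (k (co w σ) * mm m v (v + hh σ w)) := fun σ => by ring
    simp_rw [e1]
    rw [integral_const_mul]

/-- the volume of the unit ball (for `len`) -/
private noncomputable def cg_vol (d : ℕ) : ℝ := (volume {u : Vec d | len u < 1}).toReal

private lemma cg_fin : volume {u : Vec d | len u < 1} ≠ ⊤ := by
  refine ne_of_lt (lt_of_le_of_lt (measure_mono fun u hu => ?_) (measure_ball_lt_top (x := (0 : Vec d)) (r := 1)))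
  rw [mem_ball_zero_iff]
  exact lt_of_le_of_lt (norm_le_len u) hu

private lemma cg_small {r : ℝ} (hr1 : r ≤ 1) (v : Vec d) :
    volume {w : Vec d | len (v - w) < r} ≤ volume {u : Vec d | len u < 1} := by
  have h1 : {w : Vec d | len (v - w) < r} ⊆ (fun w => v - w) ⁻¹' {u : Vec d | len u < 1} := by
    intro w hw
    have hw' : len (v - w) < r := hw
    show len (v - w) < 1
    linarith
  refine (measure_mono h1).trans (le_of_eq ?_)
  refine (Measure.measurePreserving_sub_left volume v).measure_preimage ?_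
  exact (isOpen_lt continuous_len continuous_const).measurableSet.nullMeasurableSet

/-- the flux with the weight `PhS` is bounded by the flux with the weight `PhR` and an error of order `r` -/
private lemma cg_flux {r : ℝ} (ha : 0 ≤ a) (ha1 : a < 1) (hr : 0 < r) (hr1 : r ≤ 1) (e : Fin d)
    {C₀ R B₀ : ℝ} (hC : 0 < C₀) {g : Vec d → ℝ} (hg : Nice g) (hg0 : ∀ u, 0 ≤ g u) (hB : ∀ u, g u ≤ B₀)
    (v : Vec d) :
    ∫ w, (v e - w e) * PhS e a v w * (g w - chi R w * bet C₀ (g w)) ≤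
      (∫ w, (v e - w e) * PhR e a r v w * (g w - chi R w * bet C₀ (g w))) + r * B₀ * cg_vol d := by
  have hb0 : ∀ u, 0 ≤ bet C₀ (g u) := fun u => bet_nonneg hC (hg0 u)
  have hle : ∀ u, chi R u * bet C₀ (g u) ≤ g u := fun u => by
    calc chi R u * bet C₀ (g u) ≤ 1 * bet C₀ (g u) :=
          mul_le_mul_of_nonneg_right (chi_le_one _ _) (hb0 u)
      _ = bet C₀ (g u) := one_mul _
      _ ≤ g u := bet_le hC (hg0 u)
  have h0 : ∀ u, 0 ≤ g u - chi R u * bet C₀ (g u) := fun u => sub_nonneg.2 (hle u)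
  have hcb : Continuous fun u : Vec d => bet C₀ (g u) := by
    unfold bet
    refine (continuous_const.mul hg.cont).div (continuous_const.add hg.cont) fun u => ?_
    have := hg0 u
    linarith
  have hc : Continuous fun u : Vec d => g u - chi R u * bet C₀ (g u) :=
    hg.cont.sub ((chi_cont R).mul hcb)
  have hrd : RD fun u : Vec d => g u - chi R u * bet C₀ (g u) := by
    intro N
    obtain ⟨B, hB⟩ := hg.rd N
    refine ⟨B, fun u => le_trans (mul_le_mul_of_nonneg_left ?_ (by positivity)) (hB u)⟩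
    rw [Real.norm_eq_abs, Real.norm_eq_abs, abs_of_nonneg (h0 u), abs_of_nonneg (hg0 u)]
    have := mul_nonneg (chi_nonneg R u) (hb0 u)
    linarith
  have hint : Integrable fun w => (v e - w e) * PhR e a r v w * (g w - chi R w * bet C₀ (g w)) :=
    avg_int ((PhR_PGW ha ha1 hr e).vmul e) hrd hc v
  have hB0 : 0 ≤ B₀ := (hg0 0).trans (hB 0)
  obtain ⟨S, hS⟩ : ∃ S : Set (Vec d), S = {w : Vec d | len (v - w) < r} := ⟨_, rfl⟩
  have hSm : MeasurableSet S := by
    rw [hS]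
    exact (isOpen_lt (continuous_len.comp (continuous_const.sub continuous_id))
      continuous_const).measurableSet
  have hSf : volume S ≠ ⊤ := by
    rw [hS]
    exact ne_of_lt (lt_of_le_of_lt (cg_small hr1 v) (lt_top_iff_ne_top.2 cg_fin))
  have hind : Integrable (S.indicator fun _ : Vec d => r * B₀) :=
    (integrable_indicator_iff hSm).2 (integrableOn_const hSf)
  have e1 : ∫ w, S.indicator (fun _ : Vec d => r * B₀) w ≤ r * B₀ * cg_vol d := by
    rw [integral_indicator hSm, setIntegral_const, smul_eq_mul, mul_comm]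
    refine mul_le_mul_of_nonneg_left ?_ (mul_nonneg hr.le hB0)
    unfold cg_vol Measure.real
    refine ENNReal.toReal_mono cg_fin ?_
    rw [hS]
    exact cg_small hr1 v
  have e2 : ∫ w, (v e - w e) * PhS e a v w * (g w - chi R w * bet C₀ (g w)) ≤
      ∫ w, ((v e - w e) * PhR e a r v w * (g w - chi R w * bet C₀ (g w)) +
        S.indicator (fun _ : Vec d => r * B₀) w) := by
    refine integral_mono_of_nonneg (Eventually.of_forall fun w => ?_) (hint.add hind)
      (Eventually.of_forall fun w => ?_)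
    · refine mul_nonneg ?_ (h0 w)
      unfold PhS phi
      have e1 : (v e - w e) * (min 1 (jb w / jb v) ^ 4 * ((v - w) e * len (v - w) ^ (a - 1))) =
          min 1 (jb w / jb v) ^ 4 * ((v e - w e) ^ 2 * len (v - w) ^ (a - 1)) := by
        rw [Pi.sub_apply]
        ring
      rw [e1]
      have h1 : 0 ≤ len (v - w) ^ (a - 1) := Real.rpow_nonneg (len_nonneg _) _
      have h2 : 0 ≤ min 1 (jb w / jb v) :=
        le_min zero_le_one (div_nonneg (jb_pos w).le (jb_pos v).le)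
      positivity
    · have h1 := mul_le_mul_of_nonneg_right (V_PhS_PhR ha ha1 hr e v w) (h0 w)
      have h2 : (if len (v - w) < r then r ^ (1 + a) else 0) * (g w - chi R w * bet C₀ (g w)) ≤
          S.indicator (fun _ : Vec d => r * B₀) w := by
        by_cases hw : len (v - w) < r
        · have hwS : w ∈ S := by rw [hS]; exact hw
          rw [if_pos hw, Set.indicator_of_mem hwS]
          have h3 : r ^ (1 + a) ≤ r := by
            calc r ^ (1 + a) ≤ r ^ (1 : ℝ) :=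
                  Real.rpow_le_rpow_of_exponent_ge hr hr1 (by linarith)
              _ = r := Real.rpow_one r
          have h4 : g w - chi R w * bet C₀ (g w) ≤ B₀ := by
            have := mul_nonneg (chi_nonneg R w) (hb0 w)
            linarith [hB w]
          exact mul_le_mul h3 h4 (h0 w) hr.le
        · have hwS : w ∉ S := by rw [hS]; exact hw
          rw [if_neg hw, Set.indicator_of_notMem hwS, zero_mul]
      simp only
      rw [add_mul] at h1
      linarith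
  rw [integral_add hint hind] at e2
  linarith

theorem core_G (HL : HypL d (1 + a) s b C Ca cb) (E : GE s a m) {p p₂ : ℕ}
    (hp : (d : ℝ) + (1 + a) + 4 ≤ 2 * p) (hp₂ : 1 ≤ p₂) (e : Fin d) {M : ℝ} (hM : 0 ≤ M) {m₀ : ℝ} (hm : 0 < m₀)
    {Λ : ℝ} (hΛ : 0 ≤ Λ) :
    ∃ (P : Pg) (N₁ c K₁ : ℝ), P.Ok ∧ P.a = a ∧ 0 < N₁ ∧ 0 < c ∧ c ≤ 1 / 8 ∧ 0 ≤ K₁ ∧
      ∀ r : ℝ, 0 < r → r ≤ 1 → ∀ F G : Vec d → Vec d → ℝ, FS e F G → GB M F → m₀ ≤ ∫ p, F p.2 p.1 ∂(nu d) →
        ∫ q, F q.2 q.1 ^ 2 * (1 + nsq q.1) ^ p₂ ∂(nu d) ≤ Λ →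
        (∀ x v, |EG P r e F x v| ≤ 1 / 4) ∧
        ∀ B₀ : ℝ, (∀ x v, F x v ≤ B₀) → ∀ x v : Vec d, Nice (F x) → N₁ ≤ F x v * (1 + nsq v) ^ p →
          (∀ u, F x u * (1 + nsq u) ^ p * Real.exp (-EG P r e F x u) ≤
            F x v * (1 + nsq v) ^ p * Real.exp (-EG P r e F x v)) →
          boltzQ (1 + a) b (F x) v ≤ F x v * (mainG P r M e F x v - c + K₁ * (r * B₀)) := by
  have ha : 0 ≤ a := E.ha
  have hs := E.hs
  have hm0 : 0 < m := by have := E.hm; linarith
  have ha1 : a < 1 := by have := E.hm1; linarith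
  have hmle : m ≤ 1 := by have := E.hm1; linarith
  obtain ⟨K, κ, δ₁, hK, hκ, hδ₁, hδ₁1, hop⟩ := op_g HL ha E.hm hmle hp e
  obtain ⟨R₂, C₂, cV, hR₂, hC₂, hcV, hvar⟩ := var_low (d := d) M hm
  obtain ⟨lam₀, hlam₀, hloc⟩ := loc_G (d := d) ha ha1.le hκ hcV hM hR₂ (C₂ := C₂) (by linarith)
  have hRM : 0 ≤ R₂ * M ^ 2 := by positivity
  obtain ⟨lam, hlamd⟩ : ∃ lam : ℝ, lam = min lam₀ (min 1 (1 / (16 * (R₂ * M ^ 2) + 1))) := ⟨_, rfl⟩
  have hlam : 0 < lam := by
    rw [hlamd]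
    exact lt_min hlam₀ (lt_min one_pos (by positivity))
  have hlam1 : lam ≤ lam₀ := by rw [hlamd]; exact min_le_left _ _
  have hlam2 : lam * (2 * R₂ * M ^ 2) ≤ 1 / 8 := by
    have h2 : lam ≤ 1 / (16 * (R₂ * M ^ 2) + 1) := by
      rw [hlamd]; exact (min_le_right _ _).trans (min_le_right _ _)
    rw [le_div_iff₀ (by positivity)] at h2
    nlinarith
  have hlc : 0 < lam * cV := mul_pos hlam hcV
  obtain ⟨ε₀, hε₀, hhol⟩ := hol_G (d := d) HL.H.hd ha hm0 E.hm1 hp₂ hΛ hK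
    (show (0 : ℝ) < δ₁ / 4 by positivity)
  obtain ⟨ε₂, hε₂d⟩ : ∃ ε₂ : ℝ, ε₂ = min ε₀ (min (lam * cV / (32 * K + 1)) (1 / (8 * K + 1))) := ⟨_, rfl⟩
  have hε₂ : 0 < ε₂ := by
    rw [hε₂d]
    exact lt_min hε₀ (lt_min (by positivity) (by positivity))
  have e0 : ε₂ ≤ ε₀ := by rw [hε₂d]; exact min_le_left _ _
  have e1 : K * (4 * ε₂) ≤ lam * cV / 8 := by
    have h2 : ε₂ ≤ lam * cV / (32 * K + 1) := by
      rw [hε₂d]; exact (min_le_right _ _).trans (min_le_left _ _)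
    rw [le_div_iff₀ (by positivity)] at h2
    nlinarith
  have e2 : K * ε₂ ≤ 1 / 8 := by
    have h2 : ε₂ ≤ 1 / (8 * K + 1) := by
      rw [hε₂d]; exact (min_le_right _ _).trans (min_le_right _ _)
    rw [le_div_iff₀ (by positivity)] at h2
    nlinarith
  obtain ⟨Rg, hRg, hg⟩ := gb_small (d := d) M ha ha1 hε₂
  obtain ⟨C₁, hC₁, hg'⟩ := hg (max R₂ Rg) (le_max_right _ _)
  have hR1 : 1 ≤ max R₂ Rg := hRg.trans (le_max_right _ _)
  have hC1 : 1 ≤ max C₂ C₁ := hC₁.trans (le_max_right _ _)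
  have hC0 : (0 : ℝ) < max C₂ C₁ := by linarith
  obtain ⟨P, hPd⟩ : ∃ P : Pg, P = ⟨a, K, lam, max R₂ Rg, max C₂ C₁, R₂, C₂⟩ := ⟨_, rfl⟩
  have Pa : P.a = a := by rw [hPd]
  have PK : P.K = K := by rw [hPd]
  have Pl : P.lam = lam := by rw [hPd]
  have PR : P.R = max R₂ Rg := by rw [hPd]
  have PC : P.C₀ = max C₂ C₁ := by rw [hPd]
  have PR₂ : P.R₂ = R₂ := by rw [hPd]
  have PC₂ : P.C₂ = C₂ := by rw [hPd]
  have hP : P.Ok := ⟨by rw [Pa]; exact ha, by rw [Pa]; exact ha1, by rw [PK]; exact hK,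
    by rw [Pl]; exact hlam.le, by rw [PR₂]; exact hR₂,
    by rw [PR, PR₂]; exact le_max_left _ _, by rw [PC₂]; linarith,
    by rw [PC, PC₂]; exact le_max_left _ _⟩
  obtain ⟨N₁, hN₁, hop'⟩ := hop (max C₂ C₁) (2 * max R₂ Rg) (by linarith) (by linarith)
  have hvol : 0 ≤ cg_vol d := ENNReal.toReal_nonneg
  refine ⟨P, N₁, min (lam * cV / 2) (1 / 8), K * cg_vol d, hP, Pa, hN₁, lt_min (by positivity) (by norm_num),
    min_le_right _ _, mul_nonneg hK hvol, fun r hr hr1 F G hF hG hmass hsq => ?_⟩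
  have h2 : ∫ p, (F p.2 p.1 - gb P.R P.C₀ F p.2 p.1) * jb p.1 ^ (1 + P.a) ∂(nu d) ≤ ε₂ := by
    have h3 := hg' (max C₂ C₁) (le_max_right _ _) e F G hF hG
    rw [PR, PC, Pa]
    exact h3
  refine ⟨fun x v => ?_, fun B₀ hB₀ x v hN hhigh htch => ?_⟩
  · have h4 := EG_abs hP hr hF h2 hG.mass x v
    rw [PK, Pl, PR₂] at h4
    linarith
  -- the touching condition
  have hF0 : ∀ u, 0 ≤ F x u := fun u => hF.nonneg x u
  have hT : Touch (4 * (δ₁ / 4)) m p (F x) v := by
    refine touch_E (E := fun u => EG P r e F x u) hm0 (by positivity) (by linarith) hF0 (fun u => ?_) htch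
    have h4 := hhol P hP Pa PK r hr hr1 e F G hF (h2.trans e0) hsq x u v
    rw [← cg_mm]
    have h5 := (cg_mm01 hm0 v u).1
    have h6 : δ₁ / 4 * mm m v u ≤ 2 * (δ₁ / 4) * mm m v u :=
      mul_le_mul_of_nonneg_right (by linarith) h5
    exact h4.trans h6
  have e4 : 4 * (δ₁ / 4) = δ₁ := by ring
  rw [e4] at hT
  have hTS := cg_touch hδ₁ hm0 hT
  -- the bounded part
  obtain ⟨g₁, hg₁d⟩ : ∃ g₁ : Vec d → ℝ,
    g₁ = fun u : Vec d => chi (max R₂ Rg) u * bet (max C₂ C₁) (F x u) := ⟨_, rfl⟩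
  have hb0 : ∀ u, 0 ≤ bet (max C₂ C₁) (F x u) := fun u => bet_nonneg hC0 (hF0 u)
  have hmb : Measurable g₁ := by
    have m1 : Measurable (bet (max C₂ C₁)) := by
      unfold bet
      exact (measurable_const.mul measurable_id).div (measurable_const.add measurable_id)
    rw [hg₁d]
    exact (chi_cont _).measurable.mul (m1.comp hN.cont.measurable)
  have g0 : ∀ u, 0 ≤ g₁ u := fun u => by rw [hg₁d]; exact mul_nonneg (chi_nonneg _ _) (hb0 u)
  have gb' : ∀ u, g₁ u ≤ bet (max C₂ C₁) (F x u) := fun u => by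
    rw [hg₁d]
    calc chi (max R₂ Rg) u * bet (max C₂ C₁) (F x u) ≤ 1 * bet (max C₂ C₁) (F x u) :=
          mul_le_mul_of_nonneg_right (chi_le_one _ _) (hb0 u)
      _ = bet (max C₂ C₁) (F x u) := one_mul _
  have gg : ∀ u, g₁ u ≤ F x u := fun u => (gb' u).trans (bet_le hC0 (hF0 u))
  have gC : ∀ u, g₁ u ≤ max C₂ C₁ := fun u => (gb' u).trans (bet_le_C hC0 (hF0 u))
  have gR : ∀ u, 2 * max R₂ Rg < jb u → g₁ u = 0 := fun u hu => by
    rw [hg₁d]
    show chi (max R₂ Rg) u * bet (max C₂ C₁) (F x u) = 0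
    rw [chi_eq_zero hR1 hu.le, zero_mul]
  have main := hop' (F x) g₁ hN hF0 hmb g0 gg gC gR v hTS hhigh
  rw [hg₁d] at main
  refine main.trans (mul_le_mul_of_nonneg_left ?_ (hF0 v))
  have f1 := cg_flux ha ha1 hr hr1 e (R := max R₂ Rg) hC0 hN hF0 (hB₀ x) v
  have f2 := mul_le_mul_of_nonneg_left f1 hK
  have f3 := hloc lam hlam.le hlam1 (max R₂ Rg) (max C₂ C₁) (le_max_left _ _) (le_max_left _ _) (F x) hN
    hF0 v
  have f4 := (avG_le hP hr hF h2 v).2
  have f5 := mul_le_mul_of_nonneg_left f4 hK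
  have f6 := mul_le_mul_of_nonneg_left (hvar e F G hF hG hmass) hlam.le
  have f7 : min (lam * cV / 2) (1 / 8) ≤ lam * cV / 2 := min_le_left _ _
  unfold mainG
  rw [Pa, PK, Pl, PR, PC, PR₂, PC₂]
  unfold gb
  rw [mul_add] at f2
  have f9 : K * cg_vol d * (r * B₀) = K * (r * B₀ * cg_vol d) := by ring
  rw [f9, mul_sub lam]
  linarith

end Pool.Agent.H48.PG
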