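import Pool.Agent.H48.PG.EGDef
import Pool.Agent.H48.PL.CSolP
import Pool.Agent.H48.PW.EWDef

/-!
# Module CslG: the weighted square of the solution along characteristics

`h = f² W exp(-EG)`, `S = (2 f Q - f² dEG) W exp(-EG)`. Compare `csol_pair` (H48/PL/CSolP.lean).
* `dEG` is continuous on `(0,T)` (`dpot_cont` for `f` and for `bet f` (`bet_sol`), `avn_cont`; the average of the source: `(csol_mom ..).contI`-type continuity in `t` with the parameter `v`, but `W0`, `W1` do not depend on `v`), periodic (`dpot_per`, `csol_perQ`), of polynomial growth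
on `[T₀,T₁]` (`dpot_bd`, `pot_bd`; the averages do not depend on `x`, `v` and are bounded there).
* `|EG| ≤ B` on `(0,T)`, also at `t = 0` by continuity (`EG_cont`), so `exp(-EG) ≤ exp B`; `f²`, `f Q` have rapid decay.
* `char`: `hf.hasDerivAt_char`, `EG_char`, product rule.
-/

set_option autoImplicit false

open MeasureTheory Set Filter Topology Pool.Agent.H25.Kin Pool.Agent.H82.BK Pool.Agent.H82.CM
open Pool.Agent.H48.PL Pool.Agent.H48.PI Pool.Agent.H48.PW Pool.Agent.H48.PV Pool.Agent.H15.G1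
open Pool.Agent.H85.UP
open Pool.Agent.H15.AV (UNice gau)

namespace Pool.Agent.H48.PG

variable {d : ℕ} {T r : ℝ} {Q f : ℝ → Vec d → Vec d → ℝ} {P : Pg}

private lemma CslG_sub : (Ioo 0 T ×ˢ (univ : Set (Vec d × Vec d))) ⊆ Ico 0 T ×ˢ univ :=
  prod_mono Ioo_subset_Ico_self le_rfl

private lemma CslG_contQ (hf : IsClassicalSol T Q f) : ContinuousOn (unc Q) (Ioo 0 T ×ˢ univ) := by
  have h1 : Continuous fun z : ℝ × Vec d × Vec d => ((1 : ℝ), z.2.2, (0 : Vec d)) := by fun_prop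
  have h2 : ContinuousOn (fun z : ℝ × Vec d × Vec d => fderiv ℝ (unc f) z (1, z.2.2, 0))
      (Ioo 0 T ×ˢ univ) := hf.cont_fderiv.clm_apply h1.continuousOn
  exact h2.congr fun z hz => (hf.eqn z.1 hz.1 z.2.1 z.2.2).symm

/-- polynomial growth, locally uniformly in `(0,T)` -/
private def GB3 (T : ℝ) (g : ℝ → Vec d → Vec d → ℝ) : Prop :=
  ∃ N : ℕ, ∀ T₀ > 0, ∀ T₁ < T, ∃ C : ℝ, ∀ t ∈ Icc T₀ T₁, ∀ x v, |g t x v| ≤ C * (1 + ‖v‖) ^ N

private lemma GB3.mono' {g : ℝ → Vec d → Vec d → ℝ} {N M : ℕ} (hNM : N ≤ M) {C : ℝ} {t : ℝ} {x v : Vec d}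
    (h : |g t x v| ≤ C * (1 + ‖v‖) ^ N) : |g t x v| ≤ |C| * (1 + ‖v‖) ^ M := by
  refine h.trans ?_
  have h1 : (1 + ‖v‖) ^ N ≤ (1 + ‖v‖) ^ M := pow_le_pow_right₀ (one_le_w v) hNM
  have h2 : 0 ≤ (1 + ‖v‖) ^ N := pow_nonneg (w_pos v).le _
  exact mul_le_mul (le_abs_self C) h1 h2 (abs_nonneg C)

private lemma GB3.add {g h : ℝ → Vec d → Vec d → ℝ} (hg : GB3 T g) (hh : GB3 T h) :
    GB3 T fun t x v => g t x v + h t x v := by
  obtain ⟨N, hN⟩ := hg
  obtain ⟨M, hM⟩ := hh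
  refine ⟨N + M, fun T₀ h0 T₁ h1 => ?_⟩
  obtain ⟨C, hC⟩ := hN T₀ h0 T₁ h1
  obtain ⟨D, hD⟩ := hM T₀ h0 T₁ h1
  refine ⟨|C| + |D|, fun t ht x v => ?_⟩
  rw [add_mul]
  exact (abs_add_le _ _).trans (add_le_add (GB3.mono' (g := g) (Nat.le_add_right _ _) (hC t ht x v))
    (GB3.mono' (g := h) (Nat.le_add_left _ _) (hD t ht x v)))

private lemma GB3.mul {g h : ℝ → Vec d → Vec d → ℝ} (hg : GB3 T g) (hh : GB3 T h) :
    GB3 T fun t x v => g t x v * h t x v := by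
  obtain ⟨N, hN⟩ := hg
  obtain ⟨M, hM⟩ := hh
  refine ⟨N + M, fun T₀ h0 T₁ h1 => ?_⟩
  obtain ⟨C, hC⟩ := hN T₀ h0 T₁ h1
  obtain ⟨D, hD⟩ := hM T₀ h0 T₁ h1
  refine ⟨|C| * |D|, fun t ht x v => ?_⟩
  have e1 := GB3.mono' (g := g) (le_refl N) (hC t ht x v)
  have e2 := GB3.mono' (g := h) (le_refl M) (hD t ht x v)
  rw [abs_mul, pow_add]
  have hv := w_pos v
  refine (mul_le_mul e1 e2 (abs_nonneg _) (by positivity)).trans (le_of_eq ?_)
  ring

private lemma GB3.const (c : ℝ) : GB3 T (fun _ _ _ => c : ℝ → Vec d → Vec d → ℝ) :=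
  ⟨0, fun _ _ _ _ => ⟨|c|, fun _ _ _ _ => by simp⟩⟩

private lemma GB3.neg {g : ℝ → Vec d → Vec d → ℝ} (hg : GB3 T g) : GB3 T fun t x v => -g t x v := by
  obtain ⟨N, hN⟩ := hg
  refine ⟨N, fun T₀ h0 T₁ h1 => ?_⟩
  obtain ⟨C, hC⟩ := hN T₀ h0 T₁ h1
  exact ⟨C, fun t ht x v => by rw [abs_neg]; exact hC t ht x v⟩

private lemma GB3.sub {g h : ℝ → Vec d → Vec d → ℝ} (hg : GB3 T g) (hh : GB3 T h) :
    GB3 T fun t x v => g t x v - h t x v := by
  have := hg.add hh.neg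
  simpa only [sub_eq_add_neg] using this

private lemma CslG_potB (hf : IsClassicalSol T Q f) {Φ : Vec d → Vec d → ℝ} (hΦ : PGW Φ) (e : Fin d) :
    GB3 T fun t x v => pot e 1 Φ (f t) x v := by
  obtain ⟨N, hN⟩ := pot_bd hf hΦ e one_pos
  refine ⟨N, fun T₀ h0 T₁ h1 => ?_⟩
  obtain ⟨C, hC⟩ := hN T₁ h1
  exact ⟨C, fun t ht x v => hC t ⟨h0.le.trans ht.1, ht.2⟩ x v⟩

private lemma CslG_dpotB (hf : IsClassicalSol T Q f) {Φ : Vec d → Vec d → ℝ} (hΦ : PGW Φ) (e : Fin d) :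
    GB3 T fun t x v => dpot e 1 Φ (f t) (Q t) x v := dpot_bd hf hΦ e one_pos

/-- a function of `t` which is continuous -/
private lemma CslG_tB {u : ℝ → ℝ} (hu : ContinuousOn u (Ioo 0 T)) :
    GB3 T (fun t _ _ => u t : ℝ → Vec d → Vec d → ℝ) := by
  refine ⟨0, fun T₀ h0 T₁ h1 => ?_⟩
  have hsub : Icc T₀ T₁ ⊆ Ioo 0 T := fun t ht => ⟨lt_of_lt_of_le h0 ht.1, lt_of_le_of_lt ht.2 h1⟩
  obtain ⟨C, hC⟩ := (isCompact_Icc (a := T₀) (b := T₁)).exists_bound_of_continuousOn (hu.mono hsub)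
  refine ⟨C, fun t ht x v => ?_⟩
  have := hC t ht
  rw [Real.norm_eq_abs] at this
  simpa using this

private lemma CslG_tC {u : ℝ → ℝ} {I : Set ℝ} (hu : ContinuousOn u I) :
    ContinuousOn (unc (fun t _ _ => u t : ℝ → Vec d → Vec d → ℝ)) (I ×ˢ univ) :=
  hu.comp continuous_fst.continuousOn fun _ hz => hz.1

/-- a weight which does not depend on `v` -/
private lemma CslG_avnQ (hf : IsClassicalSol T Q f) {p : Vec d → ℝ} (hΦ : PGW fun _ w : Vec d => p w) :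
    ContinuousOn (fun t => ∫ q, p q.1 * Q t q.2 q.1 ∂(nu d)) (Ioo 0 T) := by
  have hp : Continuous p := hΦ.cont.comp (by fun_prop : Continuous fun w : Vec d => ((0 : Vec d), w))
  have hpg : PG p := by
    obtain ⟨N, C, hC0, hC⟩ := hΦ.le
    refine ⟨N, C, fun w => ?_⟩
    have := hC 0 w
    simpa using this
  have H := (csol_mom hf hpg hp).contI
  refine H.congr fun t ht => ?_
  show ∫ q, p q.1 * Q t q.2 q.1 ∂(nu d) = ∫ q, Q t q.2 q.1 * p q.1 ∂(nu d)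
  congr 1
  funext q
  ring

private lemma CslG_avnF (hf : IsClassicalSol T Q f) {p : Vec d → ℝ} (hΦ : PGW fun _ w : Vec d => p w) :
    ContinuousOn (fun t => ∫ q, p q.1 * f t q.2 q.1 ∂(nu d)) (Ico 0 T) := by
  have h1 := avn_cont hf hΦ
  have h2 : Continuous fun t : ℝ => (t, (0 : Vec d)) := by fun_prop
  exact h1.comp h2.continuousOn fun t ht => ⟨ht, mem_univ _⟩

private lemma CslG_dEG_cont (hP : P.Ok) (hr : 0 < r) (hf : IsClassicalSol T Q f) (e : Fin d) :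
    ContinuousOn (unc fun t x v => dEG P r e (f t) (Q t) x v) (Ioo 0 T ×ˢ univ) := by
  have hb := bet_sol hP.hC0 hf
  have hb2 := bet_sol hP.hC₂ hf
  have hO := PhR_PGW hP.ha hP.ha1 hr e
  have a1 := dpot_cont hf hO e one_pos
  have a2 := dpot_cont hb (cutW_PGW hO P.R) e one_pos
  have b1 : ContinuousOn (unc fun t (_ : Vec d) v => avn (W0 P.R₂)
      (fun y w => bet' P.C₂ (f t y w) * Q t y w) v) (Ioo 0 T ×ˢ univ) :=
    CslG_tC (CslG_avnQ hb2 (W0_PGW (d := d) P.R₂))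
  have b2 : ContinuousOn (unc fun t (_ : Vec d) v => avn (W0 P.R₂)
      (fun y w => bet P.C₂ (f t y w)) v) (Ioo 0 T ×ˢ univ) :=
    CslG_tC ((CslG_avnF hb2 (W0_PGW (d := d) P.R₂)).mono Ioo_subset_Ico_self)
  have b3 : ContinuousOn (unc fun t (_ : Vec d) v => avn (W1 e P.R₂)
      (fun y w => bet' P.C₂ (f t y w) * Q t y w) v) (Ioo 0 T ×ˢ univ) :=
    CslG_tC (CslG_avnQ hb2 (W1_PGW e P.R₂))
  have b4 : ContinuousOn (unc fun t (_ : Vec d) v => avn (W1 e P.R₂)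
      (fun y w => bet P.C₂ (f t y w)) v) (Ioo 0 T ×ˢ univ) :=
    CslG_tC ((CslG_avnF hb2 (W1_PGW e P.R₂)).mono Ioo_subset_Ico_self)
  have c1 := (pot_cont hb2 (W1_PGW e P.R₂) e one_pos).mono CslG_sub
  have c2 := dpot_cont hb2 (W1_PGW e P.R₂) e one_pos
  have c3 := (pot_cont hb2 (W0_PGW (d := d) P.R₂) e one_pos).mono CslG_sub
  have c4 := dpot_cont hb2 (W0_PGW (d := d) P.R₂) e one_pos
  have d1 := (continuousOn_const (c := P.K)).mul a1
  have d2 := (continuousOn_const (c := P.K)).mul a2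
  have d3 := ((b1.mul c1).add (b2.mul c2)).sub ((b3.mul c3).add (b4.mul c4))
  have d4 := (d1.sub d2).add ((continuousOn_const (c := P.lam)).mul d3)
  exact d4

private lemma CslG_dEG_bd (hP : P.Ok) (hr : 0 < r) (hf : IsClassicalSol T Q f) (e : Fin d) :
    GB3 T fun t x v => dEG P r e (f t) (Q t) x v := by
  have hb := bet_sol hP.hC0 hf
  have hb2 := bet_sol hP.hC₂ hf
  have hO := PhR_PGW hP.ha hP.ha1 hr e
  have a1 := CslG_dpotB hf hO e
  have a2 := CslG_dpotB hb (cutW_PGW hO P.R) e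
  have b1 : GB3 T (fun t (_ : Vec d) v => avn (W0 P.R₂)
      (fun y w => bet' P.C₂ (f t y w) * Q t y w) v) :=
    CslG_tB (CslG_avnQ hb2 (W0_PGW (d := d) P.R₂))
  have b2 : GB3 T (fun t (_ : Vec d) v => avn (W0 P.R₂)
      (fun y w => bet P.C₂ (f t y w)) v) :=
    CslG_tB ((CslG_avnF hb2 (W0_PGW (d := d) P.R₂)).mono Ioo_subset_Ico_self)
  have b3 : GB3 T (fun t (_ : Vec d) v => avn (W1 e P.R₂)
      (fun y w => bet' P.C₂ (f t y w) * Q t y w) v) :=
    CslG_tB (CslG_avnQ hb2 (W1_PGW e P.R₂))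
  have b4 : GB3 T (fun t (_ : Vec d) v => avn (W1 e P.R₂)
      (fun y w => bet P.C₂ (f t y w)) v) :=
    CslG_tB ((CslG_avnF hb2 (W1_PGW e P.R₂)).mono Ioo_subset_Ico_self)
  have c1 := CslG_potB hb2 (W1_PGW e P.R₂) e
  have c2 := CslG_dpotB hb2 (W1_PGW e P.R₂) e
  have c3 := CslG_potB hb2 (W0_PGW (d := d) P.R₂) e
  have c4 := CslG_dpotB hb2 (W0_PGW (d := d) P.R₂) e
  have d1 := (GB3.const (T := T) (d := d) P.K).mul a1
  have d2 := (GB3.const (T := T) (d := d) P.K).mul a2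
  have d3 := ((b1.mul c1).add (b2.mul c2)).sub ((b3.mul c3).add (b4.mul c4))
  have d4 := (d1.sub d2).add ((GB3.const (T := T) (d := d) P.lam).mul d3)
  exact d4

private lemma CslG_dEG_per (hf : IsClassicalSol T Q f) (e : Fin d) {t : ℝ} (ht : t ∈ Ioo 0 T)
    (x v : Vec d) (i : Fin d) :
    dEG P r e (f t) (Q t) (x + Pi.single i 1) v = dEG P r e (f t) (Q t) x v := by
  have ht' : t ∈ Ico 0 T := ⟨ht.1.le, ht.2⟩
  have hF : ∀ x v i, f t (x + Pi.single i 1) v = f t x v := fun x v i => hf.periodic t ht' x v i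
  have hQ : ∀ x v i, Q t (x + Pi.single i 1) v = Q t x v := fun x v i => csol_perQ hf ht x v i
  have hb : ∀ C : ℝ, ∀ (y w : Vec d) (j : Fin d), (fun y w => bet C (f t y w)) (y + Pi.single j 1) w =
      (fun y w => bet C (f t y w)) y w := by
    intro C y w j
    show bet C (f t (y + Pi.single j 1) w) = bet C (f t y w)
    rw [hF]
  have hc : ∀ C : ℝ, ∀ (y w : Vec d) (j : Fin d),
      (fun y w => bet' C (f t y w) * Q t y w) (y + Pi.single j 1) w =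
      (fun y w => bet' C (f t y w) * Q t y w) y w := by
    intro C y w j
    show bet' C (f t (y + Pi.single j 1) w) * Q t (y + Pi.single j 1) w = bet' C (f t y w) * Q t y w
    rw [hF, hQ]
  unfold dEG dEA dED
  rw [dpot_per hF hQ, dpot_per (hb P.C₀) (hc P.C₀), dpot_per (hb P.C₂) (hc P.C₂),
    dpot_per (hb P.C₂) (hc P.C₂), pot_per (hb P.C₂), pot_per (hb P.C₂)]

private lemma CslG_W (p : ℕ) : ∃ C : ℝ, 0 ≤ C ∧ ∀ v : Vec d, (1 + nsq v) ^ p ≤ C * (1 + ‖v‖) ^ (2 * p) := by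
  refine ⟨(1 + d) ^ p, by positivity, fun v => ?_⟩
  have h1 : 1 + nsq v ≤ (1 + d) * (1 + ‖v‖) ^ 2 := by
    have h2 := sq_le v
    have h3 := norm_nonneg v
    have h4 : (0 : ℝ) ≤ d := Nat.cast_nonneg d
    nlinarith [mul_nonneg h4 h3]
  have h0 : 0 ≤ 1 + nsq v := by linarith [sq_nonneg' v]
  calc (1 + nsq v) ^ p ≤ ((1 + d) * (1 + ‖v‖) ^ 2) ^ p := pow_le_pow_left₀ h0 h1 p
    _ = (1 + d) ^ p * (1 + ‖v‖) ^ (2 * p) := by rw [mul_pow, pow_mul]

private lemma CslG_nsq_cont : Continuous fun v : Vec d => nsq v := continuous_sq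

private lemma CslG_B0 (hP : P.Ok) (hr : 0 < r) (hf : IsClassicalSol T Q f) {e : Fin d} {B : ℝ}
    (hB : ∀ t ∈ Ioo 0 T, ∀ x v, |EG P r e (f t) x v| ≤ B) :
    ∀ t ∈ Ico 0 T, ∀ x v, |EG P r e (f t) x v| ≤ B := by
  intro t ht x v
  rcases ht.1.eq_or_lt with h0 | h0
  swap
  · exact hB t ⟨h0, ht.2⟩ x v
  have h1 := EG_cont hP hr hf e
  have h2 : Continuous fun t : ℝ => (t, x, v) := by fun_prop
  obtain ⟨u, hu⟩ : ∃ u : ℝ → ℝ, ∀ t, u t = EG P r e (f t) x v := ⟨_, fun _ => rfl⟩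
  have h3 : ContinuousOn u (Ico 0 T) := by
    have h4 := h1.comp h2.continuousOn (s := Ico 0 T) fun t ht => ⟨ht, mem_univ _⟩
    refine h4.congr fun t _ => ?_
    rw [hu]
    rfl
  have hub : ∀ t ∈ Ioo 0 T, |u t| ≤ B := fun t ht => by rw [hu]; exact hB t ht x v
  rw [← hu]
  have h4 : Tendsto (fun t => |u t|) (𝓝[Ioo 0 T] t) (𝓝 |u t|) :=
    ((h3 t ht).mono Ioo_subset_Ico_self).abs
  have hne : (𝓝[Ioo 0 T] t).NeBot := by
    rw [← h0, nhdsWithin_Ioo_eq_nhdsGT (h0 ▸ ht.2 : (0 : ℝ) < T)]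
    infer_instance
  exact le_of_tendsto h4 (eventually_nhdsWithin_of_forall hub)

theorem csol_G (hP : P.Ok) (hr : 0 < r) (hf : IsClassicalSol T Q f) {e : Fin d} (hpl : Planar e T f) (p : ℕ)
    {B : ℝ} (hB : ∀ t ∈ Ioo 0 T, ∀ x v, |EG P r e (f t) x v| ≤ B) :
    CSol T (fun t x v => (2 * f t x v * Q t x v - f t x v ^ 2 * dEG P r e (f t) (Q t) x v) *
        ((1 + nsq v) ^ p * Real.exp (-EG P r e (f t) x v)))
      (fun t x v => f t x v ^ 2 * ((1 + nsq v) ^ p * Real.exp (-EG P r e (f t) x v))) := by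
  have hB' := CslG_B0 hP hr hf hB
  obtain ⟨CW, hCW0, hCW⟩ := CslG_W (d := d) p
  have hEc := EG_cont hP hr hf e
  have hwc : Continuous fun z : ℝ × Vec d × Vec d => (1 + nsq z.2.2) ^ p :=
    (continuous_const.add (CslG_nsq_cont.comp (by fun_prop))).pow p
  have hexp : ∀ t ∈ Ico 0 T, ∀ x v, (1 + nsq v) ^ p * Real.exp (-EG P r e (f t) x v) ≤
      CW * (1 + ‖v‖) ^ (2 * p) * Real.exp B := by
    intro t ht x v
    have h1 : -EG P r e (f t) x v ≤ B := by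
      have := neg_abs_le (EG P r e (f t) x v)
      linarith [hB' t ht x v]
    exact mul_le_mul (hCW v) (Real.exp_le_exp.2 h1) (Real.exp_pos _).le
      (mul_nonneg hCW0 (pow_nonneg (w_pos v).le _))
  have hWnn : ∀ t x v, 0 ≤ (1 + nsq v) ^ p * Real.exp (-EG P r e (f t) x v) := fun t x v =>
    mul_nonneg (pow_nonneg (by linarith [sq_nonneg' v]) _) (Real.exp_pos _).le
  refine ⟨?_, ?_, ?_, ?_, ?_, ?_, ?_⟩
  · intro t ht x v i
    rw [hf.periodic t ht, EG_per (fun x v i => hf.periodic t ht x v i)]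
  · intro t ht x v i
    have ht' : t ∈ Ico 0 T := ⟨ht.1.le, ht.2⟩
    rw [hf.periodic t ht', csol_perQ hf ht, EG_per (fun x v i => hf.periodic t ht' x v i),
      CslG_dEG_per hf e ht]
  · exact (hf.cont.pow 2).mul (hwc.continuousOn.mul (Real.continuous_exp.comp_continuousOn hEc.neg))
  · have h1 := (((continuousOn_const (c := (2 : ℝ))).mul (hf.cont.mono CslG_sub)).mul (CslG_contQ hf)).sub
      (((hf.cont.mono CslG_sub).pow 2).mul (CslG_dEG_cont hP hr hf e))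
    exact h1.mul (hwc.continuousOn.mul
      (Real.continuous_exp.comp_continuousOn (hEc.mono CslG_sub).neg))
  · intro T₁ h1
    obtain ⟨C, hC0, hC⟩ := hf.f_le h1 0
    obtain ⟨D, hD0, hD⟩ := hf.f_le h1 (2 * p + (d + 1))
    refine ⟨(C * (CW * Real.exp B)) * D, fun t ht x v => ?_⟩
    have ht' : t ∈ Ico 0 T := ⟨ht.1, ht.2.trans_lt h1⟩
    have g1 := hC t ht x v
    rw [pow_zero, inv_one, mul_one] at g1
    have g2 := hD t ht x v
    have hv := w_pos v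
    have hx : 0 ≤ Real.exp B := (Real.exp_pos B).le
    rw [abs_mul, abs_of_nonneg (hWnn t x v), abs_pow, pow_two]
    calc |f t x v| * |f t x v| * ((1 + nsq v) ^ p * Real.exp (-EG P r e (f t) x v))
        ≤ (C * (D * ((1 + ‖v‖) ^ (2 * p + (d + 1)))⁻¹)) * (CW * (1 + ‖v‖) ^ (2 * p) * Real.exp B) :=
          mul_le_mul (mul_le_mul g1 g2 (abs_nonneg _) hC0) (hexp t ht' x v) (hWnn t x v)
            (by positivity)
      _ = ((C * (CW * Real.exp B)) * (1 + ‖v‖) ^ (2 * p)) * (D * ((1 + ‖v‖) ^ (2 * p + (d + 1)))⁻¹) := by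
          ring
      _ = (C * (CW * Real.exp B)) * D * wt d v :=
          wt_bound (by positivity) hD0 v (2 * p)
  · intro T₀ h0 T₁ h1
    obtain ⟨N, hN⟩ := CslG_dEG_bd hP hr hf e
    obtain ⟨E, hE⟩ := hN T₀ h0 T₁ h1
    obtain ⟨C, hC0, hC⟩ := hf.f_le h1 0
    obtain ⟨C', hC'0, hC'⟩ := hf.Q_le h0 h1 0
    obtain ⟨D, hD0, hD⟩ := hf.f_le h1 (N + 2 * p + (d + 1))
    refine ⟨((2 * C' + C * |E|) * (CW * Real.exp B)) * D, fun t ht x v => ?_⟩
    have ht0 : t ∈ Icc 0 T₁ := ⟨h0.le.trans ht.1, ht.2⟩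
    have ht' : t ∈ Ico 0 T := ⟨ht0.1, ht.2.trans_lt h1⟩
    have g1 := hC t ht0 x v
    rw [pow_zero, inv_one, mul_one] at g1
    have g1' := hC' t ht x v
    rw [pow_zero, inv_one, mul_one] at g1'
    have g2 := hD t ht0 x v
    have hv := w_pos v
    have hx : 0 ≤ Real.exp B := (Real.exp_pos B).le
    have g3 : |2 * Q t x v - f t x v * dEG P r e (f t) (Q t) x v| ≤
        (2 * C' + C * |E|) * (1 + ‖v‖) ^ N := by
      have k1 : |f t x v * dEG P r e (f t) (Q t) x v| ≤ C * (|E| * (1 + ‖v‖) ^ N) := by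
        rw [abs_mul]
        refine mul_le_mul g1 ((hE t ht x v).trans ?_) (abs_nonneg _) hC0
        exact mul_le_mul_of_nonneg_right (le_abs_self E) (pow_nonneg hv.le _)
      have k2 : |2 * Q t x v| ≤ 2 * C' * (1 + ‖v‖) ^ N := by
        rw [abs_mul, abs_of_pos (by norm_num : (0 : ℝ) < 2)]
        have k3 : 1 ≤ (1 + ‖v‖) ^ N := one_le_pow₀ (one_le_w v)
        nlinarith [abs_nonneg (Q t x v)]
      have k4 := abs_sub (2 * Q t x v) (f t x v * dEG P r e (f t) (Q t) x v)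
      calc _ ≤ _ := k4
        _ ≤ 2 * C' * (1 + ‖v‖) ^ N + C * (|E| * (1 + ‖v‖) ^ N) := add_le_add k2 k1
        _ = (2 * C' + C * |E|) * (1 + ‖v‖) ^ N := by ring
    have e0 : (2 * f t x v * Q t x v - f t x v ^ 2 * dEG P r e (f t) (Q t) x v) *
        ((1 + nsq v) ^ p * Real.exp (-EG P r e (f t) x v)) =
        (2 * Q t x v - f t x v * dEG P r e (f t) (Q t) x v) * f t x v *
        ((1 + nsq v) ^ p * Real.exp (-EG P r e (f t) x v)) := by ring
    rw [e0, abs_mul, abs_of_nonneg (hWnn t x v), abs_mul]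
    calc |2 * Q t x v - f t x v * dEG P r e (f t) (Q t) x v| * |f t x v| *
          ((1 + nsq v) ^ p * Real.exp (-EG P r e (f t) x v))
        ≤ (((2 * C' + C * |E|) * (1 + ‖v‖) ^ N) * (D * ((1 + ‖v‖) ^ (N + 2 * p + (d + 1)))⁻¹)) *
            (CW * (1 + ‖v‖) ^ (2 * p) * Real.exp B) :=
          mul_le_mul (mul_le_mul g3 g2 (abs_nonneg _) (by positivity)) (hexp t ht' x v) (hWnn t x v)
            (by positivity)
      _ = (((2 * C' + C * |E|) * (CW * Real.exp B)) * (1 + ‖v‖) ^ (N + 2 * p)) *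
            (D * ((1 + ‖v‖) ^ (N + 2 * p + (d + 1)))⁻¹) := by
          rw [pow_add (1 + ‖v‖) N (2 * p)]
          ring
      _ = ((2 * C' + C * |E|) * (CW * Real.exp B)) * D * wt d v :=
          wt_bound (by positivity) hD0 v (N + 2 * p)
  · intro t ht x v
    have k1 := hf.hasDerivAt_char ht x v
    have k2 := EG_char hP hr hf hpl ht x v
    have k3 := (k1.pow 2).mul ((k2.neg.exp).const_mul ((1 + nsq v) ^ p))
    refine k3.congr_deriv ?_
    simp only [Pi.pow_apply, Pi.neg_apply]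
    push_cast
    ring

end Pool.Agent.H48.PG
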