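import Pool.Agent.H48.PG.EGDef
import Pool.Agent.H48.PI.EDer

/-!
# Module DerG: lower bound for the derivative of the main part, one time slice

As `EA_der` in H48/PV/DerA.lean (copy its private lemmas), without the even part: `dpot = I₁ - I₂ + I₃`; `I₁[PhR,F] - I₁[chi PhR, bet F] = ∫ V_e PhR (F - gb)(x)`; `I₂`: `loc e 1 B x = ∫ B dμ`, gives `avG`;
source: `|I₃[PhR,G]| ≤ 1/2 ∫ |∫ w, PhR G| dμ ≤ ∫ μ₁ dμ`, the same for `chi PhR`, `bet' G`, `μ₂` (`|kl 1 z| ≤ 1/2`, `db_src` in DerB.lean).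
-/

set_option autoImplicit false

open MeasureTheory Set Filter Topology Pool.Agent.H25.Kin Pool.Agent.H82.BK Pool.Agent.H82.CM
open Pool.Agent.H48.PL Pool.Agent.H48.PI Pool.Agent.H48.PW Pool.Agent.H48.PV Pool.Agent.H15.G1
open Pool.Agent.H85.UP
open Pool.Agent.H15.AV (UNice gau)

namespace Pool.Agent.H48.PG

variable {d : ℕ} {P : Pg} {r : ℝ} {e : Fin d} {F G : Vec d → Vec d → ℝ}

/-- continuous planar periodic functions with rapid decay in the velocity -/
private structure DerGA (e : Fin d) (A : Vec d → Vec d → ℝ) : Prop where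
  cont : Continuous fun p : Vec d × Vec d => A p.1 p.2
  dec : RX A
  per : ∀ x v i, A (x + Pi.single i 1) v = A x v
  pl : ∀ x y v, x e = y e → A x v = A y v

private lemma DerG_bd {A : Vec d → Vec d → ℝ} (hA : DerGA e A) {Φ : Vec d → Vec d → ℝ} (hΦ : PGW Φ)
    (v : Vec d) : ∃ C, ∀ x w, |Φ v w * A x w| ≤ C * wt d w := by
  obtain ⟨N, K, hK0, hK⟩ := hΦ.le
  obtain ⟨C, hC⟩ := hA.dec (N + (d + 1))
  refine ⟨K * (1 + ‖v‖) ^ N * C, fun x w => ?_⟩
  have hw : 0 < 1 + ‖w‖ := w_pos w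
  have hv : 0 < 1 + ‖v‖ := w_pos v
  have h2 := hC x w
  rw [abs_mul]
  unfold wt
  rw [← div_eq_mul_inv, le_div_iff₀ (by positivity)]
  calc |Φ v w| * |A x w| * (1 + ‖w‖) ^ (d + 1)
      ≤ (K * ((1 + ‖v‖) ^ N * (1 + ‖w‖) ^ N)) * |A x w| * (1 + ‖w‖) ^ (d + 1) := by
        have := hK v w
        gcongr
    _ = K * (1 + ‖v‖) ^ N * ((1 + ‖w‖) ^ (N + (d + 1)) * |A x w|) := by rw [pow_add]; ring
    _ ≤ K * (1 + ‖v‖) ^ N * C := by gcongr

private lemma DerG_wc {A : Vec d → Vec d → ℝ} (hA : DerGA e A) {Φ : Vec d → Vec d → ℝ} (hΦ : PGW Φ)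
    (x v : Vec d) : Continuous fun w => Φ v w * A x w :=
  (hΦ.cont.comp (by fun_prop : Continuous fun w : Vec d => (v, w))).mul
    (hA.cont.comp (by fun_prop : Continuous fun w : Vec d => (x, w)))

private lemma DerG_int {A : Vec d → Vec d → ℝ} (hA : DerGA e A) {Φ : Vec d → Vec d → ℝ} (hΦ : PGW Φ)
    (x v : Vec d) : Integrable fun w => Φ v w * A x w := by
  obtain ⟨C, hC⟩ := DerG_bd hA hΦ v
  exact (integrable_wt.const_mul C).mono' (DerG_wc hA hΦ x v).aestronglyMeasurable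
    (Eventually.of_forall fun w => hC x w)

private lemma DerG_nu {A : Vec d → Vec d → ℝ} (hA : DerGA e A) {Φ : Vec d → Vec d → ℝ} (hΦ : PGW Φ)
    (v : Vec d) : Integrable (fun p : Vec d × Vec d => Φ v p.1 * A p.2 p.1) (nu d) := by
  obtain ⟨C, hC⟩ := DerG_bd hA hΦ v
  have hc : Continuous fun p : Vec d × Vec d => Φ v p.1 * A p.2 p.1 :=
    (hΦ.cont.comp (by fun_prop : Continuous fun p : Vec d × Vec d => (v, p.1))).mul
      (hA.cont.comp (by fun_prop : Continuous fun p : Vec d × Vec d => (p.2, p.1)))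
  exact integrable_nu hc.aestronglyMeasurable fun p => hC p.2 p.1

private lemma DerG_pl {A : Vec d → Vec d → ℝ} (hA : DerGA e A) {Φ : Vec d → Vec d → ℝ} (hΦ : PGW Φ)
    (v : Vec d) : PlF e fun x => ∫ w, Φ v w * A x w := by
  obtain ⟨C, hC⟩ := DerG_bd hA hΦ v
  refine ⟨?_, ?_, ?_⟩
  · refine continuous_of_dominated (bound := fun w => C * wt d w) ?_ ?_
      (integrable_wt.const_mul _) ?_
    · intro x
      exact (DerG_wc hA hΦ x v).aestronglyMeasurable
    · intro x
      exact Eventually.of_forall fun w => hC x w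
    · refine Eventually.of_forall fun w => ?_
      exact continuous_const.mul
        (hA.cont.comp (by fun_prop : Continuous fun x : Vec d => (x, w)))
  · intro x i
    congr 1
    funext w
    rw [hA.per]
  · intro x y hxy
    congr 1
    funext w
    rw [hA.pl x y w hxy]

private lemma DerG_loc {B : Vec d → ℝ} (hB : PlF e B) (x : Vec d) :
    loc e 1 B x = ∫ y, B y ∂(muD d) := by
  obtain ⟨C, hC⟩ := pl_bdd hB
  have hfin : IsFiniteMeasure ((volume : Measure ℝ).restrict (Ioo (-(1 / 2)) (1 / 2))) :=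
    ⟨by rw [Measure.restrict_apply_univ]; exact measure_Ioo_lt_top⟩
  have hi : Integrable (fun z : ℝ => B (x - Pi.single e z))
      (volume.restrict (Ioo (-(1 / 2)) (1 / 2))) := by
    have hc : Continuous fun z : ℝ => x - (Pi.single e z : Vec d) :=
      continuous_const.sub (continuous_single (A := fun _ : Fin d => ℝ) e)
    exact Integrable.of_bound (hB.cont.comp hc).aestronglyMeasurable C
      (Eventually.of_forall fun z => hC _)
  have hv : (∫ _z in Ioo (-(1 / 2) : ℝ) (1 / 2), C) = C := by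
    rw [setIntegral_const, Real.volume_real_Ioo_of_le (by norm_num)]
    norm_num
  have hm : (∫ _y : Vec d, C ∂(muD d)) = C := by
    rw [integral_const, measureReal_def, muD_univ]
    simp
  have h1 : PlF e fun y => C - B y :=
    ⟨continuous_const.sub hB.cont, fun x i => by rw [hB.per], fun x y h => by rw [hB.pl x y h]⟩
  have h2 : PlF e fun y => C + B y :=
    ⟨continuous_const.add hB.cont, fun x i => by rw [hB.per], fun x y h => by rw [hB.pl x y h]⟩
  have e1 := loc_le h1 (fun y => by have := (abs_le.mp (hC y)).2; linarith) one_pos le_rfl x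
  have e2 := loc_le h2 (fun y => by have := (abs_le.mp (hC y)).1; linarith) one_pos le_rfl x
  unfold loc at e1 e2 ⊢
  rw [integral_sub (integrable_const _) hi, integral_sub (integrable_const _) (pl_int hB), hv,
    hm] at e1
  rw [integral_add (integrable_const _) hi, integral_add (integrable_const _) (pl_int hB), hv,
    hm] at e2
  linarith

private lemma DerG_kl {B : Vec d → ℝ} (hB : PlF e B) (x : Vec d) :
    Integrable (fun z : ℝ => kl 1 z * B (x - Pi.single e z))
      (volume.restrict (Ioo (-(1 / 2)) (1 / 2))) := by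
  obtain ⟨C, hC⟩ := pl_bdd hB
  have hfin : IsFiniteMeasure ((volume : Measure ℝ).restrict (Ioo (-(1 / 2)) (1 / 2))) :=
    ⟨by rw [Measure.restrict_apply_univ]; exact measure_Ioo_lt_top⟩
  have hc : Continuous fun z : ℝ => x - (Pi.single e z : Vec d) :=
    continuous_const.sub (continuous_single (A := fun _ : Fin d => ℝ) e)
  refine Integrable.of_bound ((kl_meas 1).aestronglyMeasurable.mul
    (hB.cont.comp hc).aestronglyMeasurable) (1 / 2 * C) ?_
  filter_upwards [ae_restrict_mem measurableSet_Ioo] with z hz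
  rw [norm_mul, Real.norm_eq_abs, Real.norm_eq_abs]
  exact mul_le_mul (kl_abs one_pos hz) (hC _) (abs_nonneg _) (by norm_num)

private lemma DerG_i {B : Vec d → ℝ} (hB : PlF e B) (x : Vec d) :
    Integrable (fun z : ℝ => B (x - Pi.single e z))
      (volume.restrict (Ioo (-(1 / 2)) (1 / 2))) := by
  obtain ⟨C, hC⟩ := pl_bdd hB
  have hfin : IsFiniteMeasure ((volume : Measure ℝ).restrict (Ioo (-(1 / 2)) (1 / 2))) :=
    ⟨by rw [Measure.restrict_apply_univ]; exact measure_Ioo_lt_top⟩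
  have hc : Continuous fun z : ℝ => x - (Pi.single e z : Vec d) :=
    continuous_const.sub (continuous_single (A := fun _ : Fin d => ℝ) e)
  exact Integrable.of_bound (hB.cont.comp hc).aestronglyMeasurable C
    (Eventually.of_forall fun z => hC _)

private lemma DerG_loc' {B : Vec d → ℝ} (hB : PlF e B) (x : Vec d) :
    (∫ z in Ioo (-(1 / 2) : ℝ) (1 / 2), B (x - Pi.single e z)) = ∫ y, B y ∂(muD d) := by
  have h := DerG_loc hB x
  unfold loc at h
  exact h

private lemma DerG_sum {a b : Vec d → ℝ} (ha : PlF e a) (hb : PlF e b) (x : Vec d) :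
    (∫ z in Ioo (-(1 / 2) : ℝ) (1 / 2), kl 1 z * a (x - Pi.single e z)) + ∫ y, b y ∂(muD d) =
      ∫ z in Ioo (-(1 / 2) : ℝ) (1 / 2), (kl 1 z * a (x - Pi.single e z) + b (x - Pi.single e z)) := by
  rw [← DerG_loc' hb x, ← integral_add (DerG_kl ha x) (DerG_i hb x)]

private lemma DerG_lo {a b m : Vec d → ℝ} (ha : PlF e a) (hb : PlF e b) (hm : PlF e m)
    (h : ∀ x, ∀ z : ℝ, |z| ≤ 1 / 2 → -m x ≤ z * a x + b x) (x : Vec d) :
    -(∫ y, m y ∂(muD d)) ≤
      (∫ z in Ioo (-(1 / 2) : ℝ) (1 / 2), kl 1 z * a (x - Pi.single e z)) + ∫ y, b y ∂(muD d) := by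
  rw [DerG_sum ha hb x, ← DerG_loc' hm x, ← integral_neg]
  refine integral_mono_ae (DerG_i hm x).neg ((DerG_kl ha x).add (DerG_i hb x)) ?_
  filter_upwards [ae_restrict_mem measurableSet_Ioo] with z hz
  exact h _ _ (kl_abs one_pos hz)

private lemma DerG_hi {a b m : Vec d → ℝ} (ha : PlF e a) (hb : PlF e b) (hm : PlF e m)
    (h : ∀ x, |a x| + |b x| ≤ m x) (x : Vec d) :
      (∫ z in Ioo (-(1 / 2) : ℝ) (1 / 2), kl 1 z * a (x - Pi.single e z)) + ∫ y, b y ∂(muD d) ≤
      ∫ y, m y ∂(muD d) := by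
  rw [DerG_sum ha hb x, ← DerG_loc' hm x]
  refine integral_mono_ae ((DerG_kl ha x).add (DerG_i hb x)) (DerG_i hm x) ?_
  filter_upwards [ae_restrict_mem measurableSet_Ioo] with z hz
  have h1 : |kl 1 z| ≤ 1 / 2 := kl_abs one_pos hz
  have h2 := h (x - Pi.single e z)
  have h3 : kl 1 z * a (x - Pi.single e z) ≤ |a (x - Pi.single e z)| := by
    refine (le_abs_self _).trans ?_
    rw [abs_mul]
    have h4 := abs_nonneg (a (x - Pi.single e z))
    nlinarith
  have h5 := le_abs_self (b (x - Pi.single e z))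
  show kl 1 z * a (x - Pi.single e z) + b (x - Pi.single e z) ≤ m (x - Pi.single e z)
  linarith

theorem EA_der (hP : P.Ok) (hr : 0 < r) (h : FS e F G)
    (hb : FS e (fun x v => bet P.C₀ (F x v)) (fun x v => bet' P.C₀ (F x v) * G x v)) {μ₁ μ₂ : Vec d → ℝ}
    (hμ₁ : PlF e μ₁) (hμ₂ : PlF e μ₂) (v : Vec d)
    (h1 : ∀ x, |∫ w, PhR e P.a r v w * G x w| ≤ μ₁ x)
    (h2 : ∀ x, |∫ w, cutW P.R (PhR e P.a r) v w * (bet' P.C₀ (F x w) * G x w)| ≤ μ₂ x) (x : Vec d) :
    P.K * (∫ w, (v e - w e) * PhR e P.a r v w * (F x w - gb P.R P.C₀ F x w)) - P.K * avG P r e F v -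
      P.K * ((∫ y, μ₁ y ∂(muD d)) + ∫ y, μ₂ y ∂(muD d)) ≤ dEA P r e F G x v := by
  have aF : DerGA e F := ⟨h.contF, h.decF, h.perF, h.plF⟩
  have aG : DerGA e G := ⟨h.contG, h.decG, h.perG, h.plG⟩
  have aB : DerGA e fun x w => bet P.C₀ (F x w) := ⟨hb.contF, hb.decF, hb.perF, hb.plF⟩
  have aH : DerGA e fun x w => bet' P.C₀ (F x w) * G x w := ⟨hb.contG, hb.decG, hb.perG, hb.plG⟩
  have a1 : DerGA e (gb P.R P.C₀ F) := by
    refine ⟨?_, ?_, ?_, ?_⟩
    · exact ((chi_cont P.R).comp continuous_snd).mul hb.contF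
    · intro N
      obtain ⟨C, hC⟩ := hb.decF N
      refine ⟨C, fun x w => le_trans ?_ (hC x w)⟩
      have hw : 0 < 1 + ‖w‖ := w_pos w
      refine mul_le_mul_of_nonneg_left ?_ (by positivity)
      unfold gb
      rw [abs_mul, abs_of_nonneg (chi_nonneg _ _)]
      exact mul_le_of_le_one_left (abs_nonneg _) (chi_le_one _ _)
    · intro x w i
      unfold gb
      rw [h.perF]
    · intro x y w hxy
      unfold gb
      rw [h.plF x y w hxy]
  have a2 : DerGA e fun x w => F x w - gb P.R P.C₀ F x w := by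
    refine ⟨aF.cont.sub a1.cont, ?_, ?_, ?_⟩
    · intro N
      obtain ⟨C, hC⟩ := aF.dec N
      obtain ⟨C', hC'⟩ := a1.dec N
      refine ⟨C + C', fun x w => ?_⟩
      have hw : 0 < 1 + ‖w‖ := w_pos w
      calc (1 + ‖w‖) ^ N * |F x w - gb P.R P.C₀ F x w|
          ≤ (1 + ‖w‖) ^ N * (|F x w| + |gb P.R P.C₀ F x w|) :=
            mul_le_mul_of_nonneg_left (abs_sub _ _) (by positivity)
        _ = (1 + ‖w‖) ^ N * |F x w| + (1 + ‖w‖) ^ N * |gb P.R P.C₀ F x w| := by ring
        _ ≤ C + C' := add_le_add (hC x w) (hC' x w)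
    · intro x w i
      simp only [aF.per, a1.per]
    · intro x y w hxy
      simp only [aF.pl x y w hxy, a1.pl x y w hxy]
  have po := PhR_PGW (d := d) hP.ha hP.ha1 hr e
  have co := cutW_PGW po P.R
  have vo := po.vmul e
  have vc := co.vmul e
  -- the identity for the fluxes
  have hid : ∀ y, (∫ w, (v e - w e) * PhR e P.a r v w * F y w) -
      (∫ w, (v e - w e) * cutW P.R (PhR e P.a r) v w * bet P.C₀ (F y w)) =
      ∫ w, (v e - w e) * PhR e P.a r v w * (F y w - gb P.R P.C₀ F y w) := by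
    intro y
    rw [← integral_sub (DerG_int aF vo y v) (DerG_int aB vc y v)]
    congr 1
    funext w
    unfold gb cutW
    ring
  have q1 := DerG_pl aF vo v
  have q2 := DerG_pl aB vc v
  have q3 := DerG_pl a2 vo v
  have hav : avG P r e F v =
      (∫ y, (∫ w, (v e - w e) * PhR e P.a r v w * F y w) ∂(muD d)) -
        ∫ y, (∫ w, (v e - w e) * cutW P.R (PhR e P.a r) v w * bet P.C₀ (F y w)) ∂(muD d) := by
    have e1 : avG P r e F v =
        ∫ y, (∫ w, (v e - w e) * PhR e P.a r v w * (F y w - gb P.R P.C₀ F y w)) ∂(muD d) :=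
      Pool.Agent.H15.AV.nu_integral (DerG_nu a2 vo v)
    rw [e1, ← integral_sub (pl_int q1) (pl_int q2)]
    congr 1
    funext y
    exact (hid y).symm
  have l1 := DerG_loc' q1 x
  have l2 := DerG_loc' q2 x
  have z0 : PlF e fun _ : Vec d => (0 : ℝ) := ⟨continuous_const, fun _ _ => rfl, fun _ _ _ => rfl⟩
  have s1 := DerG_lo (DerG_pl aG po v) z0 hμ₁ (fun y z hz => by
    have h3 := h1 y
    have h4 : |z * ∫ w, PhR e P.a r v w * G y w| ≤ μ₁ y := by
      rw [abs_mul]
      have h5 := abs_nonneg (∫ w, PhR e P.a r v w * G y w)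
      nlinarith
    have h6 := (abs_le.mp h4).1
    linarith) x
  have s2 := DerG_hi (DerG_pl aH co v) z0 hμ₂ (fun y => by
    rw [abs_zero, add_zero]
    exact h2 y) x
  rw [integral_zero, add_zero] at s1 s2
  have hx := hid x
  have hK := hP.hK
  unfold dEA dpot
  rw [one_div_one, one_mul, one_mul, hav, ← hx]
  rw [l1, l2]
  have k1 := mul_le_mul_of_nonneg_left s1 hK
  have k2 := mul_le_mul_of_nonneg_left s2 hK
  linarith


end Pool.Agent.H48.PG
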