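import Pool.Agent.H48.PV.EUDef
import Pool.Agent.H15.G1.Blk

/-!
# Module EGDef: the weight function, `γ = 1 + a`, `0 ≤ a` (extension to `γ = 1` and `d = 2`)

Paper: /team-store/h15_gamma1_paper.md. `EG = K pot[PhR] F - K pot[chi_R PhR](bet_C₀ F) + lam ED`, `ED` the damping potential (H48/PV/EUDef).
-/

set_option autoImplicit false

open MeasureTheory Set Filter Topology Pool.Agent.H25.Kin Pool.Agent.H82.BK Pool.Agent.H82.CM
open Pool.Agent.H48.PL Pool.Agent.H48.PI Pool.Agent.H48.PW Pool.Agent.H48.PV Pool.Agent.H15.G1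

namespace Pool.Agent.H48.PG

variable {d : ℕ}

/-- the parameters -/
structure Pg where
  a : ℝ
  K : ℝ
  lam : ℝ
  R : ℝ
  C₀ : ℝ
  R₂ : ℝ
  C₂ : ℝ

/-- conditions on the parameters -/
structure Pg.Ok (P : Pg) : Prop where
  ha : 0 ≤ P.a
  ha1 : P.a < 1
  hK : 0 ≤ P.K
  hlam : 0 ≤ P.lam
  hR₂ : 1 ≤ P.R₂
  hR : P.R₂ ≤ P.R
  hC₂ : 0 < P.C₂
  hC : P.C₂ ≤ P.C₀

lemma Pg.Ok.hC0 {P : Pg} (hP : P.Ok) : 0 < P.C₀ := hP.hC₂.trans_le hP.hC

/-- the main part -/
noncomputable def EA (P : Pg) (r : ℝ) (e : Fin d) (F : Vec d → Vec d → ℝ) (x v : Vec d) : ℝ :=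
  P.K * pot e 1 (PhR e P.a r) F x v -
    P.K * pot e 1 (cutW P.R (PhR e P.a r)) (fun y w => bet P.C₀ (F y w)) x v

/-- its derivative -/
noncomputable def dEA (P : Pg) (r : ℝ) (e : Fin d) (F G : Vec d → Vec d → ℝ) (x v : Vec d) : ℝ :=
  P.K * dpot e 1 (PhR e P.a r) F G x v -
    P.K * dpot e 1 (cutW P.R (PhR e P.a r)) (fun y w => bet P.C₀ (F y w))
        (fun y w => bet' P.C₀ (F y w) * G y w) x v

/-- the weight function -/
noncomputable def EG (P : Pg) (r : ℝ) (e : Fin d) (F : Vec d → Vec d → ℝ) (x v : Vec d) : ℝ :=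
  EA P r e F x v + P.lam * ED P.R₂ P.C₂ e F x v

/-- its derivative along characteristics -/
noncomputable def dEG (P : Pg) (r : ℝ) (e : Fin d) (F G : Vec d → Vec d → ℝ) (x v : Vec d) : ℝ :=
  dEA P r e F G x v + P.lam * dED P.R₂ P.C₂ e F G x v

/-- the average over the torus of the flux of the unbounded part -/
noncomputable def avG (P : Pg) (r : ℝ) (e : Fin d) (F : Vec d → Vec d → ℝ) (v : Vec d) : ℝ :=
  ∫ p, (v e - p.1 e) * PhR e P.a r v p.1 * (F p.2 p.1 - gb P.R P.C₀ F p.2 p.1) ∂(nu d)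

/-- the main terms of the derivative -/
noncomputable def mainG (P : Pg) (r M : ℝ) (e : Fin d) (F : Vec d → Vec d → ℝ) (x v : Vec d) : ℝ :=
  P.K * (∫ w, (v e - w e) * PhR e P.a r v w * (F x w - gb P.R P.C₀ F x w)) - P.K * avG P r e F v +
    P.lam * (VarU P.R₂ P.C₂ e F - 4 * P.R₂ * M * ∫ w, len (v - w) * gb P.R₂ P.C₂ F x w)

variable {T r : ℝ} {Q f : ℝ → Vec d → Vec d → ℝ} {P : Pg} {R C : ℝ}

private lemma avn_cont3 {Φ : Vec d → Vec d → ℝ} (hf : IsClassicalSol T Q f) (hΦ : PGW Φ) :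
    ContinuousOn (unc fun t (_ : Vec d) v => avn Φ (f t) v) (Ico 0 T ×ˢ univ) := by
  have h1 : Continuous fun z : ℝ × Vec d × Vec d => (z.1, z.2.2) := by fun_prop
  exact (avn_cont hf hΦ).comp h1.continuousOn fun z hz => ⟨hz.1, mem_univ _⟩

private lemma ED_cont (hC : 0 < C) (hf : IsClassicalSol T Q f) (e : Fin d) :
    ContinuousOn (unc fun t x v => ED R C e (f t) x v) (Ico 0 T ×ˢ univ) := by
  have hb := bet_sol hC hf
  have h1 := avn_cont3 hb (W0_PGW (d := d) R)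
  have h2 := pot_cont hb (W1_PGW e R) e one_pos
  have h3 := avn_cont3 hb (W1_PGW e R)
  have h4 := pot_cont hb (W0_PGW (d := d) R) e one_pos
  exact (h1.mul h2).sub (h3.mul h4)

private lemma EA_cont (hP : P.Ok) (hr : 0 < r) (hf : IsClassicalSol T Q f) (e : Fin d) :
    ContinuousOn (unc fun t x v => EA P r e (f t) x v) (Ico 0 T ×ˢ univ) := by
  have hb := bet_sol hP.hC0 hf
  have hO := PhR_PGW hP.ha hP.ha1 hr e
  have h1 := pot_cont hf hO e one_pos
  have h3 := pot_cont hb (cutW_PGW hO P.R) e one_pos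
  exact (continuousOn_const.mul h1).sub (continuousOn_const.mul h3)

private lemma ED_char (hC : 0 < C) (hf : IsClassicalSol T Q f) {e : Fin d} (hpl : Planar e T f) {t : ℝ}
    (ht : t ∈ Ioo 0 T) (x v : Vec d) :
    HasDerivAt (fun r => ED R C e (f r) (x + r • v) v) (dED R C e (f t) (Q t) (x + t • v) v) t := by
  have hb := bet_sol hC hf
  have hbp : Planar e T fun t x v => bet C (f t x v) := bet_planar hpl
  have h1 := avn_deriv hb (W0_PGW (d := d) R) ht v
  have h2 := pot_char hb hbp (W1_PGW e R) one_pos ht x v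
  have h3 := avn_deriv hb (W1_PGW e R) ht v
  have h4 := pot_char hb hbp (W0_PGW (d := d) R) one_pos ht x v
  exact (h1.mul h2).sub (h3.mul h4)

private lemma EA_char (hP : P.Ok) (hr : 0 < r) (hf : IsClassicalSol T Q f) {e : Fin d}
    (hpl : Planar e T f) {t : ℝ} (ht : t ∈ Ioo 0 T) (x v : Vec d) :
    HasDerivAt (fun q => EA P r e (f q) (x + q • v) v) (dEA P r e (f t) (Q t) (x + t • v) v) t := by
  have hb := bet_sol hP.hC0 hf
  have hbp : Planar e T fun t x v => bet P.C₀ (f t x v) := bet_planar hpl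
  have hO := PhR_PGW hP.ha hP.ha1 hr e
  have h1 := pot_char hf hpl hO one_pos ht x v
  have h3 := pot_char hb hbp (cutW_PGW hO P.R) one_pos ht x v
  exact (h1.const_mul P.K).sub (h3.const_mul P.K)

theorem EG_cont (hP : P.Ok) (hr : 0 < r) (hf : IsClassicalSol T Q f) (e : Fin d) :
    ContinuousOn (unc fun t x v => EG P r e (f t) x v) (Ico 0 T ×ˢ univ) := by
  have h1 := EA_cont hP hr hf e
  have h2 := ED_cont (R := P.R₂) hP.hC₂ hf e
  exact h1.add (continuousOn_const.mul h2)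

lemma EG_per {F : Vec d → Vec d → ℝ} (hF : ∀ x v i, F (x + Pi.single i 1) v = F x v) (e : Fin d)
    (x v : Vec d) (i : Fin d) : EG P r e F (x + Pi.single i 1) v = EG P r e F x v := by
  have hb : ∀ C : ℝ, ∀ (y w : Vec d) (j : Fin d), (fun y w => bet C (F y w)) (y + Pi.single j 1) w =
      (fun y w => bet C (F y w)) y w := by
    intro C y w j
    show bet C (F (y + Pi.single j 1) w) = bet C (F y w)
    rw [hF]
  unfold EG EA ED
  rw [pot_per hF, pot_per (hb P.C₀), pot_per (hb P.C₂), pot_per (hb P.C₂)]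

theorem EG_char (hP : P.Ok) (hr : 0 < r) (hf : IsClassicalSol T Q f) {e : Fin d} (hpl : Planar e T f)
    {t : ℝ} (ht : t ∈ Ioo 0 T) (x v : Vec d) :
    HasDerivAt (fun q => EG P r e (f q) (x + q • v) v) (dEG P r e (f t) (Q t) (x + t • v) v) t := by
  have h1 := EA_char hP hr hf hpl ht x v
  have h2 := ED_char (R := P.R₂) hP.hC₂ hf hpl ht x v
  exact h1.add (h2.const_mul P.lam)

end Pool.Agent.H48.PG
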