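import Pool.Agent.H48.PG.DerG
import Pool.Agent.H48.PV.DerB
import Pool.Agent.H48.PV.ErrU

/-!
# Module ErrG: lower bound for the derivative of the weight

As `dEU_low` in H48/PV/ErrU.lean (275 lines; same structure, copy its private lemmas), simpler (no `Zu`). Constants: `A₁` from `PhR_cusp E`, `K_c, K_c'(R₁)` from `err_cg HL E` (`τ = 1`: `s < 1`, `a ≤ 1`; `A₁`), `A_P` from `PhR_cut` (with `R = P.R`), `K_r` from `err_rg HL E` (`τ = 1`), `A_D = 4 R₂ + 1`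
(`erru_chiw`, `erru_chih` with exponent `1`; the test functions `W1 e R₂ v`, `W0 R₂ v` do not have a cusp: `CuspBT 1 a v A_D`: `|ψ w - ψ w'| ≤ A_D len (w-w') ≤ A_D (len (w-w')^1 (1 + len (w-v)^(a-1)))`).
* `μ₁ x = K_c'/ε Dn + ε K_c' XT 1 + K_c XT R₁ + η'`: `err_cg` with `v₀ = v`, `V₁ = jb v ≥ 1`, `ψ = PhR e a r v ·`; `om m V₁ R₁ ≤ 1` and `XT a m (max V₁ R₁) g ≤ XT a m R₁ g` (`om m` is antitone in `V`, `m < 1`; see `XT_anti` or similar in H48/PW, H85/UP).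
* `μ₂ x = A_P ((1/ε+K_r) Dn + ε K_r XT 1) + η'` (`err_rg`, `C₀`), `μ₃` the same with `2 A_D`, `C₂`, `2η'` (`ED_der`, H48/PV/DerB.lean). `K₁ = K K_c`. All constants are independent of `r`.
-/

set_option autoImplicit false

open MeasureTheory Set Filter Topology Pool.Agent.H25.Kin Pool.Agent.H82.BK Pool.Agent.H82.CM
open Pool.Agent.H48.PL Pool.Agent.H48.PI Pool.Agent.H48.PW Pool.Agent.H48.PV Pool.Agent.H15.G1
open Pool.Agent.H85.UP
open Pool.Agent.H15.AV (UNice gau)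

namespace Pool.Agent.H48.PG

variable {d : ℕ} {s a m C Ca cb : ℝ} {b : ℝ → ℝ}

private lemma errg_dn_pl (HL : HypL d (1 + a) s b C Ca cb) {T : ℝ} {f : ℝ → Vec d → Vec d → ℝ}
    (hf : IsBoltzmannSol (1 + a) b T f) {e : Fin d} (hpl : Planar e T f) {δ : ℝ} (hδ : 0 < δ) {t : ℝ}
    (ht : t ∈ Ioo 0 T) : PlF e (fun y => Dn (1 + a) b δ (f t y)) := by
  have ht' : t ∈ Ico 0 T := ⟨ht.1.le, ht.2⟩
  refine ⟨?_, fun x i => ?_, fun x y h => ?_⟩
  · have h1 : Continuous fun y : Vec d => (t, y) := by fun_prop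
    exact (Dn_cont HL hf hδ).1.comp_continuous h1 fun y => ⟨ht, mem_univ _⟩
  · have h1 : f t (x + Pi.single i 1) = f t x := by
      funext v
      exact hf.periodic t ht' x v i
    show Dn (1 + a) b δ (f t (x + Pi.single i 1)) = Dn (1 + a) b δ (f t x)
    rw [h1]
  · have h1 : f t x = f t y := by
      funext v
      exact hpl t ht' x y v h
    show Dn (1 + a) b δ (f t x) = Dn (1 + a) b δ (f t y)
    rw [h1]

private lemma errg_const (e : Fin d) (c : ℝ) : PlF e (fun _ : Vec d => c) ∧ ∫ _, c ∂(muD d) = c := by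
  refine ⟨⟨continuous_const, fun _ _ => rfl, fun _ _ _ => rfl⟩, ?_⟩
  rw [integral_const]
  have h1 : (muD d).real univ = 1 := by
    rw [Measure.real, muD_univ]
    rfl
  rw [h1, one_smul]

private lemma errg_add {e : Fin d} {A B : Vec d → ℝ} (hA : PlF e A) (hB : PlF e B) (c : ℝ) :
    PlF e (fun y => c * A y + B y) ∧
      ∫ y, (c * A y + B y) ∂(muD d) = c * (∫ y, A y ∂(muD d)) + ∫ y, B y ∂(muD d) := by
  refine ⟨⟨(continuous_const.mul hA.cont).add hB.cont, fun x i => ?_, fun x y h => ?_⟩, ?_⟩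
  · simp only [hA.per, hB.per]
  · simp only [hA.pl x y h, hB.pl x y h]
  · rw [integral_add ((pl_int hA).const_mul c) (pl_int hB), integral_const_mul]

private lemma errg_chiw {R : ℝ} (hR : 1 ≤ R) (e : Fin d) (w : Vec d) : |chi R w * w e| ≤ 2 * R := by
  have c0 := chi_nonneg R w
  have c1 := chi_le_one R w
  rcases le_or_gt (2 * R) (jb w) with h | h
  · rw [chi_eq_zero hR h, zero_mul, abs_zero]
    linarith
  · have h1 := abs_coord_le w e
    have h2 := len_le_jb w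
    have h3 := abs_nonneg (w e)
    rw [abs_mul, abs_of_nonneg c0]
    nlinarith

private lemma errg_chih {R : ℝ} (hR : 1 ≤ R) (hm : 0 < m) (hm1 : m ≤ 1) (e : Fin d) (w w' : Vec d) :
    |chi R w * w e - chi R w' * w' e| ≤ (4 * R + 1) * len (w - w') ^ m := by
  have key : ∀ w w' : Vec d, jb w < 2 * R →
      |chi R w * w e - chi R w' * w' e| ≤ (4 * R + 1) * len (w - w') ^ m := by
    intro w w' hw
    have hl := len_nonneg (w - w')
    rcases le_or_gt 1 (len (w - w')) with h | h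
    · have h1 := errg_chiw hR e w
      have h2 := errg_chiw hR e w'
      have h3 : 1 ≤ len (w - w') ^ m := Real.one_le_rpow h hm.le
      have h4 := abs_sub (chi R w * w e) (chi R w' * w' e)
      nlinarith
    · have h1 := chi_holder hR hm hm1 w w'
      have h2 := abs_coord_le w e
      have h3 := len_le_jb w
      have h4 := abs_coord_le (w - w') e
      have h5 : len (w - w') ≤ len (w - w') ^ m := by
        rcases hl.eq_or_lt with h0 | h0
        · rw [← h0, Real.zero_rpow hm.ne']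
        · calc len (w - w') = len (w - w') ^ (1 : ℝ) := (Real.rpow_one _).symm
            _ ≤ len (w - w') ^ m := Real.rpow_le_rpow_of_exponent_ge h0 h.le hm1
      have c0 := chi_nonneg R w'
      have c1 := chi_le_one R w'
      have hp : 0 ≤ len (w - w') ^ m := Real.rpow_nonneg hl m
      have e1 : chi R w * w e - chi R w' * w' e =
          (chi R w - chi R w') * w e + chi R w' * (w e - w' e) := by ring
      have e2 : (w - w') e = w e - w' e := rfl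
      rw [e2] at h4
      have h6 : |(chi R w - chi R w') * w e| ≤ len (w - w') ^ m * (2 * R) := by
        rw [abs_mul]
        exact mul_le_mul h1 (by linarith) (abs_nonneg _) hp
      have h7 : |chi R w' * (w e - w' e)| ≤ len (w - w') ^ m := by
        rw [abs_mul, abs_of_nonneg c0]
        have := abs_nonneg (w e - w' e)
        nlinarith
      rw [e1]
      have h8 := abs_add_le ((chi R w - chi R w') * w e) (chi R w' * (w e - w' e))
      nlinarith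
  rcases lt_or_ge (jb w) (2 * R) with h | h
  · exact key w w' h
  · rcases lt_or_ge (jb w') (2 * R) with h' | h'
    · have h1 := key w' w h'
      have h2 : len (w' - w) = len (w - w') := by
        rw [← neg_sub w w']
        exact len_neg _
      rw [h2, abs_sub_comm] at h1
      exact h1
    · rw [chi_eq_zero hR h, chi_eq_zero hR h', zero_mul, zero_mul, sub_zero, abs_zero]
      have := Real.rpow_nonneg (len_nonneg (w - w')) m
      positivity


private lemma errg_XT_anti {g : Vec d → ℝ} {Cl : ℕ → ℝ} (hg : UNice Cl g) (ha : 0 ≤ a) (ha1 : a ≤ 1)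
    (hm : 0 ≤ m) (hm1 : m ≤ 1) {V V' : ℝ} (hV : 0 < V) (h : V ≤ V') : XT a m V' g ≤ XT a m V g := by
  have hV' : 0 < V' := hV.trans_le h
  have hc : Continuous g := hg.nice.smooth.continuous
  have hd : RD g := fun N => ⟨Cl N, fun v => by
    have h1 := hg.le N v
    have h2 : 0 ≤ (1 + ‖v‖) ^ N := pow_nonneg (w_pos v).le _
    have h3 := norm_nonneg (fderiv ℝ g v)
    have h4 := norm_nonneg (fderiv ℝ (fderiv ℝ g) v)
    rw [Real.norm_eq_abs, abs_of_nonneg (hg.nonneg v)]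
    refine le_trans (mul_le_mul_of_nonneg_left ?_ h2) h1
    linarith⟩
  unfold XT
  refine integral_mono (XT_integrable ha ha1 hm hm1 hV' hd hc) (XT_integrable ha ha1 hm hm1 hV hd hc)
    fun p => ?_
  have h1 : 0 ≤ g p.1 * g p.2 * (len (p.1 - p.2) ^ (1 + a) * jb (p.1 - p.2) ^ m) :=
    mul_nonneg (mul_nonneg (hg.nonneg _) (hg.nonneg _))
      (mul_nonneg (Real.rpow_nonneg (len_nonneg _) _) (Real.rpow_nonneg (jb_pos _).le _))
  exact mul_le_mul_of_nonneg_left (om_anti hm1 hV (RR_pos _ _).le h) h1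

private lemma errg_cusp {ψ : Vec d → ℝ} (hc : Continuous ψ) {A : ℝ} (hA : 0 ≤ A) (h0 : ∀ w, |ψ w| ≤ A)
    (h1 : ∀ w w', |ψ w - ψ w'| ≤ A * len (w - w') ^ (1 : ℝ)) (v : Vec d) : CuspBT 1 a v A ψ := by
  refine ⟨hc, h0, fun w w' _ => (h1 w w').trans (mul_le_mul_of_nonneg_left ?_ hA)⟩
  have h2 := Real.rpow_nonneg (len_nonneg (w - w')) (1 : ℝ)
  have h3 := Real.rpow_nonneg (len_nonneg (w - v)) (a - 1)
  nlinarith

theorem dEG_low (HL : HypL d (1 + a) s b C Ca cb) (E : GE s a m) (e : Fin d) {K : ℝ} (hK : 0 ≤ K) :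
    ∃ K₁ : ℝ, 0 ≤ K₁ ∧ ∀ P : Pg, P.Ok → P.a = a → P.K = K → ∀ M : ℝ, 0 ≤ M →
    ∀ R₁ : ℝ, 4 ≤ R₁ → ∃ Cy : ℝ, 0 ≤ Cy ∧ ∀ ε : ℝ, 0 < ε → ε ≤ 1 → ∃ Cε : ℝ, 0 ≤ Cε ∧
    ∀ r : ℝ, 0 < r → r ≤ 1 →
    ∀ (T : ℝ) (f : ℝ → Vec d → Vec d → ℝ), IsBoltzmannSol (1 + a) b T f → Planar e T f → GB M (f 0) →
      ∀ t₀ t₁ : ℝ, 0 < t₀ → t₀ ≤ t₁ → t₁ < T → ∀ ηe > 0, ∃ δ₀ > 0, ∀ δ ∈ Ioc (0 : ℝ) δ₀,
      ∀ t ∈ Icc t₀ t₁, ∀ x v : Vec d,
      mainG P r M e (f t) x v - (Cε * (∫ y, Dn (1 + a) b δ (f t y) ∂(muD d)) +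
          (ε * Cy * Zw a m f t 1 + K₁ * Zw a m f t R₁) + ηe) ≤
        dEG P r e (f t) (fun y => boltzQ (1 + a) b (f t y)) x v := by
  have hs := E.hs
  have ha : 0 ≤ a := E.ha
  have hm2 := E.hm
  have hm : 0 < m := by linarith
  have hmm := E.hm1
  have hm1 : m ≤ 1 := by linarith
  have ha1 : a < 1 := by linarith
  have hs1 : s < 1 := by linarith
  obtain ⟨A₁, hA₁, hCu⟩ := PhR_cusp (d := d) E
  obtain ⟨KF, hKF, hF⟩ := err_cg HL E hs1 le_rfl ha1.le A₁ hA₁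
  obtain ⟨K', hK', hRen⟩ := err_rg HL E hs1 le_rfl ha1.le
  refine ⟨K * KF, by positivity, fun P hP hPa hPK M hM R₁ hR₁ => ?_⟩
  subst hPa hPK
  obtain ⟨KG, hKG, hG⟩ := hF R₁ (by linarith)
  have hR : 1 ≤ P.R := hP.hR₂.trans hP.hR
  have hR₂ := hP.hR₂
  have hR₂0 : 0 < P.R₂ := by linarith
  have hlam := hP.hlam
  have hC₂ := hP.hC₂
  have hC₀ : 0 < P.C₀ := hC₂.trans_le hP.hC
  have hR₁0 : 0 < R₁ := by linarith
  obtain ⟨AP, hAP, hPO⟩ := PhR_cut (d := d) ha ha1 hR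
  set AD : ℝ := 4 * P.R₂ + 1 with hAD
  have hAD0 : 0 ≤ AD := by positivity
  refine ⟨P.K * KG + P.K * AP * K' + 8 * P.lam * P.R₂ * M * AD * K', by positivity,
    fun ε hε hε1 => ?_⟩
  have hεi : 0 ≤ 1 / ε := by positivity
  refine ⟨P.K * (KG / ε) + (P.K * AP + 8 * P.lam * P.R₂ * M * AD) * (1 / ε + K'), by positivity, ?_⟩
  intro r hr hr1 T f hf hpl hGB t₀ t₁ ht₀ ht₀₁ ht₁ ηe hηe
  obtain ⟨Cl, hCl⟩ := Pool.Agent.H15.AV.sol_unice hf ht₀ ht₁
  set D : ℝ := 2 * P.K + 8 * P.lam * P.R₂ * M + 1 with hD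
  have hD0 : 0 < D := by positivity
  set η₁ : ℝ := ηe / D with hη₁def
  have hη₁ : 0 < η₁ := div_pos hηe hD0
  have hηD : D * η₁ = ηe := by
    rw [hη₁def]
    field_simp
  obtain ⟨δ₁, hδ₁, H1⟩ := hG ε hε hε1 Cl η₁ hη₁
  obtain ⟨δ₂, hδ₂, H2⟩ := hRen ε hε hε1 AP P.C₀ Cl hC₀ η₁ hη₁
  obtain ⟨δ₃, hδ₃, H3⟩ := hRen ε hε hε1 AD P.C₂ Cl hC₂ η₁ hη₁
  refine ⟨min δ₁ (min δ₂ δ₃), lt_min hδ₁ (lt_min hδ₂ hδ₃), fun δ hδ t ht x v => ?_⟩
  have hδ1 : δ ∈ Ioc (0 : ℝ) δ₁ := ⟨hδ.1, hδ.2.trans (min_le_left _ _)⟩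
  have hδ2 : δ ∈ Ioc (0 : ℝ) δ₂ := ⟨hδ.1, hδ.2.trans ((min_le_right _ _).trans (min_le_left _ _))⟩
  have hδ3 : δ ∈ Ioc (0 : ℝ) δ₃ := ⟨hδ.1, hδ.2.trans ((min_le_right _ _).trans (min_le_right _ _))⟩
  have htt : t ∈ Ioo 0 T := ⟨ht₀.trans_le ht.1, ht.2.trans_lt ht₁⟩
  have htt' : t ∈ Ico 0 T := ⟨htt.1.le, htt.2⟩
  have hfs := fs_of hf hpl htt
  have hbs := bet_fs hC₀ hf hpl htt hfs
  have hbs2 := bet_fs hC₂ hf hpl htt hfs
  have hDn := errg_dn_pl HL hf hpl hδ.1 htt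
  have hX1 := XT_pl ha ha1.le hm.le hm1 hf hpl htt' one_pos
  have hXR := XT_pl ha ha1.le hm.le hm1 hf hpl htt' hR₁0
  -- the three majorants
  obtain ⟨hc1, hi1⟩ := errg_const e η₁
  obtain ⟨hc2, hi2⟩ := errg_add hXR hc1 KF
  obtain ⟨hc4, hi4⟩ := errg_add hX1 hc2 (ε * KG)
  obtain ⟨hc5, hi5⟩ := errg_add hDn hc4 (KG / ε)
  obtain ⟨hd2, hj2⟩ := errg_add hX1 hc1 (AP * (ε * K'))
  obtain ⟨hd3, hj3⟩ := errg_add hDn hd2 (AP * (1 / ε + K'))
  obtain ⟨hd1, hj1⟩ := errg_const e (2 * η₁)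
  obtain ⟨he2, hk2⟩ := errg_add hX1 hd1 (2 * AD * (ε * K'))
  obtain ⟨he3, hk3⟩ := errg_add hDn he2 (2 * AD * (1 / ε + K'))
  rw [hi4, hi2, hi1] at hi5
  rw [hj2, hi1] at hj3
  rw [hk2, hj1] at hk3
  have hcomm : ∀ (ψ G : Vec d → ℝ), ∫ w, ψ w * G w = ∫ w, G w * ψ w := fun ψ G =>
    integral_congr_ae (Eventually.of_forall fun w => mul_comm _ _)
  have main1 := EA_der hP hr hfs hbs hc5 hd3 v (by
    intro y
    have hu := hCl t ht y
    have h1 := H1 δ hδ1 (f t y) hu v (jb v) (one_le_jb v) (fun w => PhR e P.a r v w) (hCu r hr hr1 e v)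
    rw [hcomm (fun w => PhR e P.a r v w) (boltzQ (1 + P.a) b (f t y))]
    refine h1.trans ?_
    have h2 := om_le_one (a := m) hm1 (jb_pos v) hR₁0.le
    have h3 := XT_nonneg (a := P.a) (m := m) (one_pos) hu.nonneg
    have h4 := errg_XT_anti hu ha ha1.le hm.le hm1 hR₁0 (le_max_right (jb v) R₁)
    have h5 : ε * KG * om m (jb v) R₁ * XT P.a m 1 (f t y) ≤ ε * KG * XT P.a m 1 (f t y) := by
      refine mul_le_mul_of_nonneg_right ?_ h3
      exact mul_le_of_le_one_right (by positivity) h2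
    have h6 := mul_le_mul_of_nonneg_left h4 hKF
    linarith) (by
    intro y
    have hu := hCl t ht y
    have h1 := H2 δ hδ2 (f t y) hu v AP hAP le_rfl (fun w => chi P.R w * PhR e P.a r v w)
      (hPO r hr hr1 e v)
    unfold cutW
    rw [hcomm (fun w => chi P.R w * PhR e P.a r v w)
        (fun w => bet' P.C₀ (f t y w) * boltzQ (1 + P.a) b (f t y) w)]
    refine h1.trans (le_of_eq ?_)
    ring) x
  have hmass : ∫ p, f t p.2 p.1 ∂(nu d) ≤ M := (glob_bounds HL.H hf hGB htt').mass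
  have main2 := ED_der hR₂ hC₂ hfs hbs2 hmass he3 v (by
    intro y
    have hu := hCl t ht y
    have h1 := H3 δ hδ3 (f t y) hu v AD hAD0 le_rfl (fun w => chi P.R₂ w * w e)
      (errg_cusp ((chi_cont P.R₂).mul (continuous_apply e)) hAD0
        (fun w => (errg_chiw hR₂ e w).trans (by rw [hAD]; linarith))
        (fun w w' => errg_chih hR₂ one_pos le_rfl e w w') v)
    have h2 := H3 δ hδ3 (f t y) hu v AD hAD0 le_rfl (fun w => chi P.R₂ w)
      (errg_cusp (chi_cont P.R₂) hAD0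
        (fun w => by
          rw [abs_of_nonneg (chi_nonneg P.R₂ w), hAD]
          linarith [chi_le_one P.R₂ w])
        (fun w w' => by
          refine (chi_holder hR₂ one_pos le_rfl w w').trans ?_
          have h3 := Real.rpow_nonneg (len_nonneg (w - w')) (1 : ℝ)
          rw [hAD]
          nlinarith) v)
    unfold W1 W0
    rw [hcomm (fun w => chi P.R₂ w * w e)
        (fun w => bet' P.C₂ (f t y w) * boltzQ (1 + P.a) b (f t y) w),
      hcomm (fun w => chi P.R₂ w)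
        (fun w => bet' P.C₂ (f t y w) * boltzQ (1 + P.a) b (f t y) w)]
    refine (add_le_add h1 h2).trans (le_of_eq ?_)
    ring) x
  rw [hi5, hj3] at main1
  rw [hk3] at main2
  have main3 := mul_le_mul_of_nonneg_left main2 hlam
  unfold dEG mainG
  refine le_trans ?_ (add_le_add main1 main3)
  unfold Zw
  have hfin : (2 * P.K + 8 * P.lam * P.R₂ * M) * η₁ ≤ ηe := by
    rw [← hηD, hD]
    nlinarith
  have hε0 : ε ≠ 0 := hε.ne'
  linear_combination hfin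

end Pool.Agent.H48.PG
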