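import Mathlib

/-!
# Module Gron: a Gronwall inequality

`Z t = Y t exp(-∫_s^t α)` has the derivative `(y' - α Y) exp(..) ≤ β exp(-∫_s^t α)` (extend `y'`, `α`, `β` to continuous functions, or use `intervalIntegral.integral_hasDerivWithinAt_right`, `image_le_of_..`/monotonicity on `[s,t]`).
With `α = -c + n`, `n ≥ 0`, `c ≥ 0`: `Y t ≤ exp(∫_s^t α) Y s + ∫_s^t β(τ) exp(∫_τ^t α) dτ`, `∫_τ^t α ≤ ∫_s^t n`.
-/

set_option autoImplicit false

open MeasureTheory Set Filter Topology

namespace Pool.Agent.H48.PG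

/-- The version with functions that are continuous on the whole line. -/
private theorem gron_cont {s t c : ℝ} (hst : s ≤ t) (hc : 0 ≤ c) {Y y n β : ℝ → ℝ} (hy : Continuous y)
    (hn : Continuous n) (hβ : Continuous β) (hn0 : ∀ τ ∈ Icc s t, 0 ≤ n τ)
    (hβ0 : ∀ τ ∈ Icc s t, 0 ≤ β τ) (hY : ∀ τ, Y τ = Y s + ∫ q in s..τ, y q)
    (h : ∀ τ ∈ Icc s t, y τ ≤ (-c + n τ) * Y τ + β τ) :
    Y t ≤ Real.exp (-c * (t - s) + ∫ q in s..t, n q) * Y s +
      Real.exp (∫ q in s..t, n q) * ∫ q in s..t, β q := by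
  set A : ℝ → ℝ := fun τ => -c * (τ - s) + ∫ q in s..τ, n q with hA
  have hYd : ∀ τ, HasDerivAt Y (y τ) τ := by
    intro τ
    have h1 : HasDerivAt (fun u => Y s + ∫ q in s..u, y q) (y τ) τ := by
      have := (intervalIntegral.integral_hasDerivAt_right (hy.intervalIntegrable s τ)
        hy.aestronglyMeasurable.stronglyMeasurableAtFilter hy.continuousAt).const_add (Y s)
      exact this
    exact h1.congr_of_eventuallyEq (Eventually.of_forall hY)
  have hAd : ∀ τ, HasDerivAt A (-c + n τ) τ := by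
    intro τ
    have h1 : HasDerivAt (fun u => ∫ q in s..u, n q) (n τ) τ :=
      intervalIntegral.integral_hasDerivAt_right (hn.intervalIntegrable s τ)
        hn.aestronglyMeasurable.stronglyMeasurableAtFilter hn.continuousAt
    have h2 : HasDerivAt (fun u : ℝ => -c * (u - s)) (-c) τ := by
      simpa using ((hasDerivAt_id τ).sub_const s).const_mul (-c)
    exact h2.add h1
  have hAc : Continuous A := continuous_iff_continuousAt.2 fun τ => (hAd τ).continuousAt
  have hec : Continuous fun τ => β τ * Real.exp (-A τ) := hβ.mul (Real.continuous_exp.comp hAc.neg)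
  set W : ℝ → ℝ := fun τ => Y τ * Real.exp (-A τ) - ∫ q in s..τ, β q * Real.exp (-A q) with hW
  have hWd : ∀ τ, HasDerivAt W ((y τ - (-c + n τ) * Y τ - β τ) * Real.exp (-A τ)) τ := by
    intro τ
    have h1 : HasDerivAt (fun u => ∫ q in s..u, β q * Real.exp (-A q)) (β τ * Real.exp (-A τ)) τ :=
      intervalIntegral.integral_hasDerivAt_right (hec.intervalIntegrable s τ)
        hec.aestronglyMeasurable.stronglyMeasurableAtFilter hec.continuousAt
    have h2 : HasDerivAt (fun u => Real.exp (-A u)) (Real.exp (-A τ) * (-(-c + n τ))) τ :=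
      (hAd τ).neg.exp
    have h3 := ((hYd τ).mul h2).sub h1
    refine h3.congr_deriv ?_
    ring
  have hanti : AntitoneOn W (Icc s t) := by
    apply antitoneOn_of_deriv_nonpos (convex_Icc s t)
    · exact (continuous_iff_continuousAt.2 fun τ => (hWd τ).continuousAt).continuousOn
    · exact fun τ _ => (hWd τ).differentiableAt.differentiableWithinAt
    · intro τ hτ
      rw [(hWd τ).deriv]
      have hτ' := interior_subset hτ
      have := h τ hτ'
      exact mul_nonpos_of_nonpos_of_nonneg (by linarith) (Real.exp_nonneg _)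
  have hWle : W t ≤ W s := hanti (left_mem_Icc.2 hst) (right_mem_Icc.2 hst) hst
  have hAs : A s = 0 := by simp [hA]
  have hWs : W s = Y s := by simp [hW, hAs]
  have h4 : Y t * Real.exp (-A t) ≤ Y s + ∫ q in s..t, β q * Real.exp (-A q) := by
    have : Y t * Real.exp (-A t) - ∫ q in s..t, β q * Real.exp (-A q) ≤ Y s := by
      rw [← hWs]; exact hWle
    linarith
  have h5 : Y t ≤ Real.exp (A t) * Y s + Real.exp (A t) * ∫ q in s..t, β q * Real.exp (-A q) := by
    have h6 := mul_le_mul_of_nonneg_left h4 (Real.exp_nonneg (A t))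
    have h7 : Real.exp (A t) * (Y t * Real.exp (-A t)) = Y t := by
      have : Real.exp (A t) * Real.exp (-A t) = 1 := by
        rw [← Real.exp_add]; simp
      calc Real.exp (A t) * (Y t * Real.exp (-A t)) = Y t * (Real.exp (A t) * Real.exp (-A t)) := by
            ring
        _ = Y t := by rw [this, mul_one]
    rw [h7, mul_add] at h6
    exact h6
  have h8 : Real.exp (A t) * ∫ q in s..t, β q * Real.exp (-A q) ≤
      Real.exp (∫ q in s..t, n q) * ∫ q in s..t, β q := by
    rw [← intervalIntegral.integral_const_mul, ← intervalIntegral.integral_const_mul]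
    apply intervalIntegral.integral_mono_on hst
    · exact (hec.const_mul _).intervalIntegrable _ _
    · exact (hβ.const_mul _).intervalIntegrable _ _
    · intro τ hτ
      have hAt : A t - A τ ≤ ∫ q in s..t, n q := by
        have hsplit : (∫ q in s..τ, n q) + ∫ q in τ..t, n q = ∫ q in s..t, n q :=
          intervalIntegral.integral_add_adjacent_intervals (hn.intervalIntegrable _ _)
            (hn.intervalIntegrable _ _)
        have hpos : 0 ≤ ∫ q in s..τ, n q := by
          apply intervalIntegral.integral_nonneg hτ.1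
          intro u hu
          exact hn0 u ⟨hu.1, hu.2.trans hτ.2⟩
        have hct : 0 ≤ c * (t - τ) := mul_nonneg hc (by linarith [hτ.2])
        have : A t - A τ = -(c * (t - τ)) + ∫ q in τ..t, n q := by
          simp only [hA]
          linarith
        rw [this]
        linarith
      have h9 : Real.exp (A t) * (β τ * Real.exp (-A τ)) = Real.exp (A t - A τ) * β τ := by
        have h10 : Real.exp (A t - A τ) = Real.exp (A t) * Real.exp (-A τ) := by
          rw [← Real.exp_add]
          congr 1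
        rw [h10]; ring
      rw [h9]
      exact mul_le_mul_of_nonneg_right (Real.exp_le_exp.2 hAt) (hβ0 τ hτ)
  calc Y t ≤ Real.exp (A t) * Y s + Real.exp (A t) * ∫ q in s..t, β q * Real.exp (-A q) := h5
    _ ≤ Real.exp (A t) * Y s + Real.exp (∫ q in s..t, n q) * ∫ q in s..t, β q := by
        linarith
    _ = _ := by simp only [hA]

theorem gron {s t c : ℝ} (hst : s ≤ t) (hc : 0 ≤ c) {Y y n β : ℝ → ℝ} (hy : ContinuousOn y (Icc s t))
    (hn : ContinuousOn n (Icc s t)) (hβ : ContinuousOn β (Icc s t)) (hn0 : ∀ τ ∈ Icc s t, 0 ≤ n τ)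
    (hβ0 : ∀ τ ∈ Icc s t, 0 ≤ β τ) (hY : ∀ τ ∈ Icc s t, Y τ = Y s + ∫ q in s..τ, y q)
    (h : ∀ τ ∈ Icc s t, y τ ≤ (-c + n τ) * Y τ + β τ) :
    Y t ≤ Real.exp (-c * (t - s) + ∫ q in s..t, n q) * Y s +
      Real.exp (∫ q in s..t, n q) * ∫ q in s..t, β q := by
  have ext : ∀ f : ℝ → ℝ, ContinuousOn f (Icc s t) →
      ∃ g : ℝ → ℝ, Continuous g ∧ ∀ τ ∈ Icc s t, g τ = f τ := by
    intro f hf
    refine ⟨IccExtend hst ((Icc s t).restrict f), hf.restrict.Icc_extend', ?_⟩
    intro τ hτ
    rw [IccExtend_of_mem hst _ hτ]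
    rfl
  obtain ⟨y', hy', hye⟩ := ext y hy
  obtain ⟨n', hn', hne⟩ := ext n hn
  obtain ⟨b', hb', hbe⟩ := ext β hβ
  have hint : ∀ (f g : ℝ → ℝ), (∀ τ ∈ Icc s t, g τ = f τ) → ∀ τ ∈ Icc s t,
      ∫ q in s..τ, g q = ∫ q in s..τ, f q := by
    intro f g hfg τ hτ
    apply intervalIntegral.integral_congr
    intro q hq
    rw [uIcc_of_le hτ.1] at hq
    exact hfg q ⟨hq.1, hq.2.trans hτ.2⟩
  have ht : t ∈ Icc s t := right_mem_Icc.2 hst
  have hs : s ∈ Icc s t := left_mem_Icc.2 hst
  set Y' : ℝ → ℝ := fun τ => Y s + ∫ q in s..τ, y' q with hY'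
  have hYe : ∀ τ ∈ Icc s t, Y' τ = Y τ := by
    intro τ hτ
    rw [hY τ hτ, hY']
    simp only
    rw [hint y y' hye τ hτ]
  have key := gron_cont (Y := Y') (y := y') (n := n') (β := b') hst hc hy' hn' hb'
    (fun τ hτ => by rw [hne τ hτ]; exact hn0 τ hτ) (fun τ hτ => by rw [hbe τ hτ]; exact hβ0 τ hτ)
    (fun τ => by simp [hY'])
    (fun τ hτ => by rw [hye τ hτ, hne τ hτ, hbe τ hτ, hYe τ hτ]; exact h τ hτ)
  rw [hYe t ht, hYe s hs, hint n n' hne t ht, hint β b' hbe t ht] at key
  exact key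

end Pool.Agent.H48.PG
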