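import Pool.Agent.H48.PG.DefB
import Pool.Agent.H48.PI.HydU

/-!
# Module HydB: mass, energy, entropy from the decay constants; `UniB` from `Est`

* `hydro_B`: as `hydro_of_U` (H48/PI/HydU.lean) for one slice (copy; `M₀` depends on `B (d+3)`, `B 0`).
* `gb_B`: `GB M F` from `hydro_B` (`GB_of` in PL/GBI or `nu_integral`, `muD_univ`: the average over the unit cube of a function `≤ M₀` is `≤ M₀`).
* `uniB_of_est`: `d ≥ 2` is not needed; for `N`: `p` with `d + γ + 4 ≤ 2p`, `N ≤ p` (`1 ≤ γ` only used for `0 ≤ γ`), `K` from the third part of `Est` (`M = |M₀|` from `hydro_B`, iterated integrals over `Icc 0 1` are `≤ M₀`), `A₀ = (d+1)^p B (2p)` (`1 + nsq v ≤ (d+1)(1+‖v‖)^2`), `decay_of` (private in PW/FinG, copy).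
-/

set_option autoImplicit false

open MeasureTheory Set Filter Topology Pool.Agent.H25.Kin Pool.Agent.H82.BK Pool.Agent.H82.CM
open Pool.Agent.H48.PL Pool.Agent.H48.PI Pool.Agent.H93.CM Pool.Agent.H25.PN
open Pool.Agent.H15.AV (Slice)

namespace Pool.Agent.H48.PG

variable {d : ℕ}

theorem hydro_B (d : ℕ) (B : ℕ → ℝ) : ∃ M₀ : ℝ, 0 ≤ M₀ ∧ ∀ F : Vec d → Vec d → ℝ, Slice F →
    (∀ (N : ℕ) (x v : Vec d), (1 + ‖v‖) ^ N * F x v ≤ B N) → ∀ x,
      (∫ v, F x v ≤ M₀) ∧ (∫ v, F x v * nsq v ≤ M₀) ∧ ∫ v, F x v * Real.log (F x v) ≤ M₀ := by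
  have hw : Integrable (fun v : Vec d => ((1 + ‖v‖) ^ (d + 1))⁻¹) := integrable_wt
  set W := ∫ v : Vec d, ((1 + ‖v‖) ^ (d + 1))⁻¹ with hW
  have hW0 : 0 ≤ W := integral_nonneg fun v => inv_nonneg.2 (pow_nonneg (w_pos v).le _)
  set C := B (d + 3) with hCdef
  set C' := B 0 with hC'def
  set L := Real.log (max C' 1) with hL
  have hL0 : 0 ≤ L := Real.log_nonneg (le_max_right _ _)
  refine ⟨(d + 1) * |C| * W * (1 + L), by positivity, fun F hF hU x => ?_⟩
  have hC := hU (d + 3)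
  have hC' := hU 0
  have hdec : ∀ v, F x v ≤ |C| * ((1 + ‖v‖) ^ (d + 1))⁻¹ ∧
      F x v * nsq v ≤ ((d + 1) * |C|) * ((1 + ‖v‖) ^ (d + 1))⁻¹ := by
    intro v
    have h0 := hF.nonneg x v
    have h1 := (hC x v).trans (le_abs_self C)
    have hwp := w_pos v
    have h1w := one_le_w v
    constructor
    · rw [← div_eq_mul_inv, le_div_iff₀ (pow_pos hwp _)]
      refine le_trans ?_ h1
      rw [mul_comm]
      exact mul_le_mul_of_nonneg_right (pow_le_pow_right₀ h1w (by omega)) h0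
    · rw [← div_eq_mul_inv, le_div_iff₀ (pow_pos hwp _)]
      have h2 : nsq v ≤ (d + 1) * (1 + ‖v‖) ^ 2 := by linarith [one_add_nsq_le v]
      calc F x v * nsq v * (1 + ‖v‖) ^ (d + 1)
          ≤ F x v * ((d + 1) * (1 + ‖v‖) ^ 2) * (1 + ‖v‖) ^ (d + 1) := by gcongr
        _ = (d + 1) * ((1 + ‖v‖) ^ (d + 3) * F x v) := by ring
        _ ≤ (d + 1) * |C| := mul_le_mul_of_nonneg_left h1 (by positivity)
  have hfn := fun v => hF.nonneg x v
  have hmass : ∫ v, F x v ≤ |C| * W := by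
    rw [hW, ← integral_const_mul]
    exact integral_mono_of_nonneg (Eventually.of_forall hfn) (hw.const_mul _)
      (Eventually.of_forall fun v => (hdec v).1)
  have hd0 : (0 : ℝ) ≤ d := Nat.cast_nonneg d
  have hA : 0 ≤ |C| * W := by positivity
  have hB : |C| * W ≤ (d + 1) * |C| * W := by nlinarith
  refine ⟨?_, ?_, ?_⟩
  · calc ∫ v, F x v ≤ |C| * W := hmass
      _ ≤ (d + 1) * |C| * W := hB
      _ ≤ (d + 1) * |C| * W * (1 + L) := by nlinarith [mul_nonneg (hA.trans hB) hL0]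
  · have h3 : ∫ v, F x v * nsq v ≤ ((d + 1) * |C|) * W := by
      rw [hW, ← integral_const_mul]
      exact integral_mono_of_nonneg
        (Eventually.of_forall fun v => mul_nonneg (hfn v) (sq_nonneg' v)) (hw.const_mul _)
        (Eventually.of_forall fun v => (hdec v).2)
    nlinarith [mul_nonneg (hA.trans hB) hL0]
  · have hpt : ∀ v, F x v * Real.log (F x v) ≤ L * F x v := by
      intro v
      rcases (hfn v).eq_or_lt with h0 | h0
      · rw [← h0]; simp
      · have h1 := hC' x v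
        rw [pow_zero, one_mul] at h1
        have h2 : Real.log (F x v) ≤ L := Real.log_le_log h0 (h1.trans (le_max_left _ _))
        calc F x v * Real.log (F x v) ≤ F x v * L := mul_le_mul_of_nonneg_left h2 h0.le
          _ = L * F x v := mul_comm _ _
    have hm0 : 0 ≤ ∫ v, F x v := integral_nonneg hfn
    have h4 : ∫ v, F x v * Real.log (F x v) ≤ L * ∫ v, F x v := by
      by_cases hi : Integrable (fun v => F x v * Real.log (F x v))
      · have hfi : Integrable (fun v => F x v) := by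
          have hc : Continuous fun v : Vec d => F x v :=
            hF.cont.comp (continuous_const.prodMk continuous_id)
          refine (hw.const_mul |C|).mono' hc.aestronglyMeasurable (Eventually.of_forall fun v => ?_)
          rw [Real.norm_of_nonneg (hfn v)]
          exact (hdec v).1
        rw [← integral_const_mul]
        exact integral_mono hi (hfi.const_mul L) hpt
      · rw [integral_undef hi]; positivity
    have h5 : L * ∫ v, F x v ≤ L * (|C| * W) := mul_le_mul_of_nonneg_left hmass hL0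
    nlinarith [mul_nonneg hL0 (hA.trans hB), mul_nonneg hL0 hA, mul_nonneg hL0 (sub_nonneg.2 hB)]

/-- the average over the unit cube -/
private lemma hydb_avg {M : ℝ} (hM : 0 ≤ M) {g : Vec d → ℝ} (h : ∀ x, g x ≤ M) :
    ∫ x in Icc (0 : Vec d) 1, g x ≤ M := by
  by_cases hg : Integrable g (volume.restrict (Icc (0 : Vec d) 1))
  · have hfin : IsFiniteMeasure ((volume : Measure (Vec d)).restrict (Icc (0 : Vec d) 1)) := by
      have h0 : IsFiniteMeasure (muD d) := inferInstance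
      unfold muD at h0
      exact h0
    have h1 : ∫ x in Icc (0 : Vec d) 1, g x ≤ ∫ _x in Icc (0 : Vec d) 1, M := by
      refine integral_mono hg ?_ h
      exact integrable_const M
    refine h1.trans (le_of_eq ?_)
    have h2 : (volume : Measure (Vec d)) (Icc (0 : Vec d) 1) = 1 := by
      have := muD_univ (d := d)
      unfold muD at this
      rwa [Measure.restrict_apply_univ] at this
    rw [setIntegral_const, measureReal_def, h2]
    simp
  · rw [integral_undef hg]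
    exact hM

theorem gb_B (d : ℕ) (B : ℕ → ℝ) : ∃ M : ℝ, 0 ≤ M ∧ ∀ F : Vec d → Vec d → ℝ, Slice F →
    (∀ (N : ℕ) (x v : Vec d), (1 + ‖v‖) ^ N * F x v ≤ B N) → GB M F := by
  obtain ⟨M, hM, h⟩ := hydro_B d B
  refine ⟨M, hM, fun F hF hB => ?_⟩
  have h1 := h F hF hB
  exact GB_of hF (hydb_avg hM fun x => (h1 x).1) (hydb_avg hM fun x => (h1 x).2.1)
    (hydb_avg hM fun x => (h1 x).2.2)

/-- from the weighted supremum to the decay -/
private lemma hydb_decay {f : Vec d → ℝ} (h0 : ∀ v, 0 ≤ f v) {N p : ℕ} (hNp : N ≤ p) {K : ℝ}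
    (h : ∀ v, f v * (1 + nsq v) ^ p ≤ K) (v : Vec d) : (1 + ‖v‖) ^ N * f v ≤ 2 ^ N * K := by
  have h12 : (1 + ‖v‖) ^ N ≤ 2 ^ N * (1 + nsq v) ^ p := by
    have h13 : (1 : ℝ) ≤ 1 + ‖v‖ := by linarith [norm_nonneg v]
    calc (1 + ‖v‖) ^ N ≤ ((1 + ‖v‖) ^ 2) ^ N := by
          apply pow_le_pow_left₀ (by linarith)
          nlinarith
      _ ≤ (2 * (1 + nsq v)) ^ N := pow_le_pow_left₀ (by positivity) (norm_le_nsq v) N
      _ = 2 ^ N * (1 + nsq v) ^ N := mul_pow _ _ _
      _ ≤ 2 ^ N * (1 + nsq v) ^ p := by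
          apply mul_le_mul_of_nonneg_left _ (by positivity)
          exact pow_le_pow_right₀ (by linarith [sq_nonneg' v]) hNp
  calc (1 + ‖v‖) ^ N * f v ≤ (2 ^ N * (1 + nsq v) ^ p) * f v :=
        mul_le_mul_of_nonneg_right h12 (h0 v)
    _ = 2 ^ N * (f v * (1 + nsq v) ^ p) := by ring
    _ ≤ 2 ^ N * K := mul_le_mul_of_nonneg_left (h v) (by positivity)

theorem uniB_of_est {γ : ℝ} (hγ : 0 ≤ γ) {b : ℝ → ℝ} {P : ℝ → (ℝ → Vec d → Vec d → ℝ) → Prop}
    (h : Est d γ b P) : UniB d γ b P := by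
  intro B m hm
  obtain ⟨M, hM, hH⟩ := hydro_B d B
  have hp : ∀ N : ℕ, ∃ p : ℕ, (d : ℝ) + γ + 4 ≤ 2 * p ∧ N ≤ p := by
    intro N
    obtain ⟨p, hp⟩ := exists_nat_ge (((d : ℝ) + γ + 4) / 2 + N)
    have h5 : (0 : ℝ) ≤ N := Nat.cast_nonneg N
    have h3 : (0 : ℝ) ≤ d := Nat.cast_nonneg d
    refine ⟨p, by linarith, ?_⟩
    have h4 : (N : ℝ) ≤ p := by linarith
    exact_mod_cast h4
  choose p hp1 hp2 using hp
  have hK := fun N => h.2 (p N) (hp1 N) m hm M
  choose K hK0 hK using hK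
  refine ⟨fun N => 2 ^ N * (K N * ((d + 1) ^ p N * B (2 * p N) + 1)),
    fun T f hf hP hB hmm t ht N x v => ?_⟩
  have hT : 0 < T := ht.1.trans_lt ht.2
  have hsl : Slice (f 0) := Pool.Agent.H15.AV.sol_slice hf ⟨le_rfl, hT⟩
  have h1 := hH (f 0) hsl hB
  refine hydb_decay (fun v => hf.nonneg t ht x v) (hp2 N) (fun v => ?_) v
  refine hK N T f hf hP hmm (hydb_avg hM fun x => (h1 x).1) (hydb_avg hM fun x => (h1 x).2.1)
    (hydb_avg hM fun x => (h1 x).2.2) _ (fun x v => ?_) t ht x v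
  have h0 := hsl.nonneg x v
  have h2 : (1 + nsq v) ^ p N ≤ ((d + 1) * (1 + ‖v‖) ^ 2) ^ p N :=
    pow_le_pow_left₀ (by linarith [sq_nonneg' v]) (one_add_nsq_le v) _
  calc f 0 x v * (1 + nsq v) ^ p N ≤ f 0 x v * ((d + 1) * (1 + ‖v‖) ^ 2) ^ p N :=
        mul_le_mul_of_nonneg_left h2 h0
    _ = (d + 1) ^ p N * ((1 + ‖v‖) ^ (2 * p N) * f 0 x v) := by
        rw [mul_pow, ← pow_mul]
        ring
    _ ≤ (d + 1) ^ p N * B (2 * p N) := mul_le_mul_of_nonneg_left (hB _ x v) (by positivity)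

end Pool.Agent.H48.PG
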