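import Pool.Agent.H48.PG.EGDef
import Pool.Agent.H48.PI.ESli

/-!
# Module OscG: oscillation of the weight function, the density of the cusps

`nG x u = jb u^a ∫_{|z|<1/2} (F - gb)(x - z e, u) dz`. Compare `EU_osc` in H48/PV/AbsU.lean (private lemmas `au_*`: the linear formula for `EA`, integrability).
* `nG_cont`: continuity in `u` (dominated convergence, or `avg`-type lemmas), nonnegative (`gb ≤ F`); rapid decay: `(1+‖u‖)^N nG x u ≤ C` (`F` has rapid decay uniformly in `x`, `jb u^a ≤ jb u`).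
* `nG_int`: Fubini and `loc e 1 B x = ∫ B dμ` (see `DerA_loc'` in PV/DerA.lean; `nu_integral`) for `B y = ∫ u, jb u^a (F - gb)(y,u)`; `jb^a ≤ jb^(1+a)`.
* `nG_sq`: Cauchy-Schwarz in `z` (length `1`): `nG x u ^ 2 ≤ jb u^(2a) ∫z F(x - z e, u)^2` and Fubini, `loc e 1 B x = ∫ B dμ` with `B y = ∫ u, φ u F y u ^2`, `φ = jb^(-2a) ψ`; stated for a continuous `ψ` of polynomial growth.
* `EG_osc`: `ED_v` (the damping potential does not depend on `v`); `EA x v' - EA x v = K ∫z kl 1 z ∫ w (PhR v' w - PhR v w) (F - gb)(x - z e, w)`, `|kl| ≤ 1/2`, `PhR_osc` (for `w ≠ v`, a.e.), Fubini; `K' = K_osc` (a factor `1/2` to spare).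
-/

set_option autoImplicit false

open MeasureTheory Set Filter Topology Pool.Agent.H25.Kin Pool.Agent.H82.BK Pool.Agent.H82.CM
open Pool.Agent.H48.PL Pool.Agent.H48.PI Pool.Agent.H48.PW Pool.Agent.H48.PV Pool.Agent.H15.G1
open Pool.Agent.H85.UP
open Pool.Agent.H15.AV (UNice gau)

namespace Pool.Agent.H48.PG

variable {d : ℕ} {P : Pg} {r : ℝ} {e : Fin d} {F G : Vec d → Vec d → ℝ} {ε₂ Λ : ℝ}

/-- the density of the cusps -/
noncomputable def nG (P : Pg) (e : Fin d) (F : Vec d → Vec d → ℝ) (x u : Vec d) : ℝ :=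
  jb u ^ P.a * ∫ z in Ioo (-(1 / 2) : ℝ) (1 / 2),
    (F (x - Pi.single e z) u - gb P.R P.C₀ F (x - Pi.single e z) u)

/-! ### generic part -/

/-- continuous planar periodic functions with rapid decay in the velocity -/
private structure OgA (e : Fin d) (A : Vec d → Vec d → ℝ) : Prop where
  cont : Continuous fun p : Vec d × Vec d => A p.1 p.2
  dec : RX A
  per : ∀ x v i, A (x + Pi.single i 1) v = A x v
  pl : ∀ x y v, x e = y e → A x v = A y v

private lemma og_bd {A : Vec d → Vec d → ℝ} (hA : OgA e A) {Φ : Vec d → Vec d → ℝ} (hΦ : PGW Φ)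
    (v : Vec d) : ∃ C, ∀ x w, |Φ v w * A x w| ≤ C * wt d w := by
  obtain ⟨N, K, hK0, hK⟩ := hΦ.le
  obtain ⟨C, hC⟩ := hA.dec (N + (d + 1))
  refine ⟨K * (1 + ‖v‖) ^ N * C, fun x w => ?_⟩
  have hw : 0 < 1 + ‖w‖ := w_pos w
  have hv : 0 < 1 + ‖v‖ := w_pos v
  have h2 := hC x w
  rw [abs_mul]
  unfold wt
  rw [← div_eq_mul_inv, le_div_iff₀ (by positivity)]
  calc |Φ v w| * |A x w| * (1 + ‖w‖) ^ (d + 1)
      ≤ (K * ((1 + ‖v‖) ^ N * (1 + ‖w‖) ^ N)) * |A x w| * (1 + ‖w‖) ^ (d + 1) := by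
        have := hK v w
        gcongr
    _ = K * (1 + ‖v‖) ^ N * ((1 + ‖w‖) ^ (N + (d + 1)) * |A x w|) := by rw [pow_add]; ring
    _ ≤ K * (1 + ‖v‖) ^ N * C := by gcongr

private lemma og_wc {A : Vec d → Vec d → ℝ} (hA : OgA e A) {Φ : Vec d → Vec d → ℝ} (hΦ : PGW Φ)
    (x v : Vec d) : Continuous fun w => Φ v w * A x w :=
  (hΦ.cont.comp (by fun_prop : Continuous fun w : Vec d => (v, w))).mul
    (hA.cont.comp (by fun_prop : Continuous fun w : Vec d => (x, w)))

private lemma og_int {A : Vec d → Vec d → ℝ} (hA : OgA e A) {Φ : Vec d → Vec d → ℝ} (hΦ : PGW Φ)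
    (x v : Vec d) : Integrable fun w => Φ v w * A x w := by
  obtain ⟨C, hC⟩ := og_bd hA hΦ v
  exact (integrable_wt.const_mul C).mono' (og_wc hA hΦ x v).aestronglyMeasurable
    (Eventually.of_forall fun w => hC x w)

private lemma og_nu {A : Vec d → Vec d → ℝ} (hA : OgA e A) {Φ : Vec d → Vec d → ℝ} (hΦ : PGW Φ)
    (v : Vec d) : Integrable (fun p : Vec d × Vec d => Φ v p.1 * A p.2 p.1) (nu d) := by
  obtain ⟨C, hC⟩ := og_bd hA hΦ v
  have hc : Continuous fun p : Vec d × Vec d => Φ v p.1 * A p.2 p.1 :=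
    (hΦ.cont.comp (by fun_prop : Continuous fun p : Vec d × Vec d => (v, p.1))).mul
      (hA.cont.comp (by fun_prop : Continuous fun p : Vec d × Vec d => (p.2, p.1)))
  exact integrable_nu hc.aestronglyMeasurable fun p => hC p.2 p.1

private lemma og_pl {A : Vec d → Vec d → ℝ} (hA : OgA e A) {Φ : Vec d → Vec d → ℝ} (hΦ : PGW Φ)
    (v : Vec d) : PlF e fun x => ∫ w, Φ v w * A x w := by
  obtain ⟨C, hC⟩ := og_bd hA hΦ v
  refine ⟨?_, ?_, ?_⟩
  · refine continuous_of_dominated (bound := fun w => C * wt d w) ?_ ?_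
      (integrable_wt.const_mul _) ?_
    · intro x
      exact (og_wc hA hΦ x v).aestronglyMeasurable
    · intro x
      exact Eventually.of_forall fun w => hC x w
    · refine Eventually.of_forall fun w => ?_
      exact continuous_const.mul
        (hA.cont.comp (by fun_prop : Continuous fun x : Vec d => (x, w)))
  · intro x i
    congr 1
    funext w
    rw [hA.per]
  · intro x y hxy
    congr 1
    funext w
    rw [hA.pl x y w hxy]

private lemma og_single (e : Fin d) (x : Vec d) : Continuous fun z : ℝ => x - (Pi.single e z : Vec d) :=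
  continuous_const.sub (continuous_single (A := fun _ : Fin d => ℝ) e)

private lemma og_fin : IsFiniteMeasure ((volume : Measure ℝ).restrict (Ioo (-(1 / 2)) (1 / 2))) :=
  ⟨by rw [Measure.restrict_apply_univ]; exact measure_Ioo_lt_top⟩

private lemma og_one : ((volume : Measure ℝ).restrict (Ioo (-(1 / 2)) (1 / 2))) univ = 1 := by
  rw [Measure.restrict_apply_univ, Real.volume_Ioo]
  norm_num

private lemma og_kl {B : Vec d → ℝ} (hB : PlF e B) (x : Vec d) :
    Integrable (fun z : ℝ => kl 1 z * B (x - Pi.single e z))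
      (volume.restrict (Ioo (-(1 / 2)) (1 / 2))) := by
  obtain ⟨C, hC⟩ := pl_bdd hB
  have hfin := og_fin
  refine Integrable.of_bound ((kl_meas 1).aestronglyMeasurable.mul
    (hB.cont.comp (og_single e x)).aestronglyMeasurable) (1 / 2 * C) ?_
  filter_upwards [ae_restrict_mem measurableSet_Ioo] with z hz
  rw [norm_mul, Real.norm_eq_abs, Real.norm_eq_abs]
  exact mul_le_mul (kl_abs one_pos hz) (hC _) (abs_nonneg _) (by norm_num)

private lemma og_jbr {r : ℝ} : PGW fun (_ : Vec d) (w : Vec d) => jb w ^ r := by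
  obtain ⟨N, hN⟩ := exists_nat_ge r
  have hjc : Continuous fun v : Vec d => jb v ^ r :=
    jb_cont.rpow_const fun v => Or.inl (jb_pos v).ne'
  refine ⟨hjc.comp continuous_snd, N, ((d : ℝ) + 1) ^ N, by positivity, fun v w => ?_⟩
  have hv : (1 : ℝ) ≤ (1 + ‖v‖) ^ N := one_le_pow₀ (by linarith [norm_nonneg v])
  rw [abs_of_nonneg (Real.rpow_nonneg (jb_pos w).le r)]
  calc jb w ^ r ≤ jb w ^ (N : ℝ) := Real.rpow_le_rpow_of_exponent_le (one_le_jb w) hN
    _ = jb w ^ N := Real.rpow_natCast _ _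
    _ ≤ (((d : ℝ) + 1) * (1 + ‖w‖)) ^ N := pow_le_pow_left₀ (jb_pos w).le (jb_le_w w) N
    _ = ((d : ℝ) + 1) ^ N * (1 * (1 + ‖w‖) ^ N) := by rw [mul_pow]; ring
    _ ≤ ((d : ℝ) + 1) ^ N * ((1 + ‖v‖) ^ N * (1 + ‖w‖) ^ N) := by gcongr

private lemma og_nsq (p : ℕ) : PGW fun (_ : Vec d) (w : Vec d) => (1 + nsq w) ^ p := by
  refine ⟨((continuous_const.add continuous_sq).comp continuous_snd).pow p, 2 * p,
    ((d : ℝ) + 1) ^ (2 * p), by positivity, fun v w => ?_⟩
  have hv : (1 : ℝ) ≤ (1 + ‖v‖) ^ (2 * p) := one_le_pow₀ (by linarith [norm_nonneg v])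
  rw [← jb_sq, ← pow_mul, abs_of_nonneg (pow_nonneg (jb_pos w).le _)]
  calc jb w ^ (2 * p) ≤ (((d : ℝ) + 1) * (1 + ‖w‖)) ^ (2 * p) :=
        pow_le_pow_left₀ (jb_pos w).le (jb_le_w w) _
    _ = ((d : ℝ) + 1) ^ (2 * p) * (1 * (1 + ‖w‖) ^ (2 * p)) := by rw [mul_pow]; ring
    _ ≤ ((d : ℝ) + 1) ^ (2 * p) * ((1 + ‖v‖) ^ (2 * p) * (1 + ‖w‖) ^ (2 * p)) := by gcongr

/-- the average along the line -/
private noncomputable def og_L (e : Fin d) (A : Vec d → Vec d → ℝ) (x u : Vec d) : ℝ :=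
  ∫ z in Ioo (-(1 / 2) : ℝ) (1 / 2), A (x - Pi.single e z) u

private lemma og_zint {A : Vec d → Vec d → ℝ} (hA : OgA e A) (x u : Vec d) :
    Integrable (fun z : ℝ => A (x - Pi.single e z) u) (volume.restrict (Ioo (-(1 / 2)) (1 / 2))) := by
  obtain ⟨C, hC⟩ := hA.dec 0
  have hfin := og_fin
  have hc : Continuous fun z : ℝ => A (x - Pi.single e z) u :=
    hA.cont.comp ((og_single e x).prodMk continuous_const)
  refine Integrable.of_bound hc.aestronglyMeasurable C (Eventually.of_forall fun z => ?_)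
  have := hC (x - Pi.single e z) u
  rwa [pow_zero, one_mul, ← Real.norm_eq_abs] at this

private lemma og_Lcont {A : Vec d → Vec d → ℝ} (hA : OgA e A) (x : Vec d) :
    Continuous (og_L e A x) := by
  obtain ⟨C, hC⟩ := hA.dec 0
  have hfin := og_fin
  unfold og_L
  refine continuous_of_dominated (bound := fun _ => C) ?_ ?_ (integrable_const C) ?_
  · intro u
    exact (og_zint hA x u).aestronglyMeasurable
  · intro u
    refine Eventually.of_forall fun z => ?_
    have := hC (x - Pi.single e z) u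
    rwa [pow_zero, one_mul, ← Real.norm_eq_abs] at this
  · refine Eventually.of_forall fun z => ?_
    exact hA.cont.comp (continuous_const.prodMk continuous_id)

private lemma og_Lbd {A : Vec d → Vec d → ℝ} (hA : OgA e A) (N : ℕ) :
    ∃ C, ∀ x u, (1 + ‖u‖) ^ N * |og_L e A x u| ≤ C := by
  obtain ⟨C, hC⟩ := hA.dec N
  refine ⟨C, fun x u => ?_⟩
  have hfin := og_fin
  have hw : 0 < (1 + ‖u‖) ^ N := pow_pos (w_pos u) N
  have h1 : ‖og_L e A x u‖ ≤ C / (1 + ‖u‖) ^ N *
      ((volume : Measure ℝ).restrict (Ioo (-(1 / 2)) (1 / 2))).real univ := by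
    refine norm_integral_le_of_norm_le_const (Eventually.of_forall fun z => ?_)
    rw [le_div_iff₀ hw, Real.norm_eq_abs, mul_comm]
    exact hC _ u
  rw [Measure.real, og_one, ENNReal.toReal_one, mul_one, Real.norm_eq_abs, le_div_iff₀ hw,
    mul_comm] at h1
  exact h1

/-- Fubini -/
private lemma og_fub {A : Vec d → Vec d → ℝ} (hA : OgA e A) {k : Vec d → ℝ} (hk : Measurable k)
    {N : ℕ} {K : ℝ} (hK : 0 ≤ K) (hb : ∀ w, |k w| ≤ K * (1 + ‖w‖) ^ N) (x : Vec d) :
    Integrable (fun w => k w * og_L e A x w) ∧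
    Integrable (fun z : ℝ => ∫ w, k w * A (x - Pi.single e z) w)
      (volume.restrict (Ioo (-(1 / 2)) (1 / 2))) ∧
    ∫ w, k w * og_L e A x w =
      ∫ z in Ioo (-(1 / 2) : ℝ) (1 / 2), ∫ w, k w * A (x - Pi.single e z) w := by
  obtain ⟨C, hC⟩ := hA.dec (N + (d + 1))
  have hfin := og_fin
  have hint : Integrable (fun p : Vec d × ℝ => k p.1 * A (x - Pi.single e p.2) p.1)
      ((volume : Measure (Vec d)).prod ((volume : Measure ℝ).restrict (Ioo (-(1 / 2)) (1 / 2)))) := by
    have h1 : Integrable (fun p : Vec d × ℝ => (K * C) * wt d p.1)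
        ((volume : Measure (Vec d)).prod ((volume : Measure ℝ).restrict (Ioo (-(1 / 2)) (1 / 2)))) :=
      (integrable_wt.const_mul (K * C)).comp_fst _
    refine h1.mono' ?_ (Eventually.of_forall fun p => ?_)
    · have hc : Continuous fun p : Vec d × ℝ => A (x - Pi.single e p.2) p.1 :=
        hA.cont.comp (((og_single e x).comp continuous_snd).prodMk continuous_fst)
      exact ((hk.comp measurable_fst).mul hc.measurable).aestronglyMeasurable
    · have hw : 0 < 1 + ‖p.1‖ := w_pos p.1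
      have h2 := hC (x - Pi.single e p.2) p.1
      rw [norm_mul, Real.norm_eq_abs, Real.norm_eq_abs]
      unfold wt
      rw [← div_eq_mul_inv, le_div_iff₀ (by positivity)]
      calc |k p.1| * |A (x - Pi.single e p.2) p.1| * (1 + ‖p.1‖) ^ (d + 1)
          ≤ (K * (1 + ‖p.1‖) ^ N) * |A (x - Pi.single e p.2) p.1| * (1 + ‖p.1‖) ^ (d + 1) := by
            have := hb p.1
            gcongr
        _ = K * ((1 + ‖p.1‖) ^ (N + (d + 1)) * |A (x - Pi.single e p.2) p.1|) := by
            rw [pow_add]; ring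
        _ ≤ K * C := by gcongr
  have e1 : (fun w => k w * og_L e A x w) = fun w => ∫ z in Ioo (-(1 / 2) : ℝ) (1 / 2),
      k w * A (x - Pi.single e z) w := by
    funext w
    unfold og_L
    rw [integral_const_mul]
  rw [e1]
  refine ⟨hint.integral_prod_left, hint.integral_prod_right, ?_⟩
  exact integral_integral_swap hint

/-! ### the unbounded part -/

private lemma og_gb_nonneg (hP : P.Ok) (h : FS e F G) (x w : Vec d) : 0 ≤ gb P.R P.C₀ F x w :=
  mul_nonneg (chi_nonneg _ _) (bet_nonneg hP.hC0 (h.nonneg x w))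

private lemma og_gb_le (hP : P.Ok) (h : FS e F G) (x w : Vec d) : gb P.R P.C₀ F x w ≤ F x w := by
  have h1 := bet_le hP.hC0 (h.nonneg x w)
  have h2 := bet_nonneg hP.hC0 (h.nonneg x w)
  unfold gb
  exact (mul_le_of_le_one_left h2 (chi_le_one P.R w)).trans h1

private lemma og_F (h : FS e F G) : OgA e F := ⟨h.contF, h.decF, h.perF, h.plF⟩

private lemma og_F2 (h : FS e F G) : OgA e fun x w => F x w ^ 2 := by
  refine ⟨h.contF.pow 2, ?_, ?_, ?_⟩
  · intro N
    obtain ⟨C, hC⟩ := h.decF N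
    obtain ⟨C', hC'⟩ := h.decF 0
    refine ⟨C * C', fun x w => ?_⟩
    have h1 := hC x w
    have h2 := hC' x w
    rw [pow_zero, one_mul] at h2
    have h3 : 0 ≤ |F x w| := abs_nonneg _
    have h4 : 0 ≤ (1 + ‖w‖) ^ N * |F x w| := mul_nonneg (pow_nonneg (w_pos w).le _) h3
    rw [abs_pow]
    calc (1 + ‖w‖) ^ N * |F x w| ^ 2 = ((1 + ‖w‖) ^ N * |F x w|) * |F x w| := by ring
      _ ≤ C * C' := mul_le_mul h1 h2 h3 (h4.trans h1)
  · intro x w i
    simp only [h.perF]
  · intro x y w hxy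
    simp only [h.plF x y w hxy]

private lemma og_bet (hP : P.Ok) (h : FS e F G) : OgA e fun x w => bet P.C₀ (F x w) := by
  have hC : 0 < P.C₀ := hP.hC0
  refine ⟨?_, ?_, ?_, ?_⟩
  · rw [continuous_iff_continuousAt]
    intro p
    have h1 : ContinuousAt (bet P.C₀) (F p.1 p.2) := (bet_deriv hC (h.nonneg p.1 p.2)).continuousAt
    exact ContinuousAt.comp (g := bet P.C₀) (f := fun p : Vec d × Vec d => F p.1 p.2) h1
      h.contF.continuousAt
  · intro N
    obtain ⟨C, hC'⟩ := h.decF N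
    refine ⟨C, fun x w => le_trans ?_ (hC' x w)⟩
    have hw : 0 < 1 + ‖w‖ := w_pos w
    refine mul_le_mul_of_nonneg_left ?_ (by positivity)
    rw [abs_of_nonneg (bet_nonneg hC (h.nonneg x w)), abs_of_nonneg (h.nonneg x w)]
    exact bet_le hC (h.nonneg x w)
  · intro x w i
    simp only [h.perF]
  · intro x y w hxy
    simp only [h.plF x y w hxy]

private lemma og_gb (hP : P.Ok) (h : FS e F G) : OgA e (gb P.R P.C₀ F) := by
  have hB := og_bet hP h
  refine ⟨((chi_cont P.R).comp continuous_snd).mul hB.cont, ?_, ?_, ?_⟩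
  · intro N
    obtain ⟨C, hC⟩ := hB.dec N
    refine ⟨C, fun x w => le_trans ?_ (hC x w)⟩
    have hw : 0 < 1 + ‖w‖ := w_pos w
    refine mul_le_mul_of_nonneg_left ?_ (by positivity)
    unfold gb
    rw [abs_mul, abs_of_nonneg (chi_nonneg _ _)]
    exact mul_le_of_le_one_left (abs_nonneg _) (chi_le_one _ _)
  · intro x w i
    unfold gb
    rw [h.perF]
  · intro x y w hxy
    unfold gb
    rw [h.plF x y w hxy]

private lemma og_H (hP : P.Ok) (h : FS e F G) : OgA e fun x w => F x w - gb P.R P.C₀ F x w := by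
  have aF := og_F h
  have a1 := og_gb hP h
  refine ⟨aF.cont.sub a1.cont, ?_, ?_, ?_⟩
  · intro N
    obtain ⟨C, hC⟩ := aF.dec N
    obtain ⟨C', hC'⟩ := a1.dec N
    refine ⟨C + C', fun x w => ?_⟩
    have hw : 0 < 1 + ‖w‖ := w_pos w
    calc (1 + ‖w‖) ^ N * |F x w - gb P.R P.C₀ F x w|
        ≤ (1 + ‖w‖) ^ N * (|F x w| + |gb P.R P.C₀ F x w|) :=
          mul_le_mul_of_nonneg_left (abs_sub _ _) (by positivity)
      _ = (1 + ‖w‖) ^ N * |F x w| + (1 + ‖w‖) ^ N * |gb P.R P.C₀ F x w| := by ring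
      _ ≤ C + C' := add_le_add (hC x w) (hC' x w)
  · intro x w i
    simp only [aF.per, a1.per]
  · intro x y w hxy
    simp only [aF.pl x y w hxy, a1.pl x y w hxy]

private lemma og_nG (P : Pg) (e : Fin d) (F : Vec d → Vec d → ℝ) (x u : Vec d) :
    nG P e F x u = jb u ^ P.a * og_L e (fun x w => F x w - gb P.R P.C₀ F x w) x u := rfl

private lemma og_Lnn (hP : P.Ok) (h : FS e F G) (x u : Vec d) :
    0 ≤ og_L e (fun x w => F x w - gb P.R P.C₀ F x w) x u :=
  integral_nonneg fun _ => sub_nonneg.2 (og_gb_le hP h _ _)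

private lemma og_jb_bd (r : ℝ) : ∃ (N : ℕ) (K : ℝ), 0 ≤ K ∧ ∀ w : Vec d,
    |jb w ^ r| ≤ K * (1 + ‖w‖) ^ N := by
  obtain ⟨N, K, hK, hb⟩ := (og_jbr (d := d) (r := r)).le
  refine ⟨N, K, hK, fun w => ?_⟩
  have := hb 0 w
  rwa [norm_zero, add_zero, one_pow, one_mul] at this

private lemma og_jb_meas (r : ℝ) : Measurable fun w : Vec d => jb w ^ r :=
  (jb_cont.rpow_const fun v => Or.inl (jb_pos v).ne').measurable

theorem nG_cont (hP : P.Ok) (h : FS e F G) (x : Vec d) : Continuous (nG P e F x) ∧ RD (nG P e F x) ∧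
    ∀ u, 0 ≤ nG P e F x u := by
  have hH := og_H hP h
  have hj : Continuous fun v : Vec d => jb v ^ P.a :=
    jb_cont.rpow_const fun v => Or.inl (jb_pos v).ne'
  refine ⟨hj.mul (og_Lcont hH x), ?_, fun u => ?_⟩
  · intro N
    obtain ⟨M, K, hK, hb⟩ := og_jb_bd (d := d) P.a
    obtain ⟨C, hC⟩ := og_Lbd hH (N + M)
    refine ⟨K * C, fun u => ?_⟩
    rw [og_nG, norm_mul, Real.norm_eq_abs, Real.norm_eq_abs]
    have hw : 0 < 1 + ‖u‖ := w_pos u
    calc (1 + ‖u‖) ^ N * (|jb u ^ P.a| * |og_L e (fun x w => F x w - gb P.R P.C₀ F x w) x u|)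
        ≤ (1 + ‖u‖) ^ N * ((K * (1 + ‖u‖) ^ M) *
            |og_L e (fun x w => F x w - gb P.R P.C₀ F x w) x u|) := by
          have := hb u
          gcongr
      _ = K * ((1 + ‖u‖) ^ (N + M) * |og_L e (fun x w => F x w - gb P.R P.C₀ F x w) x u|) := by
          rw [pow_add]; ring
      _ ≤ K * C := mul_le_mul_of_nonneg_left (hC x u) hK
  · rw [og_nG]
    exact mul_nonneg (Real.rpow_nonneg (jb_pos u).le _) (og_Lnn hP h x u)

theorem nG_int (hP : P.Ok) (h : FS e F G)
    (h2 : ∫ p, (F p.2 p.1 - gb P.R P.C₀ F p.2 p.1) * jb p.1 ^ (1 + P.a) ∂(nu d) ≤ ε₂) (x : Vec d) :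
    Integrable (fun u => nG P e F x u * jb u) ∧ ∫ u, nG P e F x u * jb u ≤ ε₂ := by
  have hH := og_H hP h
  obtain ⟨N, K, hK, hb⟩ := og_jb_bd (d := d) (1 + P.a)
  obtain ⟨i1, i2, e1⟩ := og_fub hH (og_jb_meas (1 + P.a)) hK hb x
  have e2 : (fun u => nG P e F x u * jb u) = fun u => jb u ^ (1 + P.a) *
      og_L e (fun x w => F x w - gb P.R P.C₀ F x w) x u := by
    funext u
    rw [og_nG, Real.rpow_add (jb_pos u), Real.rpow_one]
    ring
  rw [e2]
  refine ⟨i1, ?_⟩
  rw [e1]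
  have hB := og_pl hH (og_jbr (r := 1 + P.a)) 0
  have h0 : ∀ y, 0 ≤ ∫ w, jb w ^ (1 + P.a) * (F y w - gb P.R P.C₀ F y w) := fun y =>
    integral_nonneg fun w => mul_nonneg (Real.rpow_nonneg (jb_pos w).le _)
      (sub_nonneg.2 (og_gb_le hP h y w))
  have h3 := loc_le hB h0 one_pos le_rfl x
  unfold loc at h3
  refine h3.trans ?_
  have ij := og_nu hH (og_jbr (r := 1 + P.a)) 0
  rw [← Pool.Agent.H15.AV.nu_integral ij]
  refine le_trans (le_of_eq ?_) h2
  congr 1
  funext p
  ring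

theorem nG_sq (hP : P.Ok) (h : FS e F G) {p : ℕ}
    (h2 : ∫ q, F q.2 q.1 ^ 2 * (1 + nsq q.1) ^ p ∂(nu d) ≤ Λ) (x : Vec d) :
    Integrable (fun u => (nG P e F x u * jb u ^ (-P.a)) ^ 2 * (1 + nsq u) ^ p) ∧
      ∫ u, (nG P e F x u * jb u ^ (-P.a)) ^ 2 * (1 + nsq u) ^ p ≤ Λ := by
  have hH := og_H hP h
  have hF2 := og_F2 h
  have hfin := og_fin
  set L : Vec d → ℝ := og_L e (fun x w => F x w - gb P.R P.C₀ F x w) x with hL
  have e2 : (fun u => (nG P e F x u * jb u ^ (-P.a)) ^ 2 * (1 + nsq u) ^ p) = fun u =>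
      (1 + nsq u) ^ p * L u ^ 2 := by
    funext u
    rw [og_nG, ← hL]
    have h1 : jb u ^ P.a * jb u ^ (-P.a) = 1 := by
      rw [← Real.rpow_add (jb_pos u), add_neg_cancel, Real.rpow_zero]
    calc (jb u ^ P.a * L u * jb u ^ (-P.a)) ^ 2 * (1 + nsq u) ^ p
        = (jb u ^ P.a * jb u ^ (-P.a)) ^ 2 * L u ^ 2 * (1 + nsq u) ^ p := by ring
      _ = _ := by rw [h1]; ring
  rw [e2]
  -- the weight
  obtain ⟨N, K, hK, hb⟩ := (og_nsq (d := d) p).le
  have hb' : ∀ w : Vec d, |(1 + nsq w) ^ p| ≤ K * (1 + ‖w‖) ^ N := by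
    intro w
    have := hb 0 w
    rwa [norm_zero, add_zero, one_pow, one_mul] at this
  have hkm : Measurable fun w : Vec d => (1 + nsq w) ^ p :=
    ((continuous_const.add continuous_sq).pow p).measurable
  obtain ⟨i1, i2, e1⟩ := og_fub hF2 hkm hK hb' x
  have hk0 : ∀ w : Vec d, 0 ≤ (1 + nsq w) ^ p := by
    intro w
    rw [← jb_sq]
    positivity
  -- Cauchy-Schwarz
  have hcs : ∀ u, L u ^ 2 ≤ og_L e (fun x w => F x w ^ 2) x u := by
    intro u
    have hi := og_zint hH x u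
    have hi2 := og_zint hF2 x u
    have hpos : ∀ z : ℝ, 0 ≤ F (x - Pi.single e z) u - gb P.R P.C₀ F (x - Pi.single e z) u :=
      fun z => sub_nonneg.2 (og_gb_le hP h _ _)
    have hle : ∀ z : ℝ, (F (x - Pi.single e z) u - gb P.R P.C₀ F (x - Pi.single e z) u) ^ 2 ≤
        F (x - Pi.single e z) u ^ 2 := by
      intro z
      refine pow_le_pow_left₀ (hpos z) ?_ 2
      have := og_gb_nonneg hP h (x - Pi.single e z) u
      linarith
    have hone : ∫ _z : ℝ in Ioo (-(1 / 2) : ℝ) (1 / 2), (L u) ^ 2 = (L u) ^ 2 := by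
      rw [integral_const, Measure.real, og_one, ENNReal.toReal_one, one_smul]
    have h3 : 0 ≤ ∫ z in Ioo (-(1 / 2) : ℝ) (1 / 2), ((F (x - Pi.single e z) u ^ 2 -
        2 * L u * (F (x - Pi.single e z) u - gb P.R P.C₀ F (x - Pi.single e z) u)) + (L u) ^ 2) := by
      refine integral_nonneg fun z => ?_
      show 0 ≤ (F (x - Pi.single e z) u ^ 2 -
        2 * L u * (F (x - Pi.single e z) u - gb P.R P.C₀ F (x - Pi.single e z) u)) + (L u) ^ 2
      have := hle z
      nlinarith [sq_nonneg ((F (x - Pi.single e z) u - gb P.R P.C₀ F (x - Pi.single e z) u) - L u)]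
    have i3 : Integrable (fun z : ℝ => F (x - Pi.single e z) u ^ 2 -
        2 * L u * (F (x - Pi.single e z) u - gb P.R P.C₀ F (x - Pi.single e z) u))
        (volume.restrict (Ioo (-(1 / 2)) (1 / 2))) := hi2.sub (hi.const_mul _)
    have e3 : ∫ z in Ioo (-(1 / 2) : ℝ) (1 / 2), ((F (x - Pi.single e z) u ^ 2 -
        2 * L u * (F (x - Pi.single e z) u - gb P.R P.C₀ F (x - Pi.single e z) u)) + (L u) ^ 2) =
        ((∫ z in Ioo (-(1 / 2) : ℝ) (1 / 2), F (x - Pi.single e z) u ^ 2) - 2 * L u *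
          ∫ z in Ioo (-(1 / 2) : ℝ) (1 / 2),
            (F (x - Pi.single e z) u - gb P.R P.C₀ F (x - Pi.single e z) u)) + (L u) ^ 2 := by
      rw [integral_add i3 (integrable_const _), integral_sub hi2 (hi.const_mul _),
        integral_const_mul, hone]
    rw [e3] at h3
    have e4 : ∫ z in Ioo (-(1 / 2) : ℝ) (1 / 2),
        (F (x - Pi.single e z) u - gb P.R P.C₀ F (x - Pi.single e z) u) = L u := rfl
    rw [e4] at h3
    have e5 : og_L e (fun x w => F x w ^ 2) x u =
      ∫ z in Ioo (-(1 / 2) : ℝ) (1 / 2), F (x - Pi.single e z) u ^ 2 := rfl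
    rw [e5]
    nlinarith [h3]
  have hLc : Continuous L := og_Lcont hH x
  have hmain : Integrable fun u => (1 + nsq u) ^ p * L u ^ 2 := by
    refine i1.mono' ?_ (Eventually.of_forall fun u => ?_)
    · exact (hkm.mul (hLc.pow 2).measurable).aestronglyMeasurable
    · rw [Real.norm_eq_abs, abs_of_nonneg (mul_nonneg (hk0 u) (sq_nonneg _))]
      exact mul_le_mul_of_nonneg_left (hcs u) (hk0 u)
  refine ⟨hmain, ?_⟩
  calc ∫ u, (1 + nsq u) ^ p * L u ^ 2 ≤ ∫ u, (1 + nsq u) ^ p * og_L e (fun x w => F x w ^ 2) x u :=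
        integral_mono hmain i1 fun u => mul_le_mul_of_nonneg_left (hcs u) (hk0 u)
    _ ≤ Λ := by
        rw [e1]
        have hB := og_pl hF2 (og_nsq p) 0
        have h0 : ∀ y, 0 ≤ ∫ w, (1 + nsq w) ^ p * F y w ^ 2 := fun y =>
          integral_nonneg fun w => mul_nonneg (hk0 w) (sq_nonneg _)
        have h3 := loc_le hB h0 one_pos le_rfl x
        unfold loc at h3
        refine h3.trans ?_
        have ij := og_nu hF2 (og_nsq p) 0
        rw [← Pool.Agent.H15.AV.nu_integral ij]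
        refine le_trans (le_of_eq ?_) h2
        congr 1
        funext q
        ring

private lemma og_singleton (e : Fin d) (v : Vec d) : (volume : Measure (Vec d)) {v} = 0 := by
  haveI : Nonempty (Fin d) := ⟨e⟩
  exact measure_singleton v

private lemma og_len_cont : Continuous (len : Vec d → ℝ) := continuous_sq.sqrt

theorem EG_osc {a : ℝ} (ha : 0 ≤ a) (ha1 : a < 1) : ∃ K' : ℝ, 0 ≤ K' ∧ ∀ P : Pg, P.Ok → P.a = a →
    ∀ r : ℝ, 0 < r → r ≤ 1 → ∀ (e : Fin d) (F G : Vec d → Vec d → ℝ), FS e F G → ∀ x v v' : Vec d,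
      |EG P r e F x v' - EG P r e F x v| ≤ ∫ u, (P.K * K' * nG P e F x u) *
        (min 1 (len (v' - v) / len (v - u)) + min 1 (len (v' - v) / jb v)) := by
  obtain ⟨K₁, hK₁, hosc⟩ := PhR_osc (d := d) ha ha1
  refine ⟨K₁, hK₁, ?_⟩
  intro P hP hPa r hr hr1 e F G h x v v'
  have hH := og_H hP h
  have aF := og_F h
  have aB := og_bet hP h
  have hO := PhR_PGW hP.ha hP.ha1 hr e
  -- the potential of the unbounded part
  have eP : ∀ u : Vec d, EA P r e F x u = P.K * ∫ z in Ioo (-(1 / 2) : ℝ) (1 / 2),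
      kl 1 z * ∫ w, PhR e P.a r u w * (F (x - Pi.single e z) w -
        gb P.R P.C₀ F (x - Pi.single e z) w) := by
    intro u
    unfold EA pot
    rw [← mul_sub, ← integral_sub (og_kl (og_pl aF hO u) x)
      (og_kl (og_pl aB (cutW_PGW hO P.R) u) x)]
    congr 2
    funext z
    rw [← mul_sub, ← integral_sub (og_int aF hO _ u) (og_int aB (cutW_PGW hO P.R) _ u)]
    congr 2
    funext w
    unfold cutW gb
    ring
  -- the weight
  set mf : Vec d → ℝ := fun u => min 1 (len (v' - v) / len (v - u)) + min 1 (len (v' - v) / jb v)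
    with hmf
  have hm0 : ∀ u, 0 ≤ mf u := fun u => add_nonneg
    (le_min zero_le_one (div_nonneg (Real.sqrt_nonneg _) (Real.sqrt_nonneg _)))
    (le_min zero_le_one (div_nonneg (Real.sqrt_nonneg _) (jb_pos v).le))
  have hm2 : ∀ u, mf u ≤ 2 := fun u => by
    have h1 := min_le_left 1 (len (v' - v) / len (v - u))
    have h3 := min_le_left 1 (len (v' - v) / jb v)
    show min 1 (len (v' - v) / len (v - u)) + min 1 (len (v' - v) / jb v) ≤ 2
    linarith
  have hmm : Measurable mf := by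
    have h1 : Measurable fun u : Vec d => len (v - u) :=
      (og_len_cont.comp (continuous_const.sub continuous_id)).measurable
    exact (measurable_const.min (measurable_const.div h1)).add measurable_const
  obtain ⟨N, K, hK, hb⟩ := og_jb_bd (d := d) P.a
  have hkb : ∀ w : Vec d, |mf w * jb w ^ P.a| ≤ (2 * K) * (1 + ‖w‖) ^ N := by
    intro w
    rw [abs_mul, abs_of_nonneg (hm0 w), mul_assoc]
    exact mul_le_mul (hm2 w) (hb w) (abs_nonneg _) (by norm_num)
  have hkm : Measurable fun w : Vec d => mf w * jb w ^ P.a := hmm.mul (og_jb_meas P.a)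
  obtain ⟨i1, i2, e1⟩ := og_fub hH hkm (by positivity) hkb x
  have eE : EG P r e F x v' - EG P r e F x v = P.K * ∫ z in Ioo (-(1 / 2) : ℝ) (1 / 2),
      kl 1 z * ∫ w, (PhR e P.a r v' w - PhR e P.a r v w) * (F (x - Pi.single e z) w -
        gb P.R P.C₀ F (x - Pi.single e z) w) := by
    unfold EG
    rw [ED_v e F x v' v, add_sub_add_right_eq_sub, eP, eP, ← mul_sub,
      ← integral_sub (og_kl (og_pl hH hO v') x) (og_kl (og_pl hH hO v) x)]
    congr 2
    funext z
    rw [← mul_sub, ← integral_sub (og_int hH hO _ v') (og_int hH hO _ v)]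
    congr 2
    funext w
    ring
  have hw : ∀ y : Vec d, |∫ w, (PhR e P.a r v' w - PhR e P.a r v w) * (F y w - gb P.R P.C₀ F y w)| ≤
      K₁ * ∫ w, (mf w * jb w ^ P.a) * (F y w - gb P.R P.C₀ F y w) := by
    intro y
    have j1 : Integrable fun w => (PhR e P.a r v' w - PhR e P.a r v w) *
        (F y w - gb P.R P.C₀ F y w) := by
      refine ((og_int hH hO y v').sub (og_int hH hO y v)).congr (Eventually.of_forall fun w => ?_)
      simp only [Pi.sub_apply]
      ring
    have j2 : Integrable fun w => (mf w * jb w ^ P.a) * (F y w - gb P.R P.C₀ F y w) := by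
      have j3 := (og_int hH (og_jbr (r := P.a)) y 0).const_mul 2
      refine j3.mono' ?_ (Eventually.of_forall fun w => ?_)
      · exact (hkm.mul (hH.cont.comp (by fun_prop : Continuous fun w : Vec d =>
          (y, w))).measurable).aestronglyMeasurable
      · have h3 : 0 ≤ F y w - gb P.R P.C₀ F y w := sub_nonneg.2 (og_gb_le hP h y w)
        have h4 : 0 ≤ jb w ^ P.a := Real.rpow_nonneg (jb_pos w).le _
        rw [Real.norm_eq_abs, abs_of_nonneg (mul_nonneg (mul_nonneg (hm0 w) h4) h3)]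
        calc mf w * jb w ^ P.a * (F y w - gb P.R P.C₀ F y w)
            ≤ 2 * jb w ^ P.a * (F y w - gb P.R P.C₀ F y w) := by
              have := hm2 w
              gcongr
          _ = 2 * (jb w ^ P.a * (F y w - gb P.R P.C₀ F y w)) := by ring
    refine abs_integral_le_integral_abs.trans ?_
    rw [← integral_const_mul]
    refine integral_mono_ae j1.abs (j2.const_mul K₁) ?_
    have hae : ∀ᵐ w : Vec d, w ≠ v := by
      rw [ae_iff]
      simp only [not_not]
      have : {w : Vec d | w = v} = {v} := rfl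
      rw [this]
      exact og_singleton e v
    filter_upwards [hae] with w hwv
    have h3 : 0 ≤ F y w - gb P.R P.C₀ F y w := sub_nonneg.2 (og_gb_le hP h y w)
    show |(PhR e P.a r v' w - PhR e P.a r v w) * (F y w - gb P.R P.C₀ F y w)| ≤
      K₁ * ((mf w * jb w ^ P.a) * (F y w - gb P.R P.C₀ F y w))
    rw [abs_mul, abs_of_nonneg h3, ← mul_assoc]
    refine mul_le_mul_of_nonneg_right ?_ h3
    have h4 := hosc r hr hr1 e v' v w (Ne.symm hwv)
    rw [hPa]
    refine h4.trans (le_of_eq ?_)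
    show K₁ * jb w ^ a * (min 1 (len (v' - v) / len (v - w)) + min 1 (len (v' - v) / jb v)) =
      K₁ * ((min 1 (len (v' - v) / len (v - w)) + min 1 (len (v' - v) / jb v)) * jb w ^ a)
    ring
  -- the integral over z
  have hz : |∫ z in Ioo (-(1 / 2) : ℝ) (1 / 2), kl 1 z * ∫ w, (PhR e P.a r v' w - PhR e P.a r v w) *
      (F (x - Pi.single e z) w - gb P.R P.C₀ F (x - Pi.single e z) w)| ≤
      1 / 2 * (K₁ * ∫ w, (mf w * jb w ^ P.a) *
        og_L e (fun x w => F x w - gb P.R P.C₀ F x w) x w) := by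
    rw [e1, ← integral_const_mul, ← integral_const_mul, ← Real.norm_eq_abs]
    refine norm_integral_le_of_norm_le ((i2.const_mul K₁).const_mul (1 / 2)) ?_
    refine (ae_restrict_iff' measurableSet_Ioo).2 (Eventually.of_forall fun z hz => ?_)
    rw [norm_mul, Real.norm_eq_abs, Real.norm_eq_abs]
    exact mul_le_mul (kl_abs one_pos (by simpa using hz)) (hw _) (abs_nonneg _) (by norm_num)
  rw [eE, abs_mul, abs_of_nonneg hP.hK]
  have hnn : 0 ≤ ∫ w, (mf w * jb w ^ P.a) * og_L e (fun x w => F x w - gb P.R P.C₀ F x w) x w :=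
    integral_nonneg fun w => mul_nonneg (mul_nonneg (hm0 w) (Real.rpow_nonneg (jb_pos w).le _))
      (og_Lnn hP h x w)
  have e3 : ∫ u, (P.K * K₁ * nG P e F x u) *
      (min 1 (len (v' - v) / len (v - u)) + min 1 (len (v' - v) / jb v)) =
      P.K * (K₁ * ∫ w, (mf w * jb w ^ P.a) *
        og_L e (fun x w => F x w - gb P.R P.C₀ F x w) x w) := by
    rw [← integral_const_mul, ← integral_const_mul]
    congr 1
    funext u
    rw [og_nG]
    show P.K * K₁ * (jb u ^ P.a * og_L e (fun x w => F x w - gb P.R P.C₀ F x w) x u) * mf u = _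
    ring
  rw [e3]
  refine mul_le_mul_of_nonneg_left (hz.trans ?_) hP.hK
  have := mul_nonneg hK₁ hnn
  linarith

end Pool.Agent.H48.PG
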