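import Pool.Agent.H48.PG.AbsG
import Pool.Agent.H48.PG.OscG
import Pool.Agent.H48.PG.LocG
import Pool.Agent.H48.PV.VarL

/-!
# Module L2Sl: the L² inequality for one time slice

Compare `core_U` (H48/PV/CoreU.lean). `p, K₀, κ, δ₁` from `l2_op`; `K = K₀`; `R₂, C₂, cV` from `var_low M hm`; `lam₀` from `loc_G` (`κ`, `c = cV`), `lam = min lam₀ (min 1 (1/(16 R₂ M² + 16)))` with `lam 2R₂M² ≤ 1/8`; `K'` from `EG_osc`; `ε₂ > 0` with `K 4 ε₂ ≤ lam cV/8`, `K ε₂ ≤ 1/8`, `2 K K' ε₂ ≤ δ₁`;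
`R ≥ R₂`, `C₀ ≥ C₂` from `gb_small`; `N` from `l2_op` (`C₀`, `2R`); `c = lam cV/2`; `K₁ = K₀ vol{len ≤ 1}`.
* `|EG| ≤ 1/4` (`EG_abs`). `ω = exp(-EG x ·)`: continuous (`EG` is continuous in `v`: from `pot`; use `EG_osc` or the continuity of `pot` for a slice), `1/2 ≤ ω ≤ 2`, `CuspW n ω` with `n = 2 K K' nG` (`|exp(-a) - exp(-b)| ≤ 2|a-b|` for `|a|,|b| ≤ 1/4`), `∫ n ≤ 2 K K' ε₂ ≤ δ₁` (`nG_int`, `jb ≥ 1`).
* `l2_op` with `g = F x`, `g₁ = gb R C₀ F x` (as in CoreU: `g₁ ≤ C₀`, `g₁ = 0` for `jb > 2R`): the bracket `K₀ ∫ V_e PhS (g-g₁) - κ ∫ len^(1+a) g₁` is `≤ mainG - c + K₁ r B₀`: `V_PhS_PhR`: `∫ V_e PhS (g-g₁) ≤ ∫ V_e PhR (g-g₁) + r^(1+a) B₀ vol{len < r} ≤ .. + r B₀ vol{len ≤ 1}`;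
`loc_G`: `-κ ∫ len^(1+a) g₁ ≤ -lam 4R₂M ∫ len g' + lam cV/8`; `K avG ≤ 4 K ε₂ ≤ lam cV/8`; `Var ≥ cV`.
* `∫∫ g g_* len^(1+a) ≤ XT a m 1 g` (`jb^m ≥ 1`, `om m 1 R = 1` as `R ≥ 1`; in the library, or `XT` with `m ≥ 0`). Integrability: `Nice`, `RD`.
-/

set_option autoImplicit false

open MeasureTheory Set Filter Topology Pool.Agent.H25.Kin Pool.Agent.H82.BK Pool.Agent.H82.CM
open Pool.Agent.H48.PL Pool.Agent.H48.PI Pool.Agent.H48.PW Pool.Agent.H48.PV Pool.Agent.H15.G1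
open Pool.Agent.H85.UP
open Pool.Agent.H15.AV (UNice gau)

namespace Pool.Agent.H48.PG

variable {d : ℕ} {s a m C Ca cb : ℝ} {b : ℝ → ℝ}

private lemma L2Sl_exp1 {x y : ℝ} (hxy : x ≤ y) (hy : y ≤ 1 / 4) : Real.exp y - Real.exp x ≤ 2 * (y - x) := by
  have h1 : Real.exp x = Real.exp y * Real.exp (x - y) := by
    rw [← Real.exp_add]; congr 1; ring
  have h2 := Real.add_one_le_exp (x - y)
  have h3 : 3 / 4 ≤ Real.exp (-(1 / 4)) := by
    have := Real.add_one_le_exp (-(1 / 4) : ℝ); linarith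
  have h4 : Real.exp y ≤ 2 := by
    have h5 : Real.exp y ≤ Real.exp (1 / 4) := Real.exp_le_exp.2 hy
    have h6 : Real.exp (1 / 4) * Real.exp (-(1 / 4)) = 1 := by rw [← Real.exp_add]; simp
    have h7 := Real.exp_pos (1 / 4 : ℝ)
    nlinarith
  have h8 := Real.exp_pos y
  rw [h1]
  nlinarith [mul_le_mul_of_nonneg_left h2 h8.le, mul_le_mul_of_nonneg_right h4 (sub_nonneg.2 hxy)]

private lemma L2Sl_exp {x y : ℝ} (hx : x ≤ 1 / 4) (hy : y ≤ 1 / 4) :
    |Real.exp x - Real.exp y| ≤ 2 * |x - y| := by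
  rcases le_total x y with h | h
  · have h1 := L2Sl_exp1 h hy
    have h2 := Real.exp_le_exp.2 h
    rw [abs_sub_comm, abs_of_nonneg (sub_nonneg.2 h2), abs_sub_comm, abs_of_nonneg (sub_nonneg.2 h)]
    exact h1
  · have h1 := L2Sl_exp1 h hx
    have h2 := Real.exp_le_exp.2 h
    rw [abs_of_nonneg (sub_nonneg.2 h2), abs_of_nonneg (sub_nonneg.2 h)]
    exact h1

private lemma L2Sl_kern_nonneg (v v' u : Vec d) :
    0 ≤ min 1 (len (v' - v) / len (v - u)) + min 1 (len (v' - v) / jb v) :=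
  add_nonneg (le_min zero_le_one (div_nonneg (len_nonneg _) (len_nonneg _)))
    (le_min zero_le_one (div_nonneg (len_nonneg _) (jb_pos v).le))

private lemma L2Sl_kern_le (v v' u : Vec d) :
    min 1 (len (v' - v) / len (v - u)) + min 1 (len (v' - v) / jb v) ≤ 2 := by
  have h1 := min_le_left (1 : ℝ) (len (v' - v) / len (v - u))
  have h2 := min_le_left (1 : ℝ) (len (v' - v) / jb v)
  linarith

private lemma L2Sl_kern_meas (v v' : Vec d) :
    Measurable fun u => min 1 (len (v' - v) / len (v - u)) + min 1 (len (v' - v) / jb v) := by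
  have h1 : Measurable fun u : Vec d => len (v - u) :=
    (continuous_len.comp (continuous_const.sub continuous_id)).measurable
  exact (measurable_const.min (measurable_const.div h1)).add measurable_const

private lemma L2Sl_contW {n E : Vec d → ℝ} (hn : Integrable n) (hn0 : ∀ u, 0 ≤ n u)
    (h : ∀ v v', |E v' - E v| ≤
      ∫ u, n u * (min 1 (len (v' - v) / len (v - u)) + min 1 (len (v' - v) / jb v))) :
    Continuous E := by
  rw [continuous_iff_continuousAt]
  intro v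
  have hlen : Tendsto (fun v' : Vec d => len (v' - v)) (𝓝 v) (𝓝 0) := by
    have h1 : Continuous fun v' : Vec d => len (v' - v) :=
      continuous_len.comp (continuous_id.sub continuous_const)
    have h2 := h1.tendsto v
    have h3 : len (v - v) = 0 := by
      rw [sub_self]; unfold len nsq; simp
    rwa [h3] at h2
  have hI : Tendsto (fun v' : Vec d => ∫ u, n u *
      (min 1 (len (v' - v) / len (v - u)) + min 1 (len (v' - v) / jb v))) (𝓝 v) (𝓝 (∫ _ : Vec d, (0 : ℝ))) := by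
    refine tendsto_integral_filter_of_dominated_convergence (fun u => n u * 2) ?_ ?_ ?_ ?_
    · refine Eventually.of_forall fun v' => ?_
      exact hn.aestronglyMeasurable.mul (L2Sl_kern_meas v v').aestronglyMeasurable
    · refine Eventually.of_forall fun v' => Eventually.of_forall fun u => ?_
      rw [Real.norm_eq_abs, abs_of_nonneg (mul_nonneg (hn0 u) (L2Sl_kern_nonneg v v' u))]
      exact mul_le_mul_of_nonneg_left (L2Sl_kern_le v v' u) (hn0 u)
    · exact hn.mul_const 2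
    · refine Eventually.of_forall fun u => ?_
      have h1 : Tendsto (fun v' : Vec d => n u *
          (min 1 (len (v' - v) / len (v - u)) + min 1 (len (v' - v) / jb v))) (𝓝 v)
          (𝓝 (n u * (min 1 (0 / len (v - u)) + min 1 (0 / jb v)))) := by
        refine Tendsto.const_mul _ (Tendsto.add ?_ ?_)
        · exact tendsto_const_nhds.min (hlen.div_const _)
        · exact tendsto_const_nhds.min (hlen.div_const _)
      simpa using h1
  rw [integral_zero] at hI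
  have h2 : Tendsto (fun v' : Vec d => |E v' - E v|) (𝓝 v) (𝓝 0) :=
    squeeze_zero (fun _ => abs_nonneg _) (fun v' => h v v') hI
  have h3 : Tendsto (fun v' : Vec d => E v' - E v) (𝓝 v) (𝓝 0) :=
    (tendsto_zero_iff_abs_tendsto_zero _).2 h2
  have h4 := h3.add_const (E v)
  have h5 : Tendsto E (𝓝 v) (𝓝 (E v)) := by simpa using h4
  exact h5

private lemma L2Sl_lenpow {b : ℝ} (hb : 0 ≤ b) (hb2 : b ≤ 2) :
    PGW fun v w : Vec d => len (v - w) ^ b := by
  refine ⟨?_, 2, ((d : ℝ) + 1) ^ 2, by positivity, fun v w => ?_⟩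
  · exact (continuous_len.comp (by fun_prop : Continuous fun p : Vec d × Vec d => p.1 - p.2)).rpow_const
      fun p => Or.inr hb
  · rw [abs_of_nonneg (Real.rpow_nonneg (len_nonneg _) _)]
    calc len (v - w) ^ b ≤ jb (v - w) ^ b := Real.rpow_le_rpow (len_nonneg _) (len_le_jb _) hb
      _ ≤ jb (v - w) ^ (2 : ℝ) := Real.rpow_le_rpow_of_exponent_le (one_le_jb _) hb2
      _ = jb (v - w) ^ 2 := Real.rpow_two _
      _ ≤ (((d : ℝ) + 1) * ((1 + ‖v‖) * (1 + ‖w‖))) ^ 2 := by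
          refine pow_le_pow_left₀ (jb_pos _).le ((jb_le_w _).trans ?_) 2
          exact mul_le_mul_of_nonneg_left (w_sub_le v w) (by positivity)
      _ = ((d : ℝ) + 1) ^ 2 * ((1 + ‖v‖) ^ 2 * (1 + ‖w‖) ^ 2) := by ring

private lemma L2Sl_avgPG {Φ : Vec d → Vec d → ℝ} (hΦ : PGW Φ) {A : Vec d → ℝ} (hA : RD A) :
    PG fun v => ∫ w, Φ v w * A w := by
  obtain ⟨N, M, K, hK, h⟩ := avg_le hΦ
  obtain ⟨C, hC⟩ := hA M
  exact ⟨N, K * C, fun v => by
    rw [Real.norm_eq_abs]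
    exact h A C (fun w => by rw [← Real.norm_eq_abs]; exact hC w) v⟩

private lemma L2Sl_avgM {Φ : Vec d → Vec d → ℝ} (hΦ : Measurable fun p : Vec d × Vec d => Φ p.1 p.2)
    {A : Vec d → ℝ} (hA : Measurable A) : Measurable fun v => ∫ w, Φ v w * A w := by
  have h1 : Measurable fun p : Vec d × Vec d => Φ p.1 p.2 * A p.2 := hΦ.mul (hA.comp measurable_snd)
  exact (h1.stronglyMeasurable.integral_prod_right' (ν := (volume : Measure (Vec d)))).measurable

private lemma L2Sl_int {h A : Vec d → ℝ} (hh : RD h) (hhc : Continuous h) (hA : PG A)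
    (hAm : Measurable A) : Integrable fun v => h v * A v :=
  (hh.mul_PG hA).integrable (hhc.measurable.mul hAm).aestronglyMeasurable

private lemma L2Sl_PhS_meas (e : Fin d) (a : ℝ) :
    Measurable fun p : Vec d × Vec d => (p.1 e - p.2 e) * PhS e a p.1 p.2 := by
  have h1 : Measurable fun p : Vec d × Vec d => p.1 e - p.2 e :=
    (by fun_prop : Continuous fun p : Vec d × Vec d => p.1 e - p.2 e).measurable
  have h2 : Measurable fun p : Vec d × Vec d => len (p.1 - p.2) ^ (a - 1) :=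
    (continuous_len.comp (by fun_prop : Continuous fun p : Vec d × Vec d => p.1 - p.2)).measurable.pow_const _
  have h3 : Measurable fun p : Vec d × Vec d => min 1 (jb p.2 / jb p.1) ^ 4 :=
    (measurable_const.min ((jb_cont.comp continuous_snd).measurable.div
      (jb_cont.comp continuous_fst).measurable)).pow_const 4
  have h4 : Measurable fun p : Vec d × Vec d => (p.1 - p.2) e :=
    (by fun_prop : Continuous fun p : Vec d × Vec d => (p.1 - p.2) e).measurable
  unfold PhS phi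
  exact h1.mul (h3.mul (h4.mul h2))

private lemma L2Sl_PhS_nonneg (e : Fin d) (a : ℝ) (v w : Vec d) : 0 ≤ (v e - w e) * PhS e a v w := by
  unfold PhS phi
  have e1 : (v e - w e) * (min 1 (jb w / jb v) ^ 4 * ((v - w) e * len (v - w) ^ (a - 1))) =
      min 1 (jb w / jb v) ^ 4 * ((v e - w e) ^ 2 * len (v - w) ^ (a - 1)) := by
    rw [Pi.sub_apply]
    ring
  rw [e1]
  have h1 : 0 ≤ len (v - w) ^ (a - 1) := Real.rpow_nonneg (len_nonneg _) _
  have h2 : 0 ≤ min 1 (jb w / jb v) :=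
    le_min zero_le_one (div_nonneg (jb_pos w).le (jb_pos v).le)
  positivity

/-- the volume of the unit ball -/
private noncomputable def L2Sl_V (d : ℕ) : ℝ := volume.real {u : Vec d | len u ≤ 1}

private lemma L2Sl_fin : volume {u : Vec d | len u ≤ 1} ≠ ⊤ := by
  refine ne_top_of_le_ne_top (isCompact_closedBall (0 : Vec d) 1).measure_ne_top
    (measure_mono fun u hu => ?_)
  rw [mem_closedBall_zero_iff]
  exact (norm_le_len u).trans hu

private lemma L2Sl_ball {r B₀ : ℝ} (hr : 0 < r) (hr1 : r ≤ 1) (ha : 0 ≤ a) {k : Vec d → ℝ}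
    (hk0 : ∀ w, 0 ≤ k w) (hkB : ∀ w, k w ≤ B₀) (v : Vec d) :
    ∫ w, (if len (v - w) < r then r ^ (1 + a) else 0) * k w ≤ r * B₀ * L2Sl_V d := by
  have hB : 0 ≤ B₀ := (hk0 0).trans (hkB 0)
  have hms : MeasurableSet {u : Vec d | len u ≤ 1} :=
    measurableSet_le continuous_len.measurable measurable_const
  have hi : Integrable (({u : Vec d | len u ≤ 1}).indicator fun _ => r * B₀) :=
    (integrable_indicator_iff hms).2 (integrableOn_const L2Sl_fin)
  have hi' : Integrable fun w => ({u : Vec d | len u ≤ 1}).indicator (fun _ => r * B₀) (v - w) :=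
    hi.comp_sub_left v
  have hpow : r ^ (1 + a) ≤ r := by
    calc r ^ (1 + a) ≤ r ^ (1 : ℝ) := Real.rpow_le_rpow_of_exponent_ge hr hr1 (by linarith)
      _ = r := Real.rpow_one r
  have hpow0 : 0 ≤ r ^ (1 + a) := Real.rpow_nonneg hr.le _
  have h1 : ∫ w, (if len (v - w) < r then r ^ (1 + a) else 0) * k w ≤
      ∫ w, ({u : Vec d | len u ≤ 1}).indicator (fun _ => r * B₀) (v - w) := by
    refine integral_mono_of_nonneg (Eventually.of_forall fun w => ?_) hi'
      (Eventually.of_forall fun w => ?_)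
    · show 0 ≤ (if len (v - w) < r then r ^ (1 + a) else 0) * k w
      split_ifs
      · exact mul_nonneg hpow0 (hk0 w)
      · rw [zero_mul]
    · show (if len (v - w) < r then r ^ (1 + a) else 0) * k w ≤
        ({u : Vec d | len u ≤ 1}).indicator (fun _ => r * B₀) (v - w)
      by_cases hw : len (v - w) ≤ 1
      · rw [indicator_of_mem (show v - w ∈ {u : Vec d | len u ≤ 1} from hw)]
        split_ifs
        · exact mul_le_mul hpow (hkB w) (hk0 w) hr.le
        · rw [zero_mul]; positivity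
      · rw [indicator_of_notMem (show v - w ∉ {u : Vec d | len u ≤ 1} from hw)]
        rw [if_neg (by linarith [not_le.1 hw]), zero_mul]
  refine h1.trans (le_of_eq ?_)
  rw [integral_sub_left_eq_self (({u : Vec d | len u ≤ 1}).indicator fun _ => r * B₀) volume v,
    integral_indicator hms, setIntegral_const, smul_eq_mul]
  unfold L2Sl_V
  ring

private lemma L2Sl_XT (ha : 0 ≤ a) (ha1 : a ≤ 1) (hm0 : 0 ≤ m) {g : Vec d → ℝ} (hg : Nice g)
    (hg0 : ∀ u, 0 ≤ g u) :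
    ∫ q : Vec d × Vec d, g q.1 * g q.2 * len (q.1 - q.2) ^ (1 + a) ≤ XT a m 1 g := by
  have hom : ∀ p : Vec d × Vec d, om m 1 (RR p.1 p.2) = 1 := by
    intro p
    unfold om
    rw [div_one, min_eq_left (one_le_RR _ _), Real.one_rpow]
  unfold XT
  simp_rw [hom, mul_one]
  obtain ⟨k, hk⟩ := exists_nat_ge m
  have hc1 : Continuous fun p : Vec d × Vec d => len (p.1 - p.2) ^ (1 + a) :=
    (continuous_len.comp (by fun_prop : Continuous fun p : Vec d × Vec d => p.1 - p.2)).rpow_const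
      fun p => Or.inr (by linarith)
  have hc2 : Continuous fun p : Vec d × Vec d => jb (p.1 - p.2) ^ m :=
    (jb_cont.comp (by fun_prop : Continuous fun p : Vec d × Vec d => p.1 - p.2)).rpow_const
      fun p => Or.inr hm0
  have hcg : Continuous fun p : Vec d × Vec d => g p.1 * g p.2 :=
    (hg.cont.comp continuous_fst).mul (hg.cont.comp continuous_snd)
  have hw : Continuous fun v : Vec d => (1 + ‖v‖) ^ (2 + k) := by fun_prop
  have hpg : PG fun v : Vec d => (1 + ‖v‖) ^ (2 + k) := ⟨2 + k, 1, fun v => by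
    rw [one_mul, Real.norm_eq_abs, abs_of_nonneg (pow_nonneg (w_pos v).le _)]⟩
  have hi : Integrable fun v : Vec d => g v * (1 + ‖v‖) ^ (2 + k) :=
    (hg.rd.mul_PG hpg).integrable (hg.cont.mul hw).aestronglyMeasurable
  have hJ : ∀ p : Vec d × Vec d, jb (p.1 - p.2) ≤ ((d : ℝ) + 1) * ((1 + ‖p.1‖) * (1 + ‖p.2‖)) :=
    fun p => (jb_le_w _).trans (mul_le_mul_of_nonneg_left (w_sub_le _ _) (by positivity))
  have hint : Integrable fun p : Vec d × Vec d =>
      g p.1 * g p.2 * (len (p.1 - p.2) ^ (1 + a) * jb (p.1 - p.2) ^ m) := by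
    have hp := (hi.mul_prod hi).const_mul (((d : ℝ) + 1) ^ (2 + k))
    refine hp.mono' (hcg.mul (hc1.mul hc2)).aestronglyMeasurable (Eventually.of_forall fun p => ?_)
    have h1 : len (p.1 - p.2) ^ (1 + a) ≤ jb (p.1 - p.2) ^ 2 := by
      calc len (p.1 - p.2) ^ (1 + a) ≤ jb (p.1 - p.2) ^ (1 + a) :=
            Real.rpow_le_rpow (len_nonneg _) (len_le_jb _) (by linarith)
        _ ≤ jb (p.1 - p.2) ^ (2 : ℝ) := Real.rpow_le_rpow_of_exponent_le (one_le_jb _) (by linarith)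
        _ = jb (p.1 - p.2) ^ 2 := Real.rpow_two _
    have h2 : jb (p.1 - p.2) ^ m ≤ jb (p.1 - p.2) ^ k := by
      calc jb (p.1 - p.2) ^ m ≤ jb (p.1 - p.2) ^ (k : ℝ) :=
            Real.rpow_le_rpow_of_exponent_le (one_le_jb _) hk
        _ = jb (p.1 - p.2) ^ k := Real.rpow_natCast _ _
    have h3 : 0 ≤ len (p.1 - p.2) ^ (1 + a) := Real.rpow_nonneg (len_nonneg _) _
    have h4 : 0 ≤ jb (p.1 - p.2) ^ m := Real.rpow_nonneg (jb_pos _).le _
    have h5 := (jb_pos (p.1 - p.2)).le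
    have h6 : len (p.1 - p.2) ^ (1 + a) * jb (p.1 - p.2) ^ m ≤
        (((d : ℝ) + 1) * ((1 + ‖p.1‖) * (1 + ‖p.2‖))) ^ (2 + k) := by
      calc len (p.1 - p.2) ^ (1 + a) * jb (p.1 - p.2) ^ m ≤ jb (p.1 - p.2) ^ 2 * jb (p.1 - p.2) ^ k :=
            mul_le_mul h1 h2 h4 (by positivity)
        _ = jb (p.1 - p.2) ^ (2 + k) := (pow_add _ _ _).symm
        _ ≤ _ := pow_le_pow_left₀ h5 (hJ p) _
    have h7 : 0 ≤ g p.1 * g p.2 := mul_nonneg (hg0 _) (hg0 _)
    rw [Real.norm_eq_abs, abs_of_nonneg (mul_nonneg h7 (mul_nonneg h3 h4))]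
    refine (mul_le_mul_of_nonneg_left h6 h7).trans (le_of_eq ?_)
    rw [mul_pow, mul_pow]
    ring
  refine integral_mono_of_nonneg (Eventually.of_forall fun p => ?_) hint
    (Eventually.of_forall fun p => ?_)
  · exact mul_nonneg (mul_nonneg (hg0 _) (hg0 _)) (Real.rpow_nonneg (len_nonneg _) _)
  · have h1 : 1 ≤ jb (p.1 - p.2) ^ m := Real.one_le_rpow (one_le_jb _) hm0
    have h2 : 0 ≤ len (p.1 - p.2) ^ (1 + a) := Real.rpow_nonneg (len_nonneg _) _
    have h3 : len (p.1 - p.2) ^ (1 + a) ≤ len (p.1 - p.2) ^ (1 + a) * jb (p.1 - p.2) ^ m :=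
      le_mul_of_one_le_right h2 h1
    exact mul_le_mul_of_nonneg_left h3 (mul_nonneg (hg0 _) (hg0 _))

private lemma L2Sl_pgW (p : ℕ) : PG fun v : Vec d => (1 + nsq v) ^ p := by
  refine ⟨2 * p, (1 + d) ^ p, fun v => ?_⟩
  have h1 : 1 + nsq v ≤ (1 + d) * (1 + ‖v‖) ^ 2 := by
    have h2 := sq_le v
    have h3 := norm_nonneg v
    have h4 : (0 : ℝ) ≤ d := Nat.cast_nonneg d
    nlinarith [mul_nonneg h4 h3]
  have h0 : 0 ≤ 1 + nsq v := by linarith [sq_nonneg' v]
  rw [Real.norm_eq_abs, abs_of_nonneg (pow_nonneg h0 p)]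
  calc (1 + nsq v) ^ p ≤ ((1 + d) * (1 + ‖v‖) ^ 2) ^ p := pow_le_pow_left₀ h0 h1 p
    _ = (1 + d) ^ p * (1 + ‖v‖) ^ (2 * p) := by rw [mul_pow, pow_mul]

private lemma L2Sl_pgB {A : Vec d → ℝ} {D : ℝ} (h : ∀ v, |A v| ≤ D) : PG A :=
  ⟨0, D, fun v => by rw [pow_zero, mul_one, Real.norm_eq_abs]; exact h v⟩

private lemma L2Sl_gb {R C : ℝ} (hC : 0 < C) {F : Vec d → Vec d → ℝ} {x : Vec d} (hN : Nice (F x))
    (hF0 : ∀ u, 0 ≤ F x u) : Continuous (gb R C F x) ∧ RD (gb R C F x) ∧ (∀ u, 0 ≤ gb R C F x u) ∧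
      (∀ u, gb R C F x u ≤ F x u) ∧ ∀ u, gb R C F x u ≤ C := by
  have hb0 : ∀ u, 0 ≤ bet C (F x u) := fun u => bet_nonneg hC (hF0 u)
  have hbc : Continuous fun u : Vec d => bet C (F x u) := by
    unfold bet
    refine (continuous_const.mul hN.cont).div (continuous_const.add hN.cont) fun u => ?_
    have := hF0 u
    linarith
  have g0 : ∀ u, 0 ≤ gb R C F x u := fun u => mul_nonneg (chi_nonneg _ _) (hb0 u)
  have gb' : ∀ u, gb R C F x u ≤ bet C (F x u) := fun u => by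
    calc chi R u * bet C (F x u) ≤ 1 * bet C (F x u) :=
          mul_le_mul_of_nonneg_right (chi_le_one _ _) (hb0 u)
      _ = bet C (F x u) := one_mul _
  have gg : ∀ u, gb R C F x u ≤ F x u := fun u => (gb' u).trans (bet_le hC (hF0 u))
  refine ⟨(chi_cont R).mul hbc, ?_, g0, gg, fun u => (gb' u).trans (bet_le_C hC (hF0 u))⟩
  intro k
  obtain ⟨B, hB⟩ := hN.rd k
  refine ⟨B, fun u => le_trans (mul_le_mul_of_nonneg_left ?_ (by positivity)) (hB u)⟩
  rw [Real.norm_eq_abs, Real.norm_eq_abs, abs_of_nonneg (g0 u), abs_of_nonneg (hF0 u)]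
  exact gg u

/-- `mainG` is measurable and of polynomial growth in `v` -/
private lemma L2Sl_mainG {P : Pg} (hP : P.Ok) {r : ℝ} (hr : 0 < r) {e : Fin d} {F G : Vec d → Vec d → ℝ}
    (hF : FS e F G) {ε₂ : ℝ}
    (h2 : ∫ p, (F p.2 p.1 - gb P.R P.C₀ F p.2 p.1) * jb p.1 ^ (1 + P.a) ∂(nu d) ≤ ε₂) (M : ℝ) {x : Vec d}
    (hN : Nice (F x)) : Measurable (mainG P r M e F x) ∧ PG (mainG P r M e F x) := by
  have hF0 : ∀ u, 0 ≤ F x u := fun u => hF.nonneg x u
  obtain ⟨c1, d1, n1, l1, -⟩ := L2Sl_gb (R := P.R) hP.hC0 hN hF0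
  obtain ⟨c2, d2, n2, l2, -⟩ := L2Sl_gb (R := P.R₂) hP.hC₂ hN hF0
  have hPR := PhR_PGW hP.ha hP.ha1 hr e
  have hkrd : RD fun u : Vec d => F x u - gb P.R P.C₀ F x u := by
    intro k
    obtain ⟨B, hB⟩ := hN.rd k
    refine ⟨B, fun u => le_trans (mul_le_mul_of_nonneg_left ?_ (by positivity)) (hB u)⟩
    rw [Real.norm_eq_abs, Real.norm_eq_abs, abs_of_nonneg (sub_nonneg.2 (l1 u)), abs_of_nonneg (hF0 u)]
    linarith [n1 u]
  have hlen : PGW fun v w : Vec d => len (v - w) := by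
    have h := L2Sl_lenpow (d := d) (b := 1) zero_le_one (by norm_num)
    simp only [Real.rpow_one] at h
    exact h
  have hlP := L2Sl_avgPG hlen d2
  have hlM := L2Sl_avgM (Φ := fun v w : Vec d => len (v - w)) hlen.cont.measurable c2.measurable
  have hrP := L2Sl_avgPG (hPR.vmul e) hkrd
  have hrM := L2Sl_avgM (Φ := fun v w : Vec d => (v e - w e) * PhR e P.a r v w) (hPR.vmul e).cont.measurable
    (hN.cont.sub c1).measurable
  have haP : PG (avG P r e F) := L2Sl_pgB fun v => by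
    have h3 := avG_le hP hr hF h2 v
    rw [abs_of_nonneg h3.1]
    exact h3.2
  have haM : Measurable (avG P r e F) := by
    have m1 : Measurable fun q : Vec d × (Vec d × Vec d) => (q.1 e - q.2.1 e) :=
      (by fun_prop : Continuous fun q : Vec d × (Vec d × Vec d) => (q.1 e - q.2.1 e)).measurable
    have m2 : Measurable fun q : Vec d × (Vec d × Vec d) => PhR e P.a r q.1 q.2.1 :=
      (hPR.cont.comp (by fun_prop : Continuous fun q : Vec d × (Vec d × Vec d) => (q.1, q.2.1))).measurable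
    have m3 : Measurable fun q : Vec d × (Vec d × Vec d) => F q.2.2 q.2.1 :=
      (hF.contF.comp (by fun_prop : Continuous fun q : Vec d × (Vec d × Vec d) => (q.2.2, q.2.1))).measurable
    have m4 : Measurable fun q : Vec d × (Vec d × Vec d) => chi P.R q.2.1 :=
      ((chi_cont P.R).comp (by fun_prop : Continuous fun q : Vec d × (Vec d × Vec d) => q.2.1)).measurable
    have m5 : Measurable fun q : Vec d × (Vec d × Vec d) => gb P.R P.C₀ F q.2.2 q.2.1 := by
      unfold gb bet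
      exact m4.mul ((m3.const_mul _).div (m3.const_add _))
    have m6 := (m1.mul m2).mul (m3.sub m5)
    have hsf : SFinite (nu d) := by unfold nu; infer_instance
    exact (m6.stronglyMeasurable.integral_prod_right' (ν := nu d)).measurable
  constructor
  · exact (((measurable_const (a := P.K)).mul hrM).sub ((measurable_const (a := P.K)).mul haM)).add
      ((measurable_const (a := P.lam)).mul ((measurable_const (a := VarU P.R₂ P.C₂ e F)).sub
        ((measurable_const (a := 4 * P.R₂ * M)).mul hlM)))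
  · have k1 := (PG.const (d := d) P.K).mul hrP
    have k2 := ((PG.const (d := d) P.K).mul haP).neg
    have k3 := ((PG.const (d := d) (4 * P.R₂ * M)).mul hlP).neg
    have k4 := (PG.const (d := d) P.lam).mul ((PG.const (d := d) (VarU P.R₂ P.C₂ e F)).add k3)
    have k5 := (k1.add k2).add k4
    simp only [← sub_eq_add_neg] at k5
    exact k5

theorem l2_slice (HL : HypL d (1 + a) s b C Ca cb) (ha : 0 ≤ a) (ha1 : a + 2 * s < 1) (hm0 : 0 ≤ m) (e : Fin d)
    {M : ℝ} (hM : 0 ≤ M) {m₀ : ℝ} (hm : 0 < m₀) :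
    ∃ (p : ℕ) (P : Pg) (c N K₁ : ℝ), (d : ℝ) + (1 + a) + 4 ≤ 2 * p ∧ P.Ok ∧ P.a = a ∧ 0 < c ∧ 0 ≤ N ∧ 0 ≤ K₁ ∧
      ∀ r : ℝ, 0 < r → r ≤ 1 → ∀ F G : Vec d → Vec d → ℝ, FS e F G → GB M F → m₀ ≤ ∫ p, F p.2 p.1 ∂(nu d) →
        (∀ x v, |EG P r e F x v| ≤ 1 / 4) ∧
        ∀ B₀ : ℝ, (∀ x v, F x v ≤ B₀) → ∀ x : Vec d, Nice (F x) →
          2 * (∫ v, boltzQ (1 + a) b (F x) v *
            (F x v * ((1 + nsq v) ^ p * Real.exp (-EG P r e F x v)))) ≤
          (∫ v, F x v ^ 2 * ((1 + nsq v) ^ p * Real.exp (-EG P r e F x v)) *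
            (mainG P r M e F x v - c + K₁ * (r * B₀))) + N * XT a m 1 (F x) := by
  have hs : 0 < s := HL.H.hs
  have ha1' : a < 1 := by linarith
  obtain ⟨p, hp, K₀, κ, δ₁, hK₀, hκ, hδ₁, hop⟩ := l2_op HL ha ha1 e
  obtain ⟨R₂, C₂, cV, hR₂, hC₂, hcV, hvar⟩ := var_low (d := d) M hm
  obtain ⟨lam₀, hlam₀, hloc⟩ := loc_G (d := d) ha ha1'.le hκ hcV hM hR₂ (C₂ := C₂) (by linarith)
  have hRM : 0 ≤ R₂ * M ^ 2 := by positivity
  obtain ⟨lam, hlamd⟩ : ∃ lam : ℝ, lam = min lam₀ (min 1 (1 / (16 * (R₂ * M ^ 2) + 1))) := ⟨_, rfl⟩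
  have hlam : 0 < lam := by
    rw [hlamd]
    exact lt_min hlam₀ (lt_min one_pos (by positivity))
  have hlam1 : lam ≤ lam₀ := by rw [hlamd]; exact min_le_left _ _
  have hlam2 : lam * (2 * R₂ * M ^ 2) ≤ 1 / 8 := by
    have h2 : lam ≤ 1 / (16 * (R₂ * M ^ 2) + 1) := by
      rw [hlamd]; exact (min_le_right _ _).trans (min_le_right _ _)
    rw [le_div_iff₀ (by positivity)] at h2
    nlinarith
  have hlc : 0 < lam * cV := mul_pos hlam hcV
  obtain ⟨K', hK', hosc⟩ := EG_osc (d := d) ha ha1'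
  have hKK : 0 ≤ K₀ * K' := mul_nonneg hK₀ hK'
  obtain ⟨ε₂, hε₂d⟩ : ∃ ε₂ : ℝ, ε₂ = min (lam * cV / (8 * (4 * K₀) + 1))
    (min (1 / (8 * K₀ + 1)) (δ₁ / (2 * (K₀ * K') + 1))) := ⟨_, rfl⟩
  have hε₂ : 0 < ε₂ := by
    rw [hε₂d]
    exact lt_min (by positivity) (lt_min (by positivity) (by positivity))
  have e1 : K₀ * (4 * ε₂) ≤ lam * cV / 8 := by
    have h2 : ε₂ ≤ lam * cV / (8 * (4 * K₀) + 1) := by rw [hε₂d]; exact min_le_left _ _
    rw [le_div_iff₀ (by positivity)] at h2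
    nlinarith
  have e2 : K₀ * ε₂ ≤ 1 / 8 := by
    have h2 : ε₂ ≤ 1 / (8 * K₀ + 1) := by
      rw [hε₂d]; exact (min_le_right _ _).trans (min_le_left _ _)
    rw [le_div_iff₀ (by positivity)] at h2
    nlinarith
  have e3 : 2 * (K₀ * K') * ε₂ ≤ δ₁ := by
    have h2 : ε₂ ≤ δ₁ / (2 * (K₀ * K') + 1) := by
      rw [hε₂d]; exact (min_le_right _ _).trans (min_le_right _ _)
    rw [le_div_iff₀ (by positivity)] at h2
    nlinarith
  obtain ⟨Rg, hRg, hg⟩ := gb_small (d := d) M ha ha1' hε₂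
  obtain ⟨C₁, hC₁, hg'⟩ := hg (max R₂ Rg) (le_max_right _ _)
  obtain ⟨R, hRd⟩ : ∃ R : ℝ, R = max R₂ Rg := ⟨_, rfl⟩
  obtain ⟨C₀, hC₀d⟩ : ∃ C₀ : ℝ, C₀ = max C₂ C₁ := ⟨_, rfl⟩
  have hR1 : 1 ≤ R := by rw [hRd]; exact hRg.trans (le_max_right _ _)
  have hC1 : 1 ≤ C₀ := by rw [hC₀d]; exact hC₁.trans (le_max_right _ _)
  have hC0 : (0 : ℝ) < C₀ := by linarith
  have hRR : R₂ ≤ R := by rw [hRd]; exact le_max_left _ _
  have hCC : C₂ ≤ C₀ := by rw [hC₀d]; exact le_max_left _ _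
  have hC1' : C₁ ≤ C₀ := by rw [hC₀d]; exact le_max_right _ _
  obtain ⟨P, hPd⟩ : ∃ P : Pg, P = ⟨a, K₀, lam, R, C₀, R₂, C₂⟩ := ⟨_, rfl⟩
  have Pa : P.a = a := by rw [hPd]
  have PK : P.K = K₀ := by rw [hPd]
  have Pl : P.lam = lam := by rw [hPd]
  have PR : P.R = R := by rw [hPd]
  have PC : P.C₀ = C₀ := by rw [hPd]
  have PR₂ : P.R₂ = R₂ := by rw [hPd]
  have PC₂ : P.C₂ = C₂ := by rw [hPd]
  have hP : P.Ok := ⟨by rw [Pa]; exact ha, by rw [Pa]; exact ha1', by rw [PK]; exact hK₀,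
    by rw [Pl]; exact hlam.le, by rw [PR₂]; exact hR₂, by rw [PR, PR₂]; exact hRR,
    by rw [PC₂]; linarith, by rw [PC, PC₂]; exact hCC⟩
  obtain ⟨N, hN, hop'⟩ := hop C₀ (2 * R) hC0 (by linarith)
  have hV0 : 0 ≤ L2Sl_V d := measureReal_nonneg
  refine ⟨p, P, lam * cV / 2, N, K₀ * L2Sl_V d, hp, hP, Pa, by positivity, hN, mul_nonneg hK₀ hV0,
    fun r hr hr1 F G hF hG hmass => ?_⟩
  have h2 : ∫ p, (F p.2 p.1 - gb P.R P.C₀ F p.2 p.1) * jb p.1 ^ (1 + P.a) ∂(nu d) ≤ ε₂ := by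
    rw [PR, PC, Pa]
    have h3 := hg' C₀ hC1' e F G hF hG
    rw [← hRd] at h3
    exact h3
  have hEG : ∀ x v, |EG P r e F x v| ≤ 1 / 4 := by
    intro x v
    have h4 := EG_abs hP hr hF h2 hG.mass x v
    rw [PK, Pl, PR₂] at h4
    linarith
  refine ⟨hEG, fun B₀ hB₀ x hNi => ?_⟩
  have hF0 : ∀ u, 0 ≤ F x u := fun u => hF.nonneg x u
  -- the density of the cusps
  obtain ⟨hnc, hnrd, hn0⟩ := nG_cont hP hF x
  obtain ⟨hnj, hnj2⟩ := nG_int hP hF h2 x
  have hnI : Integrable (nG P e F x) := hnrd.integrable hnc.aestronglyMeasurable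
  have hosc' : ∀ v v', |EG P r e F x v' - EG P r e F x v| ≤ ∫ u, (K₀ * K' * nG P e F x u) *
        (min 1 (len (v' - v) / len (v - u)) + min 1 (len (v' - v) / jb v)) := by
    intro v v'
    have h4 := hosc P hP Pa r hr hr1 e F G hF x v v'
    rw [PK] at h4
    exact h4
  have hEc : Continuous (EG P r e F x) :=
    L2Sl_contW (hnI.const_mul (K₀ * K')) (fun u => mul_nonneg hKK (hn0 u)) hosc'
  obtain ⟨ω, hω⟩ : ∃ ω : Vec d → ℝ, ω = fun v => Real.exp (-EG P r e F x v) := ⟨_, rfl⟩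
  have hωv : ∀ v, ω v = Real.exp (-EG P r e F x v) := fun v => by rw [hω]
  have hωc : Continuous ω := by rw [hω]; exact Real.continuous_exp.comp hEc.neg
  have hω1 : ∀ v, 1 / 2 ≤ ω v := by
    intro v
    rw [hωv]
    have h5 := Real.add_one_le_exp (-EG P r e F x v)
    have h6 := le_abs_self (EG P r e F x v)
    have h7 := hEG x v
    linarith
  have hω2 : ∀ v, ω v ≤ 2 := by
    intro v
    rw [hωv]
    have h5 : -EG P r e F x v ≤ 1 / 4 := by
      have := neg_abs_le (EG P r e F x v)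
      linarith [hEG x v]
    have h6 := L2Sl_exp h5 (show (0 : ℝ) ≤ 1 / 4 by norm_num)
    rw [Real.exp_zero, sub_zero, abs_neg] at h6
    have h7 := le_abs_self (Real.exp (-EG P r e F x v) - 1)
    linarith [hEG x v]
  obtain ⟨n, hn⟩ : ∃ n : Vec d → ℝ, n = fun u => 2 * (K₀ * K' * nG P e F x u) := ⟨_, rfl⟩
  have hnint : Integrable n := by rw [hn]; exact (hnI.const_mul (K₀ * K')).const_mul 2
  have hnn : ∀ u, 0 ≤ n u := fun u => by
    rw [hn]; exact mul_nonneg zero_le_two (mul_nonneg hKK (hn0 u))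
  have hnle : ∫ u, n u ≤ δ₁ := by
    have h5 : ∫ u, nG P e F x u ≤ ∫ u, nG P e F x u * jb u :=
      integral_mono hnI hnj fun u => le_mul_of_one_le_right (hn0 u) (one_le_jb u)
    have h6 : ∫ u, n u = 2 * (K₀ * K') * ∫ u, nG P e F x u := by
      rw [hn, integral_const_mul, integral_const_mul]
      ring
    rw [h6]
    have h7 : 2 * (K₀ * K') * ∫ u, nG P e F x u ≤ 2 * (K₀ * K') * ε₂ :=
      mul_le_mul_of_nonneg_left (h5.trans hnj2) (by positivity)
    linarith
  have hcusp : CuspW n ω := by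
    intro v v'
    have h5 : ∀ u, -EG P r e F x u ≤ 1 / 4 := by
      intro u
      have := neg_abs_le (EG P r e F x u)
      linarith [hEG x u]
    have h6 := L2Sl_exp (h5 v') (h5 v)
    rw [hωv, hωv]
    have h7 : |(-EG P r e F x v') - (-EG P r e F x v)| = |EG P r e F x v' - EG P r e F x v| := by
      rw [← abs_neg]; congr 1; ring
    rw [h7] at h6
    refine h6.trans ((mul_le_mul_of_nonneg_left (hosc' v v') zero_le_two).trans (le_of_eq ?_))
    rw [← integral_const_mul, hn]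
    congr 1
    funext u
    ring
  -- the bounded part
  obtain ⟨g₁, hg₁d⟩ : ∃ g₁ : Vec d → ℝ, g₁ = fun u : Vec d => chi R u * bet C₀ (F x u) := ⟨_, rfl⟩
  have hb0 : ∀ u, 0 ≤ bet C₀ (F x u) := fun u => bet_nonneg hC0 (hF0 u)
  have hbc : Continuous fun u : Vec d => bet C₀ (F x u) := by
    unfold bet
    refine (continuous_const.mul hNi.cont).div (continuous_const.add hNi.cont) fun u => ?_
    have := hF0 u
    linarith
  have hg₁c : Continuous g₁ := by rw [hg₁d]; exact (chi_cont R).mul hbc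
  have g0 : ∀ u, 0 ≤ g₁ u := fun u => by rw [hg₁d]; exact mul_nonneg (chi_nonneg _ _) (hb0 u)
  have gb' : ∀ u, g₁ u ≤ bet C₀ (F x u) := fun u => by
    rw [hg₁d]
    calc chi R u * bet C₀ (F x u) ≤ 1 * bet C₀ (F x u) :=
          mul_le_mul_of_nonneg_right (chi_le_one _ _) (hb0 u)
      _ = bet C₀ (F x u) := one_mul _
  have gg : ∀ u, g₁ u ≤ F x u := fun u => (gb' u).trans (bet_le hC0 (hF0 u))
  have gC : ∀ u, g₁ u ≤ C₀ := fun u => (gb' u).trans (bet_le_C hC0 (hF0 u))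
  have gR : ∀ u, 2 * R < jb u → g₁ u = 0 := fun u hu => by
    rw [hg₁d]
    show chi R u * bet C₀ (F x u) = 0
    rw [chi_eq_zero hR1 hu.le, zero_mul]
  have hg₁v : ∀ u, gb R C₀ F x u = g₁ u := fun u => by rw [hg₁d]; rfl
  have main := hop' (F x) g₁ ω n hNi hF0 hg₁c.measurable g0 gg gC gR hωc hω1 hω2 hnint hnn hnle hcusp
  have hXT : N * ∫ q : Vec d × Vec d, F x q.1 * F x q.2 * len (q.1 - q.2) ^ (1 + a) ≤
      N * XT a m 1 (F x) := mul_le_mul_of_nonneg_left (L2Sl_XT ha ha1'.le hm0 hNi hF0) hN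
  -- rapid decay
  have hrd1 : RD g₁ := by
    intro k
    obtain ⟨B, hB⟩ := hNi.rd k
    refine ⟨B, fun u => le_trans (mul_le_mul_of_nonneg_left ?_ (by positivity)) (hB u)⟩
    rw [Real.norm_eq_abs, Real.norm_eq_abs, abs_of_nonneg (g0 u), abs_of_nonneg (hF0 u)]
    exact gg u
  have hk0 : ∀ u, 0 ≤ F x u - g₁ u := fun u => sub_nonneg.2 (gg u)
  have hkc : Continuous fun u : Vec d => F x u - g₁ u := hNi.cont.sub hg₁c
  have hkrd : RD fun u : Vec d => F x u - g₁ u := by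
    intro k
    obtain ⟨B, hB⟩ := hNi.rd k
    refine ⟨B, fun u => le_trans (mul_le_mul_of_nonneg_left ?_ (by positivity)) (hB u)⟩
    rw [Real.norm_eq_abs, Real.norm_eq_abs, abs_of_nonneg (hk0 u), abs_of_nonneg (hF0 u)]
    linarith [g0 u]
  have hkI : Integrable fun u : Vec d => F x u - g₁ u := hkrd.integrable hkc.aestronglyMeasurable
  -- the weight
  obtain ⟨W, hWd⟩ : ∃ W : Vec d → ℝ, W = fun v => F x v ^ 2 * (1 + nsq v) ^ p * ω v := ⟨_, rfl⟩
  have hWc : Continuous W := by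
    rw [hWd]
    exact ((hNi.cont.pow 2).mul ((continuous_const.add continuous_sq).pow p)).mul hωc
  have hW0 : ∀ v, 0 ≤ W v := by
    intro v
    rw [hWd]
    have h5 : 0 ≤ 1 + nsq v := by linarith [sq_nonneg' v]
    have h6 : 0 ≤ ω v := by linarith [hω1 v]
    positivity
  have hWrd : RD W := by
    have hpg : PG fun v : Vec d => F x v * (1 + nsq v) ^ p * ω v := by
      have q1 : PG fun v : Vec d => (1 + nsq v) ^ p := L2Sl_pgW p
      have q2 : PG ω := ⟨0, 2, fun v => by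
        rw [Real.norm_eq_abs, abs_of_nonneg (by linarith [hω1 v]), pow_zero, mul_one]
        exact hω2 v⟩
      exact (hNi.rd.toPG.mul q1).mul q2
    have h6 := hNi.rd.mul_PG hpg
    have h7 : W = fun v => F x v * (F x v * (1 + nsq v) ^ p * ω v) := by
      rw [hWd]
      funext v
      ring
    rw [h7]
    exact h6
  -- the two brackets
  have hPR := PhR_PGW ha ha1' hr e
  have hS0 : ∀ v, 0 ≤ ∫ w, (v e - w e) * PhS e a v w * (F x w - g₁ w) := fun v =>
    integral_nonneg fun w => mul_nonneg (L2Sl_PhS_nonneg e a v w) (hk0 w)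
  have hpow0 : 0 ≤ r ^ (1 + a) := Real.rpow_nonneg hr.le _
  have hpow1 : r ^ (1 + a) ≤ 1 := Real.rpow_le_one hr.le hr1 (by linarith)
  have hite : ∀ v w : Vec d, 0 ≤ (if len (v - w) < r then r ^ (1 + a) else 0) ∧
      (if len (v - w) < r then r ^ (1 + a) else 0) ≤ 1 := by
    intro v w
    split_ifs
    · exact ⟨hpow0, hpow1⟩
    · exact ⟨le_rfl, zero_le_one⟩
  have hDI : Integrable fun w : Vec d => F x w * (4 * jb w ^ (1 + a) + 1) := by
    have q1 : PG fun w : Vec d => 4 * jb w ^ (1 + a) + 1 :=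
      ((PG.const (d := d) (4 : ℝ)).mul PG_jb).add (PG.const (d := d) (1 : ℝ))
    have q2 : Continuous fun w : Vec d => 4 * jb w ^ (1 + a) + 1 :=
      (continuous_const.mul (jb_cont.rpow_const fun w => Or.inr (by linarith))).add continuous_const
    exact (hNi.rd.mul_PG q1).integrable (hNi.cont.mul q2).aestronglyMeasurable
  have hS1 : ∀ v, ∫ w, (v e - w e) * PhS e a v w * (F x w - g₁ w) ≤
      ∫ w, F x w * (4 * jb w ^ (1 + a) + 1) := by
    intro v
    refine integral_mono_of_nonneg (Eventually.of_forall fun w =>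
      mul_nonneg (L2Sl_PhS_nonneg e a v w) (hk0 w)) hDI (Eventually.of_forall fun w => ?_)
    have q1 := V_PhS_PhR ha ha1' hr e v w
    have q2 := (V_PhR ha ha1' hr e v w).2
    have q3 := (hite v w).2
    have q4 : F x w - g₁ w ≤ F x w := by linarith [g0 w]
    have q5 : 0 ≤ jb w ^ (1 + a) := Real.rpow_nonneg (jb_pos w).le _
    calc (v e - w e) * PhS e a v w * (F x w - g₁ w) ≤ (4 * jb w ^ (1 + a) + 1) * F x w :=
          mul_le_mul (by linarith) q4 (hk0 w) (by positivity)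
      _ = F x w * (4 * jb w ^ (1 + a) + 1) := mul_comm _ _
  have hlp : PGW fun v w : Vec d => len (v - w) ^ (1 + a) := L2Sl_lenpow (by linarith) (by linarith)
  have hA1m : Measurable fun v => K₀ * (∫ w, (v e - w e) * PhS e a v w * (F x w - g₁ w)) -
      κ * ∫ w, len (v - w) ^ (1 + a) * g₁ w :=
    ((measurable_const (a := K₀)).mul (L2Sl_avgM (Φ := fun v w : Vec d => (v e - w e) * PhS e a v w) (L2Sl_PhS_meas e a) hkc.measurable)).sub
      ((measurable_const (a := κ)).mul (L2Sl_avgM (Φ := fun v w : Vec d => len (v - w) ^ (1 + a)) hlp.cont.measurable hg₁c.measurable))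
  have hA1p : PG fun v => K₀ * (∫ w, (v e - w e) * PhS e a v w * (F x w - g₁ w)) -
      κ * ∫ w, len (v - w) ^ (1 + a) * g₁ w := by
    have q1 : PG fun v => ∫ w, (v e - w e) * PhS e a v w * (F x w - g₁ w) := L2Sl_pgB fun v => by
      rw [abs_of_nonneg (hS0 v)]
      exact hS1 v
    have q2 := ((PG.const (d := d) κ).mul (L2Sl_avgPG hlp hrd1)).neg
    have q3 := ((PG.const (d := d) K₀).mul q1).add q2
    simp only [← sub_eq_add_neg] at q3
    exact q3
  obtain ⟨mM, mP⟩ := L2Sl_mainG hP hr hF h2 M hNi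
  have hA2m : Measurable fun v => mainG P r M e F x v - lam * cV / 2 + K₀ * L2Sl_V d * (r * B₀) :=
    (mM.sub measurable_const).add measurable_const
  have hA2p : PG fun v => mainG P r M e F x v - lam * cV / 2 + K₀ * L2Sl_V d * (r * B₀) := by
    have q1 := (mP.add (PG.const (d := d) (-(lam * cV / 2)))).add
      (PG.const (d := d) (K₀ * L2Sl_V d * (r * B₀)))
    simp only [← sub_eq_add_neg] at q1
    exact q1
  have hpt : ∀ v, K₀ * (∫ w, (v e - w e) * PhS e a v w * (F x w - g₁ w)) -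
      κ * ∫ w, len (v - w) ^ (1 + a) * g₁ w ≤
      mainG P r M e F x v - lam * cV / 2 + K₀ * L2Sl_V d * (r * B₀) := by
    intro v
    have iR : Integrable fun w => (v e - w e) * PhR e a r v w * (F x w - g₁ w) :=
      avg_int (hPR.vmul e) hkrd hkc v
    have iI : Integrable fun w => (if len (v - w) < r then r ^ (1 + a) else 0) * (F x w - g₁ w) := by
      have hl : Measurable fun w : Vec d => len (v - w) :=
        (continuous_len.comp (continuous_const.sub continuous_id)).measurable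
      have hm1 : Measurable fun w : Vec d => (if len (v - w) < r then r ^ (1 + a) else (0 : ℝ)) :=
        Measurable.ite (measurableSet_lt hl measurable_const) measurable_const measurable_const
      refine hkI.mono' (hm1.mul hkc.measurable).aestronglyMeasurable (Eventually.of_forall fun w => ?_)
      rw [Real.norm_eq_abs, abs_of_nonneg (mul_nonneg (hite v w).1 (hk0 w))]
      exact mul_le_of_le_one_left (hk0 w) (hite v w).2
    have f1 : ∫ w, (v e - w e) * PhS e a v w * (F x w - g₁ w) ≤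
        ∫ w, ((v e - w e) * PhR e a r v w * (F x w - g₁ w) +
          (if len (v - w) < r then r ^ (1 + a) else 0) * (F x w - g₁ w)) := by
      refine integral_mono_of_nonneg (Eventually.of_forall fun w =>
        mul_nonneg (L2Sl_PhS_nonneg e a v w) (hk0 w)) (iR.add iI) (Eventually.of_forall fun w => ?_)
      have q1 := mul_le_mul_of_nonneg_right (V_PhS_PhR ha ha1' hr e v w) (hk0 w)
      rw [add_mul] at q1
      exact q1
    rw [integral_add iR iI] at f1
    have f2 := L2Sl_ball hr hr1 ha hk0 (fun w => (show F x w - g₁ w ≤ B₀ by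
      linarith [g0 w, hB₀ x w])) v
    have f3 := hloc lam hlam.le hlam1 R C₀ hRR hCC (F x) hNi hF0 v
    have f4 := (avG_le hP hr hF h2 v).2
    have f5 := mul_le_mul_of_nonneg_left f4 hK₀
    have f6 := mul_le_mul_of_nonneg_left (hvar e F G hF hG hmass) hlam.le
    have f7 := mul_le_mul_of_nonneg_left (f1.trans (add_le_add_right f2 _)) hK₀
    have f8 : (∫ w, len (v - w) ^ (1 + a) * (chi R w * bet C₀ (F x w))) =
        ∫ w, len (v - w) ^ (1 + a) * g₁ w := by rw [hg₁d]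
    rw [f8] at f3
    unfold mainG
    rw [PK, Pl, PR, PC, PR₂, PC₂, Pa]
    simp_rw [hg₁v]
    have f9 : (∫ w, len (v - w) * gb R₂ C₂ F x w) =
        ∫ w, len (v - w) * (chi R₂ w * bet C₂ (F x w)) := rfl
    rw [f9, mul_sub lam]
    have f10 : K₀ * ((∫ w, (v e - w e) * PhR e a r v w * (F x w - g₁ w)) + r * B₀ * L2Sl_V d) =
        K₀ * (∫ w, (v e - w e) * PhR e a r v w * (F x w - g₁ w)) + K₀ * L2Sl_V d * (r * B₀) := by ring
    linarith
  have hI : ∫ v, W v * (K₀ * (∫ w, (v e - w e) * PhS e a v w * (F x w - g₁ w)) -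
      κ * ∫ w, len (v - w) ^ (1 + a) * g₁ w) ≤
      ∫ v, W v * (mainG P r M e F x v - lam * cV / 2 + K₀ * L2Sl_V d * (r * B₀)) :=
    integral_mono (L2Sl_int hWrd hWc hA1p hA1m) (L2Sl_int hWrd hWc hA2p hA2m)
      fun v => mul_le_mul_of_nonneg_left (hpt v) (hW0 v)
  have g1 : (∫ v, boltzQ (1 + a) b (F x) v *
      (F x v * ((1 + nsq v) ^ p * Real.exp (-EG P r e F x v)))) =
      ∫ v, boltzQ (1 + a) b (F x) v * (F x v * (1 + nsq v) ^ p * ω v) := by
    congr 1
    funext v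
    rw [hωv]
    ring
  have g2 : (∫ v, F x v ^ 2 * ((1 + nsq v) ^ p * Real.exp (-EG P r e F x v)) *
      (mainG P r M e F x v - lam * cV / 2 + K₀ * L2Sl_V d * (r * B₀))) =
      ∫ v, W v * (mainG P r M e F x v - lam * cV / 2 + K₀ * L2Sl_V d * (r * B₀)) := by
    congr 1
    funext v
    rw [hWd]
    simp only
    rw [hωv]
    ring
  rw [g1, g2]
  rw [hWd] at hI ⊢
  linarith

end Pool.Agent.H48.PG
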