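import Pool.Agent.H48.PG.L2Win
import Pool.Agent.H48.PW.StartW

/-!
# Module L2Uni: the uniform L² bound

`p, P, c, Cd, N, K₁` from `l2_win`, `p₂ = p`, `p₀ = p + d`. `C₁` from `Hs_low`, `Hs_anti`. `start_W` (`p₀`, `η = 1`): `f t W₀ ≤ A₀ + 1` on `[0,t₁]` (`A₀ ≥ 0`). For `t ≤ t₁`: `∫ f² W dν ≤ (A₀+1)² ∫ (1+nsq v)^(p - 2p₀) dv = C_d (A₀+1)²` (`(1+nsq)^(2p₀-p) ≥ (1+nsq)^(2d)`; integrable: compare with `wt`).
For `t > t₁`: `T' = t`, `B₀` from `hf.decay T' _ 0`, `r ∈ (0,1]` with `K₁ r B₀ ≤ c/8`. Windows of length `1` from `t₁`: `Y_(n+1) ≤ exp(-(5/8)c + Cd drop_n) Y_n + N`; `Z_n = Y_n exp(-Cd (Hs(f t₁) - Hs(f (t₁+n))))`: `Z_(n+1) ≤ exp(-(5/8)c) Z_n + N`, so `Z_n ≤ Z_0 + N/(1 - exp(-(5/8)c))`; `n = ⌊t - t₁⌋₊`, one more window;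
`drop ≤ M + C₁`; `Y_0 ≤ exp(1/4) C_d (A₀+1)²`, `∫ f² W dν ≤ exp(1/4) Y`. Compare UniU.lean (H48/PV).
-/

set_option autoImplicit false

open MeasureTheory Set Filter Topology Pool.Agent.H25.Kin Pool.Agent.H82.BK Pool.Agent.H82.CM
open Pool.Agent.H48.PL Pool.Agent.H48.PI Pool.Agent.H48.PW Pool.Agent.H48.PV Pool.Agent.H15.G1
open Pool.Agent.H85.UP
open Pool.Agent.H15.AV (UNice gau)

namespace Pool.Agent.H48.PG

variable {d : ℕ} {s a m C Ca cb : ℝ} {b : ℝ → ℝ}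

private lemma l2u_small {F A : ℝ} (v : Vec d) (p : ℕ) (hp : 1 ≤ p) (hF : 0 ≤ F)
    (h : F * (1 + nsq v) ^ (p + d) ≤ A) :
    F ^ 2 * (1 + nsq v) ^ p ≤ A ^ 2 * 2 ^ (d + 1) * wt d v := by
  have h0 : ‖v‖ ^ 2 ≤ nsq v := norm_sq_le_sq v
  have hn : 0 ≤ ‖v‖ := norm_nonneg v
  have h1 : 1 ≤ 1 + nsq v := by nlinarith [sq_nonneg ‖v‖]
  have h2 : 1 + ‖v‖ ≤ 2 * (1 + nsq v) := by nlinarith [sq_nonneg (‖v‖ - 1)]
  have h3 : (1 + ‖v‖) ^ (d + 1) ≤ 2 ^ (d + 1) * (1 + nsq v) ^ (p + 2 * d) := by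
    calc (1 + ‖v‖) ^ (d + 1) ≤ (2 * (1 + nsq v)) ^ (d + 1) := pow_le_pow_left₀ (by positivity) h2 _
      _ = 2 ^ (d + 1) * (1 + nsq v) ^ (d + 1) := mul_pow _ _ _
      _ ≤ 2 ^ (d + 1) * (1 + nsq v) ^ (p + 2 * d) :=
          mul_le_mul_of_nonneg_left (pow_le_pow_right₀ h1 (by omega)) (by positivity)
  have hW : 0 ≤ (1 + nsq v) ^ p := pow_nonneg (by linarith) _
  have hW2 : 0 ≤ F * (1 + nsq v) ^ (p + d) := mul_nonneg hF (pow_nonneg (by linarith) _)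
  unfold wt
  rw [← div_eq_mul_inv, le_div_iff₀ (by positivity)]
  calc F ^ 2 * (1 + nsq v) ^ p * (1 + ‖v‖) ^ (d + 1)
      ≤ F ^ 2 * (1 + nsq v) ^ p * (2 ^ (d + 1) * (1 + nsq v) ^ (p + 2 * d)) :=
        mul_le_mul_of_nonneg_left h3 (mul_nonneg (sq_nonneg _) hW)
    _ = (F * (1 + nsq v) ^ (p + d)) ^ 2 * 2 ^ (d + 1) := by ring
    _ ≤ A ^ 2 * 2 ^ (d + 1) :=
        mul_le_mul_of_nonneg_right (pow_le_pow_left₀ hW2 h 2) (by positivity)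

private lemma l2u_iwt : Integrable (fun q : Vec d × Vec d => wt d q.1) (nu d) :=
  (integrable_wt (d := d)).comp_fst (muD d)

theorem l2_uni (HL : HypL d (1 + a) s b C Ca cb) (E : GE s a m) (e : Fin d) (hT : TailR d a m b)
    {M : ℝ} (hM : 0 ≤ M) {m₀ : ℝ} (hm : 0 < m₀) :
    ∃ (p₂ p₀ : ℕ) (K : ℝ), 1 ≤ p₂ ∧ 0 ≤ K ∧
      ∀ (T : ℝ) (f : ℝ → Vec d → Vec d → ℝ), IsBoltzmannSol (1 + a) b T f → Planar e T f → GB M (f 0) →
        m₀ ≤ ∫ q, f 0 q.2 q.1 ∂(nu d) → ∀ A₀ : ℝ, (∀ x v, f 0 x v * (1 + nsq v) ^ p₀ ≤ A₀) →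
        ∀ t ∈ Ico 0 T, ∫ q, f t q.2 q.1 ^ 2 * (1 + nsq q.1) ^ p₂ ∂(nu d) ≤ K * (A₀ + 1) ^ 2 := by
  obtain ⟨p, P, c, Cd, N, K₁, hp, hP, hPa, hc, hCd, hN, hK₁, hwin⟩ := l2_win HL E e hT hM hm
  obtain ⟨C₁, hC₁, hlow⟩ := Hs_low HL M
  have hp1 : 1 ≤ p := by
    by_contra h
    have h0 : p = 0 := by omega
    rw [h0] at hp
    have h1 : (0 : ℝ) ≤ d := Nat.cast_nonneg _
    have h2 := E.ha
    push_cast at hp
    linarith
  obtain ⟨S, hS⟩ : ∃ S : ℝ, S = 2 ^ (d + 1) * ∫ q : Vec d × Vec d, wt d q.1 ∂(nu d) := ⟨_, rfl⟩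
  have hS0 : 0 ≤ S := by
    rw [hS]
    exact mul_nonneg (by positivity) (integral_nonneg fun q => wt_nonneg q.1)
  obtain ⟨ρ, hρ⟩ : ∃ ρ : ℝ, ρ = Real.exp (-(5 / 8 * c)) := ⟨_, rfl⟩
  have hρ0 : 0 < ρ := by rw [hρ]; exact Real.exp_pos _
  have hρ1 : ρ < 1 := by
    rw [hρ, ← Real.exp_zero]
    exact Real.exp_lt_exp.2 (by linarith)
  obtain ⟨L, hL⟩ : ∃ L : ℝ, L = N / (1 - ρ) := ⟨_, rfl⟩
  have hρ2 : 0 < 1 - ρ := by linarith
  have hL0 : 0 ≤ L := by rw [hL]; exact div_nonneg hN hρ2.le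
  have hLN : ρ * L + N = L := by
    rw [hL]
    field_simp
    ring
  have hq : 0 < Real.exp (1 / 4) := Real.exp_pos _
  have hq2 : 0 < Real.exp (c / 8 + Cd * (M + C₁)) := Real.exp_pos _
  refine ⟨p, p + d, S + Real.exp (1 / 4) * (Real.exp (c / 8 + Cd * (M + C₁)) *
    (Real.exp (1 / 4) * S + L) + N), hp1, by positivity, ?_⟩
  intro T f hf hpl hG hmass A₀ hA₀ t ht
  have hfc : IsClassicalSol T (fun t x => boltzQ (1 + a) b (f t x)) f := hf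
  have hT0 : 0 < T := ht.1.trans_lt ht.2
  have hns : ∀ v : Vec d, 0 ≤ nsq v := fun v => Finset.sum_nonneg fun i _ => sq_nonneg _
  have hA0 : 0 ≤ A₀ := by
    refine le_trans (mul_nonneg (hfc.nonneg 0 ⟨le_rfl, hT0⟩ 0 0) ?_) (hA₀ 0 0)
    exact pow_nonneg (by linarith [hns 0]) _
  obtain ⟨t₁, ht₁, ht₁T, hst⟩ := start_W hfc hT0 (p + d) hA0 hA₀ one_pos
  have hA1 : 1 ≤ (A₀ + 1) ^ 2 := by nlinarith
  have hsmall : ∀ t ∈ Icc 0 t₁, ∀ x v, f t x v ^ 2 * (1 + nsq v) ^ p ≤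
      (A₀ + 1) ^ 2 * 2 ^ (d + 1) * wt d v := fun t ht x v =>
    l2u_small v p hp1 (hfc.nonneg t ⟨ht.1, ht.2.trans_lt ht₁T⟩ x v) (hst t ht x v)
  have hWn : ∀ v : Vec d, 0 ≤ (1 + nsq v) ^ p := fun v => pow_nonneg (by linarith [hns v]) _
  have hbase : ∀ t ∈ Icc 0 t₁, ∫ q, f t q.2 q.1 ^ 2 * (1 + nsq q.1) ^ p ∂(nu d) ≤ S * (A₀ + 1) ^ 2 := by
    intro t ht
    have h1 : ∫ q : Vec d × Vec d, (A₀ + 1) ^ 2 * 2 ^ (d + 1) * wt d q.1 ∂(nu d) =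
        S * (A₀ + 1) ^ 2 := by
      rw [integral_const_mul, hS]
      ring
    rw [← h1]
    refine integral_mono_of_nonneg (Eventually.of_forall fun q => mul_nonneg (sq_nonneg _) (hWn q.1))
      (l2u_iwt.const_mul _) (Eventually.of_forall fun q => hsmall t ht q.2 q.1)
  rcases le_or_gt t t₁ with hle | hgt
  · refine (hbase t ⟨ht.1, hle⟩).trans (mul_le_mul_of_nonneg_right ?_ (by positivity))
    have h1 : 0 ≤ Real.exp (1 / 4) * (Real.exp (c / 8 + Cd * (M + C₁)) *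
      (Real.exp (1 / 4) * S + L) + N) := by positivity
    linarith
  obtain ⟨B₀, hB₀⟩ := hfc.decay t ht.2 0
  have hfB : ∀ τ ∈ Icc 0 t, ∀ x v, f τ x v ≤ B₀ := by
    intro τ hτ x v
    have := hB₀ τ hτ x v
    rwa [pow_zero, one_mul] at this
  have hB0 : 0 ≤ B₀ := (hfc.nonneg t ht 0 0).trans (hfB t ⟨ht.1, le_rfl⟩ 0 0)
  have hKB : 0 ≤ K₁ * B₀ := mul_nonneg hK₁ hB0
  obtain ⟨r, hr⟩ : ∃ r : ℝ, r = min 1 (c / 8 / (K₁ * B₀ + 1)) := ⟨_, rfl⟩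
  have hr0 : 0 < r := by
    rw [hr]
    exact lt_min one_pos (by positivity)
  have hr1 : r ≤ 1 := by rw [hr]; exact min_le_left _ _
  have hrK : K₁ * (r * B₀) ≤ c / 8 := by
    have h1 : r ≤ c / 8 / (K₁ * B₀ + 1) := by rw [hr]; exact min_le_right _ _
    have h2 : r * (K₁ * B₀ + 1) ≤ c / 8 := by
      rwa [le_div_iff₀ (by positivity)] at h1
    nlinarith
  obtain ⟨hEb, hw⟩ := hwin T f hf hpl hG hmass r hr0 hr1
  have hw2 := hw t ht.2 B₀ hfB hrK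
  have hcs := csol_G hP hr0 hfc hpl p hEb
  have hint : ∀ τ ∈ Ico 0 T, Integrable (fun q : Vec d × Vec d =>
      f τ q.2 q.1 ^ 2 * ((1 + nsq q.1) ^ p * Real.exp (-EG P r e (f τ) q.2 q.1))) (nu d) := by
    intro τ hτ
    obtain ⟨Cc, hCc⟩ := hcs.dec τ hτ.2
    have hc1 : Continuous fun q : Vec d × Vec d =>
        f τ q.2 q.1 ^ 2 * ((1 + nsq q.1) ^ p * Real.exp (-EG P r e (f τ) q.2 q.1)) := by
      have h1 : Continuous fun q : Vec d × Vec d => (τ, q.2, q.1) := by fun_prop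
      exact hcs.cont.comp_continuous h1 fun q => ⟨hτ, mem_univ _⟩
    exact integrable_nu hc1.aestronglyMeasurable fun q => hCc τ ⟨hτ.1, le_rfl⟩ q.2 q.1
  have hexpE : ∀ τ ∈ Ioo 0 T, ∀ x v, Real.exp (-EG P r e (f τ) x v) ≤ Real.exp (1 / 4) := by
    intro τ hτ x v
    refine Real.exp_le_exp.2 ?_
    have := (abs_le.1 (hEb τ hτ x v)).1
    linarith
  have hexpE' : ∀ τ ∈ Ioo 0 T, ∀ x v, Real.exp (EG P r e (f τ) x v) ≤ Real.exp (1 / 4) := by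
    intro τ hτ x v
    exact Real.exp_le_exp.2 (abs_le.1 (hEb τ hτ x v)).2
  -- the weighted norm at `t₁`
  have hY0 : YG P r e p (f t₁) ≤ Real.exp (1 / 4) * S * (A₀ + 1) ^ 2 := by
    have h1 : ∫ q : Vec d × Vec d, Real.exp (1 / 4) * ((A₀ + 1) ^ 2 * 2 ^ (d + 1)) * wt d q.1 ∂(nu d) =
        Real.exp (1 / 4) * S * (A₀ + 1) ^ 2 := by
      rw [integral_const_mul, hS]
      ring
    rw [← h1]
    unfold YG
    refine integral_mono_of_nonneg (Eventually.of_forall fun q => mul_nonneg (sq_nonneg _)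
      (mul_nonneg (hWn q.1) (Real.exp_pos _).le)) (l2u_iwt.const_mul _) (Eventually.of_forall fun q => ?_)
    have h2 := hsmall t₁ ⟨ht₁.le, le_rfl⟩ q.2 q.1
    have h3 := hexpE t₁ ⟨ht₁, ht₁T⟩ q.2 q.1
    have h4 : 0 ≤ f t₁ q.2 q.1 ^ 2 * (1 + nsq q.1) ^ p := mul_nonneg (sq_nonneg _) (hWn q.1)
    calc f t₁ q.2 q.1 ^ 2 * ((1 + nsq q.1) ^ p * Real.exp (-EG P r e (f t₁) q.2 q.1))
        = f t₁ q.2 q.1 ^ 2 * (1 + nsq q.1) ^ p * Real.exp (-EG P r e (f t₁) q.2 q.1) := by ring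
      _ ≤ f t₁ q.2 q.1 ^ 2 * (1 + nsq q.1) ^ p * Real.exp (1 / 4) := mul_le_mul_of_nonneg_left h3 h4
      _ ≤ ((A₀ + 1) ^ 2 * 2 ^ (d + 1) * wt d q.1) * Real.exp (1 / 4) :=
          mul_le_mul_of_nonneg_right h2 hq.le
      _ = Real.exp (1 / 4) * ((A₀ + 1) ^ 2 * 2 ^ (d + 1)) * wt d q.1 := by ring
  have hYn : ∀ τ, 0 ≤ YG P r e p (f τ) := fun τ => by
    unfold YG
    exact integral_nonneg fun q => mul_nonneg (sq_nonneg _) (mul_nonneg (hWn q.1) (Real.exp_pos _).le)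
  -- induction over the windows
  have hmain : ∀ n : ℕ, t₁ + n ≤ t → YG P r e p (f (t₁ + n)) ≤
      Real.exp (Cd * (Hs (f t₁) - Hs (f (t₁ + n)))) * (YG P r e p (f t₁) + L) := by
    intro n
    induction n with
    | zero =>
      intro _
      rw [Nat.cast_zero, add_zero, sub_self, mul_zero, Real.exp_zero, one_mul]
      linarith
    | succ n ih =>
      intro h1
      have hcast : t₁ + ((n + 1 : ℕ) : ℝ) = t₁ + n + 1 := by push_cast; ring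
      rw [hcast] at h1 ⊢
      have hn0 : (0 : ℝ) ≤ n := Nat.cast_nonneg n
      have ihn := ih (by linarith)
      have h2 := hw2 (t₁ + n) (t₁ + n + 1) (by linarith) (by linarith) le_rfl h1
      have hd1 : 0 ≤ Hs (f t₁) - Hs (f (t₁ + n + 1)) := by
        have := Hs_anti HL hf ht₁.le (by linarith : t₁ ≤ t₁ + n + 1) (by linarith [ht.2])
        linarith
      have he1 : 1 ≤ Real.exp (Cd * (Hs (f t₁) - Hs (f (t₁ + n + 1)))) :=
        Real.one_le_exp (mul_nonneg hCd hd1)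
      refine h2.trans ?_
      have h3 : Real.exp (c / 8 - 3 / 4 * c * (t₁ + n + 1 - (t₁ + n)) +
          Cd * (Hs (f (t₁ + n)) - Hs (f (t₁ + n + 1)))) *
          Real.exp (Cd * (Hs (f t₁) - Hs (f (t₁ + n)))) =
          ρ * Real.exp (Cd * (Hs (f t₁) - Hs (f (t₁ + n + 1)))) := by
        rw [hρ, ← Real.exp_add, ← Real.exp_add]
        congr 1
        ring
      calc Real.exp (c / 8 - 3 / 4 * c * (t₁ + n + 1 - (t₁ + n)) +
            Cd * (Hs (f (t₁ + n)) - Hs (f (t₁ + n + 1)))) * YG P r e p (f (t₁ + n)) + N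
          ≤ Real.exp (c / 8 - 3 / 4 * c * (t₁ + n + 1 - (t₁ + n)) +
            Cd * (Hs (f (t₁ + n)) - Hs (f (t₁ + n + 1)))) *
            (Real.exp (Cd * (Hs (f t₁) - Hs (f (t₁ + n)))) * (YG P r e p (f t₁) + L)) + N := by
            have := mul_le_mul_of_nonneg_left ihn (Real.exp_pos (c / 8 - 3 / 4 * c *
              (t₁ + n + 1 - (t₁ + n)) + Cd * (Hs (f (t₁ + n)) - Hs (f (t₁ + n + 1))))).le
            linarith
        _ = ρ * Real.exp (Cd * (Hs (f t₁) - Hs (f (t₁ + n + 1)))) * (YG P r e p (f t₁) + L) + N := by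
            rw [← mul_assoc, h3]
        _ ≤ ρ * Real.exp (Cd * (Hs (f t₁) - Hs (f (t₁ + n + 1)))) * (YG P r e p (f t₁) + L) +
            Real.exp (Cd * (Hs (f t₁) - Hs (f (t₁ + n + 1)))) * N := by
            have := mul_le_mul_of_nonneg_right he1 hN
            linarith
        _ = Real.exp (Cd * (Hs (f t₁) - Hs (f (t₁ + n + 1)))) *
            (ρ * YG P r e p (f t₁) + (ρ * L + N)) := by ring
        _ ≤ Real.exp (Cd * (Hs (f t₁) - Hs (f (t₁ + n + 1)))) * (YG P r e p (f t₁) + L) := by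
            refine mul_le_mul_of_nonneg_left ?_ (Real.exp_pos _).le
            rw [hLN]
            have := mul_le_mul_of_nonneg_right hρ1.le (hYn t₁)
            linarith
  have hn0 : (0 : ℝ) ≤ ((⌊t - t₁⌋₊ : ℕ) : ℝ) := Nat.cast_nonneg _
  have hnt : ((⌊t - t₁⌋₊ : ℕ) : ℝ) ≤ t - t₁ := Nat.floor_le (by linarith)
  have htn : t - t₁ ≤ ((⌊t - t₁⌋₊ : ℕ) : ℝ) + 1 := (Nat.lt_floor_add_one (t - t₁)).le
  obtain ⟨n, hn⟩ : ∃ n : ℕ, n = ⌊t - t₁⌋₊ := ⟨_, rfl⟩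
  rw [← hn] at hn0 hnt htn
  have h2 := hmain n (by linarith)
  have h3 := hw2 (t₁ + n) t (by linarith) (by linarith) (by linarith) le_rfl
  have hH1 := hlow T f hf hG t₁ ⟨ht₁.le, ht₁T⟩
  have hHt := hlow T f hf hG t ht
  have hYt : YG P r e p (f t) ≤ Real.exp (c / 8 + Cd * (M + C₁)) * (YG P r e p (f t₁) + L) + N := by
    have h5 : Cd * (Hs (f t₁) - Hs (f t)) ≤ Cd * (M + C₁) :=
      mul_le_mul_of_nonneg_left (by linarith [hH1.2, hHt.1]) hCd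
    have h6 : Real.exp (c / 8 - 3 / 4 * c * (t - (t₁ + n)) + Cd * (Hs (f (t₁ + n)) - Hs (f t))) *
        YG P r e p (f (t₁ + n)) ≤ Real.exp (c / 8 + Cd * (M + C₁)) * (YG P r e p (f t₁) + L) := by
      refine (mul_le_mul_of_nonneg_left h2 (Real.exp_pos _).le).trans ?_
      rw [← mul_assoc, ← Real.exp_add]
      refine mul_le_mul_of_nonneg_right (Real.exp_le_exp.2 ?_) (by linarith [hYn t₁])
      have h7 : 0 ≤ 3 / 4 * c * (t - (t₁ + n)) := mul_nonneg (by positivity) (by linarith)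
      nlinarith
    linarith
  have h7 : ∫ q, f t q.2 q.1 ^ 2 * (1 + nsq q.1) ^ p ∂(nu d) ≤ Real.exp (1 / 4) * YG P r e p (f t) := by
    unfold YG
    rw [← integral_const_mul]
    refine integral_mono_of_nonneg (Eventually.of_forall fun q => mul_nonneg (sq_nonneg _) (hWn q.1))
      ((hint t ht).const_mul _) (Eventually.of_forall fun q => ?_)
    have h8 := hexpE' t ⟨by linarith, ht.2⟩ q.2 q.1
    have h9 : 0 ≤ f t q.2 q.1 ^ 2 * ((1 + nsq q.1) ^ p * Real.exp (-EG P r e (f t) q.2 q.1)) :=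
      mul_nonneg (sq_nonneg _) (mul_nonneg (hWn q.1) (Real.exp_pos _).le)
    have h10 : Real.exp (-EG P r e (f t) q.2 q.1) * Real.exp (EG P r e (f t) q.2 q.1) = 1 := by
      rw [← Real.exp_add, neg_add_cancel, Real.exp_zero]
    calc f t q.2 q.1 ^ 2 * (1 + nsq q.1) ^ p
        = f t q.2 q.1 ^ 2 * (1 + nsq q.1) ^ p * (Real.exp (-EG P r e (f t) q.2 q.1) *
            Real.exp (EG P r e (f t) q.2 q.1)) := by rw [h10, mul_one]
      _ = f t q.2 q.1 ^ 2 * ((1 + nsq q.1) ^ p * Real.exp (-EG P r e (f t) q.2 q.1)) *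
            Real.exp (EG P r e (f t) q.2 q.1) := by ring
      _ ≤ f t q.2 q.1 ^ 2 * ((1 + nsq q.1) ^ p * Real.exp (-EG P r e (f t) q.2 q.1)) *
            Real.exp (1 / 4) := mul_le_mul_of_nonneg_left h8 h9
      _ = Real.exp (1 / 4) *
            (f t q.2 q.1 ^ 2 * ((1 + nsq q.1) ^ p * Real.exp (-EG P r e (f t) q.2 q.1))) := by ring
  refine h7.trans ((mul_le_mul_of_nonneg_left hYt hq.le).trans ?_)
  have h11 : YG P r e p (f t₁) + L ≤ (Real.exp (1 / 4) * S + L) * (A₀ + 1) ^ 2 := by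
    have := le_mul_of_one_le_right hL0 hA1
    nlinarith [hY0]
  have h12 : N ≤ N * (A₀ + 1) ^ 2 := le_mul_of_one_le_right hN hA1
  calc Real.exp (1 / 4) * (Real.exp (c / 8 + Cd * (M + C₁)) * (YG P r e p (f t₁) + L) + N)
      ≤ Real.exp (1 / 4) * (Real.exp (c / 8 + Cd * (M + C₁)) *
          ((Real.exp (1 / 4) * S + L) * (A₀ + 1) ^ 2) + N * (A₀ + 1) ^ 2) := by
        refine mul_le_mul_of_nonneg_left (add_le_add (mul_le_mul_of_nonneg_left h11 hq2.le) h12) hq.le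
    _ = Real.exp (1 / 4) * (Real.exp (c / 8 + Cd * (M + C₁)) * (Real.exp (1 / 4) * S + L) + N) *
          (A₀ + 1) ^ 2 := by ring
    _ ≤ (S + Real.exp (1 / 4) * (Real.exp (c / 8 + Cd * (M + C₁)) * (Real.exp (1 / 4) * S + L) + N)) *
          (A₀ + 1) ^ 2 := by
        refine mul_le_mul_of_nonneg_right ?_ (by positivity)
        linarith

end Pool.Agent.H48.PG
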