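import Pool.Agent.H48.PG.EGDef
import Pool.Agent.H48.PV.NU

/-!
# Module NG: the time integral of the errors

As `n_time` in H48/PV/NU.lean without the `Zu` part: `K_T`, rate from `TailR` (with `e`, `M`), `R₁ ≥ 4` with `K₁ K_T R₁^(-r) ≤ κ/2`, `ε Cy K_T ≤ κ/2`, `C' = ε Cy K_T + K₁ K_T`. (`0 ≤ a ≤ 1`, `0 < m ≤ 1` from `GE`; `Zw_cont`.)
-/

set_option autoImplicit false

open MeasureTheory Set Filter Topology Pool.Agent.H25.Kin Pool.Agent.H82.BK Pool.Agent.H82.CM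
open Pool.Agent.H48.PL Pool.Agent.H48.PI Pool.Agent.H48.PW Pool.Agent.H48.PV Pool.Agent.H15.G1
open Pool.Agent.H85.UP
open Pool.Agent.H15.AV (UNice gau)

namespace Pool.Agent.H48.PG

variable {d : ℕ} {s a m : ℝ} {b : ℝ → ℝ}

theorem n_timeG (E : GE s a m) (e : Fin d) (hT : TailR d a m b) (M : ℝ) {K₁ κ : ℝ}
    (hK₁ : 0 ≤ K₁) (hκ : 0 < κ) :
    ∃ R₁ : ℝ, 4 ≤ R₁ ∧ ∀ Cy : ℝ, 0 ≤ Cy → ∃ ε C' : ℝ, 0 < ε ∧ ε ≤ 1 ∧ 0 ≤ C' ∧
    ∀ (T : ℝ) (f : ℝ → Vec d → Vec d → ℝ), IsBoltzmannSol (1 + a) b T f → Planar e T f → GB M (f 0) →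
      ∀ t₀ t : ℝ, 0 < t₀ → t₀ ≤ t → t < T →
      ∫ τ in t₀..t, (ε * Cy * Zw a m f τ 1 + K₁ * Zw a m f τ R₁) ≤
        κ * (1 + (t - t₀)) + C' * (Hs (f t₀) - Hs (f t)) := by
  have ha : 0 ≤ a := E.ha
  have hm0 : 0 < m := by have := E.hs; have := E.hm; linarith
  have ha1 : a ≤ 1 := by have := E.hm1; linarith
  have hm1 : m ≤ 1 := by have := E.hm1; linarith
  obtain ⟨r, KT, hr, hKT, hT⟩ := hT e M
  have hκ3 : 0 < κ / 2 := by positivity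
  obtain ⟨R₁, hR4, h2⟩ : ∃ R₁ : ℝ, 4 ≤ R₁ ∧ K₁ * (KT * R₁ ^ (-r)) < κ / 2 := by
    have e2 : Tendsto (fun R : ℝ => K₁ * (KT * R ^ (-r))) atTop (𝓝 0) := by
      have := ((tendsto_rpow_neg_atTop hr).const_mul KT).const_mul K₁
      simpa using this
    obtain ⟨R₁, hR⟩ := ((eventually_ge_atTop (4 : ℝ)).and
      (e2.eventually (gt_mem_nhds hκ3))).exists
    exact ⟨R₁, hR.1, hR.2⟩
  have hR0 : 0 < R₁ := by linarith
  refine ⟨R₁, hR4, fun Cy hCy => ?_⟩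
  have hden : 0 < Cy * KT + 1 := by positivity
  obtain ⟨ε, hε⟩ : ∃ ε, ε = min 1 (κ / 2 / (Cy * KT + 1)) := ⟨_, rfl⟩
  have hε0 : 0 < ε := by rw [hε]; exact lt_min one_pos (by positivity)
  have hε1 : ε ≤ 1 := by rw [hε]; exact min_le_left _ _
  have hε2 : ε * (Cy * KT) ≤ κ / 2 := by
    have h3 : ε ≤ κ / 2 / (Cy * KT + 1) := by rw [hε]; exact min_le_right _ _
    rw [le_div_iff₀ hden] at h3
    nlinarith
  refine ⟨ε, ε * (Cy * KT) + K₁ * KT, hε0, hε1, by positivity, ?_⟩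
  intro T f hf hpl hGM t₀ t ht₀ htt htT
  have hcl : IsClassicalSol T (fun t x => boltzQ (1 + a) b (f t x)) f := hf
  have hsub : uIcc t₀ t ⊆ Ico 0 T := by
    rw [uIcc_of_le htt]
    exact fun τ hτ => ⟨ht₀.le.trans hτ.1, hτ.2.trans_lt htT⟩
  have cW : ∀ V : ℝ, 0 < V → ContinuousOn (fun τ => Zw a m f τ V) (uIcc t₀ t) := fun V hV =>
    (Zw_cont ha ha1 hm0.le hm1 hcl).comp
      (by fun_prop : Continuous fun τ : ℝ => (τ, V)).continuousOn (fun τ hτ => ⟨hsub hτ, hV⟩)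
  have i1 := (cW 1 one_pos).intervalIntegrable (μ := volume)
  have iR := (cW R₁ hR0).intervalIntegrable (μ := volume)
  rw [intervalIntegral.integral_add (i1.const_mul _) (iR.const_mul _),
    intervalIntegral.integral_const_mul, intervalIntegral.integral_const_mul]
  have b1 : (∫ τ in t₀..t, Zw a m f τ 1) ≤
      KT * ((1 : ℝ) ^ (-r) * (1 + (t - t₀)) + (Hs (f t₀) - Hs (f t))) :=
    hT T f hf hpl hGM 1 le_rfl t₀ t ht₀ htt htT
  have b2 : (∫ τ in t₀..t, Zw a m f τ R₁) ≤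
      KT * (R₁ ^ (-r) * (1 + (t - t₀)) + (Hs (f t₀) - Hs (f t))) :=
    hT T f hf hpl hGM R₁ (by linarith) t₀ t ht₀ htt htT
  rw [Real.one_rpow, one_mul] at b1
  have hΔ : 0 ≤ 1 + (t - t₀) := by linarith
  have c1 := mul_le_mul_of_nonneg_left b1 (mul_nonneg hε0.le hCy)
  have c2 := mul_le_mul_of_nonneg_left b2 hK₁
  have d1 := mul_le_mul_of_nonneg_right hε2 hΔ
  have d3 := mul_le_mul_of_nonneg_right h2.le hΔ
  linarith

end Pool.Agent.H48.PG
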