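import Pool.Agent.H48.PG.L2Sl
import Pool.Agent.H48.PG.CslG
import Pool.Agent.H48.PG.ErrG
import Pool.Agent.H48.PG.NG
import Pool.Agent.H48.PG.Gron
import Pool.Agent.H48.PV.WinU

/-!
# Module L2Win: the L² estimate in a window

`YG P r e p F = ∫ F² W exp(-EG) dν`. `p, P, c, N₀, K₁` from `l2_slice`; `K₁'` from `dEG_low` (`P.K`); `R₁` from `n_timeG` (`κ = c/8`), `Cy`, `ε, C'`, `Cε` as in `windowU` (H48/PV/WinU.lean); `Cd = Cε + C'`; `C₁` from `Hs_low` (PI/BadW); `K_T` from `TailR` (`V = 1`).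
Fix `f`, `r`, `T'`, `B₀`, `t₀ ≤ t`. Given `μ > 0`: `δ'` for `dEG_low` and `Dn_low` on `[t₀,t]`, `drop_lim` (private lemmas `wu_avg`, `wu_m`, `wu_lim` in WinU: copy what is needed). `n τ = Cε (Dtot + μ) + (ε Cy Zw 1 + K₁' Zw R₁) + μ ≥ 0`, continuous on `[t₀,t]`.
`csol_G`, `CSol.ftc`, `CSol.contI`: `Y τ = Y t₀ + ∫_t₀^τ y`, `y τ = ∫ (2 f Q - f² dEG) W exp(-EG) dν = ∫_x [2 ∫_v Q f W ω - ∫_v f² W ω dEG]` (`nu_integral`), `l2_slice` (with `Nice`, `fs_of`) and `dEG ≥ mainG - n`: `y ≤ ∫ f² W ω (n - c + K₁ r B₀) dν + N₀ Zw 1 ≤ (-(7/8)c + n) Y + N₀ Zw 1`.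
`gron` with `7c/8`: `Y t ≤ exp(-(7/8)c x + ∫ n) Y t₀ + exp(∫ n) N₀ ∫ Zw 1`, `x = t - t₀ ≤ 1`, `∫ n ≤ (c/8)(1+x) + Cd drop + O(μ)`, `μ → 0`; `drop ≤ M + C₁`, `∫ Zw 1 ≤ K_T (2 + M + C₁)` (`N = exp(c/4 + Cd (M+C₁)) N₀ K_T (2 + M + C₁)`).
-/

set_option autoImplicit false

open MeasureTheory Set Filter Topology Pool.Agent.H25.Kin Pool.Agent.H82.BK Pool.Agent.H82.CM
open Pool.Agent.H48.PL Pool.Agent.H48.PI Pool.Agent.H48.PW Pool.Agent.H48.PV Pool.Agent.H15.G1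
open Pool.Agent.H85.UP
open Pool.Agent.H15.AV (UNice gau)

namespace Pool.Agent.H48.PG

variable {d : ℕ} {s a m C Ca cb : ℝ} {b : ℝ → ℝ}

/-- the weighted L² norm -/
noncomputable def YG (P : Pg) (r : ℝ) (e : Fin d) (p : ℕ) (F : Vec d → Vec d → ℝ) : ℝ :=
  ∫ q, F q.2 q.1 ^ 2 * ((1 + nsq q.1) ^ p * Real.exp (-EG P r e F q.2 q.1)) ∂(nu d)

/-- measurable functions of polynomial growth -/
private structure L2wP (g : Vec d → ℝ) : Prop where
  meas : Measurable g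
  pg : PG g

private lemma L2wP.add {g h : Vec d → ℝ} (hg : L2wP g) (hh : L2wP h) : L2wP fun v => g v + h v :=
  ⟨hg.meas.add hh.meas, hg.pg.add hh.pg⟩

private lemma L2wP.mul {g h : Vec d → ℝ} (hg : L2wP g) (hh : L2wP h) : L2wP fun v => g v * h v :=
  ⟨hg.meas.mul hh.meas, hg.pg.mul hh.pg⟩

private lemma L2wP.const (c : ℝ) : L2wP fun _ : Vec d => c := ⟨measurable_const, PG.const c⟩

private lemma L2wP.neg {g : Vec d → ℝ} (hg : L2wP g) : L2wP fun v => -g v := ⟨hg.meas.neg, hg.pg.neg⟩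

private lemma L2wP.sub {g h : Vec d → ℝ} (hg : L2wP g) (hh : L2wP h) : L2wP fun v => g v - h v := by
  have h1 := hg.add hh.neg
  simpa only [sub_eq_add_neg] using h1

/-- a rapidly decaying continuous function times a function of polynomial growth is integrable -/
private lemma L2wP.integrable {h g : Vec d → ℝ} (hg : L2wP g) (hh : RD h) (hc : Continuous h) :
    Integrable fun v => h v * g v :=
  (hh.mul_PG hg.pg).integrable (hc.measurable.mul hg.meas).aestronglyMeasurable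

/-- velocity averages -/
private lemma l2w_avg {Ψ : Vec d → Vec d → ℝ} (hΨ : PGW Ψ) {B : Vec d → Vec d → ℝ}
    (hc : Continuous fun p : Vec d × Vec d => B p.1 p.2) (hd : RX B) (x : Vec d) :
    L2wP fun v => ∫ w, Ψ v w * B x w := by
  refine ⟨?_, ?_⟩
  · have h1 : Continuous fun p : Vec d × Vec d => Ψ p.1 p.2 * B x p.2 :=
      hΨ.cont.mul (hc.comp (by fun_prop : Continuous fun p : Vec d × Vec d => (x, p.2)))
    exact (h1.stronglyMeasurable.integral_prod_right' (ν := (volume : Measure (Vec d)))).measurable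
  · obtain ⟨N, M, K, -, hK⟩ := avg_le hΨ
    obtain ⟨C, hC⟩ := hd M
    refine ⟨N, K * C, fun v => ?_⟩
    rw [Real.norm_eq_abs]
    exact hK (B x) C (fun w => hC x w) v

/-- averages over the torus -/
private lemma l2w_avn {Ψ : Vec d → Vec d → ℝ} (hΨ : PGW Ψ) {B : Vec d → Vec d → ℝ}
    (hc : Continuous fun p : Vec d × Vec d => B p.1 p.2) (hd : RX B) :
    L2wP fun v => ∫ p, Ψ v p.1 * B p.2 p.1 ∂(nu d) := by
  refine ⟨?_, ?_⟩
  · have h1 : Continuous fun p : Vec d × (Vec d × Vec d) => Ψ p.1 p.2.1 * B p.2.2 p.2.1 :=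
      (hΨ.cont.comp (by fun_prop : Continuous fun p : Vec d × (Vec d × Vec d) => (p.1, p.2.1))).mul
        (hc.comp (by fun_prop : Continuous fun p : Vec d × (Vec d × Vec d) => (p.2.2, p.2.1)))
    have hsf : SFinite (nu d) := by
      unfold nu
      infer_instance
    exact (h1.stronglyMeasurable.integral_prod_right' (ν := nu d)).measurable
  · obtain ⟨N, K, hK0, hK⟩ := hΨ.le
    obtain ⟨C, hC⟩ := hd (N + (d + 1))
    refine ⟨N, K * C * ∫ p : Vec d × Vec d, wt d p.1 ∂(nu d), fun v => ?_⟩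
    have hi : Integrable (fun p : Vec d × Vec d => K * (1 + ‖v‖) ^ N * C * wt d p.1) (nu d) :=
      ((integrable_wt (d := d)).comp_fst (muD d)).const_mul _
    have h1 : ‖∫ p, Ψ v p.1 * B p.2 p.1 ∂(nu d)‖ ≤
        ∫ p : Vec d × Vec d, K * (1 + ‖v‖) ^ N * C * wt d p.1 ∂(nu d) := by
      refine norm_integral_le_of_norm_le hi (Eventually.of_forall fun p => ?_)
      have hw : 0 < 1 + ‖p.1‖ := w_pos p.1
      have hv : 0 < 1 + ‖v‖ := w_pos v
      have h2 := hC p.2 p.1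
      rw [Real.norm_eq_abs, abs_mul]
      unfold wt
      rw [← div_eq_mul_inv, le_div_iff₀ (by positivity)]
      calc |Ψ v p.1| * |B p.2 p.1| * (1 + ‖p.1‖) ^ (d + 1)
          ≤ (K * ((1 + ‖v‖) ^ N * (1 + ‖p.1‖) ^ N)) * |B p.2 p.1| * (1 + ‖p.1‖) ^ (d + 1) := by
            have := hK v p.1
            gcongr
        _ = K * (1 + ‖v‖) ^ N * ((1 + ‖p.1‖) ^ (N + (d + 1)) * |B p.2 p.1|) := by
            rw [pow_add]; ring
        _ ≤ K * (1 + ‖v‖) ^ N * C := by gcongr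
    refine h1.trans (le_of_eq ?_)
    rw [integral_const_mul]
    ring

private lemma l2w_len : PGW fun v w : Vec d => len (v - w) := by
  have h1 : Continuous fun p : Vec d × Vec d => p.1 - p.2 := by fun_prop
  refine ⟨continuous_len.comp h1, 1, 2 * ((d : ℝ) + 1), by positivity, fun v w => ?_⟩
  rw [abs_of_nonneg (len_nonneg _), pow_one, pow_one]
  have h2 := len_sub_le v w
  have h3 := (len_le_jb v).trans (jb_le_w v)
  have h4 := (len_le_jb w).trans (jb_le_w w)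
  have hv := norm_nonneg v
  have hw := norm_nonneg w
  have hd : (0 : ℝ) ≤ (d : ℝ) + 1 := by positivity
  have h5 : len (v - w) ≤ ((d : ℝ) + 1) * ((1 + ‖v‖) + (1 + ‖w‖)) := by linarith
  refine h5.trans ?_
  have h6 : (1 + ‖v‖) + (1 + ‖w‖) ≤ 2 * ((1 + ‖v‖) * (1 + ‖w‖)) := by nlinarith [mul_nonneg hv hw]
  calc ((d : ℝ) + 1) * ((1 + ‖v‖) + (1 + ‖w‖)) ≤ ((d : ℝ) + 1) * (2 * ((1 + ‖v‖) * (1 + ‖w‖))) :=
        mul_le_mul_of_nonneg_left h6 hd
    _ = 2 * ((d : ℝ) + 1) * ((1 + ‖v‖) * (1 + ‖w‖)) := by ring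

/-- the bounded part of a slice -/
private lemma l2w_gb {e : Fin d} {F G : Vec d → Vec d → ℝ} (h : FS e F G) {R C₀ : ℝ} (hC : 0 < C₀) :
    (Continuous fun p : Vec d × Vec d => gb R C₀ F p.1 p.2) ∧ RX (gb R C₀ F) := by
  have hb : Continuous fun p : Vec d × Vec d => bet C₀ (F p.1 p.2) := by
    rw [continuous_iff_continuousAt]
    intro p
    have h1 : ContinuousAt (bet C₀) (F p.1 p.2) := (bet_deriv hC (h.nonneg p.1 p.2)).continuousAt
    exact ContinuousAt.comp (g := bet C₀) (f := fun p : Vec d × Vec d => F p.1 p.2) h1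
      h.contF.continuousAt
  refine ⟨((chi_cont R).comp continuous_snd).mul hb, fun N => ?_⟩
  obtain ⟨C, hC'⟩ := h.decF N
  refine ⟨C, fun x v => ?_⟩
  have h1 := hC' x v
  rw [abs_of_nonneg (h.nonneg x v)] at h1
  have h2 := bet_le hC (h.nonneg x v)
  have h3 := bet_nonneg hC (h.nonneg x v)
  have h4 : gb R C₀ F x v ≤ F x v := by
    unfold gb
    exact (mul_le_of_le_one_left h3 (chi_le_one R v)).trans h2
  have h5 : 0 ≤ gb R C₀ F x v := mul_nonneg (chi_nonneg R v) h3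
  rw [abs_of_nonneg h5]
  have h6 : 0 < (1 + ‖v‖) ^ N := pow_pos (w_pos v) _
  exact (mul_le_mul_of_nonneg_left h4 h6.le).trans h1

/-- the main terms are measurable with polynomial growth in the velocity -/
private lemma l2w_main {P : Pg} (hP : P.Ok) {r : ℝ} (hr : 0 < r) {M : ℝ} {e : Fin d}
    {F G : Vec d → Vec d → ℝ} (h : FS e F G) (x : Vec d) : L2wP fun v => mainG P r M e F x v := by
  have hΨ := (PhR_PGW hP.ha hP.ha1 hr e (d := d)).vmul e
  obtain ⟨g1, g2⟩ := l2w_gb (R := P.R) h hP.hC0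
  obtain ⟨g3, g4⟩ := l2w_gb (R := P.R₂) h hP.hC₂
  have hBc : Continuous fun p : Vec d × Vec d => F p.1 p.2 - gb P.R P.C₀ F p.1 p.2 := h.contF.sub g1
  have hBd : RX fun x v => F x v - gb P.R P.C₀ F x v := by
    intro N
    obtain ⟨C1, h1⟩ := h.decF N
    obtain ⟨C2, h2⟩ := g2 N
    refine ⟨C1 + C2, fun x v => ?_⟩
    have h3 : |F x v - gb P.R P.C₀ F x v| ≤ |F x v| + |gb P.R P.C₀ F x v| := abs_sub _ _
    have h6 : 0 < (1 + ‖v‖) ^ N := pow_pos (w_pos v) _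
    have h4 := mul_le_mul_of_nonneg_left h3 h6.le
    have h5 := h1 x v
    have h7 := h2 x v
    rw [mul_add] at h4
    linarith
  have m1 := l2w_avg hΨ hBc hBd x
  have m2 := l2w_avn hΨ hBc hBd
  have m3 := l2w_avg l2w_len g3 g4 x
  exact (((L2wP.const P.K).mul m1).sub ((L2wP.const P.K).mul m2)).add
    ((L2wP.const P.lam).mul ((L2wP.const _).sub ((L2wP.const (4 * P.R₂ * M)).mul m3)))

private lemma l2w_pow (p : ℕ) : PG fun v : Vec d => (1 + nsq v) ^ p := by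
  induction p with
  | zero => simpa using PG.one
  | succ p ih =>
    have h1 : PG fun v : Vec d => (1 + nsq v) ^ p * (1 + nsq v) := ih.mul (PG.one.add PG.nsq)
    simpa only [pow_succ] using h1

/-- the weight of a slice -/
private lemma l2w_om {P : Pg} {r : ℝ} {e : Fin d} {F : Vec d → Vec d → ℝ} (p : ℕ) (x : Vec d)
    (hc : Continuous fun v => EG P r e F x v) (hb : ∀ v, |EG P r e F x v| ≤ 1 / 4) :
    L2wP fun v => (1 + nsq v) ^ p * Real.exp (-EG P r e F x v) := by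
  have h1 : L2wP fun v : Vec d => Real.exp (-EG P r e F x v) := by
    refine ⟨(Real.continuous_exp.comp hc.neg).measurable, 0, Real.exp (1 / 4), fun v => ?_⟩
    rw [pow_zero, mul_one, Real.norm_eq_abs, abs_of_pos (Real.exp_pos _), Real.exp_le_exp]
    have := (abs_le.1 (hb v)).1
    linarith
  have h2 : L2wP fun v : Vec d => (1 + nsq v) ^ p :=
    ⟨((continuous_const.add continuous_sq).pow p).measurable, l2w_pow p⟩
  exact h2.mul h1

/-- the inequality in one fiber -/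
private lemma l2w_fiber {P : Pg} (hP : P.Ok) {r M c N₀ K₁ B₀ n : ℝ} (hr : 0 < r) {e : Fin d}
    {F G : Vec d → Vec d → ℝ} (h : FS e F G) {p : ℕ} (x : Vec d)
    (hc : Continuous fun v => EG P r e F x v) (hb : ∀ v, |EG P r e F x v| ≤ 1 / 4)
    (hS : Integrable fun v => (2 * F x v * G x v - F x v ^ 2 * dEG P r e F G x v) *
        ((1 + nsq v) ^ p * Real.exp (-EG P r e F x v)))
    (hQ : 2 * (∫ v, G x v * (F x v * ((1 + nsq v) ^ p * Real.exp (-EG P r e F x v)))) ≤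
      (∫ v, F x v ^ 2 * ((1 + nsq v) ^ p * Real.exp (-EG P r e F x v)) *
            (mainG P r M e F x v - c + K₁ * (r * B₀))) + N₀ * XT a m 1 (F x))
    (hK : K₁ * (r * B₀) ≤ c / 8)
    (hn : ∀ v, mainG P r M e F x v - n ≤ dEG P r e F G x v) :
    ∫ v, (2 * F x v * G x v - F x v ^ 2 * dEG P r e F G x v) *
        ((1 + nsq v) ^ p * Real.exp (-EG P r e F x v)) ≤
      (-(7 / 8 * c) + n) * (∫ v, F x v ^ 2 * ((1 + nsq v) ^ p * Real.exp (-EG P r e F x v))) +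
        N₀ * XT a m 1 (F x) := by
  have hF : RD (F x) := fun N => by
    obtain ⟨C, hC⟩ := h.decF N
    exact ⟨C, fun v => hC x v⟩
  have hG : RD (G x) := fun N => by
    obtain ⟨C, hC⟩ := h.decG N
    exact ⟨C, fun v => hC x v⟩
  have hFc : Continuous (F x) := h.contF.comp (by fun_prop : Continuous fun v : Vec d => (x, v))
  have hGc : Continuous (G x) := h.contG.comp (by fun_prop : Continuous fun v : Vec d => (x, v))
  have hω := l2w_om (P := P) (r := r) (e := e) (F := F) p x hc hb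
  have hFp : L2wP (F x) := ⟨hFc.measurable, hF.toPG⟩
  have hm := l2w_main hP hr (M := M) h x
  have i1 : Integrable fun v => G x v * (F x v * ((1 + nsq v) ^ p * Real.exp (-EG P r e F x v))) :=
    (hFp.mul hω).integrable hG hGc
  have i2 : Integrable fun v => F x v ^ 2 * ((1 + nsq v) ^ p * Real.exp (-EG P r e F x v)) := by
    refine ((hFp.mul hω).integrable hF hFc).congr (Eventually.of_forall fun v => ?_)
    simp only
    ring
  have i3 : Integrable fun v => F x v ^ 2 * ((1 + nsq v) ^ p * Real.exp (-EG P r e F x v)) *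
      (mainG P r M e F x v - c + K₁ * (r * B₀)) := by
    refine (((hFp.mul hω).mul ((hm.sub (L2wP.const c)).add (L2wP.const (K₁ * (r * B₀))))).integrable
      hF hFc).congr (Eventually.of_forall fun v => ?_)
    simp only
    ring
  have i4 : Integrable fun v => F x v ^ 2 * ((1 + nsq v) ^ p * Real.exp (-EG P r e F x v)) *
      dEG P r e F G x v := by
    refine ((i1.const_mul 2).sub hS).congr (Eventually.of_forall fun v => ?_)
    simp only [Pi.sub_apply]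
    ring
  have e1 : ∫ v, (2 * F x v * G x v - F x v ^ 2 * dEG P r e F G x v) *
        ((1 + nsq v) ^ p * Real.exp (-EG P r e F x v)) =
      2 * (∫ v, G x v * (F x v * ((1 + nsq v) ^ p * Real.exp (-EG P r e F x v)))) -
        ∫ v, F x v ^ 2 * ((1 + nsq v) ^ p * Real.exp (-EG P r e F x v)) * dEG P r e F G x v := by
    rw [← integral_const_mul, ← integral_sub (i1.const_mul 2) i4]
    refine integral_congr_ae (Eventually.of_forall fun v => ?_)
    simp only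
    ring
  have e2 : (∫ v, F x v ^ 2 * ((1 + nsq v) ^ p * Real.exp (-EG P r e F x v)) *
        (mainG P r M e F x v - c + K₁ * (r * B₀))) -
        ∫ v, F x v ^ 2 * ((1 + nsq v) ^ p * Real.exp (-EG P r e F x v)) * dEG P r e F G x v ≤
      (-(7 / 8 * c) + n) * (∫ v, F x v ^ 2 * ((1 + nsq v) ^ p * Real.exp (-EG P r e F x v))) := by
    rw [← integral_sub i3 i4, ← integral_const_mul]
    refine integral_mono (i3.sub i4) (i2.const_mul _) fun v => ?_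
    have h1 : 0 ≤ F x v ^ 2 * ((1 + nsq v) ^ p * Real.exp (-EG P r e F x v)) := by
      have := sq_nonneg' v
      positivity
    have h2 := hn v
    have h3 : mainG P r M e F x v - c + K₁ * (r * B₀) - dEG P r e F G x v ≤ -(7 / 8 * c) + n := by
      linarith
    have h4 := mul_le_mul_of_nonneg_left h3 h1
    simp only
    linarith [h4]
  rw [e1]
  linarith

/-- the average of the entropy production is at least `-μ` -/
private lemma l2w_davg (HL : HypL d (1 + a) s b C Ca cb) {T : ℝ} {f : ℝ → Vec d → Vec d → ℝ}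
    (hf : IsBoltzmannSol (1 + a) b T f) {δ : ℝ} (hδ : 0 < δ) {t : ℝ} (ht : t ∈ Ioo 0 T) {μ : ℝ}
    (h : ∀ y, -μ ≤ Dn (1 + a) b δ (f t y)) : -μ ≤ ∫ y, Dn (1 + a) b δ (f t y) ∂(muD d) := by
  have h1 : Continuous fun y : Vec d => (t, y) := by fun_prop
  have h2 : Continuous ((fun q : ℝ × Vec d => Dn (1 + a) b δ (f q.1 q.2)) ∘ fun y : Vec d => (t, y)) :=
    ContinuousOn.comp_continuous (Dn_cont HL hf hδ).1 h1 fun y => ⟨ht, mem_univ _⟩
  have h2' : Continuous fun y : Vec d => Dn (1 + a) b δ (f t y) := h2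
  have h3 : Integrable (fun y : Vec d => Dn (1 + a) b δ (f t y)) (muD d) := by
    unfold muD
    exact h2'.continuousOn.integrableOn_compact isCompact_Icc
  have h4 := integral_mono (integrable_const (-μ)) h3 h
  have h5 : (muD d).real univ = 1 := by
    rw [Measure.real, muD_univ]
    rfl
  rw [integral_const, h5, one_smul] at h4
  exact h4

/-- the error is continuous, nonnegative, and its integral is small -/
private lemma l2w_n (HL : HypL d (1 + a) s b C Ca cb) {T : ℝ} {f : ℝ → Vec d → Vec d → ℝ}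
    (hf : IsBoltzmannSol (1 + a) b T f) {δ : ℝ} (hδ : 0 < δ) {t₀ t : ℝ} (h0 : 0 < t₀) (h01 : t₀ ≤ t)
    (ht1 : t ≤ t₀ + 1) (htT : t < T) {μ Ce : ℝ} (hμ : 0 < μ) (hCe : 0 ≤ Ce)
    (h : ∀ τ ∈ Icc t₀ t, ∀ y, -μ ≤ Dn (1 + a) b δ (f τ y))
    (hd : |(∫ τ in t₀..t, (∫ x, Dn (1 + a) b δ (f τ x) ∂(muD d))) - (Hs (f t₀) - Hs (f t))| ≤ μ)
    {Nn : ℝ → ℝ} (hNc : ContinuousOn Nn (Ico 0 T)) (hN0 : ∀ τ ∈ Ico 0 T, 0 ≤ Nn τ) {X : ℝ}
    (hNI : ∫ τ in t₀..t, Nn τ ≤ X) :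
    ContinuousOn (fun τ => Ce * ((∫ x, Dn (1 + a) b δ (f τ x) ∂(muD d)) + μ) + Nn τ + μ)
      (Icc t₀ t) ∧
    (∀ τ ∈ Icc t₀ t, 0 ≤ Ce * ((∫ x, Dn (1 + a) b δ (f τ x) ∂(muD d)) + μ) + Nn τ + μ) ∧
    ∫ τ in t₀..t, (Ce * ((∫ x, Dn (1 + a) b δ (f τ x) ∂(muD d)) + μ) + Nn τ + μ) ≤
      Ce * ((Hs (f t₀) - Hs (f t)) + 2 * μ) + X + μ := by
  have hcD : ContinuousOn (fun t : ℝ => ∫ x, Dn (1 + a) b δ (f t x) ∂(muD d)) (Icc t₀ t) :=
    (Dn_cont HL hf hδ).2.mono fun q hq => ⟨h0.trans_le hq.1, hq.2.trans_lt htT⟩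
  have hcN : ContinuousOn Nn (Icc t₀ t) := hNc.mono fun q hq => ⟨h0.le.trans hq.1, hq.2.trans_lt htT⟩
  refine ⟨(((hcD.add continuousOn_const).const_smul Ce).add hcN).add continuousOn_const,
    fun τ hτ => ?_, ?_⟩
  · have h3 := l2w_davg HL hf hδ (t := τ) ⟨h0.trans_le hτ.1, hτ.2.trans_lt htT⟩ (h τ hτ)
    have h4 : 0 ≤ (∫ x, Dn (1 + a) b δ (f τ x) ∂(muD d)) + μ := by linarith
    have h5 := mul_nonneg hCe h4
    have h6 := hN0 τ ⟨h0.le.trans hτ.1, hτ.2.trans_lt htT⟩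
    linarith
  · have hDi : IntervalIntegrable (fun t : ℝ => ∫ x, Dn (1 + a) b δ (f t x) ∂(muD d)) volume t₀ t := by
      refine ContinuousOn.intervalIntegrable ?_
      rwa [uIcc_of_le h01]
    have hNi : IntervalIntegrable Nn volume t₀ t := by
      refine ContinuousOn.intervalIntegrable ?_
      rwa [uIcc_of_le h01]
    rw [intervalIntegral.integral_add (((hDi.add intervalIntegrable_const).const_mul Ce).add hNi)
        intervalIntegrable_const,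
      intervalIntegral.integral_add ((hDi.add intervalIntegrable_const).const_mul Ce) hNi,
      intervalIntegral.integral_const_mul, intervalIntegral.integral_add hDi intervalIntegrable_const,
      intervalIntegral.integral_const, smul_eq_mul]
    have h6 := (abs_le.1 hd).2
    have h7 : (t - t₀) * μ ≤ 1 * μ := mul_le_mul_of_nonneg_right (by linarith) hμ.le
    have h8 : (∫ τ in t₀..t, (∫ x, Dn (1 + a) b δ (f τ x) ∂(muD d))) + (t - t₀) * μ ≤
        (Hs (f t₀) - Hs (f t)) + 2 * μ := by linarith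
    have h9 := mul_le_mul_of_nonneg_left h8 hCe
    linarith

/-- the limit `μ → 0` -/
private lemma l2w_lim {Y A B Ce D Y₀ J : ℝ} (h : ∀ μ : ℝ, 0 < μ →
    Y ≤ Real.exp (A + (Ce * (D + 2 * μ) + μ)) * Y₀ + Real.exp (B + (Ce * (D + 2 * μ) + μ)) * J) :
    Y ≤ Real.exp (A + Ce * D) * Y₀ + Real.exp (B + Ce * D) * J := by
  have hlim : Tendsto (fun μ : ℝ => Real.exp (A + (Ce * (D + 2 * μ) + μ)) * Y₀ +
      Real.exp (B + (Ce * (D + 2 * μ) + μ)) * J) (𝓝[>] 0)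
      (𝓝 (Real.exp (A + (Ce * (D + 2 * 0) + 0)) * Y₀ + Real.exp (B + (Ce * (D + 2 * 0) + 0)) * J)) := by
    have : Continuous fun μ : ℝ => Real.exp (A + (Ce * (D + 2 * μ) + μ)) * Y₀ +
      Real.exp (B + (Ce * (D + 2 * μ) + μ)) * J := by fun_prop
    exact (this.tendsto 0).mono_left nhdsWithin_le_nhds
  have := ge_of_tendsto hlim (by
    filter_upwards [self_mem_nhdsWithin] with μ h1 using h μ h1)
  simpa using this

/-- the densities of a `CSol` are integrable -/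
private lemma l2w_csol {T : ℝ} {S h : ℝ → Vec d → Vec d → ℝ} (H : CSol T S h) {τ : ℝ}
    (hτ : τ ∈ Ioo 0 T) :
    Integrable (fun q : Vec d × Vec d => S τ q.2 q.1) (nu d) ∧
    Integrable (fun q : Vec d × Vec d => h τ q.2 q.1) (nu d) ∧
    ∀ x, Integrable fun v => S τ x v := by
  obtain ⟨C1, hC1⟩ := H.decS τ hτ.1 τ hτ.2
  obtain ⟨C2, hC2⟩ := H.dec τ hτ.2
  have c1 : Continuous fun q : Vec d × Vec d => S τ q.1 q.2 := by
    have h1 : Continuous fun q : Vec d × Vec d => (τ, q.1, q.2) := by fun_prop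
    exact H.contS.comp_continuous h1 fun q => ⟨hτ, mem_univ _⟩
  have c2 : Continuous fun q : Vec d × Vec d => h τ q.1 q.2 := by
    have h1 : Continuous fun q : Vec d × Vec d => (τ, q.1, q.2) := by fun_prop
    exact H.cont.comp_continuous h1 fun q => ⟨⟨hτ.1.le, hτ.2⟩, mem_univ _⟩
  have cs : Continuous fun q : Vec d × Vec d => (q.2, q.1) := by fun_prop
  refine ⟨integrable_nu (C := C1) (c1.comp cs).aestronglyMeasurable fun q => hC1 τ ⟨le_rfl, le_rfl⟩ _ _,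
    integrable_nu (C := C2) (c2.comp cs).aestronglyMeasurable fun q => hC2 τ ⟨hτ.1.le, le_rfl⟩ _ _,
    fun x => ?_⟩
  have c3 : Continuous fun v : Vec d => S τ x v :=
    c1.comp (by fun_prop : Continuous fun v : Vec d => (x, v))
  exact (integrable_wt.const_mul C1).mono' c3.aestronglyMeasurable
    (Eventually.of_forall fun v => hC1 τ ⟨le_rfl, le_rfl⟩ x v)

/-- the weight function of a slice is continuous in the velocity -/
private lemma l2w_EGc {T r : ℝ} {Q f : ℝ → Vec d → Vec d → ℝ} {P : Pg} (hP : P.Ok) (hr : 0 < r)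
    (hf : IsClassicalSol T Q f) (e : Fin d) {τ : ℝ} (hτ : τ ∈ Ico 0 T) (x : Vec d) :
    Continuous fun v => EG P r e (f τ) x v := by
  have h1 : Continuous fun v : Vec d => (τ, x, v) := by fun_prop
  have h2 : Continuous ((unc fun t x v => EG P r e (f t) x v) ∘ fun v : Vec d => (τ, x, v)) :=
    (EG_cont hP hr hf e).comp_continuous h1 fun v => ⟨hτ, mem_univ _⟩
  exact h2

/-- the density `XT` of a slice is integrable over the torus -/
private lemma l2w_XT {T : ℝ} {Q f : ℝ → Vec d → Vec d → ℝ} (ha : 0 ≤ a) (ha1 : a ≤ 1) (hm : 0 ≤ m)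
    (hm1 : m ≤ 1) (hf : IsClassicalSol T Q f) {τ : ℝ} (hτ : τ ∈ Ico 0 T) :
    Integrable (fun x : Vec d => XT a m 1 (f τ x)) (muD d) := by
  have h1 : Continuous fun x : Vec d => (((τ, x), 1) : (ℝ × Vec d) × ℝ) := by fun_prop
  have h2 : Continuous fun x : Vec d => XT a m 1 (f τ x) :=
    (XT_cont ha ha1 hm hm1 hf).comp_continuous h1 fun x => ⟨⟨hτ, mem_univ _⟩, mem_Ioi.2 one_pos⟩
  unfold muD
  exact h2.continuousOn.integrableOn_compact isCompact_Icc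

theorem l2_win (HL : HypL d (1 + a) s b C Ca cb) (E : GE s a m) (e : Fin d) (hT : TailR d a m b)
    {M : ℝ} (hM : 0 ≤ M) {m₀ : ℝ} (hm : 0 < m₀) :
    ∃ (p : ℕ) (P : Pg) (c Cd N K₁ : ℝ), (d : ℝ) + (1 + a) + 4 ≤ 2 * p ∧ P.Ok ∧ P.a = a ∧ 0 < c ∧ 0 ≤ Cd ∧
      0 ≤ N ∧ 0 ≤ K₁ ∧
      ∀ (T : ℝ) (f : ℝ → Vec d → Vec d → ℝ), IsBoltzmannSol (1 + a) b T f → Planar e T f → GB M (f 0) →
        m₀ ≤ ∫ q, f 0 q.2 q.1 ∂(nu d) → ∀ r : ℝ, 0 < r → r ≤ 1 →
        (∀ t ∈ Ioo 0 T, ∀ x v, |EG P r e (f t) x v| ≤ 1 / 4) ∧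
        ∀ T' < T, ∀ B₀ : ℝ, (∀ t ∈ Icc 0 T', ∀ x v, f t x v ≤ B₀) → K₁ * (r * B₀) ≤ c / 8 →
        ∀ t₀ t : ℝ, 0 < t₀ → t₀ ≤ t → t ≤ t₀ + 1 → t ≤ T' →
          YG P r e p (f t) ≤ Real.exp (c / 8 - 3 / 4 * c * (t - t₀) + Cd * (Hs (f t₀) - Hs (f t))) *
            YG P r e p (f t₀) + N := by
  have hs0 := E.hs
  have ha0 := E.ha
  have hm2 := E.hm
  have ha1 : a + 2 * s < 1 := by linarith [E.hm1]
  have hm0' : 0 < m := by linarith
  have hm1' : m ≤ 1 := by linarith [E.hm1]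
  have ha1' : a ≤ 1 := by linarith
  obtain ⟨p, P, c, N₀, K₁, hp, hP, hPa, hc, hN₀, hK₁, hsl⟩ :=
    l2_slice (m := m) HL ha0 ha1 hm0'.le e hM hm
  obtain ⟨K₂, hK₂, hd1⟩ := dEG_low HL E e hP.hK
  obtain ⟨R₁, hR₁, hn1⟩ := n_timeG E e hT M hK₂ (κ := c / 8) (by linarith)
  obtain ⟨Cy, hCy, hd2⟩ := hd1 P hP hPa rfl M hM R₁ hR₁
  obtain ⟨ε, C', hε, hε1, hC', hn⟩ := hn1 Cy hCy
  obtain ⟨Ce, hCe, hdE⟩ := hd2 ε hε hε1
  obtain ⟨C₁, hC₁, hHs⟩ := Hs_low HL M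
  obtain ⟨rr, KT, -, hKT, hTT⟩ := hT e M
  refine ⟨p, P, c, Ce + C', Real.exp (c / 4 + (Ce + C') * (M + C₁)) * (N₀ * (KT * (2 + (M + C₁)))),
    K₁, hp, hP, hPa, hc, by linarith, by positivity, hK₁, ?_⟩
  intro T f hf hpl hG0 hmass r hr hr1
  have hfc : IsClassicalSol T (fun t x => boltzQ (1 + a) b (f t x)) f := hf
  have hgb : ∀ τ ∈ Ico 0 T, GB M (f τ) := fun τ hτ => glob_bounds HL.H hf hG0 hτ
  have hfs : ∀ τ ∈ Ioo 0 T, FS e (f τ) (fun x => boltzQ (1 + a) b (f τ x)) := fun τ hτ =>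
    fs_of hf hpl hτ
  have hmc : ∀ τ ∈ Ico 0 T, m₀ ≤ ∫ p, f τ p.2 p.1 ∂(nu d) := by
    intro τ hτ
    have h2 := Pool.Agent.H15.AV.mass_const (Q := boltzQ (1 + a) b) hf (boltz_HasInvariants HL.H hf) hτ
    rw [h2]
    exact hmass
  have hsl' := fun τ (hτ : τ ∈ Ioo 0 T) =>
    hsl r hr hr1 (f τ) _ (hfs τ hτ) (hgb τ ⟨hτ.1.le, hτ.2⟩) (hmc τ ⟨hτ.1.le, hτ.2⟩)
  have hE4 : ∀ t ∈ Ioo 0 T, ∀ x v, |EG P r e (f t) x v| ≤ 1 / 4 := fun t ht x v => (hsl' t ht).1 x v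
  refine ⟨hE4, ?_⟩
  intro T' hT' B₀ hB₀ hKB t₀ t ht₀ h01 ht1 htT'
  have htT : t < T := htT'.trans_lt hT'
  have HC := csol_G hP hr hfc hpl p hE4
  obtain ⟨S, hSd⟩ : ∃ S : ℝ → Vec d → Vec d → ℝ, S = fun t x v =>
    (2 * f t x v * boltzQ (1 + a) b (f t x) v -
      f t x v ^ 2 * dEG P r e (f t) (fun y => boltzQ (1 + a) b (f t y)) x v) *
        ((1 + nsq v) ^ p * Real.exp (-EG P r e (f t) x v)) := ⟨_, rfl⟩
  obtain ⟨h, hhd⟩ : ∃ h : ℝ → Vec d → Vec d → ℝ, h = fun t x v =>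
    f t x v ^ 2 * ((1 + nsq v) ^ p * Real.exp (-EG P r e (f t) x v)) := ⟨_, rfl⟩
  have HC' : CSol T S h := by
    rw [hSd, hhd]
    exact HC
  have hYd : ∀ τ, YG P r e p (f τ) = ∫ q, h τ q.2 q.1 ∂(nu d) := by
    intro τ
    rw [hhd]
    rfl
  have hI : ∀ τ ∈ Icc t₀ t, τ ∈ Ioo 0 T := fun τ hτ => ⟨ht₀.trans_le hτ.1, hτ.2.trans_lt htT⟩
  have hY0 : 0 ≤ YG P r e p (f t₀) := by
    unfold YG
    refine integral_nonneg fun q => ?_
    have := sq_nonneg' q.1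
    positivity
  obtain ⟨Nn, hNd⟩ : ∃ Nn : ℝ → ℝ, Nn = fun τ => ε * Cy * Zw a m f τ 1 + K₂ * Zw a m f τ R₁ :=
    ⟨_, rfl⟩
  have z1 : ∀ V : ℝ, 0 < V → ContinuousOn (fun τ => Zw a m f τ V) (Ico 0 T) := by
    intro V hV
    have h1 : Continuous fun τ : ℝ => (τ, V) := by fun_prop
    exact (Zw_cont ha0 ha1' hm0'.le hm1' hfc).comp h1.continuousOn fun τ hτ => ⟨hτ, hV⟩
  have hNc : ContinuousOn Nn (Ico 0 T) := by
    rw [hNd]
    exact ((z1 1 one_pos).const_smul (ε * Cy)).add ((z1 R₁ (by linarith)).const_smul K₂)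
  have z0 : ∀ V : ℝ, 0 < V → ∀ τ ∈ Ico 0 T, 0 ≤ Zw a m f τ V := fun V hV τ hτ => Zw_nonneg hfc hτ hV
  have hN0 : ∀ τ ∈ Ico 0 T, 0 ≤ Nn τ := by
    intro τ hτ
    rw [hNd]
    exact add_nonneg (mul_nonneg (mul_nonneg hε.le hCy) (z0 1 one_pos τ hτ))
      (mul_nonneg hK₂ (z0 R₁ (by linarith) τ hτ))
  obtain ⟨D, hD⟩ : ∃ D : ℝ, D = Hs (f t₀) - Hs (f t) := ⟨_, rfl⟩
  have hNI : ∫ τ in t₀..t, Nn τ ≤ c / 8 * (1 + (t - t₀)) + C' * D := by
    rw [hNd, hD]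
    exact hn T f hf hpl hG0 t₀ t ht₀ h01 htT
  have hDle : D ≤ M + C₁ := by
    have g1 := (hHs T f hf hG0 t₀ ⟨ht₀.le, h01.trans_lt htT⟩).2
    have g2 := (hHs T f hf hG0 t ⟨ht₀.le.trans h01, htT⟩).1
    rw [hD]
    linarith
  have hJ : ∫ τ in t₀..t, N₀ * Zw a m f τ 1 ≤ N₀ * (KT * (2 + (M + C₁))) := by
    rw [intervalIntegral.integral_const_mul]
    refine mul_le_mul_of_nonneg_left ?_ hN₀
    have g1 := hTT T f hf hpl hG0 1 le_rfl t₀ t ht₀ h01 htT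
    rw [Real.one_rpow, one_mul, ← hD] at g1
    refine g1.trans (mul_le_mul_of_nonneg_left ?_ hKT)
    linarith
  have hJ0 : 0 ≤ N₀ * (KT * (2 + (M + C₁))) := by positivity
  -- the main estimate
  have hmain : ∀ μ : ℝ, 0 < μ → YG P r e p (f t) ≤
      Real.exp ((-(7 / 8 * c) * (t - t₀) + (c / 8 * (1 + (t - t₀)) + C' * D)) + (Ce * (D + 2 * μ) + μ)) *
        YG P r e p (f t₀) +
      Real.exp ((c / 8 * (1 + (t - t₀)) + C' * D) + (Ce * (D + 2 * μ) + μ)) *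
        (N₀ * (KT * (2 + (M + C₁)))) := by
    intro μ hμ
    obtain ⟨δa, hδa, HA⟩ := hdE r hr hr1 T f hf hpl hG0 t₀ t ht₀ h01 htT μ hμ
    obtain ⟨Cl, hCl⟩ := Pool.Agent.H15.AV.sol_unice hf ht₀ htT
    obtain ⟨δb, hδb, HB⟩ := Dn_low HL Cl hμ
    obtain ⟨δc, hδc, HD⟩ := drop_lim HL hf ht₀ h01 htT hμ
    obtain ⟨δ', hδ', hda, hdb, hdc⟩ : ∃ δ' : ℝ, 0 < δ' ∧ δ' ≤ δa ∧ δ' ≤ δb ∧ δ' ≤ δc :=
      ⟨min δa (min δb δc), lt_min hδa (lt_min hδb hδc), min_le_left _ _,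
        (min_le_right _ _).trans (min_le_left _ _), (min_le_right _ _).trans (min_le_right _ _)⟩
    have hDn : ∀ τ ∈ Icc t₀ t, ∀ y, -μ ≤ Dn (1 + a) b δ' (f τ y) := fun τ hτ y =>
      HB δ' ⟨hδ', hdb⟩ (f τ y) (hCl τ hτ y)
    obtain ⟨hnc, hnn, hnI⟩ := l2w_n HL hf hδ' ht₀ h01 ht1 htT hμ hCe hDn (HD δ' ⟨hδ', hdc⟩)
      hNc hN0 hNI
    rw [← hD] at hnI
    obtain ⟨n, hnd⟩ : ∃ n : ℝ → ℝ, n = fun τ =>
      Ce * ((∫ x, Dn (1 + a) b δ' (f τ x) ∂(muD d)) + μ) + Nn τ + μ := ⟨_, rfl⟩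
    rw [← hnd] at hnc hnI
    have hnn' : ∀ τ ∈ Icc t₀ t, 0 ≤ n τ := fun τ hτ => by
      rw [hnd]
      exact hnn τ hτ
    have hineq : ∀ τ ∈ Icc t₀ t, (∫ q, S τ q.2 q.1 ∂(nu d)) ≤
        (-(7 / 8 * c) + n τ) * YG P r e p (f τ) + N₀ * Zw a m f τ 1 := by
      intro τ hτ
      have hτ' := hI τ hτ
      have hτ2 : τ ∈ Ico 0 T := ⟨hτ'.1.le, hτ'.2⟩
      obtain ⟨iS, ih, iv⟩ := l2w_csol HC' hτ'
      have hEc : ∀ x, Continuous fun v => EG P r e (f τ) x v := fun x => l2w_EGc hP hr hfc e hτ2 x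
      have hfib : ∀ x, (∫ v, S τ x v) ≤ (-(7 / 8 * c) + n τ) * (∫ v, h τ x v) +
          N₀ * XT a m 1 (f τ x) := by
        intro x
        have hiv := iv x
        rw [hSd] at hiv ⊢
        rw [hhd]
        refine l2w_fiber hP hr (hfs τ hτ') x (hEc x) (fun v => hE4 τ hτ' x v) hiv
          ((hsl' τ hτ').2 B₀ (hB₀ τ ⟨hτ'.1.le, hτ.2.trans htT'⟩) x (hfc.nice hτ' x)) hKB ?_
        intro v
        have hA := HA δ' ⟨hδ', hda⟩ τ hτ x v
        have hCμ : 0 ≤ Ce * μ := mul_nonneg hCe hμ.le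
        rw [hnd, hNd]
        simp only
        linarith
      have i1 : Integrable (fun x => ∫ v, S τ x v) (muD d) := iS.integral_prod_right
      have i2 : Integrable (fun x => ∫ v, h τ x v) (muD d) := ih.integral_prod_right
      have i3 := l2w_XT (a := a) (m := m) ha0 ha1' hm0'.le hm1' hfc hτ2
      rw [Pool.Agent.H15.AV.nu_integral iS, hYd, Pool.Agent.H15.AV.nu_integral ih]
      unfold Zw
      rw [← integral_const_mul, ← integral_const_mul, ← integral_add (i2.const_mul _) (i3.const_mul _)]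
      exact integral_mono i1 ((i2.const_mul _).add (i3.const_mul _)) hfib
    have hyc : ContinuousOn (fun τ => ∫ q, S τ q.2 q.1 ∂(nu d)) (Icc t₀ t) := HC'.contI.mono hI
    have hβc : ContinuousOn (fun τ => N₀ * Zw a m f τ 1) (Icc t₀ t) :=
      (((z1 1 one_pos).mono fun τ hτ => ⟨(hI τ hτ).1.le, (hI τ hτ).2⟩).const_smul N₀)
    have hβ0 : ∀ τ ∈ Icc t₀ t, 0 ≤ N₀ * Zw a m f τ 1 := fun τ hτ =>
      mul_nonneg hN₀ (z0 1 one_pos τ ⟨(hI τ hτ).1.le, (hI τ hτ).2⟩)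
    have hYF : ∀ τ ∈ Icc t₀ t, YG P r e p (f τ) = YG P r e p (f t₀) +
        ∫ q in t₀..τ, (∫ z, S q z.2 z.1 ∂(nu d)) := by
      intro τ hτ
      have h1 := HC'.ftc ht₀ hτ.1 (hI τ hτ).2
      rw [← hYd, ← hYd] at h1
      linarith
    have key := gron (c := 7 / 8 * c) (Y := fun τ => YG P r e p (f τ)) h01 (by linarith) hyc hnc hβc
      hnn' hβ0 hYF hineq
    refine key.trans (add_le_add ?_ ?_)
    · refine mul_le_mul_of_nonneg_right (Real.exp_le_exp.2 ?_) hY0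
      linarith
    · refine (mul_le_mul_of_nonneg_left hJ (Real.exp_pos _).le).trans ?_
      refine mul_le_mul_of_nonneg_right (Real.exp_le_exp.2 ?_) hJ0
      linarith
  have hlim := l2w_lim hmain
  refine hlim.trans (add_le_add (le_of_eq ?_) ?_)
  · congr 2
    rw [hD]
    ring
  · refine mul_le_mul_of_nonneg_right (Real.exp_le_exp.2 ?_) hJ0
    have g1 : (Ce + C') * D ≤ (Ce + C') * (M + C₁) := mul_le_mul_of_nonneg_left hDle (by linarith)
    have g2 : c / 8 * (1 + (t - t₀)) ≤ c / 8 * 2 := mul_le_mul_of_nonneg_left (by linarith) (by linarith)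
    linarith

end Pool.Agent.H48.PG
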