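import Pool.Agent.H48.PG.UniG
import Pool.Agent.H48.PG.HydB

/-!
# Module RegB: the region `1 ≤ γ ≤ 1 + 2s`, coordinate directions

* `exists_GE`: as `exists_UE` (H48/PV/RegU.lean): `m → 2s+`: `m/(2s)(1+m)+a → 1+2s+a < 2`, `a + m < 1`, `a ≤ 2s < m`.
* `reg_B`: `γ = 1 + a`; `exists_hypL` (as in `reg_up`), `tail_g`, `gb_B` (`M`), for every `N`: `p` with `d + γ + 4 ≤ 2p`, `N ≤ p`, `planar_uniformG` (`p₀`), `A₀ = (d+1)^p₀ B (2p₀)` (`1 + nsq v ≤ (d+1)(1+‖v‖)^2`, `sq_le`), `K`; `U N = 2^N K` (`decay_of`, private in PW/FinG, copy); `mass_iter` for the mass.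
-/

set_option autoImplicit false

open MeasureTheory Set Filter Topology Pool.Agent.H25.Kin Pool.Agent.H82.BK Pool.Agent.H82.CM
open Pool.Agent.H48.PL Pool.Agent.H48.PI Pool.Agent.H48.PW Pool.Agent.H15.G1

namespace Pool.Agent.H48.PG

variable {d : ℕ}

/-- from the weighted supremum to the decay -/
private lemma RegB_decay {f : Vec d → ℝ} (h0 : ∀ v, 0 ≤ f v) {N p : ℕ} (hNp : N ≤ p) {K : ℝ}
    (h : ∀ v, f v * (1 + nsq v) ^ p ≤ K) (v : Vec d) : (1 + ‖v‖) ^ N * f v ≤ 2 ^ N * K := by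
  have h12 : (1 + ‖v‖) ^ N ≤ 2 ^ N * (1 + nsq v) ^ p := by
    have h13 : (1 : ℝ) ≤ 1 + ‖v‖ := by linarith [norm_nonneg v]
    calc (1 + ‖v‖) ^ N ≤ ((1 + ‖v‖) ^ 2) ^ N := by
          apply pow_le_pow_left₀ (by linarith)
          nlinarith
      _ ≤ (2 * (1 + nsq v)) ^ N := pow_le_pow_left₀ (by positivity) (norm_le_nsq v) N
      _ = 2 ^ N * (1 + nsq v) ^ N := mul_pow _ _ _
      _ ≤ 2 ^ N * (1 + nsq v) ^ p := by
          apply mul_le_mul_of_nonneg_left _ (by positivity)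
          exact pow_le_pow_right₀ (by linarith [sq_nonneg' v]) hNp
  calc (1 + ‖v‖) ^ N * f v ≤ (2 ^ N * (1 + nsq v) ^ p) * f v :=
        mul_le_mul_of_nonneg_right h12 (h0 v)
    _ = 2 ^ N * (f v * (1 + nsq v) ^ p) := by ring
    _ ≤ 2 ^ N * K := mul_le_mul_of_nonneg_left (h v) (by positivity)

lemma exists_GE {s a : ℝ} (hs : 0 < s) (ha : 0 ≤ a) (ha2 : a ≤ 2 * s) (ha1 : a + 2 * s < 1) :
    ∃ m : ℝ, GE s a m := by
  have hc : Tendsto (fun β : ℝ => β / (2 * s) * (1 + β) + a) (𝓝[>] (2 * s)) (𝓝 (1 + 2 * s + a)) := by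
    have h1 : Continuous fun β : ℝ => β / (2 * s) * (1 + β) + a := by fun_prop
    have h2 := h1.tendsto (2 * s)
    have h3 : (2 * s) / (2 * s) * (1 + 2 * s) + a = 1 + 2 * s + a := by
      rw [div_self (by positivity), one_mul]
    rw [h3] at h2
    exact h2.mono_left nhdsWithin_le_nhds
  have e1 : ∀ᶠ β in 𝓝[>] (2 * s), β / (2 * s) * (1 + β) + a < 2 :=
    hc.eventually (gt_mem_nhds (by linarith))
  have e2 : ∀ᶠ β in 𝓝[>] (2 * s), β < 1 - a :=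
    (gt_mem_nhds (by linarith : 2 * s < 1 - a)).filter_mono nhdsWithin_le_nhds
  have e3 : ∀ᶠ β in 𝓝[>] (2 * s), 2 * s < β := eventually_mem_nhdsWithin
  obtain ⟨m, h1, h2, h3⟩ := (e1.and (e2.and e3)).exists
  exact ⟨m, hs, ha, by linarith, h3, by linarith, h1⟩

theorem reg_B {s γ : ℝ} (hd : 2 ≤ d) (hs : 0 < s) (h1 : 1 ≤ γ) (h2 : γ ≤ 1 + 2 * s) (h3 : γ + 2 * s < 2)
    {b : ℝ → ℝ} (hb : IsKernel d s b) (e : Fin d) : UniB d γ b (Planar e) := by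
  obtain ⟨a, rfl⟩ : ∃ a, γ = 1 + a := ⟨γ - 1, by ring⟩
  obtain ⟨C, Ca, cb, HL⟩ := exists_hypL hd hs (by linarith : s < 1) (by linarith : (0 : ℝ) ≤ 1 + a + 2 * s)
    (by linarith : 1 + a + 2 * s ≤ 2) hb
  obtain ⟨m, E⟩ := exists_GE hs (by linarith : 0 ≤ a) (by linarith : a ≤ 2 * s) (by linarith : a + 2 * s < 1)
  have hT := tail_g HL E
  intro B m₀ hm₀
  obtain ⟨M, hM0, hM⟩ := gb_B d B
  have hp : ∀ N : ℕ, ∃ p : ℕ, (d : ℝ) + (1 + a) + 4 ≤ 2 * p ∧ N ≤ p := by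
    intro N
    obtain ⟨p, hp⟩ := exists_nat_ge (((d : ℝ) + (1 + a) + 4) / 2 + N)
    have h5 : (0 : ℝ) ≤ N := Nat.cast_nonneg N
    have h6 : (0 : ℝ) ≤ d := Nat.cast_nonneg d
    refine ⟨p, by linarith, ?_⟩
    have h7 : (N : ℝ) ≤ p := by linarith
    exact_mod_cast h7
  choose p hp1 hp2 using hp
  have hU := fun N => planar_uniformG HL E e hT hM0 hm₀ (hp1 N)
  choose p₀ hp₀ using hU
  have hK := fun N => hp₀ N (((d : ℝ) + 1) ^ (p₀ N) * B (2 * p₀ N))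
  choose K hK0 hK using hK
  refine ⟨fun N => 2 ^ N * K N, fun T f hf hpl hB hm t ht N x v => ?_⟩
  have h0T : (0 : ℝ) ∈ Ico 0 T := ⟨le_rfl, ht.1.trans_lt ht.2⟩
  have hsl := Pool.Agent.H15.AV.sol_slice hf h0T
  refine RegB_decay (fun v => hf.nonneg t ht x v) (hp2 N) (fun v => ?_) v
  refine hK N T f hf hpl (hM _ hsl hB) ?_ (fun x v => ?_) t ht x v
  · rw [mass_iter hsl]
    exact hm
  · have h4 : 1 + nsq v ≤ ((d : ℝ) + 1) * (1 + ‖v‖) ^ 2 := by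
      have h5 := sq_le v
      have h6 := norm_nonneg v
      have h7 : (0 : ℝ) ≤ d := Nat.cast_nonneg d
      nlinarith [mul_nonneg h7 h6]
    have h8 : 0 ≤ 1 + nsq v := by linarith [sq_nonneg' v]
    calc f 0 x v * (1 + nsq v) ^ (p₀ N) ≤ f 0 x v * (((d : ℝ) + 1) * (1 + ‖v‖) ^ 2) ^ (p₀ N) :=
          mul_le_mul_of_nonneg_left (pow_le_pow_left₀ h8 h4 _) (hf.nonneg 0 h0T x v)
      _ = ((d : ℝ) + 1) ^ (p₀ N) * ((1 + ‖v‖) ^ (2 * p₀ N) * f 0 x v) := by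
          rw [mul_pow, ← pow_mul]
          ring
      _ ≤ ((d : ℝ) + 1) ^ (p₀ N) * B (2 * p₀ N) :=
          mul_le_mul_of_nonneg_left (hB _ x v) (by positivity)

end Pool.Agent.H48.PG
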