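import Pool.Agent.H48.PG.WinG
import Pool.Agent.H48.PG.L2Uni
import Pool.Agent.H48.PV.UniU

/-!
# Module UniG: the uniform pointwise bound

`p₂, p₀', K₂` from `l2_uni`, `p₀ = max p p₀'`, `Λ = K₂ (A₀+1)²` (`A₀ ≥ 0` if there is a solution with `T > 0`; otherwise `Ico 0 T` is empty), `P, N, Cd, K₁` from `win_G`. Then as `planar_uniformU` (H48/PV/UniU.lean, copy): for `t` fixed, `T' = (t+T)/2`, `B₀` from `hf.decay T' _ 0`, `r ∈ (0,1]` with `K₁ r B₀ ≤ 1`; the final bound does not depend on `r`.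
-/

set_option autoImplicit false

open MeasureTheory Set Filter Topology Pool.Agent.H25.Kin Pool.Agent.H82.BK Pool.Agent.H82.CM
open Pool.Agent.H48.PL Pool.Agent.H48.PI Pool.Agent.H48.PW Pool.Agent.H48.PV Pool.Agent.H15.G1
open Pool.Agent.H85.UP
open Pool.Agent.H15.AV (UNice gau)

namespace Pool.Agent.H48.PG

variable {d : ℕ} {s a m C Ca cb : ℝ} {b : ℝ → ℝ}

theorem planar_uniformG (HL : HypL d (1 + a) s b C Ca cb) (E : GE s a m) (e : Fin d) (hT : TailR d a m b)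
    {M : ℝ} (hM : 0 ≤ M) {m₀ : ℝ} (hm : 0 < m₀) {p : ℕ} (hp : (d : ℝ) + (1 + a) + 4 ≤ 2 * p) :
    ∃ p₀ : ℕ, ∀ A₀ : ℝ, ∃ K : ℝ, 0 ≤ K ∧ ∀ (T : ℝ) (f : ℝ → Vec d → Vec d → ℝ),
      IsBoltzmannSol (1 + a) b T f → Planar e T f → GB M (f 0) → m₀ ≤ ∫ q, f 0 q.2 q.1 ∂(nu d) →
      (∀ x v, f 0 x v * (1 + nsq v) ^ p₀ ≤ A₀) →
      ∀ t ∈ Ico 0 T, ∀ x v, f t x v * (1 + nsq v) ^ p ≤ K := by
  obtain ⟨p₂, p₀', K₂, hp₂, hK₂, hl2⟩ := l2_uni HL E e hT hM hm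
  refine ⟨max p p₀', fun A₀ => ?_⟩
  have hΛ : 0 ≤ K₂ * (A₀ + 1) ^ 2 := by positivity
  obtain ⟨P, N, Cd, K₁, _hP, hN, hCd, hK₁, hwin⟩ := win_G HL E e hT hM hm hp hp₂ hΛ
  obtain ⟨C₁, hC₁, hlow⟩ := Hs_low HL M
  have he0 : 0 < Real.exp 1 := Real.exp_pos 1
  have he1 : 1 ≤ Real.exp 1 := Real.one_le_exp zero_le_one
  refine ⟨(N + Real.exp 1 * (|A₀| + 1)) * Real.exp (1 + Cd * (M + C₁)) * Real.exp 1 + (|A₀| + 1),
    by positivity, ?_⟩
  intro T f hf hpl hG hmass hA₀ t ht x v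
  have hT0 : 0 < T := ht.1.trans_lt ht.2
  have hns : ∀ v : Vec d, 1 ≤ 1 + nsq v := fun v => by
    have : 0 ≤ nsq v := Finset.sum_nonneg fun i _ => sq_nonneg _
    linarith
  have hnn : ∀ x v, 0 ≤ f 0 x v := fun x v => hf.nonneg 0 ⟨le_rfl, hT0⟩ x v
  have hA0 : 0 ≤ A₀ := by
    refine le_trans (mul_nonneg (hnn x v) ?_) (hA₀ x v)
    have := hns v
    positivity
  have hAp : ∀ x v, f 0 x v * (1 + nsq v) ^ p ≤ A₀ := fun x v =>
    (mul_le_mul_of_nonneg_left (pow_le_pow_right₀ (hns v) (le_max_left p p₀')) (hnn x v)).trans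
      (hA₀ x v)
  have hAp' : ∀ x v, f 0 x v * (1 + nsq v) ^ p₀' ≤ A₀ := fun x v =>
    (mul_le_mul_of_nonneg_left (pow_le_pow_right₀ (hns v) (le_max_right p p₀')) (hnn x v)).trans
      (hA₀ x v)
  have hL2 := hl2 T f hf hpl hG hmass A₀ hAp'
  have hW : ∀ v : Vec d, 0 < (1 + nsq v) ^ p := fun v => by
    have := hns v
    positivity
  obtain ⟨t₁, ht₁, ht₁T, hst⟩ := start_W hf hT0 p hA0 hAp one_pos
  have habs : |A₀| = A₀ := abs_of_nonneg hA0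
  rw [habs]
  set B : ℝ := N + Real.exp 1 * (A₀ + 1) with hB
  have hBN : N ≤ B := by
    have : 0 ≤ Real.exp 1 * (A₀ + 1) := by positivity
    linarith
  have hB0 : 0 < B := by linarith
  have hX : 0 ≤ B * Real.exp (1 + Cd * (M + C₁)) * Real.exp 1 := by positivity
  rcases le_or_gt t t₁ with hle | hgt
  · refine (hst t ⟨ht.1, hle⟩ x v).trans ?_
    linarith
  have hT'1 : t < (t + T) / 2 := by linarith [ht.2]
  have hT'2 : (t + T) / 2 < T := by linarith [ht.2]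
  obtain ⟨B₀, hB₀⟩ := hf.decay ((t + T) / 2) hT'2 0
  have hB₀' : ∀ s ∈ Icc 0 ((t + T) / 2), ∀ x v, f s x v ≤ B₀ := by
    intro s hs x v
    have := hB₀ s hs x v
    rwa [pow_zero, one_mul] at this
  have hr0 : 0 < 1 + K₁ * |B₀| := by positivity
  have hr1 : 1 / (1 + K₁ * |B₀|) ≤ 1 := by
    rw [div_le_one hr0]
    have : 0 ≤ K₁ * |B₀| := by positivity
    linarith
  have hrB : K₁ * (1 / (1 + K₁ * |B₀|) * B₀) ≤ 1 := by
    have h1 : K₁ * (1 / (1 + K₁ * |B₀|) * B₀) = K₁ * B₀ / (1 + K₁ * |B₀|) := by ring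
    rw [h1, div_le_one hr0]
    have h2 : K₁ * B₀ ≤ K₁ * |B₀| := mul_le_mul_of_nonneg_left (le_abs_self _) hK₁
    linarith
  set r : ℝ := 1 / (1 + K₁ * |B₀|) with hr
  have hrpos : 0 < r := by positivity
  obtain ⟨hEb, hw0⟩ := hwin T f hf hpl hG hmass hL2 r hrpos hr1
  have hw := hw0 ((t + T) / 2) hT'2 B₀ hB₀' hrB
  have hexpE : ∀ t ∈ Ioo 0 T, ∀ x v, Real.exp (-EG P r e (f t) x v) ≤ Real.exp 1 := by
    intro t ht x v
    refine Real.exp_le_exp.2 ?_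
    have := (abs_le.1 (hEb t ht x v)).1
    linarith
  have hexpE' : ∀ t ∈ Ioo 0 T, ∀ x v, Real.exp (EG P r e (f t) x v) ≤ Real.exp 1 := by
    intro t ht x v
    exact Real.exp_le_exp.2 (abs_le.1 (hEb t ht x v)).2
  have hmain : ∀ n : ℕ, t₁ + n < (t + T) / 2 → ∀ x v,
      f (t₁ + n) x v * (1 + nsq v) ^ p * Real.exp (-EG P r e (f (t₁ + n)) x v) ≤
        B * Real.exp (Cd * (Hs (f t₁) - Hs (f (t₁ + n)))) := by
    intro n
    induction n with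
    | zero =>
      intro h1 x v
      rw [Nat.cast_zero, add_zero, sub_self, mul_zero, Real.exp_zero, mul_one]
      have h2 := hst t₁ ⟨ht₁.le, le_rfl⟩ x v
      have h3 := hexpE t₁ ⟨ht₁, ht₁T⟩ x v
      calc f t₁ x v * (1 + nsq v) ^ p * Real.exp (-EG P r e (f t₁) x v)
          ≤ (A₀ + 1) * Real.exp 1 := mul_le_mul h2 h3 (Real.exp_pos _).le (by positivity)
        _ ≤ B := by
            rw [hB]
            nlinarith
    | succ n ih =>
      intro h1 x v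
      have hcast : t₁ + ((n + 1 : ℕ) : ℝ) = t₁ + n + 1 := by push_cast; ring
      rw [hcast] at h1 ⊢
      have hn0 : (0 : ℝ) ≤ n := Nat.cast_nonneg n
      have hnT' : t₁ + n < (t + T) / 2 := by linarith
      have hnT : t₁ + n < T := by linarith
      have ihn := ih hnT'
      have hd1 : 0 ≤ Hs (f t₁) - Hs (f (t₁ + n)) := by
        have := Hs_anti HL hf ht₁.le (by linarith : t₁ ≤ t₁ + n) hnT
        linarith
      have hBB : B ≤ B * Real.exp (Cd * (Hs (f t₁) - Hs (f (t₁ + n)))) :=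
        le_mul_of_one_le_right hB0.le (Real.one_le_exp (mul_nonneg hCd hd1))
      refine (hw (t₁ + n) (t₁ + n + 1) (by linarith) (by linarith) le_rfl h1 _ (hBN.trans hBB) ihn x v).trans
        (le_of_eq ?_)
      rw [mul_assoc, ← Real.exp_add]
      congr 2
      ring
  have hn0 : (0 : ℝ) ≤ ((⌊t - t₁⌋₊ : ℕ) : ℝ) := Nat.cast_nonneg _
  have hnt : ((⌊t - t₁⌋₊ : ℕ) : ℝ) ≤ t - t₁ := Nat.floor_le (by linarith)
  have htn : t - t₁ ≤ ((⌊t - t₁⌋₊ : ℕ) : ℝ) + 1 := (Nat.lt_floor_add_one (t - t₁)).le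
  set n : ℕ := ⌊t - t₁⌋₊ with hn
  have hnT' : t₁ + n < (t + T) / 2 := by linarith
  have hnT : t₁ + n < T := by linarith
  have h2 := hmain n hnT'
  have hd1 : 0 ≤ Hs (f t₁) - Hs (f (t₁ + n)) := by
    have := Hs_anti HL hf ht₁.le (by linarith : t₁ ≤ t₁ + n) hnT
    linarith
  have hBB : B ≤ B * Real.exp (Cd * (Hs (f t₁) - Hs (f (t₁ + n)))) :=
    le_mul_of_one_le_right hB0.le (Real.one_le_exp (mul_nonneg hCd hd1))
  have h3 := hw (t₁ + n) t (by linarith) (by linarith) (by linarith) hT'1 _ (hBN.trans hBB) h2 x v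
  have hH1 := hlow T f hf hG t₁ ⟨ht₁.le, ht₁T⟩
  have hHt := hlow T f hf hG t ht
  have h4 : B * Real.exp (Cd * (Hs (f t₁) - Hs (f (t₁ + n)))) *
      Real.exp ((1 - (t - (t₁ + n))) + Cd * (Hs (f (t₁ + n)) - Hs (f t))) ≤
      B * Real.exp (1 + Cd * (M + C₁)) := by
    rw [mul_assoc, ← Real.exp_add]
    refine mul_le_mul_of_nonneg_left (Real.exp_le_exp.2 ?_) hB0.le
    have h5 : Cd * (Hs (f t₁) - Hs (f t)) ≤ Cd * (M + C₁) :=
      mul_le_mul_of_nonneg_left (by linarith [hH1.2, hHt.1]) hCd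
    nlinarith
  have h5 := h3.trans h4
  have h6 := hexpE' t ⟨by linarith, ht.2⟩ x v
  have h7 : f t x v * (1 + nsq v) ^ p = f t x v * (1 + nsq v) ^ p *
      Real.exp (-EG P r e (f t) x v) * Real.exp (EG P r e (f t) x v) := by
    rw [mul_assoc, ← Real.exp_add, neg_add_cancel, Real.exp_zero, mul_one]
  rw [h7]
  calc f t x v * (1 + nsq v) ^ p * Real.exp (-EG P r e (f t) x v) * Real.exp (EG P r e (f t) x v)
      ≤ B * Real.exp (1 + Cd * (M + C₁)) * Real.exp 1 :=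
        mul_le_mul h5 h6 (Real.exp_pos _).le (by positivity)
    _ ≤ B * Real.exp (1 + Cd * (M + C₁)) * Real.exp 1 + (A₀ + 1) := by linarith

end Pool.Agent.H48.PG
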