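import Pool.Agent.H48.PG.CoreG
import Pool.Agent.H48.PG.ErrG
import Pool.Agent.H48.PG.NG
import Pool.Agent.H48.PV.WinU

/-!
# Module WinG: windows

As `windowU` (H48/PV/WinU.lean, copy with its private lemmas), without `Zu`. `P, N₁, c, K₁'` from `core_G`, `K₁ = 2 K₁'/c`: `K₁' r B₀ ≤ c/2`, so the touching inequality holds with `c/2` instead of `c`, at all times `≤ T'` (choose the end of the window `t₀ + T'' < T'`). `n_timeG` with `κ = c/4`.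
-/

set_option autoImplicit false

open MeasureTheory Set Filter Topology Pool.Agent.H25.Kin Pool.Agent.H82.BK Pool.Agent.H82.CM
open Pool.Agent.H48.PL Pool.Agent.H48.PI Pool.Agent.H48.PW Pool.Agent.H48.PV Pool.Agent.H15.G1
open Pool.Agent.H85.UP
open Pool.Agent.H15.AV (UNice gau)

namespace Pool.Agent.H48.PG

variable {d : ℕ} {s a m C Ca cb : ℝ} {b : ℝ → ℝ}

/-- the average of the entropy production is at least `-μ` -/
private lemma wg_avg (HL : HypL d (1 + a) s b C Ca cb) {T : ℝ} {f : ℝ → Vec d → Vec d → ℝ}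
    (hf : IsBoltzmannSol (1 + a) b T f) {δ : ℝ} (hδ : 0 < δ) {t : ℝ} (ht : t ∈ Ioo 0 T) {μ : ℝ}
    (h : ∀ y, -μ ≤ Dn (1 + a) b δ (f t y)) : -μ ≤ ∫ y, Dn (1 + a) b δ (f t y) ∂(muD d) := by
  have h1 : Continuous fun y : Vec d => (t, y) := by fun_prop
  have h2 : Continuous ((fun q : ℝ × Vec d => Dn (1 + a) b δ (f q.1 q.2)) ∘ fun y : Vec d => (t, y)) :=
    ContinuousOn.comp_continuous (Dn_cont HL hf hδ).1 h1 fun y => ⟨ht, mem_univ _⟩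
  have h2' : Continuous fun y : Vec d => Dn (1 + a) b δ (f t y) := h2
  have h3 : Integrable (fun y : Vec d => Dn (1 + a) b δ (f t y)) (muD d) := by
    unfold muD
    exact h2'.continuousOn.integrableOn_compact isCompact_Icc
  have h4 := integral_mono (integrable_const (-μ)) h3 h
  have h5 : (muD d).real univ = 1 := by
    rw [Measure.real, muD_univ]
    rfl
  rw [integral_const, h5, one_smul] at h4
  exact h4

/-- the error is integrable, nonnegative, and its integral is small -/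
private lemma wg_m (HL : HypL d (1 + a) s b C Ca cb) {T : ℝ} {f : ℝ → Vec d → Vec d → ℝ}
    (hf : IsBoltzmannSol (1 + a) b T f) {δ : ℝ} (hδ : 0 < δ) {t₀ t T' : ℝ} (h0 : 0 < t₀) (h01 : t₀ ≤ t)
    (ht1 : t ≤ t₀ + 1) (htT' : t < t₀ + T') (hT' : t₀ + T' < T) {μ Ce : ℝ} (hμ : 0 < μ) (hCe : 0 ≤ Ce)
    (h : ∀ τ ∈ Icc t₀ (t₀ + T'), ∀ y, -μ ≤ Dn (1 + a) b δ (f τ y))
    (hd : |(∫ τ in t₀..t, (∫ x, Dn (1 + a) b δ (f τ x) ∂(muD d))) - (Hs (f t₀) - Hs (f t))| ≤ μ)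
    {Nn : ℝ → ℝ} (hNc : ContinuousOn Nn (Ico 0 T)) (hN0 : ∀ τ ∈ Ico 0 T, 0 ≤ Nn τ) {X : ℝ}
    (hNI : ∫ τ in t₀..t, Nn τ ≤ X) :
    IntegrableOn (fun τ => Ce * ((∫ x, Dn (1 + a) b δ (f (t₀ + τ) x) ∂(muD d)) + μ) + Nn (t₀ + τ) + μ)
      (Ioo 0 T') ∧
    (∀ τ ∈ Ioo (0 : ℝ) T',
      0 ≤ Ce * ((∫ x, Dn (1 + a) b δ (f (t₀ + τ) x) ∂(muD d)) + μ) + Nn (t₀ + τ) + μ) ∧
    ∫ τ in Ioc 0 (t - t₀), (Ce * ((∫ x, Dn (1 + a) b δ (f (t₀ + τ) x) ∂(muD d)) + μ) + Nn (t₀ + τ) + μ) ≤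
      Ce * ((Hs (f t₀) - Hs (f t)) + 2 * μ) + X + μ := by
  have hsh : ContinuousOn (fun t : ℝ => t₀ + t) (Icc 0 T') := by fun_prop
  have hcD : ContinuousOn (fun t : ℝ => ∫ x, Dn (1 + a) b δ (f (t₀ + t) x) ∂(muD d)) (Icc 0 T') :=
    (Dn_cont HL hf hδ).2.comp (f := fun t : ℝ => t₀ + t) hsh
      fun t ht => ⟨by linarith [ht.1], by linarith [ht.2]⟩
  have hcN : ContinuousOn (fun t : ℝ => Nn (t₀ + t)) (Icc 0 T') :=
    hNc.comp (f := fun t : ℝ => t₀ + t) hsh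
      fun t ht => ⟨by linarith [ht.1], by linarith [ht.2]⟩
  have hcm : ContinuousOn (fun τ : ℝ => Ce * ((∫ x, Dn (1 + a) b δ (f (t₀ + τ) x) ∂(muD d)) + μ) +
      Nn (t₀ + τ) + μ) (Icc 0 T') :=
    (((hcD.add continuousOn_const).const_smul Ce).add hcN).add continuousOn_const
  have hint := hcm.integrableOn_compact (μ := volume) isCompact_Icc
  refine ⟨hint.mono_set Ioo_subset_Icc_self, fun τ hτ => ?_, ?_⟩
  · have h3 := wg_avg HL hf hδ (t := t₀ + τ) ⟨by linarith [hτ.1], by linarith [hτ.2]⟩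
      (h (t₀ + τ) ⟨by linarith [hτ.1], by linarith [hτ.2]⟩)
    have h4 : 0 ≤ (∫ x, Dn (1 + a) b δ (f (t₀ + τ) x) ∂(muD d)) + μ := by linarith
    have h5 := mul_nonneg hCe h4
    have h6 := hN0 (t₀ + τ) ⟨by linarith [hτ.1], by linarith [hτ.2]⟩
    linarith
  · have hs0 : 0 ≤ t - t₀ := by linarith
    have hsub : uIcc 0 (t - t₀) ⊆ Icc 0 T' := by
      rw [uIcc_of_le hs0]
      exact Icc_subset_Icc_right (by linarith)
    have hDi : IntervalIntegrable (fun t : ℝ => ∫ x, Dn (1 + a) b δ (f (t₀ + t) x) ∂(muD d)) volume 0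
        (t - t₀) := (hcD.mono hsub).intervalIntegrable
    have hNi : IntervalIntegrable (fun t : ℝ => Nn (t₀ + t)) volume 0 (t - t₀) :=
      (hcN.mono hsub).intervalIntegrable
    rw [← intervalIntegral.integral_of_le hs0,
      intervalIntegral.integral_add (((hDi.add intervalIntegrable_const).const_mul Ce).add hNi)
        intervalIntegrable_const,
      intervalIntegral.integral_add ((hDi.add intervalIntegrable_const).const_mul Ce) hNi,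
      intervalIntegral.integral_const_mul, intervalIntegral.integral_add hDi intervalIntegrable_const,
      intervalIntegral.integral_const, sub_zero, smul_eq_mul]
    have e3 : ∫ r in (0 : ℝ)..(t - t₀), (∫ x, Dn (1 + a) b δ (f (t₀ + r) x) ∂(muD d)) =
        ∫ τ in t₀..t, (∫ x, Dn (1 + a) b δ (f τ x) ∂(muD d)) := by
      have h5 := intervalIntegral.integral_comp_add_left (a := (0 : ℝ)) (b := t - t₀)
        (fun τ : ℝ => ∫ x, Dn (1 + a) b δ (f τ x) ∂(muD d)) t₀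
      rw [add_zero, show t₀ + (t - t₀) = t by ring] at h5
      exact h5
    have e4 : ∫ r in (0 : ℝ)..(t - t₀), Nn (t₀ + r) = ∫ τ in t₀..t, Nn τ := by
      have h5 := intervalIntegral.integral_comp_add_left (a := (0 : ℝ)) (b := t - t₀) Nn t₀
      rw [add_zero, show t₀ + (t - t₀) = t by ring] at h5
      exact h5
    rw [e3, e4]
    have h6 := (abs_le.1 hd).2
    have h7 : (t - t₀) * μ ≤ 1 * μ := mul_le_mul_of_nonneg_right (by linarith) hμ.le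
    have h8 : (∫ τ in t₀..t, (∫ x, Dn (1 + a) b δ (f τ x) ∂(muD d))) + (t - t₀) * μ ≤
        (Hs (f t₀) - Hs (f t)) + 2 * μ := by linarith
    have h9 := mul_le_mul_of_nonneg_left h8 hCe
    linarith

/-- the limit `μ → 0` -/
private lemma wg_lim {X B Ce D : ℝ} (h : ∀ μ : ℝ, 0 < μ → X ≤ B * Real.exp (Ce * (D + 2 * μ) + μ)) :
    X ≤ B * Real.exp (Ce * D) := by
  have hlim : Tendsto (fun μ : ℝ => B * Real.exp (Ce * (D + 2 * μ) + μ)) (𝓝[>] 0)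
      (𝓝 (B * Real.exp (Ce * (D + 2 * 0) + 0))) := by
    have : Continuous fun μ : ℝ => B * Real.exp (Ce * (D + 2 * μ) + μ) := by fun_prop
    exact (this.tendsto 0).mono_left nhdsWithin_le_nhds
  have := ge_of_tendsto hlim (by
    filter_upwards [self_mem_nhdsWithin] with μ h1 using h μ h1)
  simpa using this

theorem win_G (HL : HypL d (1 + a) s b C Ca cb) (E : GE s a m) (e : Fin d) (hT : TailR d a m b)
    {M : ℝ} (hM : 0 ≤ M) {m₀ : ℝ} (hm : 0 < m₀) {p p₂ : ℕ} (hp : (d : ℝ) + (1 + a) + 4 ≤ 2 * p)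
    (hp₂ : 1 ≤ p₂) {Λ : ℝ} (hΛ : 0 ≤ Λ) :
    ∃ (P : Pg) (N Cd K₁ : ℝ), P.Ok ∧ 0 < N ∧ 0 ≤ Cd ∧ 0 ≤ K₁ ∧
      ∀ (T : ℝ) (f : ℝ → Vec d → Vec d → ℝ), IsBoltzmannSol (1 + a) b T f → Planar e T f → GB M (f 0) →
        m₀ ≤ ∫ q, f 0 q.2 q.1 ∂(nu d) →
        (∀ t ∈ Ico 0 T, ∫ q, f t q.2 q.1 ^ 2 * (1 + nsq q.1) ^ p₂ ∂(nu d) ≤ Λ) → ∀ r : ℝ, 0 < r → r ≤ 1 →
        (∀ t ∈ Ioo 0 T, ∀ x v, |EG P r e (f t) x v| ≤ 1) ∧
        ∀ T' < T, ∀ B₀ : ℝ, (∀ t ∈ Icc 0 T', ∀ x v, f t x v ≤ B₀) → K₁ * (r * B₀) ≤ 1 →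
        ∀ t₀ t : ℝ, 0 < t₀ → t₀ ≤ t → t ≤ t₀ + 1 → t < T' → ∀ B : ℝ, N ≤ B →
          (∀ x v, f t₀ x v * (1 + nsq v) ^ p * Real.exp (-EG P r e (f t₀) x v) ≤ B) →
          ∀ x v, f t x v * (1 + nsq v) ^ p * Real.exp (-EG P r e (f t) x v) ≤
            B * Real.exp ((1 - (t - t₀)) + Cd * (Hs (f t₀) - Hs (f t))) := by
  obtain ⟨P, N₁, c₀, K₀, hP, hPa, hN₁, hc₀, hc₀8, hK₀, hcore⟩ := core_G HL E hp hp₂ e hM hm hΛ
  obtain ⟨c, hcd⟩ : ∃ c : ℝ, c = c₀ / 2 := ⟨_, rfl⟩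
  have hc : 0 < c := by linarith
  have hc8 : c ≤ 1 / 8 := by linarith
  obtain ⟨K₁, hK₁, hd1⟩ := dEG_low HL E e hP.hK
  obtain ⟨R₁, hR₁, hn1⟩ := n_timeG E e hT M hK₁ (κ := c / 2) (by linarith)
  obtain ⟨Cy, hCy, hd2⟩ := hd1 P hP hPa rfl M hM R₁ hR₁
  obtain ⟨ε, C', hε, hε1, hC', hn⟩ := hn1 Cy hCy
  obtain ⟨Ce, hCe, hdE⟩ := hd2 ε hε hε1
  have hs0 := E.hs
  have ha0 : 0 ≤ a := E.ha
  have hm0 : 0 < m := by linarith [E.hm]
  have ha1 : a ≤ 1 := by linarith [E.hm1]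
  have hm1 : m ≤ 1 := by linarith [E.hm1]
  refine ⟨P, 3 * N₁, Ce + C', 2 * K₀ / c₀, hP, by linarith, by linarith, by positivity, ?_⟩
  intro T f hf hpl hG0 hmass hL2 r hr hr1
  have hfc : IsClassicalSol T (fun t x => boltzQ (1 + a) b (f t x)) f := hf
  have hgb : ∀ τ ∈ Ico 0 T, GB M (f τ) := fun τ hτ => glob_bounds HL.H hf hG0 hτ
  have hfs : ∀ τ ∈ Ioo 0 T, FS e (f τ) (fun x => boltzQ (1 + a) b (f τ x)) := fun τ hτ =>
    fs_of hf hpl hτ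
  have hmc : ∀ τ ∈ Ico 0 T, m₀ ≤ ∫ p, f τ p.2 p.1 ∂(nu d) := by
    intro τ hτ
    have h2 := Pool.Agent.H15.AV.mass_const (Q := boltzQ (1 + a) b) hf (boltz_HasInvariants HL.H hf) hτ
    rw [h2]
    exact hmass
  have hcore' := fun τ (hτ : τ ∈ Ioo 0 T) =>
    hcore r hr hr1 (f τ) _ (hfs τ hτ) (hgb τ ⟨hτ.1.le, hτ.2⟩) (hmc τ ⟨hτ.1.le, hτ.2⟩)
      (hL2 τ ⟨hτ.1.le, hτ.2⟩)
  refine ⟨fun t ht x v => ((hcore' t ht).1 x v).trans (by norm_num), ?_⟩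
  intro Te hTe B₀ hB₀ hKB t₀ t ht₀ h01 ht1 htTe B hB hB0 x v
  have htT : t < T := htTe.trans hTe
  have hKc : K₀ * (r * B₀) ≤ c := by
    have h1 : (2 * K₀ / c₀) * (r * B₀) * c = K₀ * (r * B₀) := by
      rw [hcd]
      field_simp
    have h2 := mul_le_mul_of_nonneg_right hKB hc.le
    linarith
  obtain ⟨T', hT1, hT2, hT4⟩ : ∃ T' : ℝ, t - t₀ < T' ∧ T' < 2 ∧ T' < Te - t₀ := by
    refine ⟨(t - t₀ + min 2 (Te - t₀)) / 2, ?_, ?_, ?_⟩
    · have : t - t₀ < min 2 (Te - t₀) := lt_min (by linarith) (by linarith)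
      linarith
    · have := min_le_left 2 (Te - t₀)
      linarith
    · have := min_le_right 2 (Te - t₀)
      linarith
  have hT3 : T' < T - t₀ := by linarith
  have hT0 : 0 < T' := by linarith
  obtain ⟨g, hgd⟩ : ∃ g : ℝ → Vec d → Vec d → ℝ, g = fun t => f (t₀ + t) := ⟨_, rfl⟩
  have hgt : ∀ t, g t = f (t₀ + t) := fun t => by rw [hgd]
  have hgs : IsBoltzmannSol (1 + a) b (T - t₀) g := by
    rw [hgd]
    exact boltz_shift hf ht₀.le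
  have hgc : IsClassicalSol (T - t₀) (fun t x => boltzQ (1 + a) b (g t x)) g := hgs
  have hgpl : Planar e (T - t₀) g := by
    rw [hgd]
    exact planar_shift hpl ht₀.le
  have hg1 : IsClassicalSol T' (fun t x => boltzQ (1 + a) b (g t x)) g := sol_restrict hgc hT3.le
  obtain ⟨Ew, hEd⟩ : ∃ Ew : ℝ → Vec d → Vec d → ℝ, Ew = fun t x v => EG P r e (g t) x v - c * t :=
    ⟨_, rfl⟩
  obtain ⟨DE, hDEd⟩ : ∃ DE : ℝ → Vec d → Vec d → ℝ, DE = fun t x v =>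
    dEG P r e (g t) (fun y => boltzQ (1 + a) b (g t y)) x v - c := ⟨_, rfl⟩
  obtain ⟨Nn, hNd⟩ : ∃ Nn : ℝ → ℝ, Nn = fun τ => ε * Cy * Zw a m f τ 1 + K₁ * Zw a m f τ R₁ :=
    ⟨_, rfl⟩
  have hEc : ContinuousOn (unc Ew) (Ico 0 T' ×ˢ univ) := by
    have h1 := (EG_cont hP hr hgc e).mono
      (fun z (hz : z ∈ Ico 0 T' ×ˢ (univ : Set (Vec d × Vec d))) => (⟨⟨hz.1.1, hz.1.2.trans hT3⟩, hz.2⟩ :
        z ∈ Ico 0 (T - t₀) ×ˢ (univ : Set (Vec d × Vec d))))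
    have h2 : ContinuousOn (fun z : ℝ × Vec d × Vec d => c * z.1) (Ico 0 T' ×ˢ univ) := by fun_prop
    rw [hEd]
    exact h1.sub h2
  have hIoo : ∀ τ ∈ Icc (0 : ℝ) T', t₀ + τ ∈ Ioo 0 T := fun τ hτ =>
    ⟨by linarith [hτ.1], by linarith [hτ.2]⟩
  have hEb : ∀ τ ∈ Icc (0 : ℝ) T', ∀ x v, |Ew τ x v| ≤ 1 / 2 := by
    intro τ hτ y u
    have e1 := (hcore' (t₀ + τ) (hIoo τ hτ)).1 y u
    rw [← hgt] at e1
    simp only [hEd]
    have e2 : 0 ≤ c * τ := mul_nonneg hc.le hτ.1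
    have e3 : c * τ ≤ 1 / 8 * 2 := mul_le_mul hc8 (hτ.2.trans hT2.le) hτ.1 (by norm_num)
    rw [abs_le] at e1 ⊢
    constructor <;> linarith
  have hEp : ∀ τ ∈ Ico (0 : ℝ) T', ∀ x v i, Ew τ (x + Pi.single i 1) v = Ew τ x v := by
    intro τ hτ y u i
    simp only [hEd]
    rw [EG_per (hg1.periodic τ hτ) e y u i]
  have hED : ∀ τ ∈ Ioo (0 : ℝ) T', ∀ x v,
      HasDerivAt (fun r => Ew r (x + r • v) v) (DE τ (x + τ • v) v) τ := by
    intro τ hτ y u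
    have ht' : τ ∈ Ioo 0 (T - t₀) := ⟨hτ.1, hτ.2.trans hT3⟩
    rw [hEd, hDEd]
    have h1 : HasDerivAt (fun r : ℝ => c * r) c τ := by
      simpa using (hasDerivAt_id τ).const_mul c
    exact (EG_char hP hr hgc hgpl ht' y u).sub h1
  have hNc : ContinuousOn Nn (Ico 0 T) := by
    rw [hNd]
    have z1 : ∀ V : ℝ, 0 < V → ContinuousOn (fun τ => Zw a m f τ V) (Ico 0 T) := by
      intro V hV
      have h1 : Continuous fun τ : ℝ => (τ, V) := by fun_prop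
      exact (Zw_cont ha0 ha1 hm0.le hm1 hfc).comp h1.continuousOn fun τ hτ => ⟨hτ, hV⟩
    exact ((z1 1 one_pos).const_smul (ε * Cy)).add ((z1 R₁ (by linarith)).const_smul K₁)
  have hN0 : ∀ τ ∈ Ico 0 T, 0 ≤ Nn τ := by
    intro τ hτ
    rw [hNd]
    have z1 : ∀ V : ℝ, 0 < V → 0 ≤ Zw a m f τ V := fun V hV => Zw_nonneg hfc hτ hV
    exact add_nonneg (mul_nonneg (mul_nonneg hε.le hCy) (z1 1 one_pos))
      (mul_nonneg hK₁ (z1 R₁ (by linarith)))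
  have hNI : ∫ τ in t₀..t, Nn τ ≤ c / 2 * (1 + (t - t₀)) + C' * (Hs (f t₀) - Hs (f t)) := by
    rw [hNd]
    exact hn T f hf hpl hG0 t₀ t ht₀ h01 htT
  -- the main estimate
  have hmain : ∀ μ : ℝ, 0 < μ →
      g (t - t₀) x v * (1 + nsq v) ^ p * Real.exp (-Ew (t - t₀) x v) ≤
        B * Real.exp (Ce * ((Hs (f t₀) - Hs (f t)) + 2 * μ) +
          (c / 2 * (1 + (t - t₀)) + C' * (Hs (f t₀) - Hs (f t))) + μ) := by
    intro μ hμ
    have htT2 : t₀ + T' < T := by linarith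
    obtain ⟨δa, hδa, HA⟩ := hdE r hr hr1 T f hf hpl hG0 t₀ (t₀ + T') ht₀ (by linarith) htT2 μ hμ
    obtain ⟨Cl, hCl⟩ := Pool.Agent.H15.AV.sol_unice hf ht₀ htT2
    obtain ⟨δb, hδb, HB⟩ := Dn_low HL Cl hμ
    obtain ⟨δc, hδc, HC⟩ := drop_lim HL hf ht₀ h01 htT hμ
    obtain ⟨δ', hδ', hda, hdb, hdc⟩ : ∃ δ' : ℝ, 0 < δ' ∧ δ' ≤ δa ∧ δ' ≤ δb ∧ δ' ≤ δc :=
      ⟨min δa (min δb δc), lt_min hδa (lt_min hδb hδc), min_le_left _ _,
        (min_le_right _ _).trans (min_le_left _ _), (min_le_right _ _).trans (min_le_right _ _)⟩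
    have hDn : ∀ τ ∈ Icc t₀ (t₀ + T'), ∀ y, -μ ≤ Dn (1 + a) b δ' (f τ y) := fun τ hτ y =>
      HB δ' ⟨hδ', hdb⟩ (f τ y) (hCl τ hτ y)
    obtain ⟨hmi, hmn, hmI⟩ := wg_m HL hf hδ' ht₀ h01 ht1 (by linarith) htT2 hμ hCe hDn (HC δ' ⟨hδ', hdc⟩)
      hNc hN0 hNI
    have hQ : ∀ τ ∈ Ioo (0 : ℝ) T', ∀ x v, 3 * N₁ ≤ g τ x v * (1 + nsq v) ^ p * Real.exp (-Ew τ x v) →
        (∀ u, g τ x u * (1 + nsq u) ^ p * Real.exp (-Ew τ x u) ≤
          g τ x v * (1 + nsq v) ^ p * Real.exp (-Ew τ x v)) →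
        boltzQ (1 + a) b (g τ x) v ≤ g τ x v * (DE τ x v +
          (Ce * ((∫ x, Dn (1 + a) b δ' (f (t₀ + τ) x) ∂(muD d)) + μ) + Nn (t₀ + τ) + μ)) := by
      intro τ hτ y u hhigh htch
      have hτI : τ ∈ Icc (0 : ℝ) T' := ⟨hτ.1.le, hτ.2.le⟩
      have ht' : τ ∈ Ioo 0 (T - t₀) := ⟨hτ.1, hτ.2.trans hT3⟩
      have hg0 : ∀ w, 0 ≤ g τ y w := hgc.nonneg τ ⟨ht'.1.le, ht'.2⟩ y
      obtain ⟨-, hq1⟩ := hcore' (t₀ + τ) (hIoo τ hτI)
      have hBB : ∀ x v, f (t₀ + τ) x v ≤ B₀ := fun x v =>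
        hB₀ (t₀ + τ) ⟨by linarith [hτ.1], by linarith [hτ.2]⟩ x v
      have hq1 := hq1 B₀ hBB
      rw [← hgt] at hq1
      have hHi : N₁ ≤ g τ y u * (1 + nsq u) ^ p := high_E hN₁ (hEb τ hτI y u) hhigh
      have hex : ∀ w, Real.exp (-EG P r e (g τ) y w) = Real.exp (-Ew τ y w) * Real.exp (-(c * τ)) := by
        intro w
        rw [← Real.exp_add]
        simp only [hEd]
        congr 1
        ring
      have htch' : ∀ w, g τ y w * (1 + nsq w) ^ p * Real.exp (-EG P r e (g τ) y w) ≤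
          g τ y u * (1 + nsq u) ^ p * Real.exp (-EG P r e (g τ) y u) := by
        intro w
        rw [hex, hex, ← mul_assoc, ← mul_assoc]
        exact mul_le_mul_of_nonneg_right (htch w) (Real.exp_pos _).le
      have hQ1 := hq1 y u (hgc.nice ht' y) hHi htch'
      have hA := HA δ' ⟨hδ', hda⟩ (t₀ + τ) ⟨by linarith [hτ.1], by linarith [hτ.2]⟩ y u
      rw [← hgt] at hA
      refine hQ1.trans (mul_le_mul_of_nonneg_left ?_ (hg0 u))
      have hCμ : 0 ≤ Ce * μ := mul_nonneg hCe hμ.le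
      rw [← hgt]
      simp only [hDEd, hNd]
      linarith
    have hA₀ : ∀ x v, g 0 x v * (1 + nsq v) ^ p * Real.exp (-Ew 0 x v) ≤ B := by
      intro y u
      have e1 := hB0 y u
      have e2 : Ew 0 y u = EG P r e (f t₀) y u := by
        simp only [hEd]
        rw [hgt, add_zero, mul_zero, sub_zero]
      rw [e2, hgt, add_zero]
      exact e1
    have key := max_high hg1 p hEc hEp (fun T₁ hT₁ => ⟨1 / 2, fun τ hτ y u =>
      hEb τ ⟨hτ.1, hτ.2.trans hT₁.le⟩ y u⟩) hED hmi hmn hQ hB hA₀ (t - t₀) ⟨by linarith, hT1⟩ x v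
    refine key.trans (mul_le_mul_of_nonneg_left (Real.exp_le_exp.2 hmI) ?_)
    linarith
  have hB' : 0 ≤ B := by linarith
  have hlim : g (t - t₀) x v * (1 + nsq v) ^ p * Real.exp (-Ew (t - t₀) x v) ≤
      (B * Real.exp (c / 2 * (1 + (t - t₀)) + C' * (Hs (f t₀) - Hs (f t)))) *
        Real.exp (Ce * (Hs (f t₀) - Hs (f t))) := by
    refine wg_lim fun μ hμ => (hmain μ hμ).trans (le_of_eq ?_)
    rw [mul_assoc, ← Real.exp_add]
    congr 2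
    ring
  have e0 : t₀ + (t - t₀) = t := by ring
  rw [hgt, e0] at hlim
  have e1 : Ew (t - t₀) x v = EG P r e (f t) x v - c * (t - t₀) := by
    simp only [hEd]
    rw [hgt, e0]
  have e2 : Real.exp (-EG P r e (f t) x v) =
      Real.exp (-Ew (t - t₀) x v) * Real.exp (-(c * (t - t₀))) := by
    rw [← Real.exp_add, e1]
    congr 1
    ring
  rw [e2, ← mul_assoc]
  refine (mul_le_mul_of_nonneg_right hlim (Real.exp_pos _).le).trans ?_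
  rw [mul_assoc, mul_assoc, ← Real.exp_add, ← Real.exp_add]
  refine mul_le_mul_of_nonneg_left (Real.exp_le_exp.2 ?_) hB'
  have h3 : c * (t - t₀) = c / 2 * (t - t₀) + c / 2 * (t - t₀) := by ring
  have h4 : c / 2 * (1 - (t - t₀)) ≤ 1 * (1 - (t - t₀)) :=
    mul_le_mul_of_nonneg_right (by linarith) (by linarith)
  nlinarith [h3, h4]

end Pool.Agent.H48.PG
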